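import Pool.Agent.KS6_69.GT.Classes

set_option autoImplicit false

namespace Pool.Agent.KS6_69.GT



/-
TARGETS: the classes, pure arithmetic from the lemmas above. With n = q + r, N = (q-2)(n-2):
Ft q n = (q n)/2 if N ≡ 0, (q n - 3)/2 + 1 if N ≡ 3, (q n - 4)/2 + 1 if N ≡ 2, (q n - 5)/2 + 1 if N ≡ 1 (mod 4); the last hypotheses are
Ft (q+m-1) n in each case. (Write q = 4 a + c, r = 4 b + d, expand; products a*b etc. can be generalised, then omega.)
-/
/-- the number of faces, doubled -/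
theorem k3_Ft (p n j : ℕ) (hp : 2 ≤ p) (hn : 2 ≤ n) (hj : (p - 2) * (n - 2) % 4 = j) :
    (j = 0 → 2 * Ft p n = p * n) ∧ (j ≠ 0 → 2 * Ft p n = p * n - 4 + j) ∧ 4 ≤ p * n := by
  obtain ⟨a, rfl⟩ := Nat.exists_eq_add_of_le hp
  obtain ⟨b, rfl⟩ := Nat.exists_eq_add_of_le hn
  have e1 : (2 + a) * (2 + b) = a * b + 2 * a + 2 * b + 4 := by ring
  unfold Ft gen
  have e2 : 2 + a - 2 = a := by omega
  have e3 : 2 + b - 2 = b := by omega
  rw [e2, e3] at hj ⊢
  rw [e1]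
  generalize a * b = c at hj ⊢
  refine ⟨?_, ?_, ?_⟩
  · intro h
    omega
  · intro h
    omega
  · omega

theorem k3_mod (x y a b : ℕ) (hx : x % 4 = a) (hy : y % 4 = b) : x * y % 4 = a * b % 4 := by
  rw [Nat.mul_mod, hx, hy]

theorem class_t (q r : ℕ) (hq7 : 7 ≤ q) (ht : (q - 2) * (q + r - 2) % 4 = 0)
    (h : EmbQ q q r ((q * (q + r) - 0) / 2 + (if (0 : ℕ) = 0 then 0 else 1))) :
    Want q r := by
  have f0 := (k3_Ft q (q + r) 0 (by omega) (by omega) ht).1 rfl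
  have e0 : (q * (q + r) - 0) / 2 + (if (0 : ℕ) = 0 then 0 else 1) = Ft q (q + r) := by
    rw [if_pos rfl]
    generalize q * (q + r) = M at f0 ⊢
    omega
  rw [e0] at h
  exact want_tight q r (by omega) ht h

theorem class_a (q r : ℕ) (hq7 : 7 ≤ q) (hq : q % 2 = 1) (hn : (q + r) % 4 = 0)
    (h : EmbQ q q r ((q * (q + r) - 4) / 2 + (if (4 : ℕ) = 0 then 0 else 1)))
    (h2 : Emb (q + 2 - 1) q r ((q * (q + r) - 4) / 2 + (if (4 : ℕ) = 0 then 0 else 1) + ((2 + 1) * (q + r) + 2) / 2 - (q + r))) :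
    Want q r := by
  have hq4 : q % 4 = 1 ∨ q % 4 = 3 := by omega
  have hn2 : (q + r - 2) % 4 = 2 := by omega
  have t0 : (q - 2) * (q + r - 2) % 4 = 2 := by
    rcases hq4 with h' | h'
    · exact k3_mod _ _ 3 2 (by omega) hn2
    · exact k3_mod _ _ 1 2 (by omega) hn2
  have t1 : (q - 1) * (q + r - 2) % 4 = 0 := by
    rcases hq4 with h' | h'
    · exact k3_mod _ _ 0 2 (by omega) hn2
    · exact k3_mod _ _ 2 2 (by omega) hn2
  have f0 := (k3_Ft q (q + r) 2 (by omega) (by omega) t0).2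
  have f1 := (k3_Ft (q + 1) (q + r) 0 (by omega) (by omega) t1).1 rfl
  have f0' := f0.1 (by norm_num)
  have f0'' := f0.2
  have m1 : (q + 1) * (q + r) = q * (q + r) + (q + r) := by ring
  rw [m1] at f1
  rw [if_neg (by norm_num)] at h h2
  have e0 : (q * (q + r) - 4) / 2 + 1 = Ft q (q + r) := by
    generalize q * (q + r) = M at f0' f0'' ⊢
    omega
  have e1 : (q * (q + r) - 4) / 2 + 1 + ((2 + 1) * (q + r) + 2) / 2 - (q + r) = Ft (q + 1) (q + r) := by
    generalize q * (q + r) = M at f0' f0'' f1 ⊢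
    omega
  have eq1 : q + 2 - 1 = q + 1 := by omega
  rw [e0] at h
  rw [e1, eq1] at h2
  exact want_one q r (by omega) t1 h h2

theorem class_b (q r : ℕ) (hq7 : 7 ≤ q) (hq : q % 4 = 1) (hr : r % 4 = 2)
    (h : EmbQ q q r ((q * (q + r) - 3) / 2 + (if (3 : ℕ) = 0 then 0 else 1)))
    (h2 : Emb (q + 2 - 1) q r ((q * (q + r) - 3) / 2 + (if (3 : ℕ) = 0 then 0 else 1) + ((2 + 1) * (q + r) + 1) / 2 - (q + r))) :
    Want q r := by
  have t0 : (q - 2) * (q + r - 2) % 4 = 3 := k3_mod _ _ 3 1 (by omega) (by omega)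
  have t1 : (q - 1) * (q + r - 2) % 4 = 0 := k3_mod _ _ 0 1 (by omega) (by omega)
  have f0 := (k3_Ft q (q + r) 3 (by omega) (by omega) t0).2
  have f1 := (k3_Ft (q + 1) (q + r) 0 (by omega) (by omega) t1).1 rfl
  have f0' := f0.1 (by norm_num)
  have f0'' := f0.2
  have m1 : (q + 1) * (q + r) = q * (q + r) + (q + r) := by ring
  rw [m1] at f1
  rw [if_neg (by norm_num)] at h h2
  have e0 : (q * (q + r) - 3) / 2 + 1 = Ft q (q + r) := by
    generalize q * (q + r) = M at f0' f0'' ⊢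
    omega
  have e1 : (q * (q + r) - 3) / 2 + 1 + ((2 + 1) * (q + r) + 1) / 2 - (q + r) = Ft (q + 1) (q + r) := by
    generalize q * (q + r) = M at f0' f0'' f1 ⊢
    omega
  have eq1 : q + 2 - 1 = q + 1 := by omega
  rw [e0] at h
  rw [e1, eq1] at h2
  exact want_one q r (by omega) t1 h h2

theorem class_c (q r : ℕ) (hq7 : 7 ≤ q) (hq : q % 4 = 1) (hr : r % 4 = 0)
    (h : EmbQ q q r ((q * (q + r) - 5) / 2 + (if (5 : ℕ) = 0 then 0 else 1)))
    (h2 : Emb (q + 2 - 1) q r ((q * (q + r) - 5) / 2 + (if (5 : ℕ) = 0 then 0 else 1) + ((2 + 1) * (q + r) + 3) / 2 - (q + r))) :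
    Want q r := by
  have t0 : (q - 2) * (q + r - 2) % 4 = 1 := k3_mod _ _ 3 3 (by omega) (by omega)
  have t1 : (q - 1) * (q + r - 2) % 4 = 0 := k3_mod _ _ 0 3 (by omega) (by omega)
  have hM : 49 ≤ q * (q + r) := by
    calc 49 = 7 * 7 := by norm_num
      _ ≤ q * (q + r) := Nat.mul_le_mul hq7 (by omega)
  have f0 := (k3_Ft q (q + r) 1 (by omega) (by omega) t0).2
  have f1 := (k3_Ft (q + 1) (q + r) 0 (by omega) (by omega) t1).1 rfl
  have f0' := f0.1 (by norm_num)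
  have m1 : (q + 1) * (q + r) = q * (q + r) + (q + r) := by ring
  rw [m1] at f1
  rw [if_neg (by norm_num)] at h h2
  have e0 : (q * (q + r) - 5) / 2 + 1 = Ft q (q + r) := by
    generalize q * (q + r) = M at f0' hM ⊢
    omega
  have e1 : (q * (q + r) - 5) / 2 + 1 + ((2 + 1) * (q + r) + 3) / 2 - (q + r) = Ft (q + 1) (q + r) := by
    generalize q * (q + r) = M at f0' hM f1 ⊢
    omega
  have eq1 : q + 2 - 1 = q + 1 := by omega
  rw [e0] at h
  rw [e1, eq1] at h2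
  exact want_one q r (by omega) t1 h h2

theorem class_d (q r : ℕ) (hq7 : 7 ≤ q) (hq : q % 4 = 0) (hr : r % 4 = 3)
    (h : EmbQ q q r ((q * (q + r) - 4) / 2 + (if (4 : ℕ) = 0 then 0 else 1)))
    (h2 : Emb (q + 2 - 1) q r ((q * (q + r) - 4) / 2 + (if (4 : ℕ) = 0 then 0 else 1) + ((2 + 1) * (q + r) + 1) / 2 - (q + r)))
    (h3 : Emb (q + 3 - 1) q r ((q * (q + r) - 4) / 2 + (if (4 : ℕ) = 0 then 0 else 1) + ((3 + 1) * (q + r) + 2) / 2 - (q + r))) :
    Want q r := by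
  have t0 : (q - 2) * (q + r - 2) % 4 = 2 := k3_mod _ _ 2 1 (by omega) (by omega)
  have t1 : (q + 1 - 2) * (q + r - 2) % 4 = 3 := k3_mod _ _ 3 1 (by omega) (by omega)
  have t2 : (q + 2 - 2) * (q + r - 2) % 4 = 0 := k3_mod _ _ 0 1 (by omega) (by omega)
  have hM : 49 ≤ q * (q + r) := by
    calc 49 = 7 * 7 := by norm_num
      _ ≤ q * (q + r) := Nat.mul_le_mul hq7 (by omega)
  have f0 := (k3_Ft q (q + r) 2 (by omega) (by omega) t0).2.1 (by norm_num)
  have f1 := (k3_Ft (q + 1) (q + r) 3 (by omega) (by omega) t1).2.1 (by norm_num)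
  have f2 := (k3_Ft (q + 2) (q + r) 0 (by omega) (by omega) t2).1 rfl
  have m1 : (q + 1) * (q + r) = q * (q + r) + (q + r) := by ring
  have m2 : (q + 2) * (q + r) = q * (q + r) + 2 * (q + r) := by ring
  rw [m1] at f1
  rw [m2] at f2
  rw [if_neg (by norm_num)] at h h2 h3
  have e0 : (q * (q + r) - 4) / 2 + 1 = Ft q (q + r) := by
    generalize q * (q + r) = M at f0 hM ⊢
    omega
  have e1 : (q * (q + r) - 4) / 2 + 1 + ((2 + 1) * (q + r) + 1) / 2 - (q + r) = Ft (q + 1) (q + r) := by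
    generalize q * (q + r) = M at f0 hM f1 ⊢
    omega
  have e2 : (q * (q + r) - 4) / 2 + 1 + ((3 + 1) * (q + r) + 2) / 2 - (q + r) = Ft (q + 2) (q + r) := by
    generalize q * (q + r) = M at f0 hM f2 ⊢
    omega
  have eq1 : q + 2 - 1 = q + 1 := by omega
  have eq2 : q + 3 - 1 = q + 2 := by omega
  rw [e0] at h
  rw [e1, eq1] at h2
  rw [e2, eq2] at h3
  exact want_d q r (by omega) hq h h2 h3

theorem class_e (q r : ℕ) (hq7 : 7 ≤ q) (hq : q % 4 = 0) (hr : r % 4 = 1)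
    (h : EmbQ q q r ((q * (q + r) - 4) / 2 + (if (4 : ℕ) = 0 then 0 else 1)))
    (h3 : Emb (q + 3 - 1) q r ((q * (q + r) - 4) / 2 + (if (4 : ℕ) = 0 then 0 else 1) + ((3 + 1) * (q + r) + 2) / 2 - (q + r))) :
    Want q r := by
  have t0 : (q - 2) * (q + r - 2) % 4 = 2 := k3_mod _ _ 2 3 (by omega) (by omega)
  have t2 : (q + 2 - 2) * (q + r - 2) % 4 = 0 := k3_mod _ _ 0 3 (by omega) (by omega)
  have hM : 49 ≤ q * (q + r) := by
    calc 49 = 7 * 7 := by norm_num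
      _ ≤ q * (q + r) := Nat.mul_le_mul hq7 (by omega)
  have f0 := (k3_Ft q (q + r) 2 (by omega) (by omega) t0).2.1 (by norm_num)
  have f2 := (k3_Ft (q + 2) (q + r) 0 (by omega) (by omega) t2).1 rfl
  have m2 : (q + 2) * (q + r) = q * (q + r) + 2 * (q + r) := by ring
  rw [m2] at f2
  rw [if_neg (by norm_num)] at h h3
  have e0 : (q * (q + r) - 4) / 2 + 1 = Ft q (q + r) := by
    generalize q * (q + r) = M at f0 hM ⊢
    omega
  have e2 : (q * (q + r) - 4) / 2 + 1 + ((3 + 1) * (q + r) + 2) / 2 - (q + r) = Ft (q + 2) (q + r) := by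
    generalize q * (q + r) = M at f0 hM f2 ⊢
    omega
  have eq2 : q + 3 - 1 = q + 2 := by omega
  rw [e0] at h
  rw [e2, eq2] at h3
  exact want_e q r (by omega) hq hr h h3

theorem class_f (q r : ℕ) (hq7 : 7 ≤ q) (hq : q % 4 = 3) (hr : r % 4 = 0)
    (h : EmbQ q q r ((q * (q + r) - 5) / 2 + (if (5 : ℕ) = 0 then 0 else 1)))
    (h2 : Emb (q + 2 - 1) q r ((q * (q + r) - 5) / 2 + (if (5 : ℕ) = 0 then 0 else 1) + ((2 + 1) * (q + r) + 1) / 2 - (q + r)))
    (h3 : Emb (q + 3 - 1) q r ((q * (q + r) - 5) / 2 + (if (5 : ℕ) = 0 then 0 else 1) + ((3 + 1) * (q + r) + 2) / 2 - (q + r)))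
    (h4 : Emb (q + 4 - 1) q r ((q * (q + r) - 5) / 2 + (if (5 : ℕ) = 0 then 0 else 1) + ((4 + 1) * (q + r) + 3) / 2 - (q + r))) :
    Want q r := by
  have t0 : (q - 2) * (q + r - 2) % 4 = 1 := k3_mod _ _ 1 1 (by omega) (by omega)
  have t1 : (q + 1 - 2) * (q + r - 2) % 4 = 2 := k3_mod _ _ 2 1 (by omega) (by omega)
  have t2 : (q + 2 - 2) * (q + r - 2) % 4 = 3 := k3_mod _ _ 3 1 (by omega) (by omega)
  have t3 : (q + 3 - 2) * (q + r - 2) % 4 = 0 := k3_mod _ _ 0 1 (by omega) (by omega)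
  have hM : 49 ≤ q * (q + r) := by
    calc 49 = 7 * 7 := by norm_num
      _ ≤ q * (q + r) := Nat.mul_le_mul hq7 (by omega)
  have f0 := (k3_Ft q (q + r) 1 (by omega) (by omega) t0).2.1 (by norm_num)
  have f1 := (k3_Ft (q + 1) (q + r) 2 (by omega) (by omega) t1).2.1 (by norm_num)
  have f2 := (k3_Ft (q + 2) (q + r) 3 (by omega) (by omega) t2).2.1 (by norm_num)
  have f3 := (k3_Ft (q + 3) (q + r) 0 (by omega) (by omega) t3).1 rfl
  have m1 : (q + 1) * (q + r) = q * (q + r) + (q + r) := by ring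
  have m2 : (q + 2) * (q + r) = q * (q + r) + 2 * (q + r) := by ring
  have m3 : (q + 3) * (q + r) = q * (q + r) + 3 * (q + r) := by ring
  rw [m1] at f1
  rw [m2] at f2
  rw [m3] at f3
  rw [if_neg (by norm_num)] at h h2 h3 h4
  have e0 : (q * (q + r) - 5) / 2 + 1 = Ft q (q + r) := by
    generalize q * (q + r) = M at f0 hM ⊢
    omega
  have e1 : (q * (q + r) - 5) / 2 + 1 + ((2 + 1) * (q + r) + 1) / 2 - (q + r) = Ft (q + 1) (q + r) := by
    generalize q * (q + r) = M at f0 hM f1 ⊢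
    omega
  have e2 : (q * (q + r) - 5) / 2 + 1 + ((3 + 1) * (q + r) + 2) / 2 - (q + r) = Ft (q + 2) (q + r) := by
    generalize q * (q + r) = M at f0 hM f2 ⊢
    omega
  have e3 : (q * (q + r) - 5) / 2 + 1 + ((4 + 1) * (q + r) + 3) / 2 - (q + r) = Ft (q + 3) (q + r) := by
    generalize q * (q + r) = M at f0 hM f3 ⊢
    omega
  have eq1 : q + 2 - 1 = q + 1 := by omega
  have eq2 : q + 3 - 1 = q + 2 := by omega
  have eq3 : q + 4 - 1 = q + 3 := by omega
  rw [e0] at h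
  rw [e1, eq1] at h2
  rw [e2, eq2] at h3
  rw [e3, eq3] at h4
  intro s hs
  interval_cases s
  · exact h.emb
  · exact h2
  · exact h3
  · exact h4

theorem class_g (q r : ℕ) (hq7 : 7 ≤ q) (hq : q % 4 = 3) (hr : r % 4 = 2)
    (h : EmbQ q q r ((q * (q + r) - 3) / 2 + (if (3 : ℕ) = 0 then 0 else 1)))
    (h4 : Emb (q + 4 - 1) q r ((q * (q + r) - 3) / 2 + (if (3 : ℕ) = 0 then 0 else 1) + ((4 + 1) * (q + r) + 1) / 2 - (q + r))) :
    Want q r := by
  have t0 : (q - 2) * (q + r - 2) % 4 = 3 := k3_mod _ _ 1 3 (by omega) (by omega)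
  have t3 : (q + 3 - 2) * (q + r - 2) % 4 = 0 := k3_mod _ _ 0 3 (by omega) (by omega)
  have hM : 49 ≤ q * (q + r) := by
    calc 49 = 7 * 7 := by norm_num
      _ ≤ q * (q + r) := Nat.mul_le_mul hq7 (by omega)
  have f0 := (k3_Ft q (q + r) 3 (by omega) (by omega) t0).2.1 (by norm_num)
  have f3 := (k3_Ft (q + 3) (q + r) 0 (by omega) (by omega) t3).1 rfl
  have m3 : (q + 3) * (q + r) = q * (q + r) + 3 * (q + r) := by ring
  rw [m3] at f3
  rw [if_neg (by norm_num)] at h h4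
  have e0 : (q * (q + r) - 3) / 2 + 1 = Ft q (q + r) := by
    generalize q * (q + r) = M at f0 hM ⊢
    omega
  have e3 : (q * (q + r) - 3) / 2 + 1 + ((4 + 1) * (q + r) + 1) / 2 - (q + r) = Ft (q + 3) (q + r) := by
    generalize q * (q + r) = M at f0 hM f3 ⊢
    omega
  have eq3 : q + 4 - 1 = q + 3 := by omega
  rw [e0] at h
  rw [e3, eq3] at h4
  exact want_g q r (by omega) hq hr h h4

end Pool.Agent.KS6_69.GT
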