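import Mathlib

set_option autoImplicit false

/-!
Rotation systems of complete bipartite graphs `K_{A,N}`, and embeddings of complete tripartite graphs
obtained from them by adding corner-cutting chords.
-/

namespace Pool.Agent.KS6_69.GT

/-- The number of cycles (fixed points included) of a permutation. -/
noncomputable def ncyc {D : Type*} (f : Equiv.Perm D) : ℕ :=
  Nat.card (Quotient (Equiv.Perm.SameCycle.setoid f))

/-- A rotation system of the complete bipartite graph with parts `A` and `N`: at `a : A` the neighbours
`x : N` are permuted by `ρ a`, at `x : N` the neighbours `a : A` are permuted by `τ x`. -/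
structure BRot (A N : Type) where
  ρ : A → Equiv.Perm N
  τ : N → Equiv.Perm A

/-- Every rotation is a single cycle. -/
def BRot.Trans {A N : Type} (R : BRot A N) : Prop :=
  (∀ a x y, (R.ρ a).SameCycle x y) ∧ (∀ x a b, (R.τ x).SameCycle a b)

/-- The version for a bipartite graph `E` with parts `A`, `N`: rotations are single cycles on the
neighbours and fix the non-neighbours. -/
def BRot.PTrans {A N : Type} (R : BRot A N) (E : A → N → Prop) : Prop :=
  (∀ a x, ¬ E a x → R.ρ a x = x ∧ R.τ x a = a) ∧
  (∀ a x y, E a x → E a y → (R.ρ a).SameCycle x y) ∧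
  (∀ x a b, E a x → E b x → (R.τ x).SameCycle a b)

/-- Two steps of the face permutation, on the darts `a → x`:
`(a → x) ↦ (x → τ x a) ↦ (τ x a → ρ (τ x a) x)`. A face of length `2k` is a cycle of length `k`.
(Non-edges of a partial rotation system are fixed points.) -/
def BRot.face {A N : Type} (R : BRot A N) : Equiv.Perm (A × N) where
  toFun p := (R.τ p.2 p.1, R.ρ (R.τ p.2 p.1) p.2)
  invFun p := ((R.τ ((R.ρ p.1).symm p.2)).symm p.1, (R.ρ p.1).symm p.2)
  left_inv p := by simp
  right_inv p := by simp

/-- Exchange of the two parts. -/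
def BRot.flip {A N : Type} (R : BRot A N) : BRot N A where
  ρ := R.τ
  τ := R.ρ

/-- There is an embedding of `K_{p,q+r}` with at least `F` faces, in which every vertex `b` of the part
of size `q` and every vertex `c` of the part of size `r` are consecutive around some vertex `a` of the
part of size `p`. -/
def Emb (p q r F : ℕ) : Prop :=
  ∃ R : BRot (Fin p) (Fin q ⊕ Fin r), R.Trans ∧
    (∀ (b : Fin q) (c : Fin r), ∃ a, R.ρ a (Sum.inl b) = Sum.inr c ∨ R.ρ a (Sum.inr c) = Sum.inl b) ∧
    F ≤ ncyc R.face

/-- The genus in the formula, `⌈(p-2)(n-2)/4⌉` with `n = q + r`, for `p, n ≥ 2`. -/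
def gen (p n : ℕ) : ℕ := ((p - 2) * (n - 2) + 3) / 4

/-- Number of faces of a minimum genus embedding of `K_{p,n}`. -/
def Ft (p n : ℕ) : ℕ := p * n + 2 - p - n - 2 * gen p n

end Pool.Agent.KS6_69.GT
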