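import Pool.Agent.KS6_69.GT.Core

set_option autoImplicit false

namespace Pool.Agent.KS6_69.GT



/-! ### auxiliary lemmas -/

theorem two_orbit {V : Type} (f : Equiv.Perm V) {d : V} (h : f (f d) = d) (i : ℤ) :
    (f ^ i) d = d ∨ (f ^ i) d = f d := by
  have h2 : (f ^ (2 : ℤ)) d = d := by
    rw [show (2 : ℤ) = 1 + 1 by norm_num, zpow_add, zpow_one, Equiv.Perm.mul_apply, h]
  have h3 : ∀ m : ℤ, (f ^ (2 * m)) d = d := by
    intro m
    rw [zpow_mul]
    exact Equiv.Perm.zpow_apply_eq_self_of_apply_eq_self h2 m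
  rcases Int.even_or_odd' i with ⟨m, rfl | rfl⟩
  · exact Or.inl (h3 m)
  · right
    rw [add_comm, zpow_add, zpow_one, Equiv.Perm.mul_apply, h3]

theorem sameCycle_congr {V V' : Type} (e : V ≃ V') (f : Equiv.Perm V) (x y : V) :
    (e.permCongr f).SameCycle (e x) (e y) ↔ f.SameCycle x y := by
  unfold Equiv.Perm.SameCycle
  refine exists_congr fun i => ?_
  have h : (e.permCongr f) ^ i = e.permCongr (f ^ i) := (map_zpow e.permCongrHom f i).symm
  rw [h, Equiv.permCongr_apply, Equiv.symm_apply_apply, e.apply_eq_iff_eq]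

theorem ncyc_congr {V V' : Type} (e : V ≃ V') (f : Equiv.Perm V) :
    ncyc (e.permCongr f) = ncyc f := by
  unfold ncyc
  exact (Nat.card_congr (Quotient.congr e fun x y => (sameCycle_congr e f x y).symm)).symm

theorem ncyc_ge {V : Type} [Nonempty V] [Fintype V] [DecidableEq V] (f : Equiv.Perm V) (S : Finset V) (k : ℕ) (hS : S.card ≤ k)
    (hk : k ≠ 1) (h : ∀ d, d ∉ S → f (f d) = d) (hne : ∀ d, f d ≠ d) :
    (Fintype.card V - k) / 2 + (if k = 0 then 0 else 1) ≤ ncyc f := by
  classical
  let Q := Quotient (Equiv.Perm.SameCycle.setoid f)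
  have hnc : ncyc f = Fintype.card Q := by
    unfold ncyc
    rw [Nat.card_eq_fintype_card]
  rw [hnc]
  set U : Finset V := Finset.univ.filter fun d => f (f d) = d with hU
  set g : V → Q := fun d => Quotient.mk (Equiv.Perm.SameCycle.setoid f) d with hg
  have hrel : ∀ x y, g x = g y ↔ f.SameCycle x y := fun x y => Quotient.eq
  have h1 : U.card ≤ 2 * (U.image g).card := by
    refine Finset.card_le_mul_card_image _ _ fun b hb => ?_
    obtain ⟨d, hd, rfl⟩ := Finset.mem_image.1 hb
    have hd2 : f (f d) = d := (Finset.mem_filter.1 hd).2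
    have hsub : (U.filter fun x => g x = g d) ⊆ {d, f d} := by
      intro x hx
      obtain ⟨i, hi⟩ := ((hrel x d).1 (Finset.mem_filter.1 hx).2).symm
      rw [Finset.mem_insert, Finset.mem_singleton]
      rcases two_orbit f hd2 i with h' | h'
      · left; rw [← hi, h']
      · right; rw [← hi, h']
    exact (Finset.card_le_card hsub).trans (Finset.card_le_two)
  have h2 : (U.image g).card ≤ Fintype.card Q := Finset.card_le_univ _
  have hUc : Fintype.card V ≤ U.card + k := by
    have h3 : Uᶜ ⊆ S := by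
      intro x hx
      by_contra hc
      rw [Finset.mem_compl] at hx
      exact hx (Finset.mem_filter.2 ⟨Finset.mem_univ _, h x hc⟩)
    have h4 := Finset.card_le_card h3
    have h5 := Finset.card_add_card_compl U
    omega
  by_cases hall : U = Finset.univ
  · have hcard : U.card = Fintype.card V := by rw [hall, Finset.card_univ]
    have hV : 2 ≤ Fintype.card V := by
      obtain ⟨d⟩ := ‹Nonempty V›
      have : ({f d, d} : Finset V).card = 2 := Finset.card_pair (hne d)
      rw [← this]
      exact Finset.card_le_univ _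
    split_ifs with h0 <;> omega
  · obtain ⟨t, ht⟩ : ∃ t, t ∉ U := by
      by_contra hc
      push Not at hc
      exact hall (Finset.eq_univ_of_forall hc)
    have ht2 : f (f t) ≠ t := fun h' => ht (Finset.mem_filter.2 ⟨Finset.mem_univ _, h'⟩)
    have hnot : g t ∉ U.image g := by
      intro hc
      obtain ⟨d, hd, he⟩ := Finset.mem_image.1 hc
      have hd2 : f (f d) = d := (Finset.mem_filter.1 hd).2
      obtain ⟨i, hi⟩ := (hrel d t).1 he
      rcases two_orbit f hd2 i with h' | h'
      · rw [h'] at hi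
        exact ht2 (hi ▸ hd2)
      · rw [h'] at hi
        apply ht2
        rw [← hi, hd2]
    have h6 : (U.image g).card < Fintype.card Q := by
      rw [← Finset.card_univ]
      exact Finset.card_lt_card ((Finset.ssubset_univ_iff).2 fun hc => hnot (hc ▸ Finset.mem_univ _))
    split_ifs with h0
    · subst h0
      have : S = ∅ := Finset.card_eq_zero.1 (Nat.le_zero.1 hS)
      exact absurd (h t (by rw [this]; simp)) ht2
    · omega

theorem Emb_of_types {A B C : Type} [Fintype A] [Fintype B] [Fintype C] (R : BRot A (B ⊕ C)) (hR : R.Trans)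
    (hch : ∀ b c, ∃ a, R.ρ a (Sum.inl b) = Sum.inr c ∨ R.ρ a (Sum.inr c) = Sum.inl b) (F : ℕ) (hF : F ≤ ncyc R.face) :
    Emb (Fintype.card A) (Fintype.card B) (Fintype.card C) F := by
  classical
  let α : A ≃ Fin (Fintype.card A) := Fintype.equivFin A
  let β : B ≃ Fin (Fintype.card B) := Fintype.equivFin B
  let γ : C ≃ Fin (Fintype.card C) := Fintype.equivFin C
  let ν : B ⊕ C ≃ Fin (Fintype.card B) ⊕ Fin (Fintype.card C) := Equiv.sumCongr β γ
  let R' : BRot (Fin (Fintype.card A)) (Fin (Fintype.card B) ⊕ Fin (Fintype.card C)) :=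
    { ρ := fun a => ν.permCongr (R.ρ (α.symm a))
      τ := fun x => α.permCongr (R.τ (ν.symm x)) }
  refine ⟨R', ⟨?_, ?_⟩, ?_, ?_⟩
  · intro a x y
    have h1 := (sameCycle_congr ν (R.ρ (α.symm a)) (ν.symm x) (ν.symm y)).2 (hR.1 _ _ _)
    rwa [ν.apply_symm_apply, ν.apply_symm_apply] at h1
  · intro x a b
    have h1 := (sameCycle_congr α (R.τ (ν.symm x)) (α.symm a) (α.symm b)).2 (hR.2 _ _ _)
    rwa [α.apply_symm_apply, α.apply_symm_apply] at h1
  · intro b c
    obtain ⟨a, ha⟩ := hch (β.symm b) (γ.symm c)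
    refine ⟨α a, ?_⟩
    have e1 : R'.ρ (α a) (Sum.inl b) = ν (R.ρ a (Sum.inl (β.symm b))) := by
      show ν.permCongr (R.ρ (α.symm (α a))) (Sum.inl b) = _
      rw [α.symm_apply_apply, Equiv.permCongr_apply]
      rfl
    have e2 : R'.ρ (α a) (Sum.inr c) = ν (R.ρ a (Sum.inr (γ.symm c))) := by
      show ν.permCongr (R.ρ (α.symm (α a))) (Sum.inr c) = _
      rw [α.symm_apply_apply, Equiv.permCongr_apply]
      rfl
    rcases ha with h | h
    · left
      rw [e1, h]
      show Sum.inr (γ (γ.symm c)) = _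
      rw [γ.apply_symm_apply]
    · right
      rw [e2, h]
      show Sum.inl (β (β.symm b)) = _
      rw [β.apply_symm_apply]
  · have e : R'.face = (α.prodCongr ν).permCongr R.face := by
      apply Equiv.ext
      rintro ⟨a, x⟩
      rw [Equiv.permCongr_apply]
      show (α.permCongr (R.τ (ν.symm x)) a, ν.permCongr (R.ρ (α.symm (α.permCongr (R.τ (ν.symm x)) a))) x) = _
      rw [Equiv.permCongr_apply, Equiv.permCongr_apply, α.symm_apply_apply]
      rfl
    rw [e, ncyc_congr]
    exact hF


end Pool.Agent.KS6_69.GT
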