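import Pool.Agent.KS6_69.GT.Pattern

set_option autoImplicit false

namespace Pool.Agent.KS6_69.GT



private theorem k3_beq {nc : ℕ} (a b : ℤ ⊕ Fin nc) : (a == b) = true ↔ a = b := by
  cases a <;> cases b <;> simp [BEq.beq, Sum.instBEq.beq]

private theorem k3_lawful {nc : ℕ} : LawfulBEq (ℤ ⊕ Fin nc) where
  eq_of_beq := fun h => (k3_beq _ _).1 h
  rfl := (k3_beq _ _).2 rfl

attribute [local instance] k3_lawful

private theorem k3_val {q : ℕ} [NeZero q] (i : ZMod q) (e : ℤ) :
    (((i.val : ℤ) + e) % (q : ℤ)).toNat = (i + (e : ZMod q)).val := by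
  have h := ZMod.val_intCast (n := q) ((i.val : ℤ) + e)
  have h2 : ((((i.val : ℤ) + e : ℤ)) : ZMod q) = i + (e : ZMod q) := by
    push_cast
    rw [ZMod.natCast_zmod_val]
  rw [h2] at h
  rw [← h, Int.toNat_natCast]

private def k3D {nc : ℕ} (p : Pat nc) (R q : ℕ) (i : ZMod q) : ℤ → PD nc :=
  fun e => if -(R : ℤ) ≤ e ∧ e ≤ (R : ℤ) then p.acc q i.val e else PD.nil nc

private theorem k3D_in {nc : ℕ} (p : Pat nc) (R q : ℕ) [NeZero q] (i : ZMod q) (e : ℤ)
    (he : -(R : ℤ) ≤ e ∧ e ≤ (R : ℤ)) : k3D p R q i e = p.nth (i + (e : ZMod q)).val := by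
  unfold k3D Pat.acc
  rw [if_pos he, k3_val]

private theorem k3D_out {nc : ℕ} (p : Pat nc) (R q : ℕ) (i : ZMod q) (e : ℤ)
    (he : ¬ (-(R : ℤ) ≤ e ∧ e ≤ (R : ℤ))) : k3D p R q i e = PD.nil nc := by
  unfold k3D
  rw [if_neg he]

private theorem k3D_zero {nc : ℕ} (p : Pat nc) (R q : ℕ) [NeZero q] (i : ZMod q) :
    k3D p R q i 0 = p.nth i.val := by
  rw [k3D_in p R q i 0 (by omega)]
  simp

private theorem k3_pa {nc : ℕ} (p : Pat nc) (R q : ℕ) [NeZero q] (i : ZMod q) (e : ℤ)
    {x : (ℤ ⊕ Fin nc) × (ℤ ⊕ Fin nc)} (hx : x ∈ (k3D p R q i e).d.pa) :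
    (-(R : ℤ) ≤ e ∧ e ≤ (R : ℤ)) ∧ x ∈ (p.nth (i + (e : ZMod q)).val).d.pa := by
  by_cases he : -(R : ℤ) ≤ e ∧ e ≤ (R : ℤ)
  · rw [k3D_in p R q i e he] at hx
    exact ⟨he, hx⟩
  · rw [k3D_out p R q i e he] at hx
    simp [PD.nil, Dat.pa, prs] at hx

private theorem k3_pb {nc : ℕ} (p : Pat nc) (R q : ℕ) [NeZero q] (i : ZMod q) (e : ℤ)
    {x : ℤ × ℤ} (hx : x ∈ (k3D p R q i e).d.pb) :
    x ∈ (p.nth (i + (e : ZMod q)).val).d.pb := by
  by_cases he : -(R : ℤ) ≤ e ∧ e ≤ (R : ℤ)
  · rw [k3D_in p R q i e he] at hx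
    exact hx
  · rw [k3D_out p R q i e he] at hx
    simp [PD.nil, Dat.pb, prs] at hx

private theorem k3_exc {nc : ℕ} (p : Pat nc) (R q : ℕ) [NeZero q] (i : ZMod q) (e : ℤ)
    {x : ℤ} (hx : x ∈ (k3D p R q i e).d.exc) :
    x ∈ (p.nth (i + (e : ZMod q)).val).d.exc := by
  by_cases he : -(R : ℤ) ≤ e ∧ e ≤ (R : ℤ)
  · rw [k3D_in p R q i e he] at hx
    exact hx
  · rw [k3D_out p R q i e he] at hx
    simp [PD.nil] at hx

private theorem k3_st {nc : ℕ} (p : Pat nc) (R q : ℕ) [NeZero q] (i : ZMod q) (e : ℤ) (j : ℕ)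
    (h : (k3D p R q i e).st.getD j 0 = -e) :
    (p.nth (i + (e : ZMod q)).val).st.getD j 0 = -e := by
  by_cases he : -(R : ℤ) ≤ e ∧ e ≤ (R : ℤ)
  · rwa [k3D_in p R q i e he] at h
  · rw [k3D_out p R q i e he] at h
    simp only [PD.nil, List.getD_nil] at h
    exfalso
    omega

private theorem k3_ps {nc : ℕ} (p : Pat nc) (R q : ℕ) [NeZero q] (i : ZMod q) (e : ℤ) (j : ℕ)
    (h : (k3D p R q i e).ps.getD j 0 = -e) :
    (p.nth (i + (e : ZMod q)).val).ps.getD j 0 = -e := by
  by_cases he : -(R : ℤ) ≤ e ∧ e ≤ (R : ℤ)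
  · rwa [k3D_in p R q i e he] at h
  · rw [k3D_out p R q i e he] at h
    simp only [PD.nil, List.getD_nil] at h
    exfalso
    omega

private theorem k3_orbit (f : ℕ → ℕ) (n : ℕ) : ∀ x y, y ∈ orbit f n x → ∃ k, y = f^[k] x := by
  induction n with
  | zero => intro x y hy; simp [orbit] at hy
  | succ n ih =>
    intro x y hy
    simp only [orbit, List.mem_cons] at hy
    rcases hy with rfl | hy
    · exact ⟨0, rfl⟩
    · obtain ⟨k, hk⟩ := ih (f x) y hy
      exact ⟨k + 1, by rw [hk, Function.iterate_succ_apply]⟩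

/-
TARGETS decode_loc, decode_two, decode_one: from the boolean checks to the hypotheses of the frames.
-/
theorem decode_loc {nc : ℕ} (p : Pat nc) (R q : ℕ) [NeZero q] (h : p.loc R q = true) (hc : p.conn q = true) :
    ∃ tc : Fin nc → Equiv.Perm (ZMod q), LocOK nc q (fun i => (p.nth i.val).d) tc ∧
      ∀ (j : Fin nc) (i : ZMod q), tc j i = i + (((p.nth i.val).st.getD j.1 0 : ℤ) : ZMod q) := by
  have hloc : ∀ i : ZMod q, okB (k3D p R q i) = true ∧ okS (k3D p R q i) = true ∧
      okCh R (k3D p R q i) = true := by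
    intro i
    unfold Pat.loc at h
    rw [List.all_eq_true] at h
    have h1 := h i.val (List.mem_range.2 (ZMod.val_lt i))
    unfold chk at h1
    simp only [Bool.and_eq_true] at h1
    exact ⟨h1.1.1, h1.1.2, h1.2⟩
  have hS1 : ∀ (i : ZMod q) (j : Fin nc),
      (p.nth (i + (((p.nth i.val).st.getD j.1 0 : ℤ) : ZMod q)).val).ps.getD j.1 0 =
        - (p.nth i.val).st.getD j.1 0 := by
    intro i j
    have h1 := (hloc i).2.1
    unfold okS at h1
    rw [List.all_eq_true] at h1
    have h2 := h1 j (List.mem_finRange j)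
    rw [Bool.and_eq_true, beq_iff_eq, beq_iff_eq, k3D_zero] at h2
    exact k3_ps p R q i _ j.1 h2.1
  have hS2 : ∀ (i : ZMod q) (j : Fin nc),
      (p.nth (i + (((p.nth i.val).ps.getD j.1 0 : ℤ) : ZMod q)).val).st.getD j.1 0 =
        - (p.nth i.val).ps.getD j.1 0 := by
    intro i j
    have h1 := (hloc i).2.1
    unfold okS at h1
    rw [List.all_eq_true] at h1
    have h2 := h1 j (List.mem_finRange j)
    rw [Bool.and_eq_true, beq_iff_eq, beq_iff_eq, k3D_zero] at h2
    exact k3_st p R q i _ j.1 h2.2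
  let tc : Fin nc → Equiv.Perm (ZMod q) := fun j =>
    { toFun := fun i => i + (((p.nth i.val).st.getD j.1 0 : ℤ) : ZMod q)
      invFun := fun i => i + (((p.nth i.val).ps.getD j.1 0 : ℤ) : ZMod q)
      left_inv := by
        intro i
        simp only
        rw [hS1 i j]
        push_cast
        ring
      right_inv := by
        intro i
        simp only
        rw [hS2 i j]
        push_cast
        ring }
  have htc : ∀ (j : Fin nc) (i : ZMod q),
      tc j i = i + (((p.nth i.val).st.getD j.1 0 : ℤ) : ZMod q) := fun _ _ => rfl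
  refine ⟨tc, ?_, htc⟩
  refine ⟨?_, ?_, ?_, ?_⟩
  · -- quadB
    intro i t l ht
    have h1 := (hloc i).1
    unfold okB at h1
    rw [List.all_eq_true, k3D_zero] at h1
    have h2 := h1 _ ht
    simp only [Bool.or_eq_true, List.contains_iff_mem, List.any_eq_true, Bool.and_eq_true,
      beq_iff_eq] at h2
    rcases h2 with h2 | ⟨lr, hlr, h3, h4⟩
    · exact Or.inl (k3_exc p R q i l h2)
    · right
      obtain ⟨l1, l2⟩ := lr
      simp only at h3 h4
      subst h3
      refine ⟨l2, k3_pb p R q i _ hlr, ?_⟩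
      have hcast : i + ((l1 - l2 : ℤ) : ZMod q) = i + (l1 : ZMod q) - (l2 : ZMod q) := by
        push_cast
        ring
      cases t with
      | inl m =>
        simp only [Bool.and_eq_true, List.contains_iff_mem] at h4
        have h5 := (k3_pa p R q i _ h4.1).2
        rw [hcast] at h5
        exact ⟨h5, k3_pb p R q i _ h4.2⟩
      | inr j =>
        simp only [Bool.and_eq_true, List.contains_iff_mem, beq_iff_eq] at h4
        obtain ⟨hin, h5⟩ := k3_pa p R q i _ h4.1
        have h6 := h4.2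
        rw [k3D_in p R q i _ hin, hcast] at h6
        rw [hcast] at h5
        refine ⟨h5, ?_⟩
        rw [htc, h6]
        push_cast
        ring
  · -- quadC
    intro i t j ht
    have h1 := (hloc i).1
    unfold okB at h1
    rw [List.all_eq_true, k3D_zero] at h1
    have h2 := h1 _ ht
    simp only [Bool.or_eq_true, List.contains_iff_mem] at h2
    rcases h2 with h2 | h2
    · exact Or.inl h2
    · right
      cases t with
      | inr j' => simp at h2
      | inl m =>
        simp only [List.any_eq_true, Bool.and_eq_true, beq_iff_eq] at h2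
        obtain ⟨tr, htr, h3, h4⟩ := h2
        obtain ⟨t1, t2⟩ := tr
        simp only at h3 h4
        subst h3
        cases t2 with
        | inr j' => simp at h4
        | inl m' =>
          simp only [Bool.and_eq_true, List.contains_iff_mem, beq_iff_eq] at h4
          refine ⟨m, m', rfl, ?_, ?_, k3_pb p R q i _ h4.2⟩
          · rw [htc]
            exact (k3_pa p R q i _ htr).2
          · rw [htc, ← h4.1]
            push_cast
            ring
  · -- chord
    intro k j
    have h1 := (hloc k).2.2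
    unfold okCh at h1
    rw [List.all_eq_true] at h1
    have h2 := h1 j (List.mem_finRange j)
    simp only [List.any_eq_true, Bool.or_eq_true, List.contains_iff_mem] at h2
    obtain ⟨l, _, h3⟩ := h2
    refine ⟨l, ?_⟩
    have hcast : k + ((-l : ℤ) : ZMod q) = k - (l : ZMod q) := by
      push_cast
      ring
    rcases h3 with h3 | h3
    · left
      have := (k3_pa p R q k _ h3).2
      rwa [hcast] at this
    · right
      have := (k3_pa p R q k _ h3).2
      rwa [hcast] at this
  · -- cyc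
    intro j
    have hit : ∀ k : ℕ, ((tc j)^[k] 0).val = (p.mv q j.1)^[k] 0 := by
      intro k
      induction k with
      | zero => simp
      | succ k ih =>
        rw [Function.iterate_succ_apply', Function.iterate_succ_apply', ← ih]
        unfold Pat.mv
        rw [k3_val, htc]
    have h0 : ∀ y : ZMod q, (tc j).SameCycle 0 y := by
      intro y
      unfold Pat.conn at hc
      rw [List.all_eq_true] at hc
      have h1 := hc j (List.mem_finRange j)
      simp only [List.all_eq_true, List.contains_iff_mem] at h1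
      have h2 := h1 y.val (List.mem_range.2 (ZMod.val_lt y))
      obtain ⟨k, hk⟩ := k3_orbit _ _ _ _ h2
      rw [← hit k] at hk
      have h3 : y = (tc j)^[k] 0 := ZMod.val_injective q hk
      refine ⟨k, ?_⟩
      rw [h3, zpow_natCast, ← Equiv.Perm.iterate_eq_pow]
    intro x y
    exact (h0 x).symm.trans (h0 y)

private theorem k3_all {nc : ℕ} (p : Pat nc) (f : Dat nc → Bool) (h : p.all f = true) (i : ℕ) :
    f (p.nth i).d = true := by
  unfold Pat.all at h
  simp only [Bool.and_eq_true, List.all_eq_true, decide_eq_true_eq] at h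
  obtain ⟨⟨h1, h2⟩, h3⟩ := h
  unfold Pat.nth
  split_ifs with hi
  · rw [List.getD_eq_getElem _ _ hi]
    exact h1 _ (List.getElem_mem hi)
  · have hlt : (i - p.zone.length) % p.per.length < p.per.length := Nat.mod_lt _ h3
    rw [List.getD_eq_getElem _ _ hlt]
    exact h2 _ (List.getElem_mem hlt)

theorem decode_two {nc : ℕ} (p : Pat nc) (q : ℕ) (X : ℤ) (w T L2 : ℕ) (hX : X = 0 ∨ X = -1)
    (hq : (q : ℤ) = 2 * (L2 : ℤ) + 1 - X) (hw : 1 ≤ w) (hwT : w ≤ T) (hTL : T ≤ L2)
    (h : p.all (shTwo X w (decide (Even (T - w)))) = true) :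
    TwoOK nc q X w T L2 (fun i => (p.nth i.val).d) := by
  have hh := k3_all p _ h
  simp only [shTwo, Bool.and_eq_true, beq_iff_eq, List.isPerm_iff, decide_eq_true_eq] at hh
  exact
    { hX := hX
      hq := hq
      hw := hw
      hwT := hwT
      hTL := hTL
      a1h := fun i => (hh i.val).1.1.1.1.1.1.1.1.1
      a1l := fun i => (hh i.val).1.1.1.1.1.1.1.1.2
      a2h := fun i => (hh i.val).1.1.1.1.1.1.1.2
      a2l := fun i => (hh i.val).1.1.1.1.1.1.2
      aP := fun i => (hh i.val).1.1.1.1.1.2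
      b1h := fun i => (hh i.val).1.1.1.1.2
      b1l := fun i => (hh i.val).1.1.1.2
      b2h := fun i => (hh i.val).1.1.2
      b2l := fun i => (hh i.val).1.2
      bP := fun i => (hh i.val).2 }

theorem decode_one {nc : ℕ} (p : Pat nc) (q w : ℕ) (hw : w < q) (h : p.all (shOne w) = true) :
    OneOK nc q w (fun i => (p.nth i.val).d) := by
  have hh := k3_all p _ h
  simp only [shOne, Bool.and_eq_true, beq_iff_eq, List.isPerm_iff, List.isEmpty_iff] at hh
  exact
    { hw := hw
      a1h := fun i => (hh i.val).1.1.1.1.1.1.1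
      a1l := fun i => (hh i.val).1.1.1.1.1.1.2
      a2 := fun i => (hh i.val).1.1.1.1.1.2
      aP := fun i => (hh i.val).1.1.1.1.2
      b1h := fun i => (hh i.val).1.1.1.2
      b1l := fun i => (hh i.val).1.1.2
      b2 := fun i => (hh i.val).1.2
      bP := fun i => (hh i.val).2 }


end Pool.Agent.KS6_69.GT
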