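import Pool.Agent.KS6_69.GT.Wrap

set_option autoImplicit false

namespace Pool.Agent.KS6_69.GT

theorem E_2_2_0 : EmbQ 2 2 0 2 :=
  EmbQ_of_chk 2 2 0 (by decide) (by decide) [] (by decide)
    [[0, 1], [0, 1]]
    [[0, 1], [0, 1]] 0 (by decide +kernel)

theorem E_3_2_0 : EmbQ 3 2 0 3 :=
  EmbQ_of_chk 3 2 0 (by decide) (by decide) [] (by decide)
    [[0, 1], [0, 1], [0, 1]]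
    [[0, 1, 2], [0, 2, 1]] 0 (by decide +kernel)

theorem E_3_3_1 : Emb 3 3 1 5 :=
  Emb_of_chk 3 3 1 (by decide) (by decide) [(0, 1), (1, 2), (2, 0), (1, 3)] (by decide)
    [[0, 2, 3, 1], [0, 3, 1, 2], [0, 1, 3, 2]]
    [[0, 2, 1], [0, 1, 2], [0, 1, 2], [0, 2, 1]] (by decide +kernel)

theorem E_4_2_0 : EmbQ 4 2 0 4 :=
  EmbQ_of_chk 4 2 0 (by decide) (by decide) [] (by decide)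
    [[0, 1], [0, 1], [0, 1], [0, 1]]
    [[0, 1, 2, 3], [0, 3, 2, 1]] 0 (by decide +kernel)

theorem E_4_3_1 : EmbQ 4 3 1 8 :=
  EmbQ_of_chk 4 3 1 (by decide) (by decide) [] (by decide)
    [[0, 3, 1, 2], [0, 1, 2, 3], [0, 3, 2, 1], [0, 2, 1, 3]]
    [[0, 3, 2, 1], [0, 3, 1, 2], [0, 2, 1, 3], [0, 1, 2, 3]] 0 (by decide +kernel)

theorem E_4_4_2 : EmbQ 4 4 2 12 :=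
  EmbQ_of_chk 4 4 2 (by decide) (by decide) [] (by decide)
    [[0, 1, 4, 2, 3, 5], [0, 5, 2, 3, 4, 1], [0, 4, 3, 2, 5, 1], [0, 1, 5, 3, 2, 4]]
    [[0, 1, 3, 2], [0, 2, 3, 1], [0, 3, 1, 2], [0, 2, 1, 3], [0, 1, 2, 3], [0, 3, 2, 1]] 0 (by decide +kernel)

theorem E_5_2_0 : EmbQ 5 2 0 5 :=
  EmbQ_of_chk 5 2 0 (by decide) (by decide) [] (by decide)
    [[0, 1], [0, 1], [0, 1], [0, 1], [0, 1]]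
    [[0, 4, 2, 1, 3], [0, 3, 1, 2, 4]] 0 (by decide +kernel)

theorem E_5_3_2 : Emb 5 3 2 11 :=
  Emb_of_chk 5 3 2 (by decide) (by decide) [(0, 0), (1, 3), (2, 1), (1, 2), (3, 1)] (by decide)
    [[0, 4, 3, 2, 1], [0, 3, 4, 1, 2], [0, 3, 1, 2, 4], [0, 4, 2, 1, 3], [0, 2, 3, 1, 4]]
    [[0, 1, 4, 3, 2], [0, 2, 1, 4, 3], [0, 4, 1, 3, 2], [0, 1, 2, 3, 4], [0, 2, 3, 4, 1]] (by decide +kernel)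

theorem E_5_5_1 : EmbQ 5 5 1 15 :=
  EmbQ_of_chk 5 5 1 (by decide) (by decide) [] (by decide)
    [[0, 3, 5, 1, 4, 2], [0, 2, 1, 4, 5, 3], [0, 5, 4, 1, 2, 3], [0, 4, 1, 3, 2, 5], [0, 3, 1, 5, 2, 4]]
    [[0, 1, 4, 3, 2], [0, 4, 3, 1, 2], [0, 4, 3, 2, 1], [0, 2, 3, 4, 1], [0, 2, 1, 3, 4], [0, 1, 2, 3, 4]] 0 (by decide +kernel)

theorem E_5_5_5 : EmbQ 5 5 5 25 :=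
  EmbQ_of_chk 5 5 5 (by decide) (by decide) [] (by decide)
    [[0, 9, 1, 8, 2, 7, 4, 5, 3, 6], [0, 5, 4, 8, 1, 6, 3, 7, 2, 9], [0, 7, 3, 8, 4, 9, 2, 6, 1, 5], [0, 8, 3, 9, 4, 6, 2, 5, 1, 7], [0, 6, 4, 7, 1, 9, 3, 5, 2, 8]]
    [[0, 4, 3, 2, 1], [0, 4, 3, 2, 1], [0, 4, 3, 2, 1], [0, 4, 3, 2, 1], [0, 4, 3, 2, 1], [0, 1, 2, 3, 4], [0, 1, 2, 3, 4], [0, 1, 2, 3, 4], [0, 1, 2, 3, 4], [0, 1, 2, 3, 4]] 0 (by decide +kernel)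

theorem E_6_4_3 : EmbQ 6 4 3 21 :=
  EmbQ_of_chk 6 4 3 (by decide) (by decide) [] (by decide)
    [[0, 4, 2, 5, 3, 6, 1], [0, 1, 5, 2, 6, 3, 4], [0, 6, 2, 4, 3, 5, 1], [0, 1, 4, 2, 5, 3, 6], [0, 5, 2, 6, 3, 4, 1], [0, 1, 6, 2, 4, 3, 5]]
    [[0, 3, 2, 5, 4, 1], [0, 5, 2, 1, 4, 3], [0, 5, 4, 3, 2, 1], [0, 5, 4, 3, 2, 1], [0, 1, 2, 3, 4, 5], [0, 1, 2, 3, 4, 5], [0, 1, 2, 3, 4, 5]] 0 (by decide +kernel)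

theorem E_6_5_4 : EmbQ 6 5 4 27 :=
  EmbQ_of_chk 6 5 4 (by decide) (by decide) [] (by decide)
    [[0, 3, 8, 1, 6, 4, 7, 2, 5], [0, 7, 1, 2, 8, 3, 5, 4, 6], [0, 5, 2, 1, 8, 4, 6, 3, 7], [0, 3, 6, 2, 5, 1, 7, 4, 8], [0, 8, 4, 5, 2, 6, 1, 7, 3], [0, 6, 4, 8, 2, 7, 1, 5, 3]]
    [[0, 2, 1, 5, 3, 4], [0, 2, 1, 3, 5, 4], [0, 5, 1, 2, 3, 4], [0, 4, 2, 3, 5, 1], [0, 1, 4, 5, 2, 3], [0, 4, 1, 5, 3, 2], [0, 4, 3, 2, 5, 1], [0, 3, 1, 2, 4, 5], [0, 1, 5, 4, 3, 2]] 0 (by decide +kernel)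

theorem E_6_6_3 : EmbQ 6 6 3 27 :=
  EmbQ_of_chk 6 6 3 (by decide) (by decide) [] (by decide)
    [[0, 1, 2, 4, 8, 3, 6, 5, 7], [0, 7, 1, 4, 2, 6, 3, 5, 8], [0, 5, 3, 8, 1, 7, 4, 6, 2], [0, 8, 2, 7, 5, 3, 4, 1, 6], [0, 6, 4, 3, 7, 2, 1, 8, 5], [0, 2, 8, 4, 7, 3, 5, 6, 1]]
    [[0, 1, 3, 4, 2, 5], [0, 5, 3, 1, 2, 4], [0, 4, 3, 5, 2, 1], [0, 2, 5, 4, 3, 1], [0, 1, 3, 4, 2, 5], [0, 5, 2, 4, 1, 3], [0, 1, 2, 4, 3, 5], [0, 3, 4, 5, 2, 1], [0, 5, 3, 1, 4, 2]] 0 (by decide +kernel)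

theorem E_7_7_0 : Emb 7 7 0 23 :=
  Emb_of_chk 7 7 0 (by decide) (by decide) [(0, 5), (1, 4), (2, 2), (1, 6), (2, 1)] (by decide)
    [[0, 1, 5, 6, 2, 4, 3], [0, 3, 5, 4, 2, 6, 1], [0, 4, 2, 6, 1, 5, 3], [0, 6, 5, 1, 2, 3, 4], [0, 5, 3, 4, 2, 1, 6], [0, 4, 3, 2, 6, 1, 5], [0, 3, 5, 1, 6, 2, 4]]
    [[0, 6, 5, 4, 3, 2, 1], [0, 1, 6, 5, 4, 3, 2], [0, 2, 1, 6, 5, 3, 4], [0, 3, 5, 4, 1, 2, 6], [0, 4, 5, 6, 1, 2, 3], [0, 1, 4, 5, 6, 2, 3], [0, 3, 4, 5, 6, 1, 2]] (by decide +kernel)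

theorem E_7_7_4 : Emb 7 7 4 37 :=
  Emb_of_chk 7 7 4 (by decide) (by decide) [(2, 2), (3, 3), (5, 5), (6, 10), (3, 1)] (by decide)
    [[0, 1, 5, 7, 2, 9, 6, 3, 8, 4, 10], [0, 9, 2, 8, 5, 1, 7, 3, 10, 4, 6], [0, 10, 6, 8, 3, 4, 7, 1, 2, 5, 9], [0, 7, 4, 9, 5, 2, 3, 6, 10, 1, 8], [0, 6, 7, 5, 2, 10, 3, 9, 4, 8, 1], [0, 1, 9, 3, 5, 8, 6, 4, 10, 2, 7], [0, 8, 2, 5, 10, 4, 3, 7, 6, 9, 1]]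
    [[0, 2, 1, 4, 5, 3, 6], [0, 6, 5, 4, 3, 2, 1], [0, 5, 4, 2, 3, 6, 1], [0, 3, 5, 4, 1, 6, 2], [0, 4, 3, 2, 6, 5, 1], [0, 1, 5, 6, 3, 2, 4], [0, 6, 4, 1, 5, 2, 3], [0, 4, 6, 1, 2, 3, 5], [0, 2, 5, 1, 6, 3, 4], [0, 1, 2, 3, 4, 5, 6], [0, 1, 4, 5, 6, 3, 2]] (by decide +kernel)

theorem E_8_7_0 : Emb 8 7 0 27 :=
  Emb_of_chk 8 7 0 (by decide) (by decide) [(0, 5), (2, 3), (7, 4), (2, 1)] (by decide)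
    [[0, 4, 6, 3, 1, 5, 2], [0, 4, 3, 5, 1, 2, 6], [0, 5, 3, 4, 1, 6, 2], [0, 6, 2, 1, 5, 3, 4], [0, 2, 6, 4, 3, 1, 5], [0, 2, 6, 4, 1, 3, 5], [0, 2, 5, 3, 6, 1, 4], [0, 5, 1, 3, 4, 6, 2]]
    [[0, 5, 2, 4, 7, 6, 1, 3], [0, 7, 3, 1, 4, 5, 6, 2], [0, 6, 7, 1, 3, 4, 2, 5], [0, 6, 1, 3, 5, 4, 2, 7], [0, 3, 1, 6, 5, 7, 2, 4], [0, 2, 5, 3, 7, 4, 1, 6], [0, 4, 3, 1, 7, 5, 2, 6]] (by decide +kernel)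

theorem E_8_7_5 : EmbQ 8 7 5 48 :=
  EmbQ_of_chk 8 7 5 (by decide) (by decide) [] (by decide)
    [[0, 8, 3, 7, 1, 4, 9, 2, 6, 5, 10, 11], [0, 10, 4, 3, 9, 6, 7, 2, 11, 1, 5, 8], [0, 1, 10, 3, 4, 11, 2, 8, 6, 9, 5, 7], [0, 2, 7, 5, 3, 8, 4, 1, 11, 10, 6, 9], [0, 9, 3, 5, 11, 6, 10, 1, 7, 4, 8, 2], [0, 11, 3, 7, 6, 2, 10, 5, 9, 4, 8, 1], [0, 7, 3, 11, 5, 1, 9, 6, 8, 4, 10, 2], [0, 2, 9, 1, 8, 5, 6, 11, 4, 7, 3, 10]]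
    [[0, 5, 2, 6, 3, 4, 7, 1], [0, 4, 2, 5, 7, 6, 1, 3], [0, 7, 4, 2, 1, 3, 6, 5], [0, 3, 4, 1, 2, 7, 5, 6], [0, 3, 4, 7, 2, 1, 6, 5], [0, 7, 1, 6, 4, 3, 2, 5], [0, 5, 1, 2, 6, 3, 4, 7], [0, 6, 2, 3, 1, 5, 7, 4], [0, 1, 7, 5, 6, 2, 4, 3], [0, 5, 2, 1, 4, 3, 6, 7], [0, 5, 6, 1, 7, 2, 4, 3], [0, 3, 1, 2, 7, 4, 6, 5]] 0 (by decide +kernel)

theorem E_8_8_2 : EmbQ 8 8 2 40 :=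
  EmbQ_of_chk 8 8 2 (by decide) (by decide) [] (by decide)
    [[0, 8, 6, 7, 5, 4, 1, 9, 2, 3], [0, 3, 8, 1, 5, 7, 2, 9, 6, 4], [0, 6, 3, 4, 8, 2, 7, 9, 5, 1], [0, 7, 1, 8, 4, 5, 2, 3, 6, 9], [0, 4, 9, 3, 2, 1, 5, 8, 7, 6], [0, 9, 7, 8, 3, 6, 2, 5, 1, 4], [0, 4, 3, 9, 1, 2, 6, 8, 5, 7], [0, 1, 7, 5, 9, 4, 6, 3, 2, 8]]
    [[0, 1, 6, 3, 5, 4, 2, 7], [0, 5, 1, 3, 7, 2, 4, 6], [0, 1, 2, 7, 3, 5, 6, 4], [0, 4, 6, 2, 3, 7, 5, 1], [0, 3, 2, 6, 1, 7, 4, 5], [0, 6, 4, 2, 7, 1, 5, 3], [0, 6, 5, 7, 1, 3, 2, 4], [0, 4, 5, 2, 1, 7, 3, 6], [0, 7, 2, 3, 1, 5, 4, 6], [0, 6, 4, 7, 2, 5, 3, 1]] 0 (by decide +kernel)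

theorem E_8_8_6 : EmbQ 8 8 6 56 :=
  EmbQ_of_chk 8 8 6 (by decide) (by decide) [] (by decide)
    [[0, 12, 5, 10, 3, 8, 2, 9, 7, 1, 6, 11, 4, 13], [0, 9, 6, 1, 12, 4, 8, 3, 11, 5, 13, 7, 10, 2], [0, 11, 1, 10, 7, 6, 9, 3, 13, 4, 12, 2, 5, 8], [0, 13, 2, 8, 5, 12, 6, 10, 1, 7, 11, 3, 4, 9], [0, 10, 6, 8, 1, 9, 5, 4, 11, 2, 12, 7, 13, 3], [0, 2, 13, 1, 8, 7, 9, 4, 5, 11, 6, 12, 3, 10], [0, 8, 6, 13, 5, 2, 10, 4, 3, 9, 1, 11, 7, 12], [0, 3, 12, 1, 13, 6, 7, 8, 4, 10, 5, 9, 2, 11]]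
    [[0, 3, 1, 5, 4, 7, 2, 6], [0, 3, 2, 6, 4, 5, 7, 1], [0, 3, 5, 1, 6, 2, 4, 7], [0, 5, 7, 4, 2, 6, 3, 1], [0, 4, 5, 3, 6, 7, 1, 2], [0, 3, 2, 6, 1, 5, 4, 7], [0, 1, 2, 7, 6, 4, 3, 5], [0, 5, 7, 2, 1, 4, 6, 3], [0, 1, 7, 5, 4, 6, 2, 3], [0, 7, 4, 6, 2, 1, 3, 5], [0, 7, 6, 1, 2, 3, 4, 5], [0, 5, 1, 3, 6, 2, 7, 4], [0, 6, 4, 2, 1, 7, 5, 3], [0, 2, 4, 1, 6, 7, 5, 3]] 0 (by decide +kernel)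

theorem E_9_7_2 : Emb 9 7 2 39 :=
  Emb_of_chk 9 7 2 (by decide) (by decide) [(0, 8), (4, 7), (6, 6), (8, 2), (6, 0)] (by decide)
    [[0, 8, 3, 1, 7, 5, 6, 2, 4], [0, 2, 5, 8, 4, 7, 3, 6, 1], [0, 7, 4, 8, 5, 2, 6, 1, 3], [0, 7, 1, 6, 8, 2, 5, 3, 4], [0, 4, 1, 6, 3, 5, 8, 7, 2], [0, 2, 8, 4, 3, 6, 5, 1, 7], [0, 1, 8, 5, 7, 6, 3, 4, 2], [0, 3, 7, 1, 4, 8, 6, 5, 2], [0, 4, 3, 8, 1, 5, 6, 2, 7]]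
    [[0, 8, 3, 4, 5, 2, 7, 1, 6], [0, 2, 3, 5, 8, 6, 1, 4, 7], [0, 2, 1, 7, 3, 5, 4, 8, 6], [0, 8, 3, 4, 5, 6, 1, 7, 2], [0, 6, 5, 2, 1, 7, 4, 3, 8], [0, 6, 1, 2, 4, 3, 7, 8, 5], [0, 5, 4, 1, 6, 8, 7, 3, 2], [0, 7, 1, 2, 5, 3, 8, 4, 6], [0, 4, 2, 5, 3, 7, 1, 6, 8]] (by decide +kernel)

theorem E_9_8_3 : Emb 9 8 3 49 :=
  Emb_of_chk 9 8 3 (by decide) (by decide) [(0, 10), (3, 9), (5, 5)] (by decide)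
    [[0, 8, 6, 5, 10, 7, 3, 4, 1, 2, 9], [0, 2, 8, 4, 5, 9, 7, 10, 1, 6, 3], [0, 3, 9, 2, 1, 10, 6, 4, 8, 7, 5], [0, 10, 9, 5, 4, 3, 2, 6, 1, 7, 8], [0, 9, 4, 6, 5, 8, 1, 2, 3, 10, 7], [0, 7, 1, 4, 9, 5, 6, 8, 2, 10, 3], [0, 3, 7, 1, 9, 6, 2, 8, 5, 4, 10], [0, 4, 5, 7, 9, 1, 8, 3, 6, 10, 2], [0, 5, 6, 9, 3, 8, 2, 1, 7, 10, 4]]
    [[0, 4, 5, 2, 8, 7, 1, 6, 3], [0, 5, 3, 1, 2, 4, 7, 6, 8], [0, 8, 1, 7, 5, 6, 3, 4, 2], [0, 6, 1, 7, 8, 2, 5, 4, 3], [0, 3, 7, 8, 6, 1, 2, 4, 5], [0, 8, 2, 7, 3, 1, 6, 4, 5], [0, 5, 4, 2, 7, 1, 3, 6, 8], [0, 1, 7, 2, 3, 5, 4, 8, 6], [0, 3, 2, 1, 8, 7, 4, 6, 5], [0, 2, 8, 6, 7, 1, 3, 5, 4], [0, 3, 6, 8, 4, 5, 7, 2, 1]] (by decide +kernel)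

theorem E_9_9_4 : Emb 9 9 4 57 :=
  Emb_of_chk 9 9 4 (by decide) (by decide) [(0, 1), (8, 9), (5, 3), (8, 7), (1, 2)] (by decide)
    [[0, 7, 10, 3, 11, 4, 9, 2, 1, 6, 8, 12, 5], [0, 12, 6, 9, 7, 2, 3, 4, 5, 10, 8, 1, 11], [0, 5, 3, 1, 4, 12, 7, 11, 2, 9, 8, 10, 6], [0, 9, 5, 8, 11, 6, 1, 12, 2, 3, 10, 4, 7], [0, 6, 12, 3, 2, 11, 5, 7, 9, 4, 10, 1, 8], [0, 10, 2, 6, 11, 7, 8, 5, 4, 9, 3, 12, 1], [0, 1, 3, 2, 6, 10, 7, 5, 12, 4, 11, 8, 9], [0, 11, 3, 5, 9, 6, 2, 12, 8, 7, 4, 1, 10], [0, 8, 6, 2, 10, 5, 11, 1, 9, 4, 3, 7, 12]]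
    [[0, 2, 4, 8, 1, 7, 5, 6, 3], [0, 8, 1, 4, 7, 2, 6, 5, 3], [0, 2, 4, 3, 7, 5, 8, 6, 1], [0, 3, 4, 5, 8, 1, 6, 2, 7], [0, 6, 2, 7, 3, 4, 5, 1, 8], [0, 6, 4, 8, 1, 5, 3, 7, 2], [0, 3, 5, 7, 1, 4, 2, 6, 8], [0, 3, 7, 5, 2, 8, 1, 4, 6], [0, 8, 4, 1, 2, 6, 3, 5, 7], [0, 8, 5, 4, 1, 7, 3, 6, 2], [0, 6, 2, 1, 8, 5, 7, 4, 3], [0, 7, 1, 8, 4, 2, 5, 3, 6], [0, 7, 3, 5, 4, 1, 8, 2, 6]] (by decide +kernel)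

theorem E_10_7_6 : EmbQ 10 7 6 65 :=
  EmbQ_of_chk 10 7 6 (by decide) (by decide) [] (by decide)
    [[0, 7, 11, 5, 1, 9, 6, 10, 4, 2, 8, 3, 12], [0, 10, 3, 8, 2, 6, 1, 11, 7, 9, 4, 12, 5], [0, 5, 11, 9, 3, 6, 2, 12, 10, 1, 7, 4, 8], [0, 8, 6, 3, 12, 1, 10, 4, 11, 2, 5, 9, 7], [0, 9, 5, 12, 1, 8, 11, 3, 10, 2, 4, 6, 7], [0, 10, 12, 6, 4, 7, 2, 11, 1, 5, 8, 3, 9], [0, 11, 8, 5, 1, 12, 2, 3, 7, 6, 9, 4, 10], [0, 7, 5, 2, 10, 6, 11, 4, 9, 1, 12, 3, 8], [0, 12, 4, 9, 2, 7, 3, 11, 6, 8, 1, 5, 10], [0, 8, 4, 10, 5, 7, 1, 6, 12, 3, 2, 9, 11]]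
    [[0, 8, 1, 2, 3, 7, 9, 6, 5, 4], [0, 5, 1, 9, 2, 3, 6, 8, 4, 7], [0, 4, 7, 3, 5, 8, 9, 6, 2, 1], [0, 7, 3, 2, 5, 1, 4, 8, 6, 9], [0, 6, 8, 1, 7, 3, 9, 2, 5, 4], [0, 2, 1, 4, 3, 7, 9, 8, 6, 5], [0, 6, 4, 5, 9, 1, 2, 3, 8, 7], [0, 4, 6, 8, 5, 2, 9, 7, 3, 1], [0, 1, 5, 6, 4, 8, 3, 2, 9, 7], [0, 7, 1, 3, 4, 5, 2, 9, 8, 6], [0, 7, 4, 1, 8, 9, 3, 2, 5, 6], [0, 1, 5, 3, 7, 8, 4, 6, 9, 2], [0, 9, 5, 2, 6, 3, 7, 4, 1, 8]] 0 (by decide +kernel)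

theorem E_10_8_7 : EmbQ 10 8 7 75 :=
  EmbQ_of_chk 10 8 7 (by decide) (by decide) [] (by decide)
    [[0, 9, 3, 11, 2, 12, 13, 7, 8, 4, 14, 1, 10, 6, 5], [0, 8, 7, 10, 1, 12, 6, 9, 2, 4, 11, 3, 13, 5, 14], [0, 5, 12, 4, 8, 1, 14, 3, 9, 7, 13, 6, 10, 2, 11], [0, 14, 6, 13, 3, 4, 10, 7, 12, 5, 11, 1, 8, 2, 9], [0, 1, 9, 5, 10, 4, 13, 2, 11, 6, 12, 3, 14, 7, 8], [0, 13, 4, 12, 2, 7, 9, 6, 14, 10, 5, 8, 3, 1, 11], [0, 11, 5, 9, 6, 8, 7, 1, 3, 10, 14, 4, 2, 13, 12], [0, 11, 4, 12, 7, 14, 2, 10, 3, 8, 6, 9, 5, 13, 1], [0, 10, 3, 12, 4, 9, 1, 7, 11, 2, 8, 14, 5, 6, 13], [0, 12, 1, 13, 6, 11, 7, 2, 14, 8, 5, 9, 4, 3, 10]]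
    [[0, 2, 6, 9, 8, 5, 7, 4, 1, 3], [0, 2, 3, 5, 6, 8, 4, 7, 9, 1], [0, 4, 6, 1, 3, 8, 2, 7, 9, 5], [0, 2, 4, 8, 6, 5, 7, 9, 3, 1], [0, 2, 5, 4, 3, 9, 8, 7, 1, 6], [0, 8, 1, 7, 9, 5, 4, 6, 3, 2], [0, 2, 3, 5, 7, 6, 1, 4, 9, 8], [0, 2, 5, 9, 8, 6, 4, 7, 3, 1], [0, 1, 4, 6, 7, 5, 9, 8, 3, 2], [0, 3, 1, 6, 4, 8, 9, 7, 5, 2], [0, 1, 3, 4, 5, 6, 8, 9, 7, 2], [0, 1, 7, 5, 3, 6, 2, 8, 9, 4], [0, 5, 2, 3, 7, 8, 4, 1, 9, 6], [0, 6, 4, 5, 8, 9, 7, 1, 3, 2], [0, 6, 5, 3, 1, 8, 9, 7, 4, 2]] 0 (by decide +kernel)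

theorem E_10_9_6 : EmbQ 10 9 6 75 :=
  EmbQ_of_chk 10 9 6 (by decide) (by decide) [] (by decide)
    [[0, 2, 9, 5, 8, 14, 1, 13, 3, 11, 4, 10, 7, 12, 6], [0, 14, 8, 11, 6, 5, 9, 3, 1, 13, 7, 10, 2, 4, 12], [0, 9, 4, 12, 8, 7, 11, 1, 3, 13, 2, 14, 5, 6, 10], [0, 11, 3, 14, 7, 8, 5, 12, 4, 2, 13, 1, 10, 6, 9], [0, 13, 6, 12, 2, 11, 8, 4, 1, 10, 3, 9, 7, 5, 14], [0, 12, 3, 10, 5, 7, 9, 1, 4, 13, 8, 14, 6, 11, 2], [0, 6, 3, 9, 8, 10, 1, 14, 2, 12, 4, 11, 5, 7, 13], [0, 10, 1, 12, 7, 14, 4, 8, 9, 3, 6, 13, 5, 11, 2], [0, 2, 11, 7, 3, 12, 5, 10, 4, 14, 8, 13, 1, 9, 6], [0, 6, 14, 3, 7, 5, 13, 4, 9, 2, 10, 8, 12, 1, 11]]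
    [[0, 9, 3, 2, 7, 8, 6, 4, 1, 5], [0, 6, 3, 1, 2, 9, 7, 4, 5, 8], [0, 5, 8, 7, 4, 6, 2, 3, 1, 9], [0, 2, 1, 6, 7, 4, 5, 8, 9, 3], [0, 6, 1, 3, 2, 9, 5, 4, 7, 8], [0, 1, 2, 4, 6, 7, 9, 5, 8, 3], [0, 4, 7, 6, 8, 3, 2, 1, 5, 9], [0, 1, 6, 4, 5, 9, 8, 2, 3, 7], [0, 3, 2, 9, 6, 7, 4, 1, 5, 8], [0, 9, 2, 3, 8, 5, 4, 7, 6, 1], [0, 8, 5, 4, 7, 2, 3, 6, 9, 1], [0, 3, 9, 2, 8, 5, 1, 4, 7, 6], [0, 7, 9, 2, 3, 8, 5, 1, 6, 4], [0, 8, 5, 9, 7, 4, 6, 1, 3, 2], [0, 8, 7, 3, 9, 5, 1, 4, 2, 6]] 0 (by decide +kernel)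

end Pool.Agent.KS6_69.GT
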