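import Pool.Agent.KS6_69.GT.Count
import Pool.Agent.KS6_69.GT.Defs2

set_option autoImplicit false

namespace Pool.Agent.KS6_69.GT



/-- Next element after `x` in the list, `h` after the last one. -/
def nxa (h x : ℕ) : List ℕ → ℕ
  | [] => h
  | a :: t => bif Nat.beq x a then t.headD h else nxa h x t

/-- Next element after `x` in the cyclic list `l`. -/
def nxE (l : List ℕ) (x : ℕ) : ℕ := nxa (l.headD 0) x l

/-- Element number `i` of a list of lists. -/
def nthL : List (List ℕ) → ℕ → List ℕ
  | [], _ => []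
  | l :: t, i => bif Nat.beq i 0 then l else nthL t (i - 1)

/-- Membership. -/
def memL (x : ℕ) : List ℕ → Bool
  | [] => false
  | a :: t => bif Nat.beq x a then true else memL x t

/-- Membership of a pair. -/
def memP (x y : ℕ) : List (ℕ × ℕ) → Bool
  | [] => false
  | d :: t => bif (Nat.beq x d.1 && Nat.beq y d.2) then true else memP x y t

/-- `P 0, ..., P (n-1)`. -/
def allB (P : ℕ → Bool) : ℕ → Bool
  | 0 => true
  | n + 1 => P n && allB P n

/-- The list is an arrangement of `0, ..., n-1`. -/
def arrChk (n : ℕ) (l : List ℕ) : Bool := Nat.beq l.length n && allB (fun i => memL i l) n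

/-- Two steps of the face permutation return to `(a, x)`; `a'` is the next of `a` at `x`. -/
def faceChk2 (rho tau : List (List ℕ)) (a x a' y : ℕ) : Bool :=
  Nat.beq (nxE (nthL tau y) a') a && Nat.beq (nxE (nthL rho a) y) x

def faceChk1 (rho tau : List (List ℕ)) (a x a' : ℕ) : Bool :=
  faceChk2 rho tau a x a' (nxE (nthL rho a') x)

def faceChk (rho tau : List (List ℕ)) (a x : ℕ) : Bool :=
  faceChk1 rho tau a x (nxE (nthL tau x) a)

/-- `b` and `c` are consecutive in one of the lists. -/
def adjChk (b c : ℕ) : List (List ℕ) → Bool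
  | [] => false
  | l :: t => Nat.beq (nxE l b) c || Nat.beq (nxE l c) b || adjChk b c t

/-- Boolean certificate checker. -/
def embChk (p q r : ℕ) (exc : List (ℕ × ℕ)) (rho tau : List (List ℕ)) : Bool :=
  Nat.beq rho.length p && Nat.beq tau.length (q + r) &&
  rho.all (arrChk (q + r)) && tau.all (arrChk p) &&
  allB (fun a => allB (fun x => memP a x exc || faceChk rho tau a x) (q + r)) p &&
  allB (fun b => allB (fun c => adjChk b (q + c) rho) r) q

/-- additionally, the vertex `al` has no exceptional dart -/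
def embQChk (p q r : ℕ) (exc : List (ℕ × ℕ)) (rho tau : List (List ℕ)) (al : ℕ) : Bool :=
  embChk p q r exc rho tau && decide (al < p) && exc.all fun d => d.1 != al

theorem beqF {a b : ℕ} : Nat.beq a b = false ↔ a ≠ b := by
  rw [← Bool.not_eq_true, Nat.beq_eq]

theorem nxa_getElem (h : ℕ) : ∀ (l : List ℕ) (_ : l.Nodup) (i : ℕ) (hi : i < l.length),
    nxa h l[i] l = if hi' : i + 1 < l.length then l[i + 1] else h := by
  intro l
  induction l with
  | nil => intro _ i hi; simp at hi
  | cons a t ih =>
    intro hnd i hi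
    rw [List.nodup_cons] at hnd
    cases i with
    | zero =>
      have h1 : Nat.beq a a = true := Nat.beq_refl a
      simp only [nxa, List.getElem_cons_zero, h1, cond_true]
      cases t with
      | nil => simp
      | cons b t => simp
    | succ j =>
      have hj : j < t.length := by simpa using hi
      have hne : t[j] ≠ a := by
        intro h1
        exact hnd.1 (h1 ▸ List.getElem_mem hj)
      have h1 : Nat.beq t[j] a = false := by
        rw [beqF]; exact hne
      simp only [nxa, List.getElem_cons_succ, h1, cond_false]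
      rw [ih hnd.2 j hj]
      simp

theorem nx_getElem (l : List ℕ) (hnd : l.Nodup) (i : ℕ) (hi : i < l.length) :
    nxE l l[i] = l[(i + 1) % l.length]'(Nat.mod_lt _ (by omega)) := by
  unfold nxE
  rw [nxa_getElem _ l hnd i hi]
  split_ifs with h
  · congr 1
    rw [Nat.mod_eq_of_lt h]
  · have h1 : i + 1 = l.length := by omega
    have h2 : l.headD 0 = l[0]'(by omega) := by
      cases l with
      | nil => simp at hi
      | cons a t => simp
    rw [h2]
    congr 1
    rw [h1, Nat.mod_self]

theorem memL_iff (x : ℕ) (l : List ℕ) : memL x l = true ↔ x ∈ l := by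
  induction l with
  | nil => simp [memL]
  | cons a t ih =>
    unfold memL
    by_cases h : x = a
    · subst h
      simp [Nat.beq_refl]
    · have h1 : Nat.beq x a = false := by rw [beqF]; exact h
      rw [h1, cond_false, ih, List.mem_cons]
      simp [h]

theorem memP_iff (x y : ℕ) (l : List (ℕ × ℕ)) : memP x y l = true ↔ (x, y) ∈ l := by
  induction l with
  | nil => simp [memP]
  | cons d t ih =>
    unfold memP
    by_cases h : (x, y) = d
    · subst h
      simp [Nat.beq_refl]
    · have h1 : (Nat.beq x d.1 && Nat.beq y d.2) = false := by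
        rw [Bool.and_eq_false_iff, beqF, beqF]
        by_contra hc
        push Not at hc
        exact h (Prod.ext hc.1 hc.2)
      rw [h1, cond_false, ih, List.mem_cons]
      simp [h]

theorem allB_iff (P : ℕ → Bool) (n : ℕ) : allB P n = true ↔ ∀ i, i < n → P i = true := by
  induction n with
  | zero => simp [allB]
  | succ n ih =>
    unfold allB
    rw [Bool.and_eq_true, ih]
    constructor
    · rintro ⟨h1, h2⟩ i hi
      rcases Nat.lt_succ_iff_lt_or_eq.mp hi with h | h
      · exact h2 i h
      · rw [h]; exact h1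
    · intro h
      exact ⟨h n (Nat.lt_succ_self n), fun i hi => h i (by omega)⟩

theorem nthL_getElem (L : List (List ℕ)) (i : ℕ) (hi : i < L.length) : nthL L i = L[i] := by
  induction L generalizing i with
  | nil => simp at hi
  | cons l t ih =>
    unfold nthL
    cases i with
    | zero => simp [Nat.beq_refl]
    | succ j =>
      have h1 : Nat.beq (j + 1) 0 = false := by rw [beqF]; omega
      rw [h1, cond_false]
      simp only [Nat.add_sub_cancel, List.getElem_cons_succ]
      exact ih j (by simpa using hi)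

theorem arrChk_perm {n : ℕ} {l : List ℕ} (h : arrChk n l = true) : (List.range n).Perm l := by
  unfold arrChk at h
  rw [Bool.and_eq_true, Nat.beq_eq, allB_iff] at h
  obtain ⟨h1, h2⟩ := h
  have hsub : List.range n ⊆ l := by
    intro i hi
    rw [List.mem_range] at hi
    exact (memL_iff i l).1 (h2 i hi)
  exact ((List.nodup_range).subperm hsub).perm_of_length_le (by rw [h1, List.length_range])

section gen
variable {D : Type} {n : ℕ} (e : D ≃ Fin n) (hn : 2 ≤ n)

/-- element number `i` of `D` -/
def phi (i : ℕ) : D := e.symm (if h : i < n then ⟨i, h⟩ else ⟨0, by omega⟩)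

theorem phi_val (x : D) : phi e hn (e x).val = x := by
  simp [phi]

theorem val_phi (i : ℕ) (h : i < n) : (e (phi e hn i)).val = i := by
  simp [phi, h]

/-- The cyclic permutation given by a list. -/
def PP [DecidableEq D] (l : List ℕ) : Equiv.Perm D := List.formPerm (l.map (phi e hn))

theorem nodup_map {l : List ℕ} (h : arrChk n l = true) : (l.map (phi e hn)).Nodup := by
  have hp := arrChk_perm h
  refine List.Nodup.map_on ?_ (hp.nodup_iff.1 List.nodup_range)
  intro x hx y hy hxy
  have hx' : x < n := List.mem_range.1 (hp.mem_iff.2 hx)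
  have hy' : y < n := List.mem_range.1 (hp.mem_iff.2 hy)
  have := congrArg (fun z => (e z).val) hxy
  simpa only [val_phi e hn x hx', val_phi e hn y hy'] using this

theorem mem_map {l : List ℕ} (h : arrChk n l = true) (x : D) : x ∈ l.map (phi e hn) := by
  have hp := arrChk_perm h
  rw [List.mem_map]
  exact ⟨(e x).val, hp.mem_iff.1 (List.mem_range.2 (e x).isLt), phi_val e hn x⟩

theorem len_map {l : List ℕ} (h : arrChk n l = true) : (l.map (phi e hn)).length = n := by
  have hp := arrChk_perm h
  rw [List.length_map, ← hp.length_eq, List.length_range]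

theorem PP_ne [DecidableEq D] {l : List ℕ} (h : arrChk n l = true) (x : D) : PP e hn l x ≠ x := by
  unfold PP
  rw [List.formPerm_apply_mem_ne_self_iff _ (nodup_map e hn h) x (mem_map e hn h x), len_map e hn h]
  exact hn

theorem PP_sameCycle [DecidableEq D] {l : List ℕ} (h : arrChk n l = true) (x y : D) :
    (PP e hn l).SameCycle x y := by
  have hc : (PP e hn l).IsCycle :=
    List.isCycle_formPerm (nodup_map e hn h) (by rw [len_map e hn h]; exact hn)
  exact hc.sameCycle (PP_ne e hn h x) (PP_ne e hn h y)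

theorem PP_val [DecidableEq D] {l : List ℕ} (h : arrChk n l = true) (x : D) :
    (e (PP e hn l x)).val = nxE l (e x).val := by
  have hp := arrChk_perm h
  have hnd : l.Nodup := hp.nodup_iff.1 List.nodup_range
  have hx : (e x).val ∈ l := hp.mem_iff.1 (List.mem_range.2 (e x).isLt)
  obtain ⟨i, hi, hix⟩ := List.getElem_of_mem hx
  have hi' : i < (l.map (phi e hn)).length := by rw [List.length_map]; exact hi
  have hx2 : (l.map (phi e hn))[i] = x := by
    rw [List.getElem_map, hix, phi_val]
  have h1 := List.formPerm_apply_getElem (l.map (phi e hn)) (nodup_map e hn h) i hi'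
  rw [hx2] at h1
  have h2 : PP e hn l x = phi e hn (l[(i + 1) % l.length]'(Nat.mod_lt _ (by omega))) := by
    unfold PP
    rw [h1, List.getElem_map]
    congr 2
    rw [List.length_map]
  rw [h2, val_phi, ← hix, nx_getElem l hnd i hi]
  exact List.mem_range.1 (hp.mem_iff.2 (List.getElem_mem _))

end gen

theorem adjChk_iff (b c : ℕ) (L : List (List ℕ)) (h : adjChk b c L = true) :
    ∃ i, ∃ hi : i < L.length, nxE L[i] b = c ∨ nxE L[i] c = b := by
  induction L with
  | nil => simp [adjChk] at h
  | cons l t ih =>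
    unfold adjChk at h
    rw [Bool.or_eq_true, Bool.or_eq_true, Nat.beq_eq, Nat.beq_eq] at h
    rcases h with h | h
    · exact ⟨0, by simp, by simpa using h⟩
    · obtain ⟨i, hi, h2⟩ := ih h
      exact ⟨i + 1, by simpa using hi, by simpa using h2⟩

/-- The rotation system of a certificate. -/
def mkRot (p q r : ℕ) (hp : 2 ≤ p) (hn : 2 ≤ q + r) (rho tau : List (List ℕ)) :
    BRot (Fin p) (Fin q ⊕ Fin r) where
  ρ a := PP finSumFinEquiv hn (nthL rho a.val)
  τ x := PP (Equiv.refl (Fin p)) hp (nthL tau (finSumFinEquiv x).val)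

theorem chk_main (p q r : ℕ) (hp : 2 ≤ p) (hn : 2 ≤ q + r) (exc : List (ℕ × ℕ))
    (rho tau : List (List ℕ)) (h : embChk p q r exc rho tau = true) :
    (mkRot p q r hp hn rho tau).Trans ∧
    (∀ (b : Fin q) (c : Fin r), ∃ a, (mkRot p q r hp hn rho tau).ρ a (Sum.inl b) = Sum.inr c ∨
      (mkRot p q r hp hn rho tau).ρ a (Sum.inr c) = Sum.inl b) ∧
    (∀ d, (mkRot p q r hp hn rho tau).face d ≠ d) ∧
    (∀ (a : Fin p) (x : Fin q ⊕ Fin r), (a.val, (finSumFinEquiv x).val) ∉ exc →
      (mkRot p q r hp hn rho tau).face ((mkRot p q r hp hn rho tau).face (a, x)) = (a, x)) := by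
  unfold embChk at h
  simp only [Bool.and_eq_true, Nat.beq_eq, allB_iff, List.all_eq_true] at h
  obtain ⟨⟨⟨⟨⟨h1, h2⟩, h3⟩, h4⟩, h5⟩, h6⟩ := h
  have hrho : ∀ a : Fin p, arrChk (q + r) (nthL rho a.val) = true := by
    intro a
    have ha : a.val < rho.length := by rw [h1]; exact a.isLt
    rw [nthL_getElem rho a.val ha]
    exact h3 _ (List.getElem_mem ha)
  have htau : ∀ i : ℕ, i < q + r → arrChk p (nthL tau i) = true := by
    intro i hi
    have ha : i < tau.length := by rw [h2]; exact hi
    rw [nthL_getElem tau i ha]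
    exact h4 _ (List.getElem_mem ha)
  have hρ : ∀ (a : Fin p) (x : Fin q ⊕ Fin r),
      (finSumFinEquiv ((mkRot p q r hp hn rho tau).ρ a x)).val =
        nxE (nthL rho a.val) (finSumFinEquiv x).val := by
    intro a x
    exact PP_val finSumFinEquiv hn (hrho a) x
  have hτ : ∀ (a : Fin p) (x : Fin q ⊕ Fin r),
      ((mkRot p q r hp hn rho tau).τ x a).val =
        nxE (nthL tau (finSumFinEquiv x).val) a.val := by
    intro a x
    exact PP_val (Equiv.refl (Fin p)) hp (htau _ (finSumFinEquiv x).isLt) a
  refine ⟨⟨?_, ?_⟩, ?_, ?_, ?_⟩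
  · intro a x y
    exact PP_sameCycle finSumFinEquiv hn (hrho a) x y
  · intro x a b
    exact PP_sameCycle (Equiv.refl (Fin p)) hp (htau _ (finSumFinEquiv x).isLt) a b
  · intro b c
    have hb := h6 b.val b.isLt c.val c.isLt
    obtain ⟨i, hi, hh⟩ := adjChk_iff _ _ _ hb
    rw [← nthL_getElem rho i hi] at hh
    refine ⟨⟨i, by rw [← h1]; exact hi⟩, ?_⟩
    rcases hh with hh | hh
    · left
      apply finSumFinEquiv.injective
      apply Fin.ext
      rw [hρ]
      simpa using hh
    · right
      apply finSumFinEquiv.injective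
      apply Fin.ext
      rw [hρ]
      simpa using hh
  · rintro ⟨a, x⟩ hd
    have := congrArg Prod.fst hd
    exact PP_ne (Equiv.refl (Fin p)) hp (htau _ (finSumFinEquiv x).isLt) a this
  · intro a x hax
    have hc := h5 a.val a.isLt (finSumFinEquiv x).val (finSumFinEquiv x).isLt
    rw [Bool.or_eq_true] at hc
    rcases hc with hc | hc
    · exact absurd ((memP_iff _ _ _).1 hc) hax
    · unfold faceChk faceChk1 faceChk2 at hc
      rw [Bool.and_eq_true, Nat.beq_eq, Nat.beq_eq] at hc
      rw [← hτ, ← hρ, ← hτ] at hc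
      obtain ⟨hc1, hc2⟩ := hc
      have e1 : (mkRot p q r hp hn rho tau).τ ((mkRot p q r hp hn rho tau).ρ
          ((mkRot p q r hp hn rho tau).τ x a) x) ((mkRot p q r hp hn rho tau).τ x a) = a :=
        Fin.ext hc1
      have e2 : (mkRot p q r hp hn rho tau).ρ a ((mkRot p q r hp hn rho tau).ρ
          ((mkRot p q r hp hn rho tau).τ x a) x) = x := by
        apply finSumFinEquiv.injective
        apply Fin.ext
        rw [hρ]
        exact hc2
      change ((mkRot p q r hp hn rho tau).τ ((mkRot p q r hp hn rho tau).ρ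
          ((mkRot p q r hp hn rho tau).τ x a) x) ((mkRot p q r hp hn rho tau).τ x a),
        (mkRot p q r hp hn rho tau).ρ ((mkRot p q r hp hn rho tau).τ ((mkRot p q r hp hn rho tau).ρ
          ((mkRot p q r hp hn rho tau).τ x a) x) ((mkRot p q r hp hn rho tau).τ x a))
          ((mkRot p q r hp hn rho tau).ρ ((mkRot p q r hp hn rho tau).τ x a) x)) = (a, x)
      rw [e1, e2]

theorem chk_count (p q r : ℕ) (hp : 2 ≤ p) (hn : 2 ≤ q + r) (exc : List (ℕ × ℕ))
    (hk : exc.length ≠ 1) (rho tau : List (List ℕ)) (h : embChk p q r exc rho tau = true) :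
    (p * (q + r) - exc.length) / 2 + (if exc.length = 0 then 0 else 1) ≤
      ncyc (mkRot p q r hp hn rho tau).face := by
  obtain ⟨-, -, h3, h4⟩ := chk_main p q r hp hn exc rho tau h
  have hne : Nonempty (Fin p × (Fin q ⊕ Fin r)) :=
    ⟨(⟨0, by omega⟩, finSumFinEquiv.symm ⟨0, by omega⟩)⟩
  have hcard : Fintype.card (Fin p × (Fin q ⊕ Fin r)) = p * (q + r) := by simp
  have key := ncyc_ge (mkRot p q r hp hn rho tau).face
    ((exc.map (fun d => ((phi (Equiv.refl (Fin p)) hp d.1 : Fin p),
      (phi finSumFinEquiv hn d.2 : Fin q ⊕ Fin r)))).toFinset) exc.length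
    (by
      refine le_trans (List.toFinset_card_le _) ?_
      rw [List.length_map]) hk ?_ h3
  · rw [hcard] at key
    exact key
  · rintro ⟨a, x⟩ hd
    apply h4
    intro hmem
    apply hd
    rw [List.mem_toFinset, List.mem_map]
    refine ⟨_, hmem, ?_⟩
    have e1 : phi (Equiv.refl (Fin p)) hp a.val = a := phi_val (Equiv.refl (Fin p)) hp a
    have e2 : phi finSumFinEquiv hn (finSumFinEquiv x).val = x := phi_val finSumFinEquiv hn x
    simp only [e1, e2]

theorem Emb_of_chk (p q r : ℕ) (hp : 2 ≤ p) (hn : 2 ≤ q + r) (exc : List (ℕ × ℕ)) (hk : exc.length ≠ 1) (rho tau : List (List ℕ))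
    (h : embChk p q r exc rho tau = true) :
    Emb p q r ((p * (q + r) - exc.length) / 2 + (if exc.length = 0 then 0 else 1)) := by
  obtain ⟨h1, h2, -, -⟩ := chk_main p q r hp hn exc rho tau h
  exact ⟨mkRot p q r hp hn rho tau, h1, h2, chk_count p q r hp hn exc hk rho tau h⟩

theorem EmbQ_of_chk (p q r : ℕ) (hp : 2 ≤ p) (hn : 2 ≤ q + r) (exc : List (ℕ × ℕ)) (hk : exc.length ≠ 1) (rho tau : List (List ℕ)) (al : ℕ)
    (h : embQChk p q r exc rho tau al = true) :
    EmbQ p q r ((p * (q + r) - exc.length) / 2 + (if exc.length = 0 then 0 else 1)) := by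
  unfold embQChk at h
  rw [Bool.and_eq_true, Bool.and_eq_true, decide_eq_true_iff, List.all_eq_true] at h
  obtain ⟨⟨h, hal⟩, hex⟩ := h
  obtain ⟨h1, h2, -, h4⟩ := chk_main p q r hp hn exc rho tau h
  refine ⟨mkRot p q r hp hn rho tau, h1, h2, chk_count p q r hp hn exc hk rho tau h, ⟨al, hal⟩, ?_⟩
  intro x
  apply h4
  intro hmem
  have := hex _ hmem
  simp at this

example : Emb 3 3 2 ((3 * (3 + 2) - 3) / 2 + 1) :=
  Emb_of_chk 3 3 2 (by norm_num) (by norm_num) [(0, 4), (1, 3), (2, 0)] (by decide)
    [[0, 4, 1, 3, 2], [0, 2, 4, 3, 1], [0, 1, 4, 2, 3]] [[0, 1, 2], [0, 2, 1], [0, 2, 1], [0, 1, 2], [0, 1, 2]]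
    (by decide +kernel)

example : Emb 4 4 3 ((4 * (4 + 3) - 4) / 2 + 1) :=
  Emb_of_chk 4 4 3 (by norm_num) (by norm_num) [(0, 4), (2, 1), (1, 5), (3, 0)] (by decide)
    [[0, 4, 3, 5, 2, 6, 1], [0, 1, 5, 2, 4, 3, 6], [0, 6, 2, 5, 3, 4, 1], [0, 1, 6, 3, 4, 2, 5]]
    [[0, 1, 2, 3], [0, 3, 2, 1], [0, 3, 1, 2], [0, 3, 1, 2], [0, 2, 1, 3], [0, 2, 1, 3], [0, 2, 1, 3]]
    (by decide +kernel)

end Pool.Agent.KS6_69.GT
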