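import Pool.Agent.KS6_69.GT.Frame

set_option autoImplicit false

namespace Pool.Agent.KS6_69.GT




section Lists

variable {α β : Type}

theorem prs_cons_cons (x y : α) (l : List α) : prs (x :: y :: l) = (x, y) :: prs (y :: l) := rfl

theorem mem_prs_cons {a b x : α} {l : List α} (h : (a, b) ∈ prs l) : (a, b) ∈ prs (x :: l) := by
  cases l with
  | nil => simp [prs] at h
  | cons y l => rw [prs_cons_cons]; exact List.mem_cons_of_mem _ h

theorem mem_prs_append_left {a b : α} {l1 l2 : List α} (h : (a, b) ∈ prs l1) :
    (a, b) ∈ prs (l1 ++ l2) := by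
  induction l1 with
  | nil => simp [prs] at h
  | cons x l1 ih =>
    cases l1 with
    | nil => simp [prs] at h
    | cons y l1 =>
      rw [prs_cons_cons, List.mem_cons] at h
      rw [List.cons_append, List.cons_append, prs_cons_cons, List.mem_cons]
      exact h.imp id (fun h => ih h)

theorem mem_prs_append_right {a b : α} {l1 l2 : List α} (h : (a, b) ∈ prs l2) :
    (a, b) ∈ prs (l1 ++ l2) := by
  induction l1 with
  | nil => exact h
  | cons x l1 ih => exact mem_prs_cons ih

theorem mem_prs_junction {a b : α} {l1 l2 : List α} (h1 : l1.getLast? = some a)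
    (h2 : l2.head? = some b) : (a, b) ∈ prs (l1 ++ l2) := by
  obtain ⟨l1', rfl⟩ := List.getLast?_eq_some_iff.1 h1
  obtain ⟨l2', rfl⟩ := List.head?_eq_some_iff.1 h2
  rw [List.append_assoc]
  apply mem_prs_append_right
  rw [List.singleton_append, prs_cons_cons]
  exact List.mem_cons_self

theorem mem_prs_map (f : α → β) {a b : α} {l : List α} (h : (a, b) ∈ prs l) :
    (f a, f b) ∈ prs (l.map f) := by
  induction l with
  | nil => simp [prs] at h
  | cons x l ih =>
    cases l with
    | nil => simp [prs] at h
    | cons y l =>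
      rw [prs_cons_cons, List.mem_cons] at h
      rw [List.map_cons, List.map_cons, prs_cons_cons, List.mem_cons]
      rcases h with h | h
      · left
        rw [Prod.mk.injEq] at h
        rw [h.1, h.2]
      · exact Or.inr (ih h)

theorem formPerm_prs [DecidableEq α] {a b : α} {l : List α} (hl : l.Nodup) (h : (a, b) ∈ prs l) :
    l.formPerm a = b := by
  obtain ⟨i, hi, h⟩ := List.mem_iff_getElem.1 h
  have hi' : i + 1 < l.length := by
    simp [prs] at hi
    omega
  have h1 : l[i] = a ∧ l[i + 1] = b := by
    simpa [prs] using h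
  rw [← h1.1, ← h1.2]
  exact List.formPerm_apply_lt_getElem l hl i hi'

theorem formPerm_closed [DecidableEq α] {a b x : α} {M : List α} (hM : M.Nodup)
    (hx : M.getLast? = some x) (h : (a, b) ∈ prs (x :: M)) : M.formPerm a = b := by
  cases M with
  | nil => simp at hx
  | cons y M =>
    rw [prs_cons_cons, List.mem_cons] at h
    rcases h with h | h
    · rw [Prod.mk.injEq] at h
      rw [h.1, h.2]
      have h1 := List.formPerm_apply_getLast y M
      rw [List.getLast?_eq_some_getLast (List.cons_ne_nil y M)] at hx
      rwa [Option.some.inj hx] at h1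
    · exact formPerm_prs hM h

theorem exists_pred {y : α} {l : List α} (h : y ∈ l) (hh : l.head? ≠ some y) :
    ∃ x, (x, y) ∈ prs l := by
  induction l with
  | nil => simp at h
  | cons z l ih =>
    have hz : z ≠ y := fun h => hh (by rw [h]; rfl)
    have hy : y ∈ l := by
      rcases List.mem_cons.1 h with h | h
      · exact absurd h.symm hz
      · exact h
    cases l with
    | nil => simp at hy
    | cons t l =>
      by_cases ht : t = y
      · subst ht
        exact ⟨z, by rw [prs_cons_cons]; exact List.mem_cons_self⟩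
      · obtain ⟨x, hx⟩ := ih hy (by simpa using ht)
        exact ⟨x, mem_prs_cons hx⟩

/-- The word `A`, followed by `e 0, lab 1, e 1, lab 2, ..., e (m - 1), lab m`. -/
def extW (A : List α) (e lab : ℕ → α) (m : ℕ) : List α :=
  A ++ (List.range m).flatMap (fun v => [e v, lab (v + 1)])

theorem extW_succ (A : List α) (e lab : ℕ → α) (m : ℕ) :
    extW A e lab (m + 1) = extW A e lab m ++ [e m, lab (m + 1)] := by
  simp [extW, List.range_succ]

theorem extW_length (A : List α) (e lab : ℕ → α) (m : ℕ) :
    (extW A e lab m).length = A.length + 2 * m := by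
  induction m with
  | zero => simp [extW]
  | succ m ih => rw [extW_succ, List.length_append, ih]; simp; ring

theorem extW_last (A : List α) (e lab : ℕ → α) (m : ℕ) (hA : A.getLast? = some (lab 0)) :
    (extW A e lab m).getLast? = some (lab m) := by
  cases m with
  | zero => simpa [extW] using hA
  | succ m => rw [extW_succ]; simp

theorem extW_prs (A : List α) (e lab : ℕ → α) (m : ℕ) (hA : A.getLast? = some (lab 0)) :
    ∀ v < m, (lab v, e v) ∈ prs (extW A e lab m) ∧ (e v, lab (v + 1)) ∈ prs (extW A e lab m) := by
  induction m with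
  | zero => intro v hv; omega
  | succ m ih =>
    intro v hv
    rw [extW_succ]
    rcases Nat.lt_or_ge v m with h | h
    · exact ⟨mem_prs_append_left (ih v h).1, mem_prs_append_left (ih v h).2⟩
    · obtain rfl : v = m := by omega
      refine ⟨mem_prs_junction (extW_last A e lab v hA) rfl, mem_prs_append_right ?_⟩
      rw [prs_cons_cons]
      exact List.mem_cons_self

theorem extW_mem (A : List α) (e lab : ℕ → α) (m : ℕ) {v : ℕ} (hv : v < m) :
    e v ∈ (extW A e lab m) ∧ lab (v + 1) ∈ (extW A e lab m) := by
  constructor <;>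
  · apply List.mem_append_right
    rw [List.mem_flatMap]
    exact ⟨v, List.mem_range.2 hv, by simp⟩

/-- `lab m, ..., lab 1`, followed by the word `A`. -/
def extV (A : List α) (lab : ℕ → α) : ℕ → List α
  | 0 => A
  | m + 1 => lab (m + 1) :: extV A lab m

theorem extV_length (A : List α) (lab : ℕ → α) (m : ℕ) :
    (extV A lab m).length = A.length + m := by
  induction m with
  | zero => rfl
  | succ m ih => rw [extV, List.length_cons, ih]; ring

theorem extV_head (A : List α) (lab : ℕ → α) (m : ℕ) (hA : A.head? = some (lab 0)) :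
    (extV A lab m).head? = some (lab m) := by
  cases m with
  | zero => exact hA
  | succ m => rfl

theorem extV_last (A : List α) (lab : ℕ → α) (m : ℕ) {x : α} (hA : A.getLast? = some x) :
    (extV A lab m).getLast? = some x := by
  induction m with
  | zero => exact hA
  | succ m ih =>
    rw [extV, List.getLast?_cons, ih]
    rfl

theorem extV_prs (A : List α) (lab : ℕ → α) (m : ℕ) (hA : A.head? = some (lab 0)) :
    ∀ v < m, (lab (v + 1), lab v) ∈ prs (extV A lab m) := by
  induction m with
  | zero => intro v hv; omega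
  | succ m ih =>
    intro v hv
    rcases Nat.lt_or_ge v m with h | h
    · exact mem_prs_cons (ih v h)
    · obtain rfl : v = m := by omega
      have h1 : (lab (v + 1), lab v) ∈ prs ([lab (v + 1)] ++ extV A lab v) :=
        mem_prs_junction rfl (extV_head A lab v hA)
      exact h1

theorem extV_mem (A : List α) (lab : ℕ → α) (m : ℕ) {v : ℕ} (hv : v < m) :
    lab (v + 1) ∈ extV A lab m := by
  induction m with
  | zero => omega
  | succ m ih =>
    rcases Nat.lt_or_ge v m with h | h
    · exact List.mem_cons_of_mem _ (ih h)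
    · obtain rfl : v = m := by omega
      exact List.mem_cons_self

theorem extV_prs_mem {A : List α} {lab : ℕ → α} {m : ℕ} {a b : α} (h : (a, b) ∈ prs A) :
    (a, b) ∈ prs (extV A lab m) := by
  induction m with
  | zero => exact h
  | succ m ih => exact mem_prs_cons ih

theorem extV_mem_mem {A : List α} {lab : ℕ → α} {m : ℕ} {a : α} (h : a ∈ A) :
    a ∈ extV A lab m := by
  induction m with
  | zero => exact h
  | succ m ih => exact List.mem_cons_of_mem _ ih

/-- A list of the length of a type which contains everything. -/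
theorem nodup_of_all [Fintype α] [DecidableEq α] (l : List α) (h1 : l.length = Fintype.card α)
    (h2 : ∀ x, x ∈ l) : l.Nodup := by
  have h3 : l.toFinset = Finset.univ := by
    ext x
    simp [h2 x]
  have h4 : (l : Multiset α).toFinset.card = Multiset.card (l : Multiset α) := by
    rw [Multiset.coe_card, h1, ← Finset.card_univ, ← h3]
    rfl
  exact Multiset.coe_nodup.1 (Multiset.toFinset_card_eq_card_iff_nodup.1 h4)

/-- The permutation given by a closed word. -/
theorem exists_closed [Fintype α] [DecidableEq α] (l : List α) {x : α} (hx : l.head? = some x)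
    (hx' : l.getLast? = some x) (h1 : l.length = Fintype.card α + 1) (h2 : ∀ x, x ∈ l) :
    ∃ f : Equiv.Perm α, (∀ a b, (a, b) ∈ prs l → f a = b) ∧ ∀ a b, f.SameCycle a b := by
  obtain ⟨M, rfl⟩ := List.head?_eq_some_iff.1 hx
  have hlen : M.length = Fintype.card α := by simpa using h1
  have hM : M.getLast? = some x := by
    cases M with
    | nil =>
      have := Fintype.card_pos_iff.2 ⟨x⟩
      simp at hlen
      omega
    | cons y M => simpa using hx'
  have hmem : ∀ y, y ∈ M := by
    intro y
    rcases List.mem_cons.1 (h2 y) with h | h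
    · rw [h]
      exact List.mem_of_getLast? hM
    · exact h
  have hnd := nodup_of_all M hlen hmem
  refine ⟨M.formPerm, fun a b hab => formPerm_closed hnd hM hab, fun a b => ?_⟩
  exact (hnd.isCycleOn_formPerm).2 (hmem a) (hmem b)

end Lists

theorem iv_length (lo : ℤ) (n : ℕ) : (iv lo n).length = n := by simp [iv]

theorem mem_iv0 {n u : ℕ} (h : u < n) : (u : ℤ) ∈ iv 0 n := by
  simp [iv]
  exact h

theorem zcast_q (q : ℕ) : ((q : ℕ) : ZMod q) = 0 := ZMod.natCast_self q

theorem exists_rho {nc q w : ℕ} [NeZero q] (D : ZMod q → Dat nc) (h1 : OneOK nc q w D)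
    (i : ZMod q) :
    ∃ f : Equiv.Perm (ZMod q ⊕ (Fin nc ⊕ Fin (q - w))),
      (∀ t t' : ℤ ⊕ Fin nc, (t, t') ∈ (D i).pa → f (cv i t) = cv i t') ∧
      (∀ v : Fin (q - w), f (Sum.inl (i + ((w + (v : ℕ) : ℕ) : ZMod q))) = Sum.inr (Sum.inr v)) ∧
      (∀ v : Fin (q - w), f (Sum.inr (Sum.inr v)) =
        Sum.inl (i + ((w + (v : ℕ) + 1 : ℕ) : ZMod q))) ∧ ∀ a b, f.SameCycle a b := by
  have hw := h1.hw
  let eN : ℕ → ZMod q ⊕ (Fin nc ⊕ Fin (q - w)) := fun v =>
    if h : v < q - w then Sum.inr (Sum.inr ⟨v, h⟩) else Sum.inl 0
  let lab : ℕ → ZMod q ⊕ (Fin nc ⊕ Fin (q - w)) := fun v => Sum.inl (i + ((w + v : ℕ) : ZMod q))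
  let A : List (ZMod q ⊕ (Fin nc ⊕ Fin (q - w))) := (D i).wa1.map (cv i)
  have hA : A.getLast? = some (lab 0) := by
    simp only [A, lab, List.getLast?_map, h1.a1l i, Option.map_some, cv, Sum.map_inl, add_zero,
      Int.cast_natCast]
  have hAh : A.head? = some (Sum.inl (i + ((0 : ℤ) : ZMod q))) := by
    simp only [A, List.head?_map, h1.a1h i, Option.map_some, cv, Sum.map_inl]
  have hlast : lab (q - w) = Sum.inl (i + ((0 : ℤ) : ZMod q)) := by
    simp only [lab]
    rw [show w + (q - w) = q by omega, zcast_q, Int.cast_zero]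
  have hlen : A.length = w + 1 + nc := by
    simp only [A, List.length_map]
    rw [(h1.aP i).length_eq, List.length_append, List.length_map, List.length_map, iv_length,
      List.length_finRange]
  have hmemA : ∀ t, t ∈ (iv 0 (w + 1)).map Sum.inl ++ (List.finRange nc).map Sum.inr →
      (cv i t : ZMod q ⊕ (Fin nc ⊕ Fin (q - w))) ∈ A := by
    intro t ht
    exact List.mem_map_of_mem ((h1.aP i).mem_iff.2 ht)
  obtain ⟨f, hf, hc⟩ := exists_closed (extW A eN lab (q - w))
    (x := Sum.inl (i + ((0 : ℤ) : ZMod q)))
    (by rw [extW, List.head?_append, hAh]; rfl)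
    (by rw [extW_last A eN lab (q - w) hA, hlast])
    (by
      rw [extW_length, hlen]
      simp only [Fintype.card_sum, ZMod.card, Fintype.card_fin]
      omega)
    (by
      rintro (c | j | v)
      · have hc : (c - i).val < q := ZMod.val_lt _
        have hc' : c = i + (((c - i).val : ℕ) : ZMod q) := by
          rw [ZMod.natCast_zmod_val]; ring
        rcases Nat.lt_or_ge (c - i).val (w + 1) with h | h
        · apply List.mem_append_left
          have h2 := hmemA (Sum.inl (((c - i).val : ℕ) : ℤ))
            (List.mem_append_left _ (List.mem_map_of_mem (mem_iv0 h)))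
          rw [cv, Sum.map_inl, Int.cast_natCast, ← hc'] at h2
          exact h2
        · have h2 := (extW_mem A eN lab (q - w) (v := (c - i).val - w - 1) (by omega)).2
          simp only [lab] at h2
          rw [show w + ((c - i).val - w - 1 + 1) = (c - i).val by omega, ← hc'] at h2
          exact h2
      · apply List.mem_append_left
        have h2 := hmemA (Sum.inr j)
          (List.mem_append_right _ (List.mem_map_of_mem (List.mem_finRange j)))
        rw [cv, Sum.map_inr] at h2
        exact h2
      · have h2 := (extW_mem A eN lab (q - w) (v := v) v.2).1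
        simp only [eN, v.2, dif_pos] at h2
        exact h2)
  refine ⟨f, fun t t' h => ?_, fun v => ?_, fun v => ?_, hc⟩
  · apply hf
    apply mem_prs_append_left
    apply mem_prs_map
    rw [Dat.pa, h1.a2 i] at h
    simpa [prs] using h
  · have h2 := hf _ _ (extW_prs A eN lab (q - w) hA v v.2).1
    simp only [eN, v.2, dif_pos] at h2
    exact h2
  · have h2 := hf _ _ (extW_prs A eN lab (q - w) hA v v.2).2
    simp only [eN, v.2, dif_pos] at h2
    exact h2

theorem exists_tau {nc q w : ℕ} [NeZero q] (D : ZMod q → Dat nc) (h1 : OneOK nc q w D)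
    (k : ZMod q) :
    ∃ g : Equiv.Perm (ZMod q),
      (∀ l l' : ℤ, (l, l') ∈ (D k).pb → g (k - (l : ZMod q)) = k - (l' : ZMod q)) ∧
      (∀ v < q - w, g (k - ((w + v + 1 : ℕ) : ZMod q)) = k - ((w + v : ℕ) : ZMod q)) ∧
      ∀ a b, g.SameCycle a b := by
  have hw := h1.hw
  let lab : ℕ → ZMod q := fun v => k - ((w + v : ℕ) : ZMod q)
  let A : List (ZMod q) := (D k).wb1.map (fun l : ℤ => k - (l : ZMod q))
  have hA : A.head? = some (lab 0) := by
    simp only [A, lab, List.head?_map, h1.b1h k, Option.map_some, add_zero, Int.cast_natCast]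
  have hAl : A.getLast? = some (k - ((0 : ℤ) : ZMod q)) := by
    simp only [A, List.getLast?_map, h1.b1l k, Option.map_some]
  have hlast : lab (q - w) = k - ((0 : ℤ) : ZMod q) := by
    simp only [lab]
    rw [show w + (q - w) = q by omega, zcast_q, Int.cast_zero]
  have hlen : A.length = w + 1 := by
    simp only [A, List.length_map]
    rw [(h1.bP k).length_eq, iv_length]
  obtain ⟨f, hf, hc⟩ := exists_closed (extV A lab (q - w)) (x := k - ((0 : ℤ) : ZMod q))
    (by rw [extV_head A lab (q - w) hA, hlast])
    (extV_last A lab (q - w) hAl)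
    (by
      rw [extV_length, hlen, ZMod.card]
      omega)
    (by
      intro c
      have hc : (k - c).val < q := ZMod.val_lt _
      have hc' : c = k - (((k - c).val : ℕ) : ZMod q) := by
        rw [ZMod.natCast_zmod_val]; ring
      rcases Nat.lt_or_ge (k - c).val (w + 1) with h | h
      · apply extV_mem_mem
        have h2 : (((k - c).val : ℕ) : ℤ) ∈ (D k).wb1 := (h1.bP k).mem_iff.2 (mem_iv0 h)
        have h3 := List.mem_map_of_mem (f := fun l : ℤ => k - (l : ZMod q)) h2
        simp only [Int.cast_natCast] at h3
        rw [← hc'] at h3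
        exact h3
      · have h2 := extV_mem A lab (q - w) (v := (k - c).val - w - 1) (by omega)
        simp only [lab] at h2
        rw [show w + ((k - c).val - w - 1 + 1) = (k - c).val by omega, ← hc'] at h2
        exact h2)
  refine ⟨f, fun t t' h => ?_, fun v hv => ?_, hc⟩
  · apply hf
    apply extV_prs_mem
    rw [Dat.pb, h1.b2 k] at h
    exact mem_prs_map (fun l : ℤ => k - (l : ZMod q)) (by simpa [prs] using h)
  · exact hf _ _ (extV_prs A lab (q - w) hA v hv)

theorem shift_cycle (q : ℕ) [NeZero q] (x y : ZMod q) :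
    Equiv.Perm.SameCycle (Equiv.subRight (1 : ZMod q)) x y := by
  refine ⟨((x - y).val : ℕ), ?_⟩
  have h : ∀ n : ℕ, ((Equiv.subRight (1 : ZMod q) : Equiv.Perm (ZMod q)) ^ n) x =
      x - (n : ZMod q) := by
    intro n
    induction n with
    | zero => simp
    | succ n ih =>
      rw [pow_succ', Equiv.Perm.mul_apply, ih]
      simp only [Equiv.subRight_apply]
      push_cast
      ring
  rw [zpow_natCast, h, ZMod.natCast_zmod_val]
  ring

/-
TARGET one_run. E = Fin (q - w): the vertex v is `e(u)` with level u = w + v, w ≤ u < q.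

ROTATION AT a_i (list L_i of ALL q + nc + (q-w) vertices, label l ↦ b_{i+l} = Sum.inl (i + l)):
  L_i = wa1 ++ [e(w), label w+1, e(w+1), label w+2, ..., label q-1, e(q-1)]          (closing up to the first element of wa1, label 0 = q).
ROTATION AT b_k (list M_k of labels, label l ↦ a_{k-l}, all q of them):
  M_k = [q-1, q-2, ..., w+1] ++ wb1        (wb1 starts with w and ends with 0; closing up to q-1).
ROTATION AT local c_j: tc j.  AT e(u): a_i ↦ a_{i-1}.
Take R.ρ i = (L_i).formPerm, R.τ (b_k) = (M_k).formPerm: L_i has length q + nc + (q-w) = card and contains everything, hence is Nodup,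
and formPerm is one cycle through everything; same for M_k (length q). (Any other construction of the permutations is fine.)

QUADS (face (a,x) = (τ x a, ρ (τ x a) x); to see face (face (a,x)) = (a,x) one needs: a' = τ_x a, y = ρ_{a'} x, τ_y a' = a, ρ_a y = x).
Let x = b_k, a = a_{k-l}, l the label, 0 ≤ l < q.
 * 1 ≤ l ≤ w: the predecessor t of l in wa1 of a exists, use quadB (if l ∈ exc the dart is exceptional, nothing to prove).
 * l = u+1 with w ≤ u < q-1, or l = 0 (u = q-1, l = u+1 mod q): at b_k, l is followed by u; at a' = a_{k-u}, label u is followed by e(u);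
   τ_{e(u)} a' = a_{k-u-1} = a; at a, e(u) is followed by label l.
 * x = local c_j: predecessor t of c_j in the word, quadC.
 * x = e(u), a = a_i: a' = a_{i-1}, y = the label after e(u) at a', which is u+1 (or 0): b_{i+u}; there the label of a' is u+1 (or 0),
   followed by u, i.e. a_i; at a_i, label u is followed by e(u).
CHORDS: for e(u) and b_k take a = a_{k-u}; for local c_j use h2.chord.
All identities between indices are identities between casts of integers in ZMod q (push_cast; ring, and (q : ZMod q) = 0).
Please split into lemmas (lists: consecutive pairs of appended lists; formPerm maps the first of a consecutive pair to the second when the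
list is Nodup, last to first).
-/
theorem one_run {nc q w : ℕ} [NeZero q] (D : ZMod q → Dat nc) (tc : Fin nc → Equiv.Perm (ZMod q))
    (h1 : OneOK nc q w D) (h2 : LocOK nc q D tc) :
    ∃ R : BRot (ZMod q) (ZMod q ⊕ (Fin nc ⊕ Fin (q - w))), Deliver D tc R := by
  have hw := h1.hw
  choose ρ hρ1 hρ2 hρ3 hρc using exists_rho D h1
  choose τ hτ1 hτ2 hτc using exists_tau D h1
  let R : BRot (ZMod q) (ZMod q ⊕ (Fin nc ⊕ Fin (q - w))) :=
    { ρ := ρ
      τ := fun x => match x with
        | Sum.inl k => τ k
        | Sum.inr (Sum.inl j) => tc j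
        | Sum.inr (Sum.inr _) => Equiv.subRight 1 }
  have hface : ∀ (a a' : ZMod q) (x y : ZMod q ⊕ (Fin nc ⊕ Fin (q - w))), R.τ x a = a' →
      R.ρ a' x = y → R.τ y a' = a → R.ρ a y = x → R.face (R.face (a, x)) = (a, x) := by
    intro a a' x y e1 e2 e3 e4
    have e5 : R.face (a, x) = (a', y) := by
      show (R.τ x a, R.ρ (R.τ x a) x) = (a', y)
      rw [e1, e2]
    rw [e5]
    show (R.τ y a', R.ρ (R.τ y a') y) = (a, x)
    rw [e3, e4]
  refine ⟨R, ?_, ?_, hρ1, hτ1, fun j i => rfl, ?_⟩
  · refine ⟨hρc, ?_⟩
    rintro (k | j | v) a b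
    · exact hτc k a b
    · exact h2.cyc j a b
    · exact shift_cycle q a b
  · rintro k (j | v)
    · obtain ⟨l, hl | hl⟩ := h2.chord k j
      · refine ⟨k - (l : ZMod q), Or.inl ?_⟩
        have h3 := hρ1 _ _ _ hl
        rw [cv, cv, Sum.map_inl, Sum.map_inr, sub_add_cancel] at h3
        exact h3
      · refine ⟨k - (l : ZMod q), Or.inr ?_⟩
        have h3 := hρ1 _ _ _ hl
        rw [cv, cv, Sum.map_inl, Sum.map_inr, sub_add_cancel] at h3
        exact h3
    · refine ⟨k - ((w + (v : ℕ) : ℕ) : ZMod q), Or.inl ?_⟩
      have h3 := hρ2 (k - ((w + (v : ℕ) : ℕ) : ZMod q)) v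
      rw [sub_add_cancel] at h3
      exact h3
  · rintro i (k | j | v) hne hnc
    · -- the darts to `b_k`
      have key : ∀ v : ℕ, v < q - w → i = k - ((w + v + 1 : ℕ) : ZMod q) →
          R.face (R.face (i, Sum.inl k)) = (i, Sum.inl k) := by
        intro v hv hi
        refine hface i (k - ((w + v : ℕ) : ZMod q)) (Sum.inl k) (Sum.inr (Sum.inr ⟨v, hv⟩)) ?_ ?_ ?_ ?_
        · rw [hi]
          exact hτ2 k v hv
        · have h3 := hρ2 (k - ((w + v : ℕ) : ZMod q)) ⟨v, hv⟩
          simp only [sub_add_cancel] at h3
          exact h3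
        · show k - ((w + v : ℕ) : ZMod q) - 1 = i
          rw [hi]
          push_cast
          ring
        · have h3 := hρ3 i ⟨v, hv⟩
          have h4 : i + ((w + v + 1 : ℕ) : ZMod q) = k := by rw [hi]; ring
          simp only [h4] at h3
          exact h3
      have hl : (k - i).val < q := ZMod.val_lt _
      have hl' : i = k - (((k - i).val : ℕ) : ZMod q) := by
        rw [ZMod.natCast_zmod_val]; ring
      rcases Nat.eq_zero_or_pos (k - i).val with h0 | hpos
      · refine key (q - w - 1) (by omega) ?_
        rw [show w + (q - w - 1) + 1 = q by omega, zcast_q]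
        rw [h0] at hl'
        simpa using hl'
      rcases Nat.lt_or_ge w (k - i).val with hgt | hle
      · refine key ((k - i).val - w - 1) (by omega) ?_
        rw [show w + ((k - i).val - w - 1) + 1 = (k - i).val by omega]
        exact hl'
      -- local labels
      obtain ⟨l, hlv⟩ : ∃ l : ℤ, l = ((k - i).val : ℕ) := ⟨_, rfl⟩
      have hkl : i + (l : ZMod q) = k := by
        rw [hlv, Int.cast_natCast, ZMod.natCast_zmod_val]; ring
      have hmem : (Sum.inl l : ℤ ⊕ Fin nc) ∈ (D i).wa1 := by
        refine (h1.aP i).mem_iff.2 (List.mem_append_left _ (List.mem_map_of_mem ?_))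
        rw [hlv]
        exact mem_iv0 (by omega)
      obtain ⟨t, ht⟩ := exists_pred hmem (by
        rw [h1.a1h i]
        intro h
        have h' := Sum.inl.inj (Option.some.inj h)
        omega)
      have ht' : (t, Sum.inl l) ∈ (D i).pa := List.mem_append_left _ ht
      rcases h2.quadB i t l ht' with hex | ⟨l', hll, hq⟩
      · rw [hkl] at hex
        exact absurd ⟨by rw [← hkl]; ring, rfl⟩ (hne k l hex)
      · rw [hkl] at hll
        have e1 : R.τ (Sum.inl k) i = k - (l' : ZMod q) := by
          have h3 := hτ1 k l l' hll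
          rw [← h3]
          show τ k i = τ k (k - (l : ZMod q))
          congr 1
          rw [← hkl]; ring
        have e0 : i + (l : ZMod q) - (l' : ZMod q) = k - (l' : ZMod q) := by rw [hkl]
        rcases t with m | j
        · obtain ⟨hq1, hq2⟩ := hq
          rw [e0] at hq1
          refine hface i (k - (l' : ZMod q)) (Sum.inl k) (Sum.inl (i + (m : ZMod q))) e1 ?_ ?_ ?_
          · have h3 := hρ1 _ _ _ hq1
            rw [cv, cv, Sum.map_inl, Sum.map_inl, sub_add_cancel] at h3
            refine h3.trans ?_
            congr 1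
            rw [← hkl]
            push_cast
            ring
          · have h3 := hτ1 _ _ _ hq2
            have h4 : i + (m : ZMod q) - ((m - l + l' : ℤ) : ZMod q) = k - (l' : ZMod q) := by
              rw [← hkl]
              push_cast
              ring
            rw [h4, add_sub_cancel_right] at h3
            exact h3
          · have h3 := hρ1 _ _ _ ht'
            rw [cv, cv, Sum.map_inl, Sum.map_inl, hkl] at h3
            exact h3
        · obtain ⟨hq1, hq2⟩ := hq
          rw [e0] at hq1 hq2
          refine hface i (k - (l' : ZMod q)) (Sum.inl k) (Sum.inr (Sum.inl j)) e1 ?_ hq2 ?_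
          · have h3 := hρ1 _ _ _ hq1
            rw [cv, cv, Sum.map_inl, Sum.map_inr, sub_add_cancel] at h3
            exact h3
          · have h3 := hρ1 _ _ _ ht'
            rw [cv, cv, Sum.map_inl, Sum.map_inr, hkl] at h3
            exact h3
    · -- the darts to the local vertices
      have hmem : (Sum.inr j : ℤ ⊕ Fin nc) ∈ (D i).wa1 :=
        (h1.aP i).mem_iff.2 (List.mem_append_right _ (List.mem_map_of_mem (List.mem_finRange j)))
      obtain ⟨t, ht⟩ := exists_pred hmem (by rw [h1.a1h i]; simp)
      have ht' : (t, Sum.inr j) ∈ (D i).pa := List.mem_append_left _ ht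
      obtain ⟨m, m', rfl, hq1, hq2, hq3⟩ := (h2.quadC i t j ht').resolve_left (hnc j rfl)
      refine hface i (tc j i) (Sum.inr (Sum.inl j)) (Sum.inl (i + (m : ZMod q))) rfl ?_ ?_ ?_
      · have h3 := hρ1 _ _ _ hq1
        rw [cv, cv, Sum.map_inl, Sum.map_inr, hq2] at h3
        exact h3
      · have h3 := hτ1 _ _ _ hq3
        rw [← hq2, add_sub_cancel_right] at h3
        rw [hq2, add_sub_cancel_right] at h3
        exact h3
      · have h3 := hρ1 _ _ _ ht'
        rw [cv, cv, Sum.map_inl, Sum.map_inr] at h3
        exact h3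
    · -- the darts to the vertices of degree two
      refine hface i (i - 1) (Sum.inr (Sum.inr v)) (Sum.inl (i + ((w + (v : ℕ) : ℕ) : ZMod q)))
        rfl ?_ ?_ ?_
      · have h3 := hρ3 (i - 1) v
        have h4 : i - 1 + ((w + (v : ℕ) + 1 : ℕ) : ZMod q) = i + ((w + (v : ℕ) : ℕ) : ZMod q) := by
          push_cast
          ring
        rw [h4] at h3
        exact h3
      · have h3 := hτ2 (i + ((w + (v : ℕ) : ℕ) : ZMod q)) v v.2
        have h4 : i + ((w + (v : ℕ) : ℕ) : ZMod q) - ((w + (v : ℕ) + 1 : ℕ) : ZMod q) = i - 1 := by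
          push_cast
          ring
        rw [h4, add_sub_cancel_right] at h3
        exact h3
      · exact hρ2 i v


end Pool.Agent.KS6_69.GT
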