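import Pool.Agent.KS6_69.GT.Frame

set_option autoImplicit false

namespace Pool.Agent.KS6_69.GT




namespace TR

section Lists

variable {α β : Type}

/-- consecutive elements -/
def Cn (l : List α) (x y : α) : Prop := [x, y] <:+: l

theorem Cn.left {l : List α} {x y : α} (h : Cn l x y) (l' : List α) : Cn (l ++ l') x y :=
  List.infix_append_of_infix_left h

theorem Cn.right {l' : List α} {x y : α} (h : Cn l' x y) (l : List α) : Cn (l ++ l') x y :=
  List.infix_append_of_infix_right h

theorem cn_junction {l l' : List α} {x y : α} (hx : l.getLast? = some x)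
    (hy : l'.head? = some y) : Cn (l ++ l') x y := by
  obtain ⟨a, rfl⟩ := List.getLast?_eq_some_iff.1 hx
  obtain ⟨b, rfl⟩ := List.head?_eq_some_iff.1 hy
  exact ⟨a, b, by simp⟩

theorem Cn.map (f : α → β) {l : List α} {x y : α} (h : Cn l x y) : Cn (l.map f) (f x) (f y) :=
  List.IsInfix.map f h

theorem Cn.mem_left {l : List α} {x y : α} (h : Cn l x y) : x ∈ l := by
  obtain ⟨a, b, rfl⟩ := h
  simp

theorem Cn.mem_right {l : List α} {x y : α} (h : Cn l x y) : y ∈ l := by
  obtain ⟨a, b, rfl⟩ := h
  simp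

theorem cn_of_prs {l : List α} {x y : α} (h : (x, y) ∈ prs l) : Cn l x y := by
  induction l with
  | nil => simp [prs] at h
  | cons a l ih =>
    cases l with
    | nil => simp [prs] at h
    | cons b l =>
      have h' : (x, y) = (a, b) ∨ (x, y) ∈ prs (b :: l) := by
        simpa [prs] using h
      rcases h' with h' | h'
      · rw [Prod.mk.injEq] at h'
        obtain ⟨rfl, rfl⟩ := h'
        exact ⟨[], l, by simp⟩
      · exact (ih h').right [a]

theorem exists_pred {l : List α} {x : α} (h : x ∈ l) (hh : l.head? ≠ some x) :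
    ∃ t, (t, x) ∈ prs l := by
  induction l with
  | nil => simp at h
  | cons a l ih =>
    have hxa : x ≠ a := by
      rintro rfl
      exact hh rfl
    have hxl : x ∈ l := (List.mem_cons.1 h).resolve_left hxa
    cases l with
    | nil => simp at hxl
    | cons b l =>
      by_cases hxb : x = b
      · subst hxb
        exact ⟨a, by simp [prs]⟩
      · obtain ⟨t, ht⟩ := ih hxl (by
          intro he
          rw [List.head?_cons, Option.some.injEq] at he
          exact hxb he.symm)
        refine ⟨t, ?_⟩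
        have : (t, x) = (a, b) ∨ (t, x) ∈ prs (b :: l) := Or.inr ht
        simpa [prs] using this

theorem fp_cn [DecidableEq α] {l : List α} (hl : l.Nodup) {x y : α} (h : Cn l x y) :
    l.formPerm x = y := by
  obtain ⟨a, b, rfl⟩ := h
  have h1 := List.formPerm_apply_lt_getElem _ hl a.length (by simp)
  simpa using h1

theorem fp_cyc [DecidableEq α] {l : List α} {x y : α} (hx : l.getLast? = some x)
    (hy : l.head? = some y) : l.formPerm x = y := by
  cases l with
  | nil => simp at hx
  | cons z l =>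
    rw [List.head?_cons, Option.some.injEq] at hy
    subst hy
    have h1 := List.formPerm_apply_getLast z l
    rw [List.getLast?_eq_some_getLast (List.cons_ne_nil _ _), Option.some.injEq] at hx
    rw [hx] at h1
    exact h1

end Lists

/-- the label of magnitude `m` on side `s` -/
def lab (X : ℤ) (s : Bool) (m : ℕ) : ℤ := if s then (m : ℤ) else X - (m : ℤ)

theorem lab_true (X : ℤ) (m : ℕ) : lab X true m = (m : ℤ) := by simp [lab]

theorem lab_false (X : ℤ) (m : ℕ) : lab X false m = X - (m : ℤ) := by simp [lab]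

/-- tokens -/
abbrev Tok (nc n : ℕ) : Type := ℤ ⊕ (Fin nc ⊕ (Bool × Fin n))

section Up

variable (nc T L2 : ℕ) (X : ℤ) (s : Bool) (w : ℕ)

/-- one step of a run -/
def piece (u : ℕ) : List (Tok nc (L2 - T)) :=
  (if h : T ≤ u ∧ u < L2 then [Sum.inr (Sum.inr (s, ⟨u - T, by omega⟩))] else []) ++
    [Sum.inl (lab X s (u + 1))]

/-- a run -/
def up : ℕ → List (Tok nc (L2 - T))
  | 0 => []
  | n + 1 => up n ++ piece nc T L2 X s (w + n)

theorem up_succ (n : ℕ) : up nc T L2 X s w (n + 1) =
    up nc T L2 X s w n ++ piece nc T L2 X s (w + n) := rfl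

variable {nc T L2 X s w}

theorem piece_last (u : ℕ) :
    (piece nc T L2 X s u).getLast? = some (Sum.inl (lab X s (u + 1))) := by
  simp [piece]

theorem up_last {P : List (Tok nc (L2 - T))} (hP : P.getLast? = some (Sum.inl (lab X s w)))
    (n : ℕ) : (P ++ up nc T L2 X s w n).getLast? = some (Sum.inl (lab X s (w + n))) := by
  cases n with
  | zero => simpa [up] using hP
  | succ n =>
    rw [up_succ, ← List.append_assoc, List.getLast?_append, piece_last]
    rfl

theorem up_cn1 {P : List (Tok nc (L2 - T))} (hP : P.getLast? = some (Sum.inl (lab X s w)))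
    (n : ℕ) : ∀ m < n, ¬ (T ≤ w + m ∧ w + m < L2) → Cn (P ++ up nc T L2 X s w n)
      (Sum.inl (lab X s (w + m))) (Sum.inl (lab X s (w + m + 1))) := by
  induction n with
  | zero => intro m hm; omega
  | succ n ih =>
    intro m hm hmT
    rw [up_succ, ← List.append_assoc]
    by_cases hmn : m = n
    · subst hmn
      refine cn_junction (up_last hP m) ?_
      rw [piece, dif_neg hmT]
      rfl
    · exact (ih m (by omega) hmT).left _

theorem up_cn2 {P : List (Tok nc (L2 - T))} (hP : P.getLast? = some (Sum.inl (lab X s w)))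
    (n : ℕ) : ∀ m < n, ∀ (h : T ≤ w + m ∧ w + m < L2), Cn (P ++ up nc T L2 X s w n)
      (Sum.inl (lab X s (w + m))) (Sum.inr (Sum.inr (s, ⟨w + m - T, by omega⟩))) ∧
      Cn (P ++ up nc T L2 X s w n) (Sum.inr (Sum.inr (s, ⟨w + m - T, by omega⟩)))
        (Sum.inl (lab X s (w + m + 1))) := by
  induction n with
  | zero => intro m hm; omega
  | succ n ih =>
    intro m hm hmT
    rw [up_succ, ← List.append_assoc]
    by_cases hmn : m = n
    · subst hmn
      refine ⟨cn_junction (up_last hP m) ?_, Cn.right ?_ _⟩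
      · rw [piece, dif_pos hmT]
        rfl
      · rw [piece, dif_pos hmT]
        exact ⟨[], [], by simp⟩
    · exact ⟨(ih m (by omega) hmT).1.left _, (ih m (by omega) hmT).2.left _⟩

theorem up_mem (n : ℕ) : ∀ m < n, Sum.inl (lab X s (w + m + 1)) ∈ up nc T L2 X s w n := by
  induction n with
  | zero => intro m hm; omega
  | succ n ih =>
    intro m hm
    rw [up_succ, List.mem_append]
    by_cases hmn : m = n
    · subst hmn
      right
      simp [piece]
    · exact Or.inl (ih m (by omega))

theorem up_mem2 (n : ℕ) : ∀ m < n, ∀ (h : T ≤ w + m ∧ w + m < L2),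
    Sum.inr (Sum.inr (s, ⟨w + m - T, by omega⟩)) ∈ up nc T L2 X s w n := by
  induction n with
  | zero => intro m hm; omega
  | succ n ih =>
    intro m hm h
    rw [up_succ, List.mem_append]
    by_cases hmn : m = n
    · subst hmn
      right
      rw [piece, dif_pos h]
      simp
    · exact Or.inl (ih m (by omega) h)

theorem up_length (n : ℕ) (hwT : w ≤ T) (hn : w + n ≤ L2) :
    (up nc T L2 X s w n).length = n + (w + n - T) := by
  induction n with
  | zero => simp [up]; omega
  | succ n ih =>
    rw [up_succ, List.length_append, ih (by omega), piece]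
    by_cases h : T ≤ w + n ∧ w + n < L2
    · rw [dif_pos h]
      simp
      omega
    · rw [dif_neg h]
      simp
      omega

end Up

section Down

variable (X : ℤ) (T w : ℕ)

/-- `lab s (T+n), ..., lab s (T+1)` -/
def down (s : Bool) : ℕ → List ℤ
  | 0 => []
  | n + 1 => lab X s (T + n + 1) :: down s n

/-- zigzag -/
def zg : Bool → ℕ → List ℤ
  | _, 0 => []
  | s, n + 1 => lab X s (w + n + 1) :: zg (!s) n

/-- side after `n` flips -/
def fl (s : Bool) (n : ℕ) : Bool := if Even n then s else !s

theorem fl_succ (s : Bool) (n : ℕ) : fl s (n + 1) = fl (!s) n := by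
  unfold fl
  by_cases h : Even n
  · rw [if_pos h, if_neg (by rw [Nat.even_add_one]; exact fun h' => h' h)]
  · rw [if_neg h, if_pos (by rw [Nat.even_add_one]; exact h), Bool.not_not]

theorem fl_zero (s : Bool) : fl s 0 = s := by simp [fl]

theorem fl_cases (s' : Bool) (n : ℕ) : s' = fl true n ∨ s' = fl false n := by
  unfold fl
  split_ifs <;> cases s' <;> simp

variable {X T w}

theorem down_head {s : Bool} {Z : List ℤ} (hZ : Z.head? = some (lab X s T)) (n : ℕ) :
    (down X T s n ++ Z).head? = some (lab X s (T + n)) := by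
  cases n with
  | zero => simpa [down] using hZ
  | succ n => rfl

theorem down_cn {s : Bool} {Z : List ℤ} (hZ : Z.head? = some (lab X s T)) (n : ℕ) :
    ∀ m < n, Cn (down X T s n ++ Z) (lab X s (T + m + 1)) (lab X s (T + m)) := by
  induction n with
  | zero => intro m hm; omega
  | succ n ih =>
    intro m hm
    have h1 : down X T s (n + 1) ++ Z = [lab X s (T + n + 1)] ++ (down X T s n ++ Z) := rfl
    rw [h1]
    by_cases hmn : m = n
    · subst hmn
      exact cn_junction rfl (down_head hZ m)
    · exact (ih m (by omega)).right _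

theorem down_length (s : Bool) (n : ℕ) : (down X T s n).length = n := by
  induction n with
  | zero => rfl
  | succ n ih => rw [down, List.length_cons, ih]

theorem zg_head (n : ℕ) : ∀ (s : Bool) {Z : List ℤ} (_ : Z.head? = some (lab X (fl s n) w)),
    (zg X w s n ++ Z).head? = some (lab X s (w + n)) := by
  intro s Z hZ
  cases n with
  | zero => simpa [zg, fl_zero] using hZ
  | succ n => rfl

theorem zg_cn (n : ℕ) : ∀ (s : Bool) {Z : List ℤ} (_ : Z.head? = some (lab X (fl s n) w)),
    ∀ m < n, Cn (zg X w s n ++ Z) (lab X (fl s (n - 1 - m)) (w + m + 1))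
      (lab X (!(fl s (n - 1 - m))) (w + m)) := by
  induction n with
  | zero => intro s Z _ m hm; omega
  | succ n ih =>
    intro s Z hZ m hm
    rw [fl_succ] at hZ
    have h1 : zg X w s (n + 1) ++ Z = [lab X s (w + n + 1)] ++ (zg X w (!s) n ++ Z) := rfl
    rw [h1]
    by_cases hmn : m = n
    · subst hmn
      have h2 : m + 1 - 1 - m = 0 := by omega
      rw [h2, fl_zero]
      exact cn_junction rfl (zg_head m (!s) hZ)
    · have h2 : n + 1 - 1 - m = (n - 1 - m) + 1 := by omega
      rw [h2, fl_succ]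
      exact (ih (!s) hZ m (by omega)).right _

theorem zg_length (n : ℕ) : ∀ s : Bool, (zg X w s n).length = n := by
  induction n with
  | zero => intro s; rfl
  | succ n ih => intro s; rw [zg, List.length_cons, ih]

end Down

section ML

variable (X : ℤ) (w T L2 : ℕ) (wb1 wb2 : List ℤ)

/-- all labels around `b_k` -/
def ML : List ℤ :=
  down X T true (L2 - T) ++ (zg X w true (T - w) ++ (wb1 ++ (down X T false (L2 - T) ++
    (zg X w false (T - w) ++ wb2))))

variable {X w T L2 wb1 wb2}

/-- the hypotheses on the words at `b_k` -/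
structure MH (X : ℤ) (w T L2 : ℕ) (wb1 wb2 : List ℤ) : Prop where
  hwT : w ≤ T
  hTL : T ≤ L2
  b1h : wb1.head? = some (if Even (T - w) then (w : ℤ) else X - (w : ℤ))
  b1l : wb1.getLast? = some (-1)
  b2h : wb2.head? = some (if Even (T - w) then X - (w : ℤ) else (w : ℤ))
  b2l : wb2.getLast? = some (X + 1)

theorem head_append {α : Type} {l l' : List α} {x : α} (h : l.head? = some x) :
    (l ++ l').head? = some x := by
  rw [List.head?_append, h]
  rfl

theorem last_append {α : Type} {l l' : List α} {x : α} (h : l'.getLast? = some x) :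
    (l ++ l').getLast? = some x := by
  rw [List.getLast?_append, h]
  rfl

theorem MH.z6 (h : MH X w T L2 wb1 wb2) : wb2.head? = some (lab X (fl false (T - w)) w) := by
  rw [h.b2h]
  unfold fl
  split_ifs <;> simp [lab]

theorem MH.z5 (h : MH X w T L2 wb1 wb2) :
    (zg X w false (T - w) ++ wb2).head? = some (lab X false T) := by
  have h1 := zg_head (X := X) (w := w) (T - w) false h.z6
  have h2 : w + (T - w) = T := by have := h.hwT; omega
  rw [h2] at h1
  exact h1

theorem MH.z4 (h : MH X w T L2 wb1 wb2) :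
    (down X T false (L2 - T) ++ (zg X w false (T - w) ++ wb2)).head? =
      some (lab X false L2) := by
  have h1 := down_head h.z5 (L2 - T)
  have h2 : T + (L2 - T) = L2 := by have := h.hTL; omega
  rw [h2] at h1
  exact h1

theorem MH.z3 (h : MH X w T L2 wb1 wb2) (Z : List ℤ) :
    (wb1 ++ Z).head? = some (lab X (fl true (T - w)) w) := by
  refine head_append ?_
  rw [h.b1h]
  unfold fl
  split_ifs <;> simp [lab]

theorem MH.z2 (h : MH X w T L2 wb1 wb2) (Z : List ℤ) :
    (zg X w true (T - w) ++ (wb1 ++ Z)).head? = some (lab X true T) := by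
  have h1 := zg_head (X := X) (w := w) (T - w) true (h.z3 Z)
  have h2 : w + (T - w) = T := by have := h.hwT; omega
  rw [h2] at h1
  exact h1

theorem MH.head (h : MH X w T L2 wb1 wb2) :
    (ML X w T L2 wb1 wb2).head? = some (lab X true L2) := by
  have h1 := down_head (h.z2 (down X T false (L2 - T) ++ (zg X w false (T - w) ++ wb2))) (L2 - T)
  have h2 : T + (L2 - T) = L2 := by have := h.hTL; omega
  rw [h2] at h1
  exact h1

theorem MH.last (h : MH X w T L2 wb1 wb2) :
    (ML X w T L2 wb1 wb2).getLast? = some (X + 1) := by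
  unfold ML
  exact last_append (last_append (last_append (last_append (last_append h.b2l))))

theorem MH.m1 (_ : MH X w T L2 wb1 wb2) {l l' : ℤ} (hl : (l, l') ∈ prs wb1 ++ prs wb2) :
    Cn (ML X w T L2 wb1 wb2) l l' := by
  rcases List.mem_append.1 hl with hl | hl
  · exact (((cn_of_prs hl).left _).right _).right _
  · exact (((((cn_of_prs hl).right _).right _).right _).right _).right _

theorem MH.m2 (h : MH X w T L2 wb1 wb2) (s : Bool) {u : ℕ} (h1 : T ≤ u) (h2 : u < L2) :
    Cn (ML X w T L2 wb1 wb2) (lab X s (u + 1)) (lab X s u) := by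
  obtain ⟨m, rfl⟩ : ∃ m, u = T + m := ⟨u - T, by omega⟩
  cases s
  · exact (((down_cn h.z5 (L2 - T) m (by omega)).right _).right _).right _
  · exact down_cn (h.z2 _) (L2 - T) m (by omega)

theorem MH.m3 (h : MH X w T L2 wb1 wb2) (s : Bool) {u : ℕ} (h1 : w ≤ u) (h2 : u < T) :
    Cn (ML X w T L2 wb1 wb2) (lab X s (u + 1)) (lab X (!s) u) := by
  obtain ⟨m, rfl⟩ : ∃ m, u = w + m := ⟨u - w, by omega⟩
  rcases fl_cases s (T - w - 1 - m) with hs | hs
  · rw [hs]
    exact ((zg_cn (T - w) true (h.z3 _) m (by omega))).right _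
  · rw [hs]
    exact ((((zg_cn (T - w) false h.z6 m (by omega))).right _).right _).right _ |>.right _

theorem MH.m4 (h : MH X w T L2 wb1 wb2) :
    Cn (ML X w T L2 wb1 wb2) (-1) (lab X false L2) :=
  ((cn_junction h.b1l h.z4).right _).right _

theorem ML_length (h : MH X w T L2 wb1 wb2) :
    (ML X w T L2 wb1 wb2).length = 2 * (L2 - w) + (wb1 ++ wb2).length := by
  have h1 := h.hwT
  have h2 := h.hTL
  simp only [ML, List.length_append, down_length, zg_length]
  omega

end ML

section LL

variable (nc T L2 : ℕ) (X : ℤ) (w : ℕ) (wa1 wa2 : List (ℤ ⊕ Fin nc))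

/-- local tokens as tokens -/
def em (nc n : ℕ) : ℤ ⊕ Fin nc → Tok nc n := Sum.map id Sum.inl

/-- all tokens around `a_i` -/
def LL : List (Tok nc (L2 - T)) :=
  (wa1.map (em nc (L2 - T)) ++ up nc T L2 X true w (L2 - w)) ++
    (wa2.map (em nc (L2 - T)) ++ up nc T L2 X false w (L2 - w))

variable {nc T L2 X w wa1 wa2}

/-- the hypotheses on the words at `a_i` -/
structure LH (nc T L2 : ℕ) (X : ℤ) (w : ℕ) (wa1 wa2 : List (ℤ ⊕ Fin nc)) : Prop where
  hwT : w ≤ T
  hTL : T ≤ L2
  a1h : wa1.head? = some (Sum.inl (X + 1))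
  a1l : wa1.getLast? = some (Sum.inl (w : ℤ))
  a2h : wa2.head? = some (Sum.inl (-1))
  a2l : wa2.getLast? = some (Sum.inl (X - (w : ℤ)))

theorem LH.p1 (h : LH nc T L2 X w wa1 wa2) :
    (wa1.map (em nc (L2 - T))).getLast? = some (Sum.inl (lab X true w)) := by
  rw [List.getLast?_map, h.a1l]
  rfl

theorem LH.p2 (h : LH nc T L2 X w wa1 wa2) :
    (wa2.map (em nc (L2 - T))).getLast? = some (Sum.inl (lab X false w)) := by
  rw [List.getLast?_map, h.a2l]
  rfl

theorem LH.l1 (_ : LH nc T L2 X w wa1 wa2) {t t' : ℤ ⊕ Fin nc}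
    (ht : (t, t') ∈ prs wa1 ++ prs wa2) :
    Cn (LL nc T L2 X w wa1 wa2) (em nc (L2 - T) t) (em nc (L2 - T) t') := by
  rcases List.mem_append.1 ht with ht | ht
  · exact (((cn_of_prs ht).map _).left _).left _
  · exact (((cn_of_prs ht).map _).left _).right _

theorem LH.l2 (h : LH nc T L2 X w wa1 wa2) (s : Bool) {u : ℕ} (h1 : w ≤ u) (h2 : u < T) :
    Cn (LL nc T L2 X w wa1 wa2) (Sum.inl (lab X s u)) (Sum.inl (lab X s (u + 1))) := by
  have hTL := h.hTL
  obtain ⟨m, rfl⟩ : ∃ m, u = w + m := ⟨u - w, by omega⟩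
  cases s
  · exact (up_cn1 h.p2 (L2 - w) m (by omega) (by omega)).right _
  · exact (up_cn1 h.p1 (L2 - w) m (by omega) (by omega)).left _

theorem LH.l3 (h : LH nc T L2 X w wa1 wa2) (s : Bool) {u : ℕ} (h1 : T ≤ u ∧ u < L2) :
    Cn (LL nc T L2 X w wa1 wa2) (Sum.inl (lab X s u))
      (Sum.inr (Sum.inr (s, ⟨u - T, by omega⟩))) ∧
    Cn (LL nc T L2 X w wa1 wa2) (Sum.inr (Sum.inr (s, ⟨u - T, by omega⟩)))
      (Sum.inl (lab X s (u + 1))) := by
  have hwT := h.hwT
  obtain ⟨m, rfl⟩ : ∃ m, u = w + m := ⟨u - w, by omega⟩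
  cases s
  · have := up_cn2 h.p2 (L2 - w) m (by omega) h1
    exact ⟨this.1.right _, this.2.right _⟩
  · have := up_cn2 h.p1 (L2 - w) m (by omega) h1
    exact ⟨this.1.left _, this.2.left _⟩

theorem LH.l4 (h : LH nc T L2 X w wa1 wa2) :
    Cn (LL nc T L2 X w wa1 wa2) (Sum.inl (lab X true L2)) (Sum.inl (-1)) := by
  have h1 := up_last h.p1 (L2 - w)
  have h2 : w + (L2 - w) = L2 := by have := h.hTL; have := h.hwT; omega
  rw [h2] at h1
  refine cn_junction h1 (head_append ?_)
  rw [List.head?_map, h.a2h]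
  rfl

theorem LH.last (h : LH nc T L2 X w wa1 wa2) :
    (LL nc T L2 X w wa1 wa2).getLast? = some (Sum.inl (lab X false L2)) := by
  have h1 := up_last h.p2 (L2 - w)
  have h2 : w + (L2 - w) = L2 := by have := h.hTL; have := h.hwT; omega
  rw [h2] at h1
  exact last_append h1

theorem LH.head (h : LH nc T L2 X w wa1 wa2) :
    (LL nc T L2 X w wa1 wa2).head? = some (Sum.inl (X + 1)) := by
  refine head_append (head_append ?_)
  rw [List.head?_map, h.a1h]
  rfl

theorem LL_length (h : LH nc T L2 X w wa1 wa2) :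
    (LL nc T L2 X w wa1 wa2).length = 2 * (L2 - w) + 2 * (L2 - T) + (wa1 ++ wa2).length := by
  have h1 := h.hwT
  have h2 := h.hTL
  simp only [LL, List.length_append, List.length_map,
    up_length (L2 - w) h1 (by omega : w + (L2 - w) ≤ L2)]
  omega

end LL

theorem mem_iv {lo : ℤ} {n : ℕ} {l : ℤ} : l ∈ iv lo n ↔ lo ≤ l ∧ l < lo + n := by
  have h : l ∈ iv lo n ↔ ∃ t : ℕ, t < n ∧ lo + (t : ℤ) = l := by
    simp [iv]
  rw [h]
  constructor
  · rintro ⟨t, ht, rfl⟩
    omega
  · rintro ⟨h1, h2⟩
    exact ⟨(l - lo).toNat, by omega, by omega⟩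

theorem length_iv (lo : ℤ) (n : ℕ) : (iv lo n).length = n := by
  simp [iv]

theorem nodup_of_cover {α : Type} [Fintype α] [DecidableEq α] {l : List α} (h : ∀ x, x ∈ l)
    (hl : l.length ≤ Fintype.card α) : l.Nodup := by
  have h1 : l.toFinset = Finset.univ := by
    ext x
    simp [h x]
  have h2 : l.toFinset.card = Fintype.card α := by rw [h1, Finset.card_univ]
  have h3 := List.toFinset_card_le l
  have h4 : (l : Multiset α).toFinset.card = Multiset.card (l : Multiset α) := by
    rw [List.toFinset_coe, Multiset.coe_card]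
    omega
  exact Multiset.coe_nodup.1 (Multiset.toFinset_card_eq_card_iff_nodup.1 h4)

theorem face_two {A N : Type} (R : BRot A N) {a a' : A} {x y : N} (h1 : R.τ x a = a')
    (h2 : R.ρ a' x = y) (h3 : R.τ y a' = a) (h4 : R.ρ a y = x) :
    R.face (R.face (a, x)) = (a, x) := by
  have e1 : R.face (a, x) = (a', y) := by
    show (R.τ x a, R.ρ (R.τ x a) x) = (a', y)
    rw [h1, h2]
  have e2 : R.face (a', y) = (a, x) := by
    show (R.τ y a', R.ρ (R.τ y a') y) = (a, x)
    rw [h3, h4]
  rw [e1, e2]

section Main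

variable {nc q : ℕ} [NeZero q] {X : ℤ} {w T L2 : ℕ}

theorem window (hX : X = 0 ∨ X = -1) (hq : (q : ℤ) = 2 * (L2 : ℤ) + 1 - X) (z : ZMod q) :
    ∃ l : ℤ, (l : ZMod q) = z ∧ X - (L2 : ℤ) ≤ l ∧ l ≤ (L2 : ℤ) := by
  have hv := ZMod.val_lt z
  have hz : ((z.val : ℕ) : ZMod q) = z := ZMod.natCast_zmod_val z
  by_cases h : (z.val : ℤ) ≤ (L2 : ℤ)
  · refine ⟨(z.val : ℤ), by rw [Int.cast_natCast, hz], ?_, h⟩
    omega
  · refine ⟨(z.val : ℤ) - q, ?_, ?_, ?_⟩
    · push_cast
      rw [hz]
      simp
    · omega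
    · omega

theorem window_cases {l : ℤ} (hX : X = 0 ∨ X = -1) (h1 : X - (L2 : ℤ) ≤ l) (h2 : l ≤ (L2 : ℤ)) :
    (X - (w : ℤ) ≤ l ∧ l ≤ (w : ℤ)) ∨ ∃ (s : Bool) (u : ℕ), w ≤ u ∧ u < L2 ∧
      l = lab X s (u + 1) := by
  by_cases h3 : (w : ℤ) < l
  · right
    refine ⟨true, (l - 1).toNat, by omega, by omega, ?_⟩
    rw [lab_true]
    push_cast
    omega
  · by_cases h4 : l < X - (w : ℤ)
    · right
      refine ⟨false, (X - l - 1).toNat, by omega, by omega, ?_⟩
      rw [lab_false]
      push_cast
      omega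
    · left
      omega

/-- conversion of tokens at `a_i` -/
def conv (nc n : ℕ) {q : ℕ} (i : ZMod q) : Tok nc n → ZMod q ⊕ (Fin nc ⊕ (Bool × Fin n)) :=
  Sum.map (fun l : ℤ => i + (l : ZMod q)) id

theorem conv_em (nc n : ℕ) {q : ℕ} (i : ZMod q) (t : ℤ ⊕ Fin nc) :
    conv nc n i (em nc n t) = cv i t := by
  cases t <;> rfl

variable (D : ZMod q → Dat nc) (tc : Fin nc → Equiv.Perm (ZMod q))

theorem mh (h1 : TwoOK nc q X w T L2 D) (k : ZMod q) :
    MH X w T L2 (D k).wb1 (D k).wb2 :=
  ⟨h1.hwT, h1.hTL, h1.b1h k, h1.b1l k, h1.b2h k, h1.b2l k⟩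

theorem lh (h1 : TwoOK nc q X w T L2 D) (k : ZMod q) :
    LH nc T L2 X w (D k).wa1 (D k).wa2 :=
  ⟨h1.hwT, h1.hTL, h1.a1h k, h1.a1l k, h1.a2h k, h1.a2l k⟩

/-- the rotation system -/
def RR (X : ℤ) (w T L2 : ℕ) : BRot (ZMod q) (ZMod q ⊕ (Fin nc ⊕ (Bool × Fin (L2 - T)))) where
  ρ i := ((LL nc T L2 X w (D i).wa1 (D i).wa2).map (conv nc (L2 - T) i)).formPerm
  τ x := match x with
    | Sum.inl k => ((ML X w T L2 (D k).wb1 (D k).wb2).map
        (fun l : ℤ => k - (l : ZMod q))).formPerm
    | Sum.inr (Sum.inl j) => tc j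
    | Sum.inr (Sum.inr (s, _)) => if s then Equiv.addRight (-1) else Equiv.addRight 1

variable {D tc}

theorem m_nodup (h1 : TwoOK nc q X w T L2 D) (k : ZMod q) :
    ((ML X w T L2 (D k).wb1 (D k).wb2).map (fun l : ℤ => k - (l : ZMod q))).Nodup ∧
      ∀ z, z ∈ (ML X w T L2 (D k).wb1 (D k).wb2).map (fun l : ℤ => k - (l : ZMod q)) := by
  have hw := h1.hw
  have hwT := h1.hwT
  have hTL := h1.hTL
  have hmem : ∀ z, z ∈ (ML X w T L2 (D k).wb1 (D k).wb2).map
      (fun l : ℤ => k - (l : ZMod q)) := by
    intro z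
    obtain ⟨l, hl, hl1, hl2⟩ := window h1.hX h1.hq (k - z)
    rw [List.mem_map]
    refine ⟨l, ?_, by rw [hl]; ring⟩
    rcases window_cases (w := w) h1.hX hl1 hl2 with h | ⟨s, u, hu1, hu2, rfl⟩
    · have h2 : l ∈ (D k).wb1 ++ (D k).wb2 := by
        rw [(h1.bP k).mem_iff, mem_iv]
        have := h1.hX
        omega
      unfold ML
      rw [List.mem_append] at h2
      simp only [List.mem_append]
      rcases h2 with h2 | h2
      · exact Or.inr (Or.inr (Or.inl h2))
      · exact Or.inr (Or.inr (Or.inr (Or.inr (Or.inr h2))))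
    · by_cases huT : T ≤ u
      · exact ((mh D h1 k).m2 s huT hu2).mem_left
      · exact ((mh D h1 k).m3 s hu1 (by omega)).mem_left
  refine ⟨nodup_of_cover hmem ?_, hmem⟩
  rw [List.length_map, ML_length (mh D h1 k), (h1.bP k).length_eq, length_iv, ZMod.card]
  have := h1.hq
  have := h1.hX
  omega

theorem l_nodup (h1 : TwoOK nc q X w T L2 D) (i : ZMod q) :
    ((LL nc T L2 X w (D i).wa1 (D i).wa2).map (conv nc (L2 - T) i)).Nodup ∧
      ∀ z, z ∈ (LL nc T L2 X w (D i).wa1 (D i).wa2).map (conv nc (L2 - T) i) := by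
  have hw := h1.hw
  have hwT := h1.hwT
  have hTL := h1.hTL
  have hmem : ∀ z, z ∈ (LL nc T L2 X w (D i).wa1 (D i).wa2).map (conv nc (L2 - T) i) := by
    intro z
    have haux : ∀ t : ℤ ⊕ Fin nc, t ∈ (D i).wa1 ++ (D i).wa2 →
        em nc (L2 - T) t ∈ LL nc T L2 X w (D i).wa1 (D i).wa2 := by
      intro t ht
      unfold LL
      rw [List.mem_append] at ht
      simp only [List.mem_append]
      rcases ht with ht | ht
      · exact Or.inl (Or.inl (List.mem_map_of_mem ht))
      · exact Or.inr (Or.inl (List.mem_map_of_mem ht))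
    rw [List.mem_map]
    rcases z with b | j | ⟨s, v⟩
    · obtain ⟨l, hl, hl1, hl2⟩ := window h1.hX h1.hq (b - i)
      refine ⟨Sum.inl l, ?_, by simp [conv, hl]⟩
      rcases window_cases (w := w) h1.hX hl1 hl2 with h | ⟨s, u, hu1, hu2, rfl⟩
      · refine haux (Sum.inl l) ?_
        rw [(h1.aP i).mem_iff, List.mem_append]
        left
        refine List.mem_map_of_mem ?_
        rw [mem_iv]
        have := h1.hX
        omega
      · by_cases huT : T ≤ u
        · exact ((lh D h1 i).l3 s ⟨huT, hu2⟩).2.mem_right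
        · exact ((lh D h1 i).l2 s hu1 (by omega)).mem_right
    · refine ⟨Sum.inr (Sum.inl j), ?_, rfl⟩
      refine haux (Sum.inr j) ?_
      rw [(h1.aP i).mem_iff, List.mem_append]
      right
      exact List.mem_map_of_mem (List.mem_finRange j)
    · refine ⟨Sum.inr (Sum.inr (s, v)), ?_, rfl⟩
      have h2 := ((lh D h1 i).l3 s (u := T + v.1) ⟨by omega, by omega⟩).1.mem_right
      have h3 : (⟨T + v.1 - T, by omega⟩ : Fin (L2 - T)) = v := Fin.ext (by simp)
      rw [h3] at h2
      exact h2
  refine ⟨nodup_of_cover hmem ?_, hmem⟩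
  rw [List.length_map, LL_length (lh D h1 i), (h1.aP i).length_eq, List.length_append,
    List.length_map, List.length_map, length_iv, List.length_finRange]
  simp only [Fintype.card_sum, Fintype.card_prod, Fintype.card_fin, Fintype.card_bool, ZMod.card]
  have := h1.hq
  have := h1.hX
  omega

theorem nb (h1 : TwoOK nc q X w T L2 D) {k a a' : ZMod q} {l l' : ℤ}
    (h : Cn (ML X w T L2 (D k).wb1 (D k).wb2) l l') (ha : a = k - (l : ZMod q))
    (ha' : a' = k - (l' : ZMod q)) : (RR D tc X w T L2).τ (Sum.inl k) a = a' := by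
  subst ha ha'
  exact fp_cn (m_nodup h1 k).1 (h.map fun l : ℤ => k - (l : ZMod q))

theorem nb_cyc (h1 : TwoOK nc q X w T L2 D) {k a a' : ZMod q}
    (ha : a = k - ((X + 1 : ℤ) : ZMod q)) (ha' : a' = k - ((lab X true L2 : ℤ) : ZMod q)) :
    (RR D tc X w T L2).τ (Sum.inl k) a = a' := by
  subst ha ha'
  refine fp_cyc ?_ ?_
  · rw [List.getLast?_map, (mh D h1 k).last]; rfl
  · rw [List.head?_map, (mh D h1 k).head]; rfl

theorem na (h1 : TwoOK nc q X w T L2 D) {i : ZMod q}
    {b b' : ZMod q ⊕ (Fin nc ⊕ (Bool × Fin (L2 - T)))} {t t' : Tok nc (L2 - T)}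
    (h : Cn (LL nc T L2 X w (D i).wa1 (D i).wa2) t t') (hb : b = conv nc (L2 - T) i t)
    (hb' : b' = conv nc (L2 - T) i t') : (RR D tc X w T L2).ρ i b = b' := by
  subst hb hb'
  exact fp_cn (l_nodup h1 i).1 (h.map _)

theorem na_cyc (h1 : TwoOK nc q X w T L2 D) {i : ZMod q}
    {b b' : ZMod q ⊕ (Fin nc ⊕ (Bool × Fin (L2 - T)))}
    (hb : b = Sum.inl (i + ((lab X false L2 : ℤ) : ZMod q)))
    (hb' : b' = Sum.inl (i + ((X + 1 : ℤ) : ZMod q))) : (RR D tc X w T L2).ρ i b = b' := by
  subst hb hb'
  refine fp_cyc ?_ ?_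
  · rw [List.getLast?_map, (lh D h1 i).last]; rfl
  · rw [List.head?_map, (lh D h1 i).head]; rfl

/-- sign of a side -/
def sg {q : ℕ} (s : Bool) : ZMod q := if s then 1 else -1

theorem sg_not {q : ℕ} (s : Bool) : (sg (!s) : ZMod q) = -sg s := by
  cases s <;> simp [sg]

theorem cast_succ {q : ℕ} (X : ℤ) (s : Bool) (u : ℕ) :
    ((lab X s (u + 1) : ℤ) : ZMod q) = ((lab X s u : ℤ) : ZMod q) + sg s := by
  cases s
  · rw [lab_false, lab_false]
    push_cast
    simp only [sg, Bool.false_eq_true, if_false]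
    ring
  · rw [lab_true, lab_true]
    push_cast
    simp only [sg, if_true]

theorem tau_e (s : Bool) (v : Fin (L2 - T)) (a : ZMod q) :
    (RR D tc X w T L2).τ (Sum.inr (Sum.inr (s, v))) a = a - sg s := by
  cases s
  · show (Equiv.addRight (1 : ZMod q)) a = a - sg false
    simp [sg]
  · show (Equiv.addRight (-1 : ZMod q)) a = a - sg true
    simp only [sg, if_true, Equiv.coe_addRight]
    ring

theorem sameCycle_add (c : ZMod q) (hc : c = 1 ∨ c = -1) (x y : ZMod q) :
    (Equiv.addRight c).SameCycle x y := by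
  have key : ∀ (n : ℕ) (z : ZMod q), ((Equiv.addRight c) ^ n) z = z + n * c := by
    intro n
    induction n with
    | zero => intro z; simp
    | succ n ih =>
      intro z
      rw [pow_succ, Equiv.Perm.mul_apply, ih]
      simp only [Equiv.coe_addRight]
      push_cast
      ring
  refine ⟨(((y - x) * c).val : ℕ), ?_⟩
  rw [zpow_natCast, key, ZMod.natCast_zmod_val]
  have hcc : c * c = 1 := by rcases hc with rfl | rfl <;> ring
  linear_combination (y - x) * hcc

theorem sameCycle_all {α : Type} [DecidableEq α] {l : List α} (hl : l.Nodup) (h : ∀ x, x ∈ l)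
    (x y : α) : l.formPerm.SameCycle x y :=
  hl.isCycleOn_formPerm.2 (h x) (h y)

/-- the quads at the labels -/
theorem quad_lab (h1 : TwoOK nc q X w T L2 D) (h2 : LocOK nc q D tc) (i k : ZMod q)
    (hexc : ∀ l : ℤ, l ∈ (D k).exc → i ≠ k - (l : ZMod q)) :
    (RR D tc X w T L2).face ((RR D tc X w T L2).face (i, Sum.inl k)) = (i, Sum.inl k) := by
  obtain ⟨l, hl, hl1, hl2⟩ := window h1.hX h1.hq (k - i)
  have hX := h1.hX
  have hw := h1.hw
  have hqz : ((q : ℤ) : ZMod q) = 0 := by simp
  have hq' : (2 * (L2 : ZMod q) + 1 - (X : ZMod q)) = 0 := by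
    have := congrArg (fun z : ℤ => (z : ZMod q)) h1.hq
    simp only [hqz] at this
    push_cast at this
    exact this.symm
  rcases window_cases (w := w) h1.hX hl1 hl2 with h | ⟨s, u, hu1, hu2, rfl⟩
  · -- local labels
    by_cases hj1 : l = -1
    · -- junction
      subst hj1
      have hk : k = i - 1 := by push_cast at hl; linear_combination hl.symm
      refine face_two _ (a' := k - ((lab X false L2 : ℤ) : ZMod q))
        (y := Sum.inl (k - ((lab X false L2 : ℤ) : ZMod q) + ((X + 1 : ℤ) : ZMod q))) ?_ ?_ ?_ ?_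
      · refine nb h1 (mh D h1 k).m4 ?_ rfl
        rw [hk]; push_cast; ring
      · refine na_cyc h1 ?_ rfl
        congr 1
        ring
      · refine nb_cyc h1 ?_ ?_
        · ring
        · rw [lab_false, lab_true, hk]
          push_cast
          ring
      · refine na h1 (lh D h1 i).l4 ?_ ?_
        · show _ = Sum.inl (i + ((lab X true L2 : ℤ) : ZMod q))
          congr 1
          rw [lab_false, lab_true, hk]
          push_cast
          ring
        · show _ = Sum.inl (i + ((-1 : ℤ) : ZMod q))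
          congr 1
          rw [hk]; push_cast; ring
    by_cases hj2 : l = X + 1
    · subst hj2
      have hk : k = i + X + 1 := by push_cast at hl; linear_combination hl.symm
      refine face_two _ (a' := k - ((lab X true L2 : ℤ) : ZMod q))
        (y := Sum.inl (k - ((lab X true L2 : ℤ) : ZMod q) + ((-1 : ℤ) : ZMod q))) ?_ ?_ ?_ ?_
      · refine nb_cyc h1 ?_ rfl
        rw [hk]; push_cast; ring
      · refine na h1 (lh D h1 _).l4 ?_ ?_
        · show _ = Sum.inl (_ + ((lab X true L2 : ℤ) : ZMod q))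
          congr 1
          ring
        · rfl
      · refine nb h1 (mh D h1 _).m4 ?_ ?_
        · ring
        · rw [lab_false, lab_true, hk]
          push_cast
          ring
      · refine na_cyc h1 ?_ ?_
        · congr 1
          rw [lab_false, lab_true, hk]
          push_cast
          ring
        · congr 1
          rw [hk]; push_cast; ring
    -- a real local label
    have hmem : (Sum.inl l : ℤ ⊕ Fin nc) ∈ (D i).wa1 ++ (D i).wa2 := by
      rw [(h1.aP i).mem_iff, List.mem_append]
      left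
      refine List.mem_map_of_mem ?_
      rw [mem_iv]
      omega
    obtain ⟨t, ht⟩ : ∃ t, (t, (Sum.inl l : ℤ ⊕ Fin nc)) ∈ (D i).pa := by
      unfold Dat.pa
      rcases List.mem_append.1 hmem with hm | hm
      · obtain ⟨t, ht⟩ := exists_pred hm (by
          rw [h1.a1h i]
          intro he
          rw [Option.some.injEq, Sum.inl.injEq] at he
          exact hj2 he.symm)
        exact ⟨t, List.mem_append_left _ ht⟩
      · obtain ⟨t, ht⟩ := exists_pred hm (by
          rw [h1.a2h i]
          intro he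
          rw [Option.some.injEq, Sum.inl.injEq] at he
          exact hj1 he.symm)
        exact ⟨t, List.mem_append_right _ ht⟩
    have hk : i + (l : ZMod q) = k := by rw [hl]; ring
    have hB := h2.quadB i t l ht
    rw [hk] at hB
    rcases hB with hB | ⟨l', hB1, hB2⟩
    · exact absurd (by rw [hl]; ring) (hexc l hB)
    have htau : (RR D tc X w T L2).τ (Sum.inl k) i = k - (l' : ZMod q) :=
      nb h1 ((mh D h1 k).m1 hB1) (by rw [hl]; ring) rfl
    have hrho : ∀ b, b = cv i t → (RR D tc X w T L2).ρ i b = Sum.inl k := by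
      intro b hb
      refine na h1 ((lh D h1 i).l1 ht) (by rw [conv_em]; exact hb) ?_
      rw [conv_em]
      show _ = Sum.inl (i + (l : ZMod q))
      rw [hk]
    cases t with
    | inl m =>
      simp only [quadAt] at hB2
      rw [hk] at hB2
      refine face_two _ (a' := k - (l' : ZMod q)) (y := Sum.inl (i + (m : ZMod q))) htau ?_ ?_
        (hrho _ rfl)
      · refine na h1 ((lh D h1 _).l1 hB2.1) ?_ ?_
        · rw [conv_em]
          show _ = Sum.inl (_ + (l' : ZMod q))
          congr 1
          ring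
        · rw [conv_em]
          show _ = Sum.inl (_ + ((m - l + l' : ℤ) : ZMod q))
          congr 1
          rw [← hk]
          push_cast
          ring
      · refine nb h1 ((mh D h1 _).m1 hB2.2) ?_ ?_
        · rw [← hk]; push_cast; ring
        · ring
    | inr j =>
      simp only [quadAt] at hB2
      rw [hk] at hB2
      refine face_two _ (a' := k - (l' : ZMod q)) (y := Sum.inr (Sum.inl j)) htau ?_ hB2.2
        (hrho _ rfl)
      refine na h1 ((lh D h1 _).l1 hB2.1) ?_ ?_
      · rw [conv_em]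
        show _ = Sum.inl (_ + (l' : ZMod q))
        congr 1
        ring
      · rw [conv_em]; rfl
  · -- nonlocal labels
    rw [cast_succ] at hl
    by_cases huT : T ≤ u
    · refine face_two _ (a' := k - ((lab X s u : ℤ) : ZMod q))
        (y := Sum.inr (Sum.inr (s, ⟨u - T, by omega⟩))) ?_ ?_ ?_ ?_
      · refine nb h1 ((mh D h1 k).m2 s huT hu2) ?_ rfl
        rw [cast_succ, hl]; ring
      · refine na h1 ((lh D h1 _).l3 s ⟨huT, hu2⟩).1 ?_ rfl
        show _ = Sum.inl (_ + ((lab X s u : ℤ) : ZMod q))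
        congr 1
        ring
      · rw [tau_e]
        linear_combination -hl
      · refine na h1 ((lh D h1 i).l3 s ⟨huT, hu2⟩).2 rfl ?_
        show _ = Sum.inl (i + ((lab X s (u + 1) : ℤ) : ZMod q))
        congr 1
        rw [cast_succ, hl]; ring
    · refine face_two _ (a' := k - ((lab X (!s) u : ℤ) : ZMod q))
        (y := Sum.inl (k - sg s)) ?_ ?_ ?_ ?_
      · refine nb h1 ((mh D h1 k).m3 s hu1 (by omega)) ?_ rfl
        rw [cast_succ, hl]; ring
      · refine na h1 ((lh D h1 _).l2 (!s) hu1 (by omega)) ?_ ?_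
        · show _ = Sum.inl (_ + ((lab X (!s) u : ℤ) : ZMod q))
          congr 1
          ring
        · show _ = Sum.inl (_ + ((lab X (!s) (u + 1) : ℤ) : ZMod q))
          congr 1
          rw [cast_succ, sg_not]; ring
      · refine nb h1 ((mh D h1 _).m3 (!s) hu1 (by omega)) ?_ ?_
        · rw [cast_succ, sg_not]; ring
        · rw [Bool.not_not]
          linear_combination hl
      · refine na h1 ((lh D h1 i).l2 s hu1 (by omega)) ?_ ?_
        · show _ = Sum.inl (i + ((lab X s u : ℤ) : ZMod q))
          congr 1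
          linear_combination -hl
        · show _ = Sum.inl (i + ((lab X s (u + 1) : ℤ) : ZMod q))
          congr 1
          rw [cast_succ, hl]; ring

end Main

end TR

/-
TARGET two_run. Write `lab s m` for the label `m` (s = true) or `X - m` (s = false), m a natural 'magnitude'.
E = Bool × Fin (L2 - T): the vertex `(s, v)` is `e(s, u)` with level u = T + v, T ≤ u < L2.

ROTATION AT a_i (list L_i of ALL q + nc + 2(L2-T) vertices, mapped by the obvious conversion: label l ↦ b_{i+l} = Sum.inl (i + l)):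
  L_i = wa1 ++ up true ++ wa2 ++ up false,
  up s = for u = w, ..., L2-1: [e(s,u) if u ≥ T] ++ [label lab s (u+1)].
(so w → w+1 → ... → T → e(+,T) → T+1 → e(+,T+1) → ... → L2 → (first of wa2) -1 → ... → X-w → X-w-1 → ... → X-L2 → (first of wa1) X+1.)
ROTATION AT b_k (list M_k of labels, label l ↦ a_{k-l}, all q of them):
  M_k = [lab true m : m = L2, L2-1, ..., T+1] ++ zig true ++ wb1 ++ [lab false m : m = L2, ..., T+1] ++ zig false ++ wb2,
  zig s = [lab s T, lab (!s) (T-1), lab s (T-2), ...] with magnitudes T, T-1, ..., w+1 (T - w entries, alternating sides).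
(the element after zig true has magnitude w and is on side true iff T-w is even: it is the first element of wb1 by b1h; similarly wb2.
 The last element of wb1 is -1, followed by lab false L2 = X - L2 (or by the next nonempty piece); the last of wb2 is X+1, followed cyclically by L2.)
ROTATION AT local c_j: tc j.  AT e(true,u): a_i ↦ a_{i-1}.  AT e(false,u): a_i ↦ a_{i+1}.
Take R.ρ i = (L_i).formPerm, R.τ (b_k) = (M_k).formPerm: L_i has length q + nc + 2(L2-T) = card and contains everything, hence is Nodup,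
and formPerm is one cycle through everything; same for M_k (length q). (Any other construction of the permutations is fine.)

QUADS (face (a,x) = (τ x a, ρ (τ x a) x); to see face (face (a,x)) = (a,x) one needs: a' = τ_x a, y = ρ_{a'} x, τ_y a' = a, ρ_a y = x).
Let x = b_k, a = a_{k-l}, l the label (in the window [X-L2, L2]).
 * l local and not an entry (l ≠ X+1, -1; local: X-w ≤ l ≤ w): then the predecessor t of l in wa1/wa2 of a exists, use quadB
   (if l ∈ exc the dart is exceptional, nothing to prove).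
 * S-corners: l = lab s (u+1), w ≤ u < T: at b_k, lab s (u+1) is followed by lab (!s) u; at a' = a_{k - lab (!s) u}, label lab (!s) u is
   followed by lab (!s) (u+1), which is the vertex b_{k-1} (s = true) or b_{k+1} (s = false); there the label of a' is lab (!s) (u+1),
   followed by lab s u, which is a; at a, lab s u is followed by lab s (u+1). (The first/last elements of the words make this true for u = w too.)
 * R-corners: l = lab s (u+1), T ≤ u < L2: at b_k followed by lab s u; at a' = a_{k - lab s u}, followed by e(s,u); τ_{e(s,u)} a' = a; at a,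
   e(s,u) is followed by lab s (u+1).
 * junction: l = -1: at b_k followed by X - L2; at a' = a_{k-X+L2}, X-L2 is followed by X+1, i.e. y = b_{k+L2+1}; there the label of a' is X+1,
   followed by L2: that is a = a_{k+1}; at a, L2 is followed by -1. Symmetrically l = X+1: followed by L2, etc.
 * x = local c_j: predecessor t of c_j in the word, quadC.
 * x = e(s,u), a = a_i: a' = a_{i-1} (s = true; a_{i+1} for s = false), y = b with label lab s (u+1) at a' = b_{i + lab s u}; there the label
   of a' is lab s (u+1), followed by lab s u, i.e. a_i; at a_i, lab s u is followed by e(s,u).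
CHORDS: for e(s,u) and b_k take a = a_{k - lab s u}; for local c_j use h2.chord.
All identities between indices are identities between casts of integers in ZMod q (push_cast; ring); q = 2 L2 + 1 - X is used only in
'every element of ZMod q is the cast of exactly one integer of [X-L2, L2]'.
Please split into lemmas; lemmas about lists (consecutive pairs of appended lists, formPerm maps the first of a consecutive pair to the second
when the list is Nodup, last to first) are useful also for `one_run`.
-/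
theorem two_run {nc q : ℕ} [NeZero q] {X : ℤ} {w T L2 : ℕ} (D : ZMod q → Dat nc) (tc : Fin nc → Equiv.Perm (ZMod q))
    (h1 : TwoOK nc q X w T L2 D) (h2 : LocOK nc q D tc) :
    ∃ R : BRot (ZMod q) (ZMod q ⊕ (Fin nc ⊕ (Bool × Fin (L2 - T)))), Deliver D tc R := by
  refine ⟨TR.RR D tc X w T L2, ⟨?_, ?_⟩, ?_, ?_, ?_, ?_, ?_⟩
  · intro a x y
    exact TR.sameCycle_all (TR.l_nodup h1 a).1 (TR.l_nodup h1 a).2 x y
  · intro x a b
    rcases x with k | j | ⟨s, v⟩
    · exact TR.sameCycle_all (TR.m_nodup h1 k).1 (TR.m_nodup h1 k).2 a b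
    · exact h2.cyc j a b
    · cases s
      · exact TR.sameCycle_add 1 (Or.inl rfl) a b
      · exact TR.sameCycle_add (-1) (Or.inr rfl) a b
  · intro b c
    rcases c with j | ⟨s, v⟩
    · obtain ⟨l, hl | hl⟩ := h2.chord b j
      · refine ⟨b - (l : ZMod q), Or.inl ?_⟩
        refine TR.na h1 ((TR.lh D h1 _).l1 hl) ?_ ?_
        · rw [TR.conv_em]
          show _ = Sum.inl (_ + (l : ZMod q))
          congr 1
          ring
        · rw [TR.conv_em]; rfl
      · refine ⟨b - (l : ZMod q), Or.inr ?_⟩
        refine TR.na h1 ((TR.lh D h1 _).l1 hl) ?_ ?_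
        · rw [TR.conv_em]; rfl
        · rw [TR.conv_em]
          show _ = Sum.inl (_ + (l : ZMod q))
          congr 1
          ring
    · have hv := v.2
      have h3 : (⟨T + v.1 - T, by omega⟩ : Fin (L2 - T)) = v := Fin.ext (by simp)
      refine ⟨b - ((TR.lab X s (T + v.1) : ℤ) : ZMod q), Or.inl ?_⟩
      refine TR.na h1 ((TR.lh D h1 _).l3 s (u := T + v.1) ⟨by omega, by omega⟩).1 ?_ ?_
      · show _ = Sum.inl (_ + ((TR.lab X s (T + v.1) : ℤ) : ZMod q))
        congr 1
        ring
      · rw [h3]; rfl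
  · intro i t t' ht
    exact TR.na h1 ((TR.lh D h1 i).l1 ht) (TR.conv_em _ _ _ _).symm (TR.conv_em _ _ _ _).symm
  · intro k l l' hl
    exact TR.nb h1 ((TR.mh D h1 k).m1 hl) rfl rfl
  · intro j i
    rfl
  · intro i x hx hnc
    rcases x with k | j | ⟨s, v⟩
    · exact TR.quad_lab h1 h2 i k fun l hl he => hx k l hl ⟨he, rfl⟩
    · have hmem : (Sum.inr j : ℤ ⊕ Fin nc) ∈ (D i).wa1 ++ (D i).wa2 := by
        rw [(h1.aP i).mem_iff, List.mem_append]
        right
        exact List.mem_map_of_mem (List.mem_finRange j)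
      obtain ⟨t, ht⟩ : ∃ t, (t, (Sum.inr j : ℤ ⊕ Fin nc)) ∈ (D i).pa := by
        unfold Dat.pa
        rcases List.mem_append.1 hmem with hm | hm
        · obtain ⟨t, ht⟩ := TR.exists_pred hm (by rw [h1.a1h i]; simp)
          exact ⟨t, List.mem_append_left _ ht⟩
        · obtain ⟨t, ht⟩ := TR.exists_pred hm (by rw [h1.a2h i]; simp)
          exact ⟨t, List.mem_append_right _ ht⟩
      obtain ⟨m, m', rfl, c1, c2, c3⟩ := (h2.quadC i t j ht).resolve_left (hnc j rfl)
      refine TR.face_two _ (a' := tc j i) (y := Sum.inl (i + (m : ZMod q))) rfl ?_ ?_ ?_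
      · refine TR.na h1 ((TR.lh D h1 _).l1 c1) (by rw [TR.conv_em]; rfl) ?_
        rw [TR.conv_em]
        show _ = Sum.inl (_ + (m' : ZMod q))
        rw [c2]
      · refine TR.nb h1 ((TR.mh D h1 _).m1 c3) ?_ ?_
        · rw [← c2]; ring
        · ring
      · exact TR.na h1 ((TR.lh D h1 i).l1 ht) (by rw [TR.conv_em]; rfl)
          (by rw [TR.conv_em]; rfl)
    · have hv := v.2
      have h3 : (⟨T + v.1 - T, by omega⟩ : Fin (L2 - T)) = v := Fin.ext (by simp)
      have hl3 : ∀ a, _ := fun a => (TR.lh D h1 a).l3 s (u := T + v.1) ⟨by omega, by omega⟩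
      simp only [h3] at hl3
      refine TR.face_two _ (a' := i - TR.sg s)
        (y := Sum.inl (i + ((TR.lab X s (T + v.1) : ℤ) : ZMod q))) (TR.tau_e _ _ _) ?_ ?_ ?_
      · refine TR.na h1 (hl3 _).2 rfl ?_
        show _ = Sum.inl (_ + ((TR.lab X s (T + v.1 + 1) : ℤ) : ZMod q))
        congr 1
        rw [TR.cast_succ]; ring
      · refine TR.nb h1 ((TR.mh D h1 _).m2 s (u := T + v.1) (by omega) (by omega)) ?_ ?_
        · rw [TR.cast_succ]; ring
        · ring
      · exact TR.na h1 (hl3 i).1 rfl rfl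


end Pool.Agent.KS6_69.GT

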