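import Pool.Agent.KS6_69.GT.SpChk
import Pool.Agent.KS6_69.GT.Decode
import Pool.Agent.KS6_69.GT.TwoRun
import Pool.Agent.KS6_69.GT.OneRun
import Pool.Agent.KS6_69.GT.FrameEmb

set_option autoImplicit false

namespace Pool.Agent.KS6_69.GT



theorem inst_gen {nc q : ℕ} [NeZero q] {E : Type} [Fintype E] [DecidableEq E] (p : Pat nc)
    (tc : Fin nc → Equiv.Perm (ZMod q)) (R0 : BRot (ZMod q) (ZMod q ⊕ (Fin nc ⊕ E)))
    (h : Deliver (fun i => (p.nth i.val).d) tc R0)
    (htc : ∀ (j : Fin nc) (i : ZMod q), tc j i = i + (((p.nth i.val).st.getD j.1 0 : ℤ) : ZMod q))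
    (r k : ℕ) (hr : r = nc + Fintype.card E) (hq3 : 3 ≤ q)
    (hk : p.nexc = k) (hk1 : k ≠ 1) (hkq : k < q) (hper : p.perOK = true) (hP : 0 < p.per.length) :
    EmbQ q q r ((q * (q + r) - k) / 2 + (if k = 0 then 0 else 1)) ∧
    ∀ (S : SpD nc) (R' m : ℕ), 2 ≤ m → S.i0 < q → S.chk R' q (p.acc q S.i0) = true →
      Blk m (q + r) (S.offs.map Prod.snd) →
      Emb (q + m - 1) q r ((q * (q + r) - k) / 2 + (if k = 0 then 0 else 1) +
        ((m + 1) * (q + r) + S.offs.length) / 2 - (q + r)) := by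
  subst hk
  have hsum : q * (q + nc + Fintype.card E) = q * (q + r) := by rw [hr, Nat.add_assoc]
  have hF := frame_ncyc p tc R0 h hper hk1 hP (by omega)
  have hQ := frame_embQ p tc R0 h hper hk1 hP (by omega) hkq
  rw [hsum] at hF hQ
  rw [← hr] at hQ
  refine ⟨hQ, ?_⟩
  intro S R' m hm hi hc hB
  obtain ⟨α, x, s, γ, u, d, M, hSp, hMc, hoffs⟩ := sp_of_chk p S R' tc R0 h htc hi hc
  have hcC : Fintype.card (Fin nc ⊕ E) = r := by
    rw [Fintype.card_sum, Fintype.card_fin, hr]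
  have hcq : Fintype.card (ZMod q) = q := ZMod.card q
  have key := special_emb R0 h.trans h.chord α x s γ u d M hSp m (q + r) _ hm
    (by rw [hcC, hcq]) (by omega) (by rw [hcq]; exact hq3) (S.offs.map Prod.snd) hoffs hB hF
  rw [hcC, hcq, hMc] at key
  exact key

theorem all_per {nc : ℕ} (p : Pat nc) (f : Dat nc → Bool) (h : p.all f = true) :
    0 < p.per.length := by
  unfold Pat.all at h
  rw [Bool.and_eq_true] at h
  exact of_decide_eq_true h.2

/-
TARGETS inst_two, inst_one: plug everything together.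
decode_loc gives tc and LocOK; decode_two / decode_one the shape; two_run / one_run a rotation system with Deliver; frame_embQ the first claim
(card of E is 2 (L2 - T) resp. q - w); frame_ncyc, sp_of_chk and special_emb the second one (F := the count of frame_ncyc, B := ZMod q, C := Fin nc ⊕ E).
-/
theorem inst_two {nc : ℕ} (p : Pat nc) (R q : ℕ) (X : ℤ) (w T L2 r k : ℕ) (hX : X = 0 ∨ X = -1)
    (hq : (q : ℤ) = 2 * (L2 : ℤ) + 1 - X) (hw : 1 ≤ w) (hwT : w ≤ T) (hTL : T ≤ L2) (hr : r = nc + 2 * (L2 - T)) (hq3 : 3 ≤ q)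
    (hk : p.nexc = k) (hk1 : k ≠ 1) (hkq : k < q) (hper : p.perOK = true)
    (hsh : p.all (shTwo X w (decide (Even (T - w)))) = true) (hloc : p.loc R q = true) (hconn : p.conn q = true) :
    EmbQ q q r ((q * (q + r) - k) / 2 + (if k = 0 then 0 else 1)) ∧
    ∀ (S : SpD nc) (R' m : ℕ), 2 ≤ m → S.i0 < q → S.chk R' q (p.acc q S.i0) = true → Blk m (q + r) (S.offs.map Prod.snd) →
      Emb (q + m - 1) q r ((q * (q + r) - k) / 2 + (if k = 0 then 0 else 1) + ((m + 1) * (q + r) + S.offs.length) / 2 - (q + r)) := by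
  have : NeZero q := ⟨by omega⟩
  obtain ⟨tc, hL, htc⟩ := decode_loc p R q hloc hconn
  obtain ⟨R0, h0⟩ := two_run (fun i => (p.nth i.val).d) tc
    (decode_two p q X w T L2 hX hq hw hwT hTL hsh) hL
  exact inst_gen p tc R0 h0 htc r k (by rw [hr, Fintype.card_prod, Fintype.card_bool,
    Fintype.card_fin]) hq3 hk hk1 hkq hper (all_per p _ hsh)

theorem inst_one {nc : ℕ} (p : Pat nc) (R q w r k : ℕ) (hw : w < q) (hr : r = nc + (q - w)) (hq3 : 3 ≤ q)
    (hk : p.nexc = k) (hk1 : k ≠ 1) (hkq : k < q) (hper : p.perOK = true)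
    (hsh : p.all (shOne w) = true) (hloc : p.loc R q = true) (hconn : p.conn q = true) :
    EmbQ q q r ((q * (q + r) - k) / 2 + (if k = 0 then 0 else 1)) ∧
    ∀ (S : SpD nc) (R' m : ℕ), 2 ≤ m → S.i0 < q → S.chk R' q (p.acc q S.i0) = true → Blk m (q + r) (S.offs.map Prod.snd) →
      Emb (q + m - 1) q r ((q * (q + r) - k) / 2 + (if k = 0 then 0 else 1) + ((m + 1) * (q + r) + S.offs.length) / 2 - (q + r)) := by
  have : NeZero q := ⟨by omega⟩
  obtain ⟨tc, hL, htc⟩ := decode_loc p R q hloc hconn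
  obtain ⟨R0, h0⟩ := one_run (fun i => (p.nth i.val).d) tc (decode_one p q w hw hsh) hL
  exact inst_gen p tc R0 h0 htc r k (by rw [hr, Fintype.card_fin]) hq3 hk hk1 hkq hper
    (all_per p _ hsh)


end Pool.Agent.KS6_69.GT
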