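import Pool.Agent.KS6_69.GT.Frame

set_option autoImplicit false

/-!
Eventually periodic tables of local data, and the (boolean) local checks.
-/

namespace Pool.Agent.KS6_69.GT

/-- Local data together with the steps of the rotations of the local `c`'s: `st[j] = s` means that `c_j` maps `a_i` to `a_{i+s}`,
`ps[j] = s` means that the inverse of its rotation maps `a_i` to `a_{i+s}`. -/
structure PD (nc : ℕ) where
  d : Dat nc
  st : List ℤ
  ps : List ℤ

def PD.nil (nc : ℕ) : PD nc := ⟨⟨[], [], [], [], [], []⟩, [], []⟩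

/-- An eventually periodic table: `zone`, then `per` repeated. -/
structure Pat (nc : ℕ) where
  zone : List (PD nc)
  per : List (PD nc)

variable {nc : ℕ}

def Pat.nth (p : Pat nc) (i : ℕ) : PD nc :=
  if i < p.zone.length then p.zone.getD i (PD.nil nc)
  else p.per.getD ((i - p.zone.length) % p.per.length) (PD.nil nc)

/-- The data at distance `e` of the position `i`, positions modulo `q`. -/
def Pat.acc (p : Pat nc) (q i : ℕ) (e : ℤ) : PD nc := p.nth (((i : ℤ) + e) % (q : ℤ)).toNat

/-- Local check of the quadrangles behind the corners of `a_0`, in terms of the data `D e` at distance `e`. -/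
def okB (D : ℤ → PD nc) : Bool :=
  (D 0).d.pa.all fun pr =>
    match pr.2 with
    | Sum.inl l => (D l).d.exc.contains l || (D l).d.pb.any fun lr => lr.1 == l &&
        (match pr.1 with
          | Sum.inl m => (D (l - lr.2)).d.pa.contains (Sum.inl lr.2, Sum.inl (m - l + lr.2)) &&
              (D m).d.pb.contains (m - l + lr.2, m)
          | Sum.inr j => (D (l - lr.2)).d.pa.contains (Sum.inl lr.2, Sum.inr j) &&
              (D (l - lr.2)).st.getD j.1 0 == lr.2 - l)
    | Sum.inr j => (D 0).d.excc.contains j ||
        (match pr.1 with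
          | Sum.inl m => (D ((D 0).st.getD j.1 0)).d.pa.any fun tr => tr.1 == Sum.inr j &&
              (match tr.2 with
                | Sum.inl m' => (D 0).st.getD j.1 0 + m' == m && (D m).d.pb.contains (m', m)
                | Sum.inr _ => false)
          | Sum.inr _ => false)

/-- The steps are those of a permutation and of its inverse. -/
def okS (D : ℤ → PD nc) : Bool :=
  (List.finRange nc).all fun j =>
    (D ((D 0).st.getD j.1 0)).ps.getD j.1 0 == - (D 0).st.getD j.1 0 &&
    (D ((D 0).ps.getD j.1 0)).st.getD j.1 0 == - (D 0).ps.getD j.1 0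

/-- `b_0` is consecutive with every local `c` around some `a`. -/
def okCh (R : ℕ) (D : ℤ → PD nc) : Bool :=
  (List.finRange nc).all fun j => (iv (-(R : ℤ)) (2 * R + 1)).any fun l =>
    (D (-l)).d.pa.contains (Sum.inl l, Sum.inr j) || (D (-l)).d.pa.contains (Sum.inr j, Sum.inl l)

/-- The local check, looking only at distance at most `R`. -/
def chk (R : ℕ) (A : ℤ → PD nc) : Bool :=
  let D : ℤ → PD nc := fun e => if -(R : ℤ) ≤ e ∧ e ≤ (R : ℤ) then A e else PD.nil nc
  okB D && okS D && okCh R D

/-- The local checks at all positions modulo `q`. -/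
def Pat.loc (p : Pat nc) (R q : ℕ) : Bool := (List.range q).all fun i => chk R (p.acc q i)

/-- One step of `c_j`, positions modulo `q`. -/
def Pat.mv (p : Pat nc) (q : ℕ) (j : ℕ) (i : ℕ) : ℕ := (((i : ℤ) + (p.nth i).st.getD j 0) % (q : ℤ)).toNat

def orbit (f : ℕ → ℕ) : ℕ → ℕ → List ℕ
  | 0, _ => []
  | n + 1, x => x :: orbit f n (f x)

/-- The orbit of `0` under `c_j` is everything. -/
def Pat.conn (p : Pat nc) (q : ℕ) : Bool :=
  (List.finRange nc).all fun j => let o := orbit (p.mv q j.1) q 0; (List.range q).all fun i => o.contains i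

/-- The step of `c_j` at the integer `x` in the two-sided periodic continuation of the period of the table. -/
def Pat.perst (p : Pat nc) (j : ℕ) (x : ℤ) : ℤ := (p.per.getD (x % (p.per.length : ℤ)).toNat (PD.nil nc)).st.getD j 0

/-- Starting from `x`, following the steps at most `n` times and staying in `[lo, hi]`, one reaches `y`. -/
def reach (f : ℤ → ℤ) (lo hi : ℤ) : ℕ → ℤ → ℤ → Bool
  | 0, x, y => x == y
  | n + 1, x, y => x == y || (decide (lo ≤ x + f x ∧ x + f x ≤ hi) && reach f lo hi n (x + f x) y)

/-- In the periodic part, `x` and `x + P` are on the same strand of `c_j`. -/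
def Pat.lp (p : Pat nc) (R : ℕ) : Bool :=
  (List.finRange nc).all fun j => (List.range p.per.length).all fun x =>
    reach (p.perst j.1) (x - R) (x + R) 20 x (x + p.per.length) || reach (p.perst j.1) (x - R) (x + R) 20 (x + p.per.length) x

/-- Shape of the local words, frame with two runs; `ev` tells whether `T - w` is even. -/
def shTwo (X : ℤ) (w : ℕ) (ev : Bool) (d : Dat nc) : Bool :=
  d.wa1.head? == some (Sum.inl (X + 1)) && d.wa1.getLast? == some (Sum.inl (w : ℤ)) &&
  d.wa2.head? == some (Sum.inl (-1)) && d.wa2.getLast? == some (Sum.inl (X - (w : ℤ))) &&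
  (d.wa1 ++ d.wa2).isPerm ((iv (X - (w : ℤ)) (2 * (w : ℤ) + 1 - X).toNat).map Sum.inl ++ (List.finRange nc).map Sum.inr) &&
  d.wb1.head? == some (if ev then (w : ℤ) else X - (w : ℤ)) && d.wb1.getLast? == some (-1) &&
  d.wb2.head? == some (if ev then X - (w : ℤ) else (w : ℤ)) && d.wb2.getLast? == some (X + 1) &&
  (d.wb1 ++ d.wb2).isPerm (iv (X - (w : ℤ)) (2 * (w : ℤ) + 1 - X).toNat)

/-- Shape of the local words, frame with one run. -/
def shOne (w : ℕ) (d : Dat nc) : Bool :=
  d.wa1.head? == some (Sum.inl 0) && d.wa1.getLast? == some (Sum.inl (w : ℤ)) && d.wa2.isEmpty &&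
  d.wa1.isPerm ((iv 0 (w + 1)).map Sum.inl ++ (List.finRange nc).map Sum.inr) &&
  d.wb1.head? == some (w : ℤ) && d.wb1.getLast? == some 0 && d.wb2.isEmpty &&
  d.wb1.isPerm (iv 0 (w + 1))

/-- All entries of the table satisfy `f`, and the period is not empty. -/
def Pat.all (p : Pat nc) (f : Dat nc → Bool) : Bool :=
  (p.zone.all fun e => f e.d) && (p.per.all fun e => f e.d) && decide (0 < p.per.length)

end Pool.Agent.KS6_69.GT
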