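import Pool.Agent.KS6_69.GT.Ringel

set_option autoImplicit false

namespace Pool.Agent.KS6_69.GT

/-
TARGETS.
(1) Emb_add4: sum_exists with R1 = quadrangular K_{6,q+r} (N relabelled so that R1.ρ none is the inverse of the rotation of the given
embedding R2 at a chosen vertex `none`), the chords b c that were consecutive around `none` in R2 are consecutive around a vertex of R1:
if R2.ρ none u = v then R1.ρ none v = u and the face of R1 through none, v is a quadrangle none, v, β, u ... with R1.ρ (some β) u = v or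
R1.ρ (some β) v = u: (from hq: β' = R1.τ v none satisfies R1.ρ β' v = w with R1.ρ none w = v, so for consecutive pairs around none both
vertices are consecutive around β' ≠ none). Count: ncyc R1.face = 3 (q+r), minus q+r.
(2) Emb_sum: now R1 = the given EmbQ with α = none, R2 = K_{p2,q+r}; chords at α are also at another vertex by hq.
(3) Emb_large: induction with (1): enough to have the four values p = q, q+1, q+2, q+3 (here q ≥ 2, all p ≥ q).  Ft (p+4) n = Ft p n + 2 n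
for p, n ≥ 2.
(4) plain: if the excesses add up to less than one, then (2) with `ringel` gives the four values.
-/

theorem sameCycle_permCongr {D D' : Type*} (e : D ≃ D') (f : Equiv.Perm D) (x y : D) :
    (e.permCongr f).SameCycle (e x) (e y) ↔ f.SameCycle x y := by
  have h : ∀ i : ℤ, (e.permCongr f) ^ i = e.permCongr (f ^ i) := by
    intro i
    exact (map_zpow e.permCongrHom f i).symm
  unfold Equiv.Perm.SameCycle
  constructor
  · rintro ⟨i, hi⟩
    refine ⟨i, ?_⟩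
    rw [h] at hi
    simpa using hi
  · rintro ⟨i, hi⟩
    refine ⟨i, ?_⟩
    rw [h]
    simpa using hi

theorem ncyc_permCongr {D D' : Type*} (e : D ≃ D') (f : Equiv.Perm D) :
    ncyc (e.permCongr f) = ncyc f := by
  unfold ncyc
  refine (Nat.card_congr (Quotient.congr e ?_)).symm
  intro a b
  exact (sameCycle_permCongr e f a b).symm

theorem face_map {A N A' N' : Type} (R : BRot A N) (e : A ≃ A') (f : N ≃ N') :
    (R.map e f).face = (e.prodCongr f).permCongr R.face := by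
  ext ⟨a, x⟩ <;> simp [BRot.map, BRot.face]

theorem pl_ncyc_map {A N A' N' : Type} (R : BRot A N) (e : A ≃ A') (f : N ≃ N') :
    ncyc (R.map e f).face = ncyc R.face := by
  rw [face_map, ncyc_permCongr]

theorem pl_map_trans {A N A' N' : Type} {R : BRot A N} (h : R.Trans) (e : A ≃ A') (f : N ≃ N') :
    (R.map e f).Trans := by
  constructor
  · intro a x y
    obtain ⟨x, rfl⟩ := f.surjective x
    obtain ⟨y, rfl⟩ := f.surjective y
    exact (sameCycle_permCongr f _ x y).2 (h.1 _ x y)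
  · intro x a b
    obtain ⟨a, rfl⟩ := e.surjective a
    obtain ⟨b, rfl⟩ := e.surjective b
    exact (sameCycle_permCongr e _ a b).2 (h.2 _ a b)

theorem ne_of_sameCycle {D : Type*} [Fintype D] (f : Equiv.Perm D) (h : ∀ x y, f.SameCycle x y)
    (hc : 2 ≤ Fintype.card D) (x : D) : f x ≠ x := by
  intro hx
  have h1 : ∀ y, x = y := fun y => (h x y).eq_of_left hx
  have : Fintype.card D ≤ 1 := Fintype.card_le_one_iff.2 fun a b => by rw [← h1 a, ← h1 b]
  omega

theorem align {N N' : Type} [Fintype N] [Fintype N'] [DecidableEq N] (f : Equiv.Perm N)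
    (g : Equiv.Perm N') (hf : ∀ x y, f.SameCycle x y) (hg : ∀ x y, g.SameCycle x y)
    (hc : Fintype.card N' = Fintype.card N) (h2 : 2 ≤ Fintype.card N) :
    ∃ e : N' ≃ N, e.permCongr g = f⁻¹ := by
  have e0 : N' ≃ N := Fintype.equivOfCardEq hc
  set g' : Equiv.Perm N := e0.permCongr g with hg'
  have hg2 : ∀ x y, g'.SameCycle x y := by
    intro x y
    obtain ⟨x, rfl⟩ := e0.surjective x
    obtain ⟨y, rfl⟩ := e0.surjective y
    exact (sameCycle_permCongr e0 _ x y).2 (hg x y)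
  have hf2 : ∀ x y, (f⁻¹).SameCycle x y := fun x y => (hf x y).inv
  have cyc : ∀ k : Equiv.Perm N, (∀ x y, k.SameCycle x y) →
      k.IsCycle ∧ k.support = Finset.univ := by
    intro k hk
    have hne := ne_of_sameCycle k hk h2
    have hN : Nonempty N := Fintype.card_pos_iff.1 (by omega)
    refine ⟨⟨Classical.arbitrary N, hne _, fun y _ => hk _ y⟩, ?_⟩
    ext x
    simp [hne x]
  obtain ⟨c1, s1⟩ := cyc g' hg2
  obtain ⟨c2, s2⟩ := cyc f⁻¹ hf2
  have hconj : IsConj g' f⁻¹ := (c1.isConj_iff c2).2 (by rw [s1, s2])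
  obtain ⟨c, hc⟩ := isConj_iff.1 hconj
  refine ⟨e0.trans c, ?_⟩
  rw [← hc, hg']
  ext x
  simp [Equiv.permCongr_apply]

/-- Two vertices are consecutive around some vertex. -/
def Chord {A N : Type} (R : BRot A N) (u v : N) : Prop := ∃ a, R.ρ a u = v ∨ R.ρ a v = u

theorem core {A1 A2 N : Type} [Fintype A1] [Fintype A2] [Fintype N]
    (R1 : BRot (Option A1) N) (R2 : BRot (Option A2) N) (h1 : R1.Trans) (h2 : R2.Trans)
    (ne1 : ∀ x, R1.τ x none ≠ none) (ne2 : ∀ x, R2.τ x none ≠ none)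
    (hopp : ∀ x, R2.ρ none (R1.ρ none x) = x)
    (hq : ∀ x, R1.face (R1.face (none, x)) = (none, x)) :
    ∃ R : BRot (A1 ⊕ A2) N, R.Trans ∧ (∀ u v, Chord R1 u v → Chord R u v) ∧
      (∀ u v, Chord R2 u v → Chord R u v) ∧
      ncyc R1.face + ncyc R2.face ≤ ncyc R.face + Fintype.card N := by
  obtain ⟨R, hR, hρ1, hρ2, -, -, -, -, hn⟩ := sum_exists R1 R2 (fun _ _ => True) (fun _ _ => True)
    ⟨fun a x h => absurd trivial h, fun a x y _ _ => h1.1 a x y, fun x a b _ _ => h1.2 x a b⟩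
    ⟨fun a x h => absurd trivial h, fun a x y _ _ => h2.1 a x y, fun x a b _ _ => h2.2 x a b⟩
    (fun _ => trivial) (fun _ => trivial) ne1 ne2 hopp hq
  have hE : ∀ (a : A1 ⊕ A2) (x : N),
      Sum.elim (fun a : A1 => (fun (_ : Option A1) (_ : N) => True) (some a))
        (fun a : A2 => (fun (_ : Option A2) (_ : N) => True) (some a)) a x := by
    rintro (a | a) x <;> trivial
  have key : ∀ u v, R1.ρ none v = u → ∃ β, R1.ρ (some β) u = v := by
    intro u v huv
    have h3 := hq u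
    simp only [BRot.face, Equiv.coe_fn_mk, Prod.mk.injEq] at h3
    obtain ⟨h4, h5⟩ := h3
    rw [h4] at h5
    have h6 : R1.ρ (R1.τ u none) u = v := by
      apply (R1.ρ none).injective
      rw [h5, huv]
    cases hβ : R1.τ u none with
    | none => exact absurd hβ (ne1 u)
    | some β => exact ⟨β, by rw [← hβ]; exact h6⟩
  refine ⟨R, ⟨fun a x y => hR.2.1 a x y (hE a x) (hE a y), fun x a b => hR.2.2 x a b (hE a x) (hE b x)⟩,
    ?_, ?_, hn⟩
  · rintro u v ⟨a, ha⟩
    cases a with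
    | none =>
      rcases ha with ha | ha
      · obtain ⟨β, hβ⟩ := key v u ha
        exact ⟨Sum.inl β, Or.inr (by rw [hρ1]; exact hβ)⟩
      · obtain ⟨β, hβ⟩ := key u v ha
        exact ⟨Sum.inl β, Or.inl (by rw [hρ1]; exact hβ)⟩
    | some a => exact ⟨Sum.inl a, by rw [hρ1]; exact ha⟩
  · have h12 : ∀ u v, R2.ρ none u = v → R1.ρ none v = u := by
      intro u v h
      apply (R2.ρ none).injective
      rw [hopp, h]
    rintro u v ⟨a, ha⟩
    cases a with
    | none =>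
      rcases ha with ha | ha
      · obtain ⟨β, hβ⟩ := key u v (h12 _ _ ha)
        exact ⟨Sum.inl β, Or.inl (by rw [hρ1]; exact hβ)⟩
      · obtain ⟨β, hβ⟩ := key v u (h12 _ _ ha)
        exact ⟨Sum.inl β, Or.inr (by rw [hρ1]; exact hβ)⟩
    | some a => exact ⟨Sum.inr a, by rw [hρ2]; exact ha⟩

theorem chord_map {A N A' : Type} (R : BRot A N) (e : A ≃ A') (u v : N) :
    Chord (R.map e (Equiv.refl N)) u v ↔ Chord R u v := by
  constructor
  · rintro ⟨a, ha⟩
    exact ⟨e.symm a, by simpa [BRot.map] using ha⟩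
  · rintro ⟨a, ha⟩
    exact ⟨e a, by simpa [BRot.map] using ha⟩

theorem pc_apply {D D' : Type*} (e : D ≃ D') (f : Equiv.Perm D) (x : D) :
    (e.permCongr f) (e x) = e (f x) := by
  rw [Equiv.permCongr_apply, Equiv.symm_apply_apply]

theorem pc_refl {D : Type*} (f : Equiv.Perm D) : (Equiv.refl D).permCongr f = f := rfl

theorem sumG {p1 p2 : ℕ} {N N1 N2 : Type} [Fintype N]
    (R1 : BRot (Fin (p1 + 2)) N1) (R2 : BRot (Fin (p2 + 2)) N2) (h1 : R1.Trans) (h2 : R2.Trans)
    (e1 : N1 ≃ N) (e2 : N2 ≃ N) (α : Fin (p1 + 2))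
    (hq : ∀ x, R1.face (R1.face (α, x)) = (α, x))
    (hopp : e2.permCongr (R2.ρ 0) = (e1.permCongr (R1.ρ α))⁻¹) :
    ∃ R : BRot (Fin (p1 + p2 + 2)) N, R.Trans ∧
      (∀ u v, Chord R1 u v → Chord R (e1 u) (e1 v)) ∧
      (∀ u v, Chord R2 u v → Chord R (e2 u) (e2 v)) ∧
      ncyc R1.face + ncyc R2.face ≤ ncyc R.face + Fintype.card N := by
  set S1 : BRot (Option (Fin (p1 + 1))) N := R1.map (finSuccEquiv' α) e1 with hS1
  set S2 : BRot (Option (Fin (p2 + 1))) N := R2.map (finSuccEquiv' 0) e2 with hS2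
  have t1 : S1.Trans := pl_map_trans h1 _ _
  have t2 : S2.Trans := pl_map_trans h2 _ _
  have ne1 : ∀ x, S1.τ x none ≠ none := fun x =>
    ne_of_sameCycle _ (t1.2 x) (by simp) none
  have ne2 : ∀ x, S2.τ x none ≠ none := fun x =>
    ne_of_sameCycle _ (t2.2 x) (by simp) none
  have hopp' : ∀ x, S2.ρ none (S1.ρ none x) = x := by
    intro x
    have e3 : S2.ρ none = e2.permCongr (R2.ρ 0) := by
      simp [hS2, BRot.map, finSuccEquiv'_symm_none]
    have e4 : S1.ρ none = e1.permCongr (R1.ρ α) := by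
      simp [hS1, BRot.map, finSuccEquiv'_symm_none]
    rw [e3, e4, hopp]
    exact Equiv.symm_apply_apply _ _
  have hq' : ∀ x, S1.face (S1.face (none, x)) = (none, x) := by
    intro x
    obtain ⟨x, rfl⟩ := e1.surjective x
    have e5 : ((none, e1 x) : Option (Fin (p1 + 1)) × N) =
        ((finSuccEquiv' α).prodCongr e1) (α, x) := by
      simp [finSuccEquiv'_at]
    rw [hS1, face_map, e5, pc_apply, pc_apply, hq]
  obtain ⟨R, hR, hc1, hc2, hn⟩ := core S1 S2 t1 t2 ne1 ne2 hopp' hq'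
  rw [pl_ncyc_map, pl_ncyc_map] at hn
  have hcard : Fintype.card (Fin (p1 + 1) ⊕ Fin (p2 + 1)) = Fintype.card (Fin (p1 + p2 + 2)) := by
    simp; omega
  set E := Fintype.equivOfCardEq hcard
  refine ⟨R.map E (Equiv.refl N), pl_map_trans hR _ _, ?_, ?_, by rw [pl_ncyc_map]; exact hn⟩
  · rintro u v ⟨a, ha⟩
    rw [chord_map]
    apply hc1
    exact ⟨finSuccEquiv' α a, by simpa [hS1, BRot.map] using ha⟩
  · rintro u v ⟨a, ha⟩
    rw [chord_map]
    apply hc2
    exact ⟨finSuccEquiv' 0 a, by simpa [hS2, BRot.map] using ha⟩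

theorem quad_ncyc (n : ℕ) (R : BRot (Fin 6) (Fin n)) (hn : 2 ≤ n) (hR : R.Trans)
    (h : ∀ d, R.face (R.face d) = d) : 3 * n ≤ ncyc R.face := by
  have : Nonempty (Fin n) := ⟨⟨0, by omega⟩⟩
  have h1 := ncyc_ge R.face ∅ 0 (by simp) (by norm_num) (fun d _ => h d) (by
    rintro ⟨a, x⟩ hd
    simp only [BRot.face, Equiv.coe_fn_mk, Prod.mk.injEq] at hd
    exact ne_of_sameCycle _ (hR.2 x) (by simp) a hd.1)
  simp at h1
  omega

theorem Emb_add4 (p q r F : ℕ) (hp : 2 ≤ p) (hqr : 2 ≤ q + r) (h : Emb p q r F) : Emb (p + 4) q r (F + 2 * (q + r)) := by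
  obtain ⟨R2, t2, c2, n2⟩ := h
  obtain ⟨R1, t1, q1⟩ := quad6 (q + r) hqr
  obtain ⟨p, rfl⟩ : ∃ k, p = k + 2 := ⟨p - 2, by omega⟩
  obtain ⟨e, he⟩ := align (R2.ρ 0) (R1.ρ 0) (t2.1 0) (t1.1 0) (by simp) (by simpa using hqr)
  obtain ⟨R, hR, -, hc, hn⟩ := sumG (p1 := 4) (p2 := p) R1 R2 t1 t2 e (Equiv.refl _) 0
    (fun x => q1 _) (by rw [he, pc_refl, inv_inv])
  have h3 := quad_ncyc _ R1 hqr t1 q1
  have e4 : 4 + p + 2 = p + 2 + 4 := by omega
  rw [← e4]
  refine ⟨R, hR, fun b c => hc _ _ (c2 b c), ?_⟩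
  simp at hn
  omega

theorem Emb_sum (p p2 q r F F2 : ℕ) (hp : 3 ≤ p) (hp2 : 2 ≤ p2) (hqr : 2 ≤ q + r) (h : EmbQ p q r F) (h2 : REmb p2 (q + r) F2) :
    Emb (p + p2 - 2) q r (F + F2 - (q + r)) := by
  obtain ⟨R1, t1, c1, n1, α, hα⟩ := h
  obtain ⟨R2, t2, n2⟩ := h2
  obtain ⟨p, rfl⟩ : ∃ k, p = k + 2 := ⟨p - 2, by omega⟩
  obtain ⟨p2, rfl⟩ : ∃ k, p2 = k + 2 := ⟨p2 - 2, by omega⟩
  obtain ⟨e, he⟩ := align (R1.ρ α) (R2.ρ 0) (t1.1 α) (t2.1 0) (by simp) (by simpa using hqr)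
  obtain ⟨R, hR, hc, -, hn⟩ := sumG (p1 := p) (p2 := p2) R1 R2 t1 t2 (Equiv.refl _) e α
    hα (by rw [he, pc_refl])
  have e4 : p + 2 + (p2 + 2) - 2 = p + p2 + 2 := by omega
  rw [e4]
  refine ⟨R, hR, fun b c => hc _ _ (c1 b c), ?_⟩
  simp at hn
  omega

theorem gen_le (p n : ℕ) (hp : 2 ≤ p) (hn : 2 ≤ n) : p + n + 2 * gen p n ≤ p * n + 2 := by
  obtain ⟨a, rfl⟩ : ∃ a, p = a + 2 := ⟨p - 2, by omega⟩
  obtain ⟨b, rfl⟩ : ∃ b, n = b + 2 := ⟨n - 2, by omega⟩
  unfold gen
  have h1 : (a + 2) * (b + 2) = a * b + 2 * a + 2 * b + 4 := by ring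
  rw [h1]
  simp only [Nat.add_sub_cancel]
  generalize a * b = c
  omega

theorem gen_add4 (p n : ℕ) (hp : 2 ≤ p) (hn : 2 ≤ n) : gen (p + 4) n = gen p n + (n - 2) := by
  obtain ⟨a, rfl⟩ : ∃ a, p = a + 2 := ⟨p - 2, by omega⟩
  obtain ⟨b, rfl⟩ : ∃ b, n = b + 2 := ⟨n - 2, by omega⟩
  unfold gen
  have h2 : a + 2 + 4 - 2 = a + 4 := by omega
  have h1 : (a + 4) * b = a * b + 4 * b := by ring
  simp only [Nat.add_sub_cancel]
  rw [h2, h1]
  omega

theorem Ft_add4 (p n : ℕ) (hp : 2 ≤ p) (hn : 2 ≤ n) : Ft (p + 4) n = Ft p n + 2 * n := by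
  have h1 := gen_le p n hp hn
  unfold Ft
  rw [gen_add4 p n hp hn]
  have h2 : (p + 4) * n = p * n + 4 * n := by ring
  rw [h2]
  omega

theorem Emb_large (q r : ℕ) (hq : 2 ≤ q) (h : ∀ s < 4, Emb (q + s) q r (Ft (q + s) (q + r))) :
    ∀ p, q ≤ p → Emb p q r (Ft p (q + r)) := by
  have key : ∀ k s, s < 4 → Emb (q + s + 4 * k) q r (Ft (q + s + 4 * k) (q + r)) := by
    intro k
    induction k with
    | zero => intro s hs; simpa using h s hs
    | succ k ih =>
      intro s hs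
      have h1 := Emb_add4 _ q r _ (by omega) (by omega) (ih s hs)
      rw [← Ft_add4 _ _ (by omega) (by omega)] at h1
      have h2 : q + s + 4 * (k + 1) = q + s + 4 * k + 4 := by ring
      rw [h2]
      exact h1
  intro p hp
  have h1 := key ((p - q) / 4) ((p - q) % 4) (Nat.mod_lt _ (by norm_num))
  have h2 : q + (p - q) % 4 + 4 * ((p - q) / 4) = p := by omega
  rw [h2] at h1
  exact h1

/-- `gen p n = ⌈(p-2)(n-2)/4⌉`: if `gen q n + gen (s+2) n = gen (q+s) n` then the plain sum is optimal. -/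
theorem Emb_plain (q r s : ℕ) (hq : 3 ≤ q) (h : EmbQ q q r (Ft q (q + r))) (hg : gen q (q + r) + gen (s + 2) (q + r) = gen (q + s) (q + r)) :
    Emb (q + s) q r (Ft (q + s) (q + r)) := by
  have h1 := Emb_sum q (s + 2) q r _ _ hq (by omega) (by omega) h
    (ringel (s + 2) (q + r) (by omega) (by omega))
  have h2 : q + (s + 2) - 2 = q + s := by omega
  rw [h2] at h1
  have h3 : Ft q (q + r) + Ft (s + 2) (q + r) - (q + r) = Ft (q + s) (q + r) := by
    have g1 := gen_le q (q + r) (by omega) (by omega)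
    have g2 := gen_le (s + 2) (q + r) (by omega) (by omega)
    have g3 := gen_le (q + s) (q + r) (by omega) (by omega)
    unfold Ft
    have e1 : (s + 2) * (q + r) = s * (q + r) + 2 * (q + r) := by ring
    have e2 : (q + s) * (q + r) = q * (q + r) + s * (q + r) := by ring
    rw [← hg] at g3 ⊢
    rw [e1] at g2 ⊢
    rw [e2] at g3 ⊢
    generalize q * (q + r) = X at *
    generalize s * (q + r) = Y at *
    generalize gen q (q + r) = Z at *
    generalize gen (s + 2) (q + r) = W at *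
    omega
  rw [← h3]
  exact h1


end Pool.Agent.KS6_69.GT
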