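import Pool.Agent.KS6_69.GT.SpecialEmb
import Pool.Agent.KS6_69.GT.Pattern

set_option autoImplicit false

namespace Pool.Agent.KS6_69.GT
/-- Data of the exceptional face, relative to the position `i0` of `α`: `x` is the token of the vertex x at `α`; `steps` lists, for m = 0, ..., s, the position
`g_m` of `γ_m` (relative to `i0`) and the token of `u_m` AT `α` (so `Sum.inl l` is the vertex `b_{i0+l}`); `offs` lists pairs `(m, d_m)`. -/
structure SpD (nc : ℕ) where
  i0 : ℕ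
  x : ℤ ⊕ Fin nc
  steps : List (ℤ × (ℤ ⊕ Fin nc))
  offs : List (ℕ × ℤ)

/-- the token at the position `g` of the vertex with token `t` at the position 0 -/
def shTok {nc : ℕ} (g : ℤ) : ℤ ⊕ Fin nc → ℤ ⊕ Fin nc
  | Sum.inl l => Sum.inl (l - g)
  | Sum.inr j => Sum.inr j

/-- at the vertex with token `t` (relative to position 0), the rotation maps `a` at `g` to `a` at `g'`. -/
def tauChk {nc : ℕ} (D : ℤ → PD nc) (t : ℤ ⊕ Fin nc) (g g' : ℤ) : Bool :=
  match t with
  | Sum.inl l => (D l).d.pb.contains (l - g, l - g')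
  | Sum.inr j => !(D g).st.isEmpty && g + (D g).st.getD j.1 0 == g'

/-- the face permutation maps the dart `(g, t)` to `(g', t')`. -/
def stepChk {nc : ℕ} (D : ℤ → PD nc) (g : ℤ) (t : ℤ ⊕ Fin nc) (g' : ℤ) (t' : ℤ ⊕ Fin nc) : Bool :=
  tauChk D t g g' && (D g').d.pa.contains (shTok g' t, shTok g' t')

/-- the list of darts, starting from `(g, t)`. -/
def pathChk {nc : ℕ} (D : ℤ → PD nc) : ℤ → (ℤ ⊕ Fin nc) → List (ℤ × (ℤ ⊕ Fin nc)) → Bool
  | _, _, [] => true
  | g, t, (g', t') :: l => stepChk D g t g' t' && pathChk D g' t' l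

/-- two tokens at the same position denote different vertices, modulo q (sufficient condition) -/
def neTok {nc : ℕ} (q : ℕ) : ℤ ⊕ Fin nc → ℤ ⊕ Fin nc → Bool
  | Sum.inl l, Sum.inl m => l != m && decide ((l - m).natAbs < q)
  | Sum.inr i, Sum.inr j => i != j
  | _, _ => true

/-- in the word `w`, `y` comes `d` places after `x` (`d` may be negative) -/
def offIn {nc : ℕ} (w : List (ℤ ⊕ Fin nc)) (x y : ℤ ⊕ Fin nc) (d : ℤ) : Bool :=
  w.contains x && w.contains y && ((w.idxOf y : ℤ) - (w.idxOf x : ℤ) == d)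

/-- if `y, x` are a `b` and a `c`, they are also consecutive around another `a`. -/
def yxChk {nc : ℕ} (R q : ℕ) (D : ℤ → PD nc) (y x : ℤ ⊕ Fin nc) : Bool :=
  (y.isLeft == x.isLeft) || (iv (-(R : ℤ)) (2 * R + 1)).any fun e => e != 0 && decide (e.natAbs < q) &&
    ((D e).d.pa.contains (shTok e y, shTok e x) || (D e).d.pa.contains (shTok e x, shTok e y))

def SpD.chk {nc : ℕ} (S : SpD nc) (R q : ℕ) (A : ℤ → PD nc) : Bool :=
  let D : ℤ → PD nc := fun e => if -(R : ℤ) ≤ e ∧ e ≤ (R : ℤ) then A e else PD.nil nc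
  let last := S.steps.getLast?.getD (0, S.x)
  !S.steps.isEmpty &&
  pathChk D 0 S.x S.steps && tauChk D last.2 last.1 0 && (D 0).d.pa.contains (last.2, S.x) &&
  (S.steps.all fun gt => gt.1 != 0 && decide (gt.1.natAbs < q) && neTok q gt.2 S.x) &&
  ((List.range S.steps.length).all fun m => (List.range m).all fun m' =>
    neTok q (S.steps.getD m (0, S.x)).2 (S.steps.getD m' (0, S.x)).2) &&
  (S.offs.all fun md => decide (md.1 + 1 < S.steps.length) &&
    (offIn (D 0).d.wa1 S.x (S.steps.getD md.1 (0, S.x)).2 md.2 || offIn (D 0).d.wa2 S.x (S.steps.getD md.1 (0, S.x)).2 md.2)) &&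
  decide (S.offs.map Prod.fst).Nodup &&
  yxChk R q D last.2 S.x

theorem kx_nil_pa {nc : ℕ} : (PD.nil nc).d.pa = [] := rfl

theorem kx_nil_pb {nc : ℕ} : (PD.nil nc).d.pb = [] := rfl

theorem kx_nth_add {nc : ℕ} (p : Pat nc) (hP : 0 < p.per.length) (i : ℕ) (hi : p.zone.length ≤ i) :
    p.nth (i + p.per.length) = p.nth i := by
  unfold Pat.nth
  rw [if_neg (by omega), if_neg (by omega)]
  have : i + p.per.length - p.zone.length = (i - p.zone.length) + p.per.length := by omega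
  rw [this, Nat.add_mod_right]

theorem kx_acc {nc : ℕ} (p : Pat nc) (i0 R q : ℕ) (hP : 0 < p.per.length) (h1 : i0 + R < q)
    (h2 : p.zone.length + R ≤ q + i0) (e : ℤ) (he : -(R : ℤ) ≤ e ∧ e ≤ (R : ℤ)) :
    p.acc (q + p.per.length) i0 e = p.acc q i0 e := by
  unfold Pat.acc
  by_cases h : 0 ≤ (i0 : ℤ) + e
  · rw [Int.emod_eq_of_lt h (by push_cast; omega), Int.emod_eq_of_lt h (by omega)]
  · push Not at h
    have e1 : ((i0 : ℤ) + e) % ((q + p.per.length : ℕ) : ℤ) = (i0 : ℤ) + e + q + p.per.length := by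
      rw [← Int.add_emod_right]
      push_cast
      rw [show (i0 : ℤ) + e + ((q : ℤ) + p.per.length) = (i0 : ℤ) + e + q + p.per.length by ring]
      exact Int.emod_eq_of_lt (by omega) (by omega)
    have e2 : ((i0 : ℤ) + e) % (q : ℤ) = (i0 : ℤ) + e + q := by
      rw [← Int.add_emod_right]
      exact Int.emod_eq_of_lt (by omega) (by omega)
    rw [e1, e2]
    have e3 : ((i0 : ℤ) + e + q + p.per.length).toNat = ((i0 : ℤ) + e + q).toNat + p.per.length := by
      omega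
    rw [e3]
    exact kx_nth_add p hP _ (by omega)

theorem kx_neTok_mono {nc : ℕ} {q q' : ℕ} (h : q ≤ q') (s t : ℤ ⊕ Fin nc) (hn : neTok q s t = true) :
    neTok q' s t = true := by
  rcases s with l | j <;> rcases t with m | j'
  · simp only [neTok, Bool.and_eq_true, decide_eq_true_eq] at hn ⊢
    exact ⟨hn.1, lt_of_lt_of_le hn.2 h⟩
  · rfl
  · rfl
  · exact hn

theorem kx_yx_mono {nc : ℕ} {R q q' : ℕ} (h : q ≤ q') (D : ℤ → PD nc) (s t : ℤ ⊕ Fin nc)
    (hn : yxChk R q D s t = true) : yxChk R q' D s t = true := by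
  simp only [yxChk, Bool.or_eq_true, List.any_eq_true, Bool.and_eq_true, decide_eq_true_eq] at hn ⊢
  rcases hn with hn | ⟨e, he, ⟨h1, h2⟩, h3⟩
  · exact Or.inl hn
  · exact Or.inr ⟨e, he, ⟨h1, lt_of_lt_of_le h2 h⟩, h3⟩

theorem kx_lawful (nc : ℕ) : LawfulBEq (ℤ ⊕ Fin nc) where
  eq_of_beq := by
    rintro (a | a) (b | b) h
    · have h' : (a == b) = true := h
      rw [eq_of_beq h']
    · exact absurd h (by intro h; cases h)
    · exact absurd h (by intro h; cases h)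
    · have h' : (a == b) = true := h
      rw [eq_of_beq h']
  rfl := by
    rintro (a | a)
    · change (a == a) = true
      exact beq_self_eq_true a
    · change (a == a) = true
      exact beq_self_eq_true a

theorem kx_contains {nc : ℕ} (w : List (ℤ ⊕ Fin nc)) (x : ℤ ⊕ Fin nc) (h : w.contains x = true) : x ∈ w := by
  have := kx_lawful nc
  exact List.contains_iff_mem.mp h

theorem kx_contains2 {nc : ℕ} (w : List ((ℤ ⊕ Fin nc) × (ℤ ⊕ Fin nc))) (x : (ℤ ⊕ Fin nc) × (ℤ ⊕ Fin nc))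
    (h : w.contains x = true) : x ∈ w := by
  have := kx_lawful nc
  exact List.contains_iff_mem.mp h

theorem kx_mem_prs {T : Type} (w : List T) (i : ℕ) (h : i + 1 < w.length) :
    (w[i], w[i+1]) ∈ prs w := by
  unfold prs
  rw [List.mem_iff_getElem]
  refine ⟨i, ?_, ?_⟩
  · rw [List.length_zip, List.length_tail]
    omega
  · rw [List.getElem_zip, List.getElem_tail]

theorem kx_pow {T X : Type} (f : Equiv.Perm X) (φ : T → X) (w : List T)
    (hw : ∀ a b, (a, b) ∈ prs w → f (φ a) = φ b) (i : ℕ) :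
    ∀ (k : ℕ) (h : i + k < w.length), (f ^ k) (φ (w[i])) = φ (w[i + k]) := by
  intro k
  induction k with
  | zero => intro h; rfl
  | succ k ih =>
    intro h
    rw [pow_succ', Equiv.Perm.mul_apply, ih (by omega)]
    exact hw _ _ (kx_mem_prs w (i + k) h)

theorem kx_off {nc : ℕ} {X : Type} (f : Equiv.Perm X) (φ : ℤ ⊕ Fin nc → X) (w : List (ℤ ⊕ Fin nc))
    (hw : ∀ a b, (a, b) ∈ prs w → f (φ a) = φ b) (x y : ℤ ⊕ Fin nc) (d : ℤ)
    (h : offIn w x y d = true) : φ y = (f ^ d) (φ x) := by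
  have := kx_lawful nc
  simp only [offIn, Bool.and_eq_true, List.contains_iff_mem, beq_iff_eq] at h
  obtain ⟨⟨hx, hy⟩, hd⟩ := h
  have hx1 := List.idxOf_lt_length_iff.mpr hx
  have hy1 := List.idxOf_lt_length_iff.mpr hy
  have hx2 : w[w.idxOf x] = x := List.getElem_idxOf hx1
  have hy2 : w[w.idxOf y] = y := List.getElem_idxOf hy1
  rcases le_total 0 d with h0 | h0
  · obtain ⟨k, rfl⟩ := Int.eq_ofNat_of_zero_le h0
    have e : w.idxOf y = w.idxOf x + k := by omega
    have := kx_pow f φ w hw (w.idxOf x) k (by omega)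
    rw [hx2] at this
    rw [zpow_natCast, this]
    exact congrArg φ (hy2.symm.trans (getElem_congr_idx e))
  · obtain ⟨k, hk⟩ := Int.eq_ofNat_of_zero_le (by omega : 0 ≤ -d)
    have e : w.idxOf x = w.idxOf y + k := by omega
    have := kx_pow f φ w hw (w.idxOf y) k (by omega)
    rw [hy2] at this
    have e2 : φ x = (f ^ k) (φ y) := by
      rw [this]
      exact congrArg φ (hx2.symm.trans (getElem_congr_idx e))
    have e3 : d = -(k : ℤ) := by omega
    rw [e3, zpow_neg, zpow_natCast, e2]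
    exact ((f ^ k).symm_apply_apply (φ y)).symm

theorem kx_val {q : ℕ} [NeZero q] (i : ℕ) (e : ℤ) :
    ((i : ZMod q) + (e : ZMod q)).val = (((i : ℤ) + e) % (q : ℤ)).toNat := by
  have h : ((((i : ℤ) + e : ℤ) : ZMod q).val : ℤ) = ((i : ℤ) + e) % q := ZMod.val_intCast _
  have h2 : (((i : ℤ) + e : ℤ) : ZMod q) = (i : ZMod q) + (e : ZMod q) := by push_cast; ring
  rw [h2] at h
  omega

theorem kx_sh {nc q : ℕ} {E : Type} (α : ZMod q) (g : ℤ) (t : ℤ ⊕ Fin nc) :
    cv (E := E) (α + (g : ZMod q)) (shTok g t) = cv α t := by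
  rcases t with l | j
  · simp only [cv, shTok, Sum.map_inl]
    congr 1
    push_cast
    ring
  · rfl

theorem kx_ne_int {q : ℕ} [NeZero q] {e : ℤ} (h0 : e ≠ 0) (h1 : e.natAbs < q) : (e : ZMod q) ≠ 0 := by
  intro h
  rw [ZMod.intCast_zmod_eq_zero_iff_dvd] at h
  refine h0 (Int.eq_zero_of_abs_lt_dvd h ?_)
  rw [Int.abs_eq_natAbs]
  exact_mod_cast h1

theorem kx_ne {nc q : ℕ} [NeZero q] {E : Type} (α : ZMod q) (s t : ℤ ⊕ Fin nc)
    (h : neTok q s t = true) : cv (E := E) α s ≠ cv α t := by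
  rcases s with l | j <;> rcases t with m | j'
  · simp only [neTok, Bool.and_eq_true, decide_eq_true_eq, bne_iff_ne, ne_eq] at h
    intro he
    simp only [cv, Sum.map_inl, Sum.inl.injEq, add_right_inj] at he
    refine kx_ne_int (q := q) (sub_ne_zero.mpr h.1) h.2 ?_
    push_cast
    rw [he, sub_self]
  · intro he
    simp [cv] at he
  · intro he
    simp [cv] at he
  · simp only [neTok, bne_iff_ne, ne_eq] at h
    intro he
    simp only [cv, Sum.map_inr, Sum.inr.injEq, Sum.inl.injEq] at he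
    exact h he

theorem kx_rho {nc q : ℕ} [NeZero q] {E : Type} {p : Pat nc} {tc : Fin nc → Equiv.Perm (ZMod q)}
    {R : BRot (ZMod q) (ZMod q ⊕ (Fin nc ⊕ E))} (h : Deliver (fun i => (p.nth i.val).d) tc R)
    {α : ZMod q} {D : ℤ → PD nc} (hD : ∀ e : ℤ, D e = PD.nil nc ∨ D e = p.nth (α + (e : ZMod q)).val)
    (g : ℤ) (t t' : ℤ ⊕ Fin nc) (hm : (shTok g t, shTok g t') ∈ (D g).d.pa) :
    R.ρ (α + (g : ZMod q)) (cv α t) = cv α t' := by
  rcases hD g with h0 | h0
  · rw [h0, kx_nil_pa] at hm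
    exact absurd hm List.not_mem_nil
  · rw [h0] at hm
    have := h.rho (α + (g : ZMod q)) _ _ hm
    rwa [kx_sh, kx_sh] at this

theorem kx_tau {nc q : ℕ} [NeZero q] {E : Type} {p : Pat nc} {tc : Fin nc → Equiv.Perm (ZMod q)}
    {R : BRot (ZMod q) (ZMod q ⊕ (Fin nc ⊕ E))} (h : Deliver (fun i => (p.nth i.val).d) tc R)
    (htc : ∀ (j : Fin nc) (i : ZMod q), tc j i = i + (((p.nth i.val).st.getD j.1 0 : ℤ) : ZMod q))
    {α : ZMod q} {D : ℤ → PD nc} (hD : ∀ e : ℤ, D e = PD.nil nc ∨ D e = p.nth (α + (e : ZMod q)).val)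
    (g g' : ℤ) (t : ℤ ⊕ Fin nc) (hm : tauChk D t g g' = true) :
    R.τ (cv α t) (α + (g : ZMod q)) = α + (g' : ZMod q) := by
  rcases t with l | j
  · simp only [tauChk, List.contains_iff_mem] at hm
    rcases hD l with h0 | h0
    · rw [h0, kx_nil_pb] at hm
      exact absurd hm List.not_mem_nil
    · rw [h0] at hm
      have := h.tau (α + (l : ZMod q)) _ _ hm
      have e1 : α + (l : ZMod q) - ((l - g : ℤ) : ZMod q) = α + (g : ZMod q) := by push_cast; ring
      have e2 : α + (l : ZMod q) - ((l - g' : ℤ) : ZMod q) = α + (g' : ZMod q) := by push_cast; ring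
      rw [e1, e2] at this
      exact this
  · simp only [tauChk, Bool.and_eq_true, beq_iff_eq] at hm
    rcases hD g with h0 | h0
    · rw [h0] at hm
      simp [PD.nil] at hm
    · have e1 := h.tauc j (α + (g : ZMod q))
      rw [htc, ← h0] at e1
      refine e1.trans ?_
      rw [← hm.2]
      push_cast
      ring

theorem kx_path {nc q : ℕ} [NeZero q] {E : Type} {p : Pat nc} {tc : Fin nc → Equiv.Perm (ZMod q)}
    {R : BRot (ZMod q) (ZMod q ⊕ (Fin nc ⊕ E))} (h : Deliver (fun i => (p.nth i.val).d) tc R)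
    (htc : ∀ (j : Fin nc) (i : ZMod q), tc j i = i + (((p.nth i.val).st.getD j.1 0 : ℤ) : ZMod q))
    {α : ZMod q} {D : ℤ → PD nc} (hD : ∀ e : ℤ, D e = PD.nil nc ∨ D e = p.nth (α + (e : ZMod q)).val)
    (dd : ℤ × (ℤ ⊕ Fin nc)) :
    ∀ (L : List (ℤ × (ℤ ⊕ Fin nc))) (g : ℤ) (t : ℤ ⊕ Fin nc), pathChk D g t L = true →
      ∀ m, m < L.length → (R.face^[m+1]) (α + (g : ZMod q), cv α t) =
        (α + (((L.getD m dd).1 : ℤ) : ZMod q), cv α (L.getD m dd).2) := by
  intro L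
  induction L with
  | nil => intro g t _ m hm; exact absurd hm (Nat.not_lt_zero _)
  | cons a L ih =>
    intro g t hp m hm
    obtain ⟨g', t'⟩ := a
    simp only [pathChk, stepChk, Bool.and_eq_true] at hp
    obtain ⟨⟨hp1, hp2⟩, hp3⟩ := hp
    replace hp2 := kx_contains2 _ _ hp2
    have hf : R.face (α + (g : ZMod q), cv α t) = (α + (g' : ZMod q), cv α t') := by
      have e1 := kx_tau h htc hD g g' t hp1
      have e2 := kx_rho h hD g' t t' hp2
      change (R.τ (cv α t) (α + (g : ZMod q)), R.ρ (R.τ (cv α t) (α + (g : ZMod q))) (cv α t)) = _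
      rw [e1, e2]
    rw [Function.iterate_succ_apply, hf]
    rcases m with _ | m
    · rfl
    · have := ih g' t' hp3 m (by simpa using hm)
      rw [this, List.getD_cons_succ]

theorem sp_of_chk {nc q : ℕ} [NeZero q] {E : Type} (p : Pat nc) (S : SpD nc) (R' : ℕ) (tc : Fin nc → Equiv.Perm (ZMod q))
    (R : BRot (ZMod q) (ZMod q ⊕ (Fin nc ⊕ E))) (h : Deliver (fun i => (p.nth i.val).d) tc R)
    (htc : ∀ (j : Fin nc) (i : ZMod q), tc j i = i + (((p.nth i.val).st.getD j.1 0 : ℤ) : ZMod q))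
    (hi : S.i0 < q) (hc : S.chk R' q (p.acc q S.i0) = true) :
    ∃ (α : ZMod q) (x : ZMod q ⊕ (Fin nc ⊕ E)) (s : ℕ) (γ : ℕ → ZMod q) (u : ℕ → ZMod q ⊕ (Fin nc ⊕ E)) (d : ℕ → ℤ) (M : Finset ℕ),
      Sp R α x s γ u d M ∧ M.card = S.offs.length ∧ ∀ o, o ∈ S.offs.map Prod.snd ↔ ∃ m ∈ M, o = d m := by
  obtain ⟨α, hα⟩ : ∃ α : ZMod q, α = (S.i0 : ZMod q) := ⟨_, rfl⟩
  obtain ⟨D, hDdef⟩ : ∃ D : ℤ → PD nc, D = fun e : ℤ =>
    if -(R' : ℤ) ≤ e ∧ e ≤ (R' : ℤ) then p.acc q S.i0 e else PD.nil nc := ⟨_, rfl⟩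
  have hD : ∀ e : ℤ, D e = PD.nil nc ∨ D e = p.nth (α + (e : ZMod q)).val := by
    intro e
    rw [hDdef]
    simp only
    split_ifs
    · right
      rw [hα, kx_val]
      rfl
    · left; rfl
  have hD0 : D 0 = if -(R' : ℤ) ≤ 0 ∧ (0 : ℤ) ≤ (R' : ℤ) then p.acc q S.i0 0 else PD.nil nc := by
    rw [hDdef]
  unfold SpD.chk at hc
  simp only [← hD0] at hc
  rw [← hDdef] at hc
  simp only [Bool.and_eq_true, List.all_eq_true, decide_eq_true_eq, List.contains_iff_mem,
    Bool.not_eq_true', bne_iff_ne, ne_eq, Bool.or_eq_true, List.mem_range] at hc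
  obtain ⟨⟨⟨⟨⟨⟨⟨⟨c1, c2⟩, c3⟩, c4⟩, c5⟩, c6⟩, c7⟩, c8⟩, c9⟩ := hc
  replace c4 := kx_contains2 _ _ c4
  have hα0 : α + ((0 : ℤ) : ZMod q) = α := by rw [Int.cast_zero, add_zero]
  obtain ⟨dd, hdd⟩ : ∃ dd : ℤ × (ℤ ⊕ Fin nc), dd = (0, S.x) := ⟨_, rfl⟩
  rw [← hdd] at c3 c4 c6 c7 c9
  obtain ⟨L, hL⟩ : ∃ L : List (ℤ × (ℤ ⊕ Fin nc)), L = S.steps := ⟨_, rfl⟩
  rw [← hL] at c1 c2 c3 c4 c5 c6 c7 c9
  have hLpos : 0 < L.length := by
    rcases L with _ | ⟨a, L⟩
    · simp at c1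
    · simp
  have hlast : L.getLast?.getD dd = L.getD (L.length - 1) dd := by
    rw [List.getLast?_eq_getElem?, List.getD_eq_getElem?_getD]
  rw [hlast] at c3 c4 c9
  have hmemL : ∀ m, m < L.length → L.getD m dd ∈ L := by
    intro m hm
    rw [List.getD_eq_getElem _ _ hm]
    exact List.getElem_mem hm
  have hrho0 : ∀ t t' : ℤ ⊕ Fin nc, (t, t') ∈ (D 0).d.pa → R.ρ α (cv α t) = cv α t' := by
    intro t t' hm
    have hs : ∀ t : ℤ ⊕ Fin nc, shTok 0 t = t := by
      rintro (l | j)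
      · simp [shTok]
      · rfl
    have := kx_rho h hD 0 t t' (by rw [hs, hs]; exact hm)
    rwa [hα0] at this
  obtain ⟨dof, hdof⟩ : ∃ f : ℕ → ℤ, ∀ md ∈ S.offs, f md.1 = md.2 := by
    refine ⟨fun m => ((S.offs.find? (fun md => md.1 == m)).map Prod.snd).getD 0, ?_⟩
    intro md hmd
    have hex : ∃ x, x ∈ S.offs ∧ (fun md' : ℕ × ℤ => md'.1 == md.1) x = true := ⟨md, hmd, by simp⟩
    obtain ⟨r, hr⟩ : ∃ r, S.offs.find? (fun md' => md'.1 == md.1) = some r :=
      Option.isSome_iff_exists.mp (List.find?_isSome.mpr hex)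
    have hr1 := List.mem_of_find?_eq_some hr
    have hr2 := List.find?_some hr
    simp only [beq_iff_eq] at hr2
    have : r = md := List.inj_on_of_nodup_map c8 hr1 hmd hr2
    simp only [hr, Option.map_some, Option.getD_some, this]
  refine ⟨α, cv α S.x, L.length - 1, fun m => α + (((L.getD m dd).1 : ℤ) : ZMod q),
    fun m => cv α (L.getD m dd).2, dof, (S.offs.map Prod.fst).toFinset, ?_, ?_, ?_⟩
  · refine ⟨?_, ?_, ?_, ?_, ?_, ?_, ?_, ?_, ?_⟩
    · intro m hm
      rw [List.mem_toFinset, List.mem_map] at hm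
      obtain ⟨md, hmd, rfl⟩ := hm
      have := (c7 md hmd).1
      omega
    · intro m hm m' hm' he
      by_contra hne
      rcases lt_or_gt_of_ne hne with hlt | hlt
      · exact kx_ne α _ _ (c6 m' (by omega) m hlt) he.symm
      · exact kx_ne α _ _ (c6 m (by omega) m' hlt) he
    · intro m hm
      exact kx_ne α _ _ (c5 _ (hmemL m (by omega))).2
    · intro m hm he
      obtain ⟨⟨h1, h2⟩, -⟩ := c5 _ (hmemL m (by omega))
      exact kx_ne_int h1 h2 (by simpa using he)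
    · intro m hm
      have := kx_path h htc hD dd L 0 S.x c2 m (by omega)
      rwa [hα0] at this
    · have := kx_tau h htc hD _ 0 _ c3
      rwa [hα0] at this
    · exact hrho0 _ _ c4
    · intro m hm
      rw [List.mem_toFinset, List.mem_map] at hm
      obtain ⟨md, hmd, rfl⟩ := hm
      rw [hdof md hmd]
      rcases (c7 md hmd).2 with h1 | h1
      · refine kx_off (R.ρ α) (fun t => cv α t) _ (fun a b hab => hrho0 a b ?_) _ _ _ h1
        exact List.mem_append_left _ hab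
      · refine kx_off (R.ρ α) (fun t => cv α t) _ (fun a b hab => hrho0 a b ?_) _ _ _ h1
        exact List.mem_append_right _ hab
    · intro b c hbc
      simp only [yxChk, Bool.or_eq_true, List.any_eq_true, Bool.and_eq_true, decide_eq_true_eq,
        bne_iff_ne, ne_eq, beq_iff_eq] at c9
      rcases c9 with h1 | ⟨e, -, ⟨h1, h2⟩, h3⟩
      · exfalso
        rcases hl : (L.getD (L.length - 1) dd).2 with l | j <;> rcases hx : S.x with l' | j' <;>
          rw [hl, hx] at h1 hbc <;> simp [cv] at h1 hbc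
      · refine ⟨α + (e : ZMod q), fun he => kx_ne_int h1 h2 (by simpa using he), ?_⟩
        have h4 : R.ρ (α + (e : ZMod q)) (cv α (L.getD (L.length - 1) dd).2) = cv α S.x ∨
            R.ρ (α + (e : ZMod q)) (cv α S.x) = cv α (L.getD (L.length - 1) dd).2 := by
          rcases h3 with h3 | h3
          · exact Or.inl (kx_rho h hD e _ _ (kx_contains2 _ _ h3))
          · exact Or.inr (kx_rho h hD e _ _ (kx_contains2 _ _ h3))
        rcases hbc with ⟨e1, e2⟩ | ⟨e1, e2⟩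
        · rw [e1, e2] at h4
          exact h4
        · rw [e1, e2] at h4
          exact h4.symm
  · rw [List.toFinset_card_of_nodup c8, List.length_map]
  · intro o
    constructor
    · intro ho
      rw [List.mem_map] at ho
      obtain ⟨md, hmd, rfl⟩ := ho
      exact ⟨md.1, List.mem_toFinset.mpr (List.mem_map_of_mem hmd), (hdof md hmd).symm⟩
    · rintro ⟨m, hm, rfl⟩
      rw [List.mem_toFinset, List.mem_map] at hm
      obtain ⟨md, hmd, rfl⟩ := hm
      rw [hdof md hmd]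
      exact List.mem_map_of_mem hmd


theorem sp_ext {nc : ℕ} (p : Pat nc) (S : SpD nc) (R q : ℕ) (hP : 0 < p.per.length) (h1 : S.i0 + R < q) (h2 : p.zone.length + R ≤ q + S.i0)
    (hc : S.chk R q (p.acc q S.i0) = true) : S.chk R (q + p.per.length) (p.acc (q + p.per.length) S.i0) = true := by
  have hD : (fun e : ℤ => if -(R : ℤ) ≤ e ∧ e ≤ (R : ℤ) then p.acc (q + p.per.length) S.i0 e else PD.nil nc) =
      fun e : ℤ => if -(R : ℤ) ≤ e ∧ e ≤ (R : ℤ) then p.acc q S.i0 e else PD.nil nc := by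
    funext e
    by_cases he : -(R : ℤ) ≤ e ∧ e ≤ (R : ℤ)
    · rw [if_pos he, if_pos he]
      exact kx_acc p S.i0 R q hP h1 h2 e he
    · rw [if_neg he, if_neg he]
  have hq : q ≤ q + p.per.length := Nat.le_add_right _ _
  unfold SpD.chk at hc ⊢
  simp only at hc ⊢
  rw [hD]
  rw [kx_acc p S.i0 R q hP h1 h2 0 ⟨by omega, by omega⟩]
  simp only [Bool.and_eq_true, List.all_eq_true, decide_eq_true_eq] at hc ⊢
  obtain ⟨⟨⟨⟨⟨⟨⟨⟨c1, c2⟩, c3⟩, c4⟩, c5⟩, c6⟩, c7⟩, c8⟩, c9⟩ := hc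
  refine ⟨⟨⟨⟨⟨⟨⟨⟨c1, c2⟩, c3⟩, c4⟩, ?_⟩, ?_⟩, c7⟩, c8⟩, kx_yx_mono hq _ _ _ c9⟩
  · exact fun x hx => ⟨⟨(c5 x hx).1.1, lt_of_lt_of_le (c5 x hx).1.2 hq⟩, kx_neTok_mono hq _ _ (c5 x hx).2⟩
  · exact fun x hx y hy => kx_neTok_mono hq _ _ (c6 x hx y hy)

end Pool.Agent.KS6_69.GT
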