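import Pool.Agent.KS6_69.GT.SpecialSum
import Pool.Agent.KS6_69.GT.Block

set_option autoImplicit false

namespace Pool.Agent.KS6_69.GT


/-- The exceptional face through the dart `α → x`: it is `α x γ0 u0 γ1 u1 ... γs us` (back to `α`); `d m` tells where `u m` is in the rotation
of `α`, for `m ∈ M`. -/
structure Sp {A B C : Type} (R : BRot A (B ⊕ C)) (α : A) (x : B ⊕ C) (s : ℕ) (γ : ℕ → A) (u : ℕ → B ⊕ C) (d : ℕ → ℤ)
    (M : Finset ℕ) : Prop where
  hM : ∀ m ∈ M, m < s
  inj : ∀ m ≤ s, ∀ m' ≤ s, u m = u m' → m = m'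
  ux : ∀ m ≤ s, u m ≠ x
  gα : ∀ m ≤ s, γ m ≠ α
  path : ∀ m ≤ s, (R.face^[m+1]) (α, x) = (γ m, u m)
  last : R.τ (u s) (γ s) = α
  lastr : R.ρ α (u s) = x
  off : ∀ m ∈ M, u m = (R.ρ α ^ (d m)) x
  yx : ∀ b c, (u s = Sum.inl b ∧ x = Sum.inr c) ∨ (u s = Sum.inr c ∧ x = Sum.inl b) →
      ∃ a, a ≠ α ∧ (R.ρ a (Sum.inl b) = Sum.inr c ∨ R.ρ a (Sum.inr c) = Sum.inl b)

/-
TARGET special_emb: special_sum applied to a rotation system R with its vertex α renamed to `none` (A ≃ Option A2, A2 = {a // a ≠ α}),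
and to the block, whose second part ZMod n is identified with B ⊕ C by j ↦ (R.ρ α ^ j) x (R.ρ α is one cycle on n = |B|+|C| elements, so this
is a bijection of ZMod n; it maps 0 to x, -1 to u s, o = d m to u m, and conjugates v ↦ v - 1 to the inverse of R.ρ α).
The missing edges of the block are at the offsets d m, m ∈ M.
Count: the face permutation of the block is an involution whose fixed points are exactly the |M| missing edges [a dart (a, v) that is an edge is
not fixed: face (a,v) = (a,v) gives R1.τ v a = a; v has at least two neighbours `none`, ... so τ v moves a: R1.PTrans and ne1], the offsets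
d m, m ∈ M being different mod n because the u m are different; so it has ((m+1) n - |M|)/2 + |M| = ((m+1) n + |M|)/2 cycles
[for m = 2 the missing v's have exactly two neighbours]. Here it is assumed 2 ≤ m (so that all v have ≥ 2 neighbours).
Result on A1 ⊕ A2 with |A1| = m, |A2| = |A| - 1; then transport to Fin (this is `Emb`).
-/
/-- transport of a rotation system along bijections -/
def K3map {A A' N N' : Type} (R : BRot A N) (eA : A ≃ A') (eN : N ≃ N') : BRot A' N' where
  ρ a := eN.permCongr (R.ρ (eA.symm a))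
  τ x := eA.permCongr (R.τ (eN.symm x))

theorem K3map_rho {A A' N N' : Type} (R : BRot A N) (eA : A ≃ A') (eN : N ≃ N') (a : A) (x : N) :
    (K3map R eA eN).ρ (eA a) (eN x) = eN (R.ρ a x) := by
  simp [K3map, Equiv.permCongr_apply]

theorem K3map_tau {A A' N N' : Type} (R : BRot A N) (eA : A ≃ A') (eN : N ≃ N') (a : A) (x : N) :
    (K3map R eA eN).τ (eN x) (eA a) = eA (R.τ x a) := by
  simp [K3map, Equiv.permCongr_apply]

theorem K3map_face {A A' N N' : Type} (R : BRot A N) (eA : A ≃ A') (eN : N ≃ N') (p : A × N) :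
    (K3map R eA eN).face ((eA.prodCongr eN) p) = (eA.prodCongr eN) (R.face p) := by
  obtain ⟨a, x⟩ := p
  show ((K3map R eA eN).τ (eN x) (eA a), (K3map R eA eN).ρ ((K3map R eA eN).τ (eN x) (eA a)) (eN x)) =
    (eA (R.τ x a), eN (R.ρ (R.τ x a) x))
  rw [K3map_tau, K3map_rho]

theorem K3map_face_eq {A A' N N' : Type} (R : BRot A N) (eA : A ≃ A') (eN : N ≃ N') :
    (K3map R eA eN).face = (eA.prodCongr eN).permCongr R.face := by
  ext1 p
  obtain ⟨q, rfl⟩ := (eA.prodCongr eN).surjective p
  rw [K3map_face, Equiv.permCongr_apply, Equiv.symm_apply_apply]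

theorem K3map_iter {A A' N N' : Type} (R : BRot A N) (eA : A ≃ A') (eN : N ≃ N') (k : ℕ) (p : A × N) :
    ((K3map R eA eN).face)^[k] ((eA.prodCongr eN) p) = (eA.prodCongr eN) ((R.face)^[k] p) := by
  induction k generalizing p with
  | zero => rfl
  | succ k ih => rw [Function.iterate_succ_apply, Function.iterate_succ_apply, K3map_face, ih]

theorem K3permCongr_same {D D' : Type} (e : D ≃ D') (f : Equiv.Perm D) (x y : D) :
    (e.permCongr f).SameCycle (e x) (e y) ↔ f.SameCycle x y := by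
  have h : ∀ k : ℤ, ((e.permCongr f) ^ k) (e x) = e ((f ^ k) x) := by
    intro k
    have h1 : (e.permCongr f) ^ k = e.permCongr (f ^ k) := by
      have := map_zpow (e.permCongrHom : Equiv.Perm D ≃* Equiv.Perm D') f k
      exact this.symm
    rw [h1, Equiv.permCongr_apply, Equiv.symm_apply_apply]
  constructor
  · rintro ⟨k, hk⟩
    exact ⟨k, e.injective ((h k).symm.trans hk)⟩
  · rintro ⟨k, hk⟩
    exact ⟨k, by rw [h k, hk]⟩

theorem K3ncyc {D D' : Type} (e : D ≃ D') (f : Equiv.Perm D) : ncyc (e.permCongr f) = ncyc f := by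
  unfold ncyc
  apply Nat.card_congr
  exact (Quotient.congr e (fun a b => (K3permCongr_same e f a b).symm)).symm

theorem K3map_trans {A A' N N' : Type} (R : BRot A N) (eA : A ≃ A') (eN : N ≃ N') (h : R.Trans) :
    (K3map R eA eN).Trans := by
  constructor
  · intro a x y
    obtain ⟨x, rfl⟩ := eN.surjective x
    obtain ⟨y, rfl⟩ := eN.surjective y
    exact (K3permCongr_same eN _ x y).2 (h.1 _ _ _)
  · intro x a b
    obtain ⟨a, rfl⟩ := eA.surjective a
    obtain ⟨b, rfl⟩ := eA.surjective b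
    exact (K3permCongr_same eA _ a b).2 (h.2 _ _ _)

theorem K3map_ptrans {A A' N N' : Type} (R : BRot A N) (eA : A ≃ A') (eN : N ≃ N') (E : A → N → Prop)
    (E' : A' → N' → Prop) (hE : ∀ a x, E' (eA a) (eN x) ↔ E a x) (h : R.PTrans E) :
    (K3map R eA eN).PTrans E' := by
  refine ⟨?_, ?_, ?_⟩
  · intro a x
    obtain ⟨a, rfl⟩ := eA.surjective a
    obtain ⟨x, rfl⟩ := eN.surjective x
    rw [hE, K3map_rho, K3map_tau]
    intro h1
    have := h.1 a x h1
    rw [this.1, this.2]
    exact ⟨rfl, rfl⟩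
  · intro a x y
    obtain ⟨a, rfl⟩ := eA.surjective a
    obtain ⟨x, rfl⟩ := eN.surjective x
    obtain ⟨y, rfl⟩ := eN.surjective y
    rw [hE, hE]
    intro h1 h2
    refine (K3permCongr_same eN _ x y).2 ?_
    rw [Equiv.symm_apply_apply]
    exact h.2.1 a x y h1 h2
  · intro x a b
    obtain ⟨x, rfl⟩ := eN.surjective x
    obtain ⟨a, rfl⟩ := eA.surjective a
    obtain ⟨b, rfl⟩ := eA.surjective b
    rw [hE, hE]
    intro h1 h2
    refine (K3permCongr_same eA _ a b).2 ?_
    rw [Equiv.symm_apply_apply]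
    exact h.2.2 x a b h1 h2

open Classical in
/-- the number of cycles of an involution -/
theorem K3inv {D : Type} [Fintype D] (f : Equiv.Perm D) (hf : ∀ d, f (f d) = d) (S : Finset D)
    (hS : ∀ d ∈ S, f d = d) : Fintype.card D + S.card ≤ 2 * ncyc f := by
  set Q := Quotient (Equiv.Perm.SameCycle.setoid f) with hQ
  have hfin : Finite Q := Quotient.finite _
  have : Fintype Q := Fintype.ofFinite Q
  have e1 : Fintype.card D = ∑ q : Q, (Finset.univ.filter (fun d : D => (Quotient.mk _ d : Q) = q)).card := by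
    rw [← Finset.card_univ]
    exact Finset.card_eq_sum_card_fiberwise (fun d _ => Finset.mem_coe.2 (Finset.mem_univ _))
  have e2 : S.card = ∑ q : Q, (S.filter (fun d : D => (Quotient.mk _ d : Q) = q)).card :=
    Finset.card_eq_sum_card_fiberwise (fun d _ => Finset.mem_coe.2 (Finset.mem_univ _))
  have e3 : ncyc f = ∑ q : Q, 1 := by
    unfold ncyc
    rw [Nat.card_eq_fintype_card, ← Finset.card_univ, Finset.card_eq_sum_ones]
  have hpow : ∀ (k : ℤ) (d : D), (f ^ k) d = d ∨ (f ^ k) d = f d := by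
    intro k d
    have h2 : f ^ (2 : ℤ) = 1 := by
      ext x
      have : f ^ (2 : ℤ) = f * f := by rw [zpow_two]
      rw [this]
      simp [hf]
    rcases Int.even_or_odd' k with ⟨c, hc | hc⟩
    · left
      rw [hc, zpow_mul, h2, one_zpow]
      rfl
    · right
      rw [hc, zpow_add, zpow_mul, h2, one_zpow, one_mul, zpow_one]
  rw [e1, e2, e3, Finset.mul_sum, ← Finset.sum_add_distrib]
  apply Finset.sum_le_sum
  intro q _
  obtain ⟨d, rfl⟩ := Quotient.exists_rep q
  have hmem : ∀ d' : D, (Quotient.mk _ d' : Q) = Quotient.mk _ d → d' = d ∨ d' = f d := by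
    intro d' h
    have h1 : f.SameCycle d' d := Quotient.exact h
    obtain ⟨k, hk⟩ := h1.symm
    rcases hpow k d with h3 | h3
    · left; rw [← hk, h3]
    · right; rw [← hk, h3]
  by_cases hd : f d = d
  · have h1 : (Finset.univ.filter (fun d' : D => (Quotient.mk _ d' : Q) = Quotient.mk _ d)) ⊆ {d} := by
      intro d' h
      rw [Finset.mem_filter] at h
      rw [Finset.mem_singleton]
      rcases hmem d' h.2 with h4 | h4
      · exact h4
      · rw [h4, hd]
    have h2 : (S.filter (fun d' : D => (Quotient.mk _ d' : Q) = Quotient.mk _ d)) ⊆ {d} := by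
      intro d' h
      rw [Finset.mem_filter] at h
      rw [Finset.mem_singleton]
      rcases hmem d' h.2 with h4 | h4
      · exact h4
      · rw [h4, hd]
    have h3 := Finset.card_le_card h1
    have h4 := Finset.card_le_card h2
    rw [Finset.card_singleton] at h3 h4
    omega
  · have h1 : (Finset.univ.filter (fun d' : D => (Quotient.mk _ d' : Q) = Quotient.mk _ d)) ⊆ {d, f d} := by
      intro d' h
      rw [Finset.mem_filter] at h
      rw [Finset.mem_insert, Finset.mem_singleton]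
      exact hmem d' h.2
    have h2 : (S.filter (fun d' : D => (Quotient.mk _ d' : Q) = Quotient.mk _ d)) = ∅ := by
      rw [Finset.filter_eq_empty_iff]
      intro d' h h5
      have h6 := hS d' h
      rcases hmem d' h5 with h4 | h4
      · rw [h4] at h6; exact hd h6
      · rw [h4, hf] at h6; exact hd h6.symm
    have h3 := Finset.card_le_card h1
    have h4 : ({d, f d} : Finset D).card ≤ 2 := Finset.card_le_two
    rw [h2, Finset.card_empty]
    omega

open Classical in
theorem special_emb {A B C : Type} [Fintype A] [Fintype B] [Fintype C] (R : BRot A (B ⊕ C)) (hR : R.Trans)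
    (hch : ∀ b c, ∃ a, R.ρ a (Sum.inl b) = Sum.inr c ∨ R.ρ a (Sum.inr c) = Sum.inl b)
    (α : A) (x : B ⊕ C) (s : ℕ) (γ : ℕ → A) (u : ℕ → B ⊕ C) (d : ℕ → ℤ) (M : Finset ℕ) (h : Sp R α x s γ u d M)
    (m n F : ℕ) (hm : 2 ≤ m) (hn : n = Fintype.card B + Fintype.card C) (hn3 : 3 ≤ n) (hA : 3 ≤ Fintype.card A)
    (offs : List ℤ) (hoffs : ∀ o, o ∈ offs ↔ ∃ m ∈ M, o = d m) (hB : Blk m n offs) (hF : F ≤ ncyc R.face) :
    Emb (Fintype.card A + m - 1) (Fintype.card B) (Fintype.card C) (F + ((m + 1) * n + M.card) / 2 - n) := by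
  obtain ⟨R1, a0, p1, p2, p3, p4, p5, p6, p7⟩ := hB
  have hnz : NeZero n := ⟨by omega⟩
  -- the bijection of `ZMod n` with `B ⊕ C`
  set σ := R.ρ α with hσ
  have hcyc : σ.IsCycleOn ((Finset.univ : Finset (B ⊕ C)) : Set (B ⊕ C)) := by
    refine ⟨?_, fun x _ y _ => hR.1 α x y⟩
    rw [Finset.coe_univ]
    exact Set.bijOn_univ.2 σ.bijective
  have hcard : (Finset.univ : Finset (B ⊕ C)).card = n := by
    rw [Finset.card_univ, Fintype.card_sum, hn]
  have hzz : ∀ i j : ℤ, (σ ^ i) x = (σ ^ j) x ↔ (i : ZMod n) = (j : ZMod n) := by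
    intro i j
    rw [hcyc.zpow_apply_eq_zpow_apply (Finset.mem_univ x), hcard, ZMod.intCast_eq_intCast_iff]
  have hbij : Function.Bijective (fun j : ZMod n => (σ ^ (j.cast : ℤ)) x) := by
    constructor
    · intro i j hij
      have := (hzz _ _).1 hij
      rwa [ZMod.intCast_zmod_cast, ZMod.intCast_zmod_cast] at this
    · intro y
      obtain ⟨k, hk⟩ := hR.1 α x y
      refine ⟨(k : ZMod n), ?_⟩
      rw [← hk]
      show (σ ^ _) x = (σ ^ k) x
      rw [hzz, ZMod.intCast_zmod_cast]
  set eN : ZMod n ≃ B ⊕ C := Equiv.ofBijective _ hbij with heN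
  have heNi : ∀ o : ℤ, eN (o : ZMod n) = (σ ^ o) x := by
    intro o
    show (σ ^ _) x = (σ ^ o) x
    rw [hzz, ZMod.intCast_zmod_cast]
  have heN0 : eN 0 = x := by
    have := heNi 0
    simpa using this
  have hus : eN (-1) = u s := by
    have h1 := heNi (-1)
    have h2 : (((-1 : ℤ)) : ZMod n) = -1 := by simp
    rw [h2] at h1
    rw [h1, zpow_neg_one, Equiv.Perm.inv_eq_iff_eq]
    exact h.lastr.symm
  have hum : ∀ m ∈ M, eN (d m : ZMod n) = u m := by
    intro m hm
    rw [heNi, h.off m hm]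
  have hrho : ∀ j : ZMod n, σ (eN (j - 1)) = eN j := by
    intro j
    have h1 : j = ((j.cast : ℤ) : ZMod n) := (ZMod.intCast_zmod_cast j).symm
    have h2 : j - 1 = (((j.cast : ℤ) - 1 : ℤ) : ZMod n) := by
      rw [Int.cast_sub, ZMod.intCast_zmod_cast, Int.cast_one]
    rw [h2, heNi]
    conv_rhs => rw [h1]
    rw [heNi, ← Equiv.Perm.mul_apply, ← zpow_one_add]
    congr 2
    ring
  -- the first part
  set eA : A ≃ Option {a // a ≠ α} := (Equiv.optionSubtypeNe α).symm with heA
  have heAα : eA α = none := by simp [heA]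
  have heAn : ∀ a (ha : a ≠ α), eA a = some ⟨a, ha⟩ := by
    intro a ha
    exact Equiv.optionSubtypeNe_symm_of_ne ha
  obtain ⟨a1, ha1⟩ : ∃ a1 : A, a1 ≠ α := by
    by_contra hcon
    have hcon : ∀ a, a = α := fun a => by
      by_contra hh
      exact hcon ⟨a, hh⟩
    have : Fintype.card A ≤ 1 := Fintype.card_le_one_iff.2 (fun a b => by rw [hcon a, hcon b])
    omega
  set E := K3map R eA (Equiv.refl (B ⊕ C)) with hEdef
  set R1' := K3map R1 (Equiv.refl (Option (Fin m))) eN with hR1def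
  have Erho : ∀ a v, E.ρ (eA a) v = R.ρ a v := fun a v => K3map_rho R eA (Equiv.refl _) a v
  have Etau : ∀ a v, E.τ v (eA a) = eA (R.τ v a) := fun a v => K3map_tau R eA (Equiv.refl _) a v
  have Rrho : ∀ a v, R1'.ρ a (eN v) = eN (R1.ρ a v) := fun a v => K3map_rho R1 (Equiv.refl _) eN a v
  have Rtau : ∀ a v, R1'.τ (eN v) a = R1.τ v a := fun a v => K3map_tau R1 (Equiv.refl _) eN a v
  have Rface : ∀ a v, R1'.face (a, eN v) = ((R1.face (a, v)).1, eN (R1.face (a, v)).2) :=
    fun a v => K3map_face R1 (Equiv.refl _) eN (a, v)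
  have Enone : ∀ v, E.ρ none v = σ v := by
    intro v
    rw [← heAα, Erho]
  have hch' : ∀ a v w, R.ρ a v = w → E.ρ (eA a) v = w := fun a v w e => by rw [Erho]; exact e
  obtain ⟨R', g1, g2, g3⟩ := special_sum (A1 := Fin m) (A2 := {a // a ≠ α}) (B := B) (C := C) R1' E
    (K3map_trans R eA (Equiv.refl _) hR) a0 x s
    (fun k => if hk : γ k ≠ α then ⟨γ k, hk⟩ else ⟨a1, ha1⟩) u M h.hM h.inj h.ux
    (by
      intro k hk
      have h1 := K3map_iter R eA (Equiv.refl (B ⊕ C)) (k + 1) (α, x)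
      have h2 : (eA.prodCongr (Equiv.refl (B ⊕ C))) (α, x) = (none, x) := by
        show (eA α, x) = (none, x)
        rw [heAα]
      rw [h2, h.path k hk] at h1
      rw [h1]
      show (eA (γ k), u k) = _
      rw [heAn _ (h.gα k hk), dif_pos (h.gα k hk)])
    (by
      rw [dif_pos (h.gα s le_rfl), ← heAn _ (h.gα s le_rfl), Etau, h.last, heAα])
    (by
      rw [Enone]
      exact h.lastr)
    (by
      refine K3map_ptrans R1 (Equiv.refl _) eN _ _ ?_ p1
      intro a v
      show ¬ (a = some a0 ∧ ∃ m ∈ M, eN v = u m) ↔ ¬ (a = some a0 ∧ ∃ o ∈ offs, v = (o : ZMod n))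
      rw [not_iff_not]
      refine and_congr Iff.rfl ?_
      constructor
      · rintro ⟨k, hk, e⟩
        refine ⟨d k, (hoffs _).2 ⟨k, hk, rfl⟩, ?_⟩
        apply eN.injective
        rw [e, hum k hk]
      · rintro ⟨o, ho, e⟩
        obtain ⟨k, hk, rfl⟩ := (hoffs o).1 ho
        exact ⟨k, hk, by rw [e, hum k hk]⟩)
    (by
      intro v
      obtain ⟨j, rfl⟩ := eN.surjective v
      rw [Rrho, p2, Enone, hrho])
    (by
      rintro ⟨a, v⟩
      obtain ⟨j, rfl⟩ := eN.surjective v
      rw [Rface, Rface, Prod.mk.eta, p3])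
    (by rw [← heN0, Rtau, p5])
    (by rw [← hus, Rtau, p6])
    (by rw [← hus, Rrho, p7, heN0])
    (by
      intro v
      obtain ⟨j, rfl⟩ := eN.surjective v
      rw [Rtau]
      exact p4 j)
    (by
      intro v
      rw [← heAα, Etau]
      intro h1
      have h2 : R.τ v α = α := eA.injective h1
      obtain ⟨k, hk⟩ := hR.2 v α a1
      rw [Equiv.Perm.zpow_apply_eq_self_of_apply_eq_self h2] at hk
      exact ha1 hk.symm)
    (by
      intro b c
      obtain ⟨a, ha⟩ := hch b c
      refine ⟨eA a, ?_⟩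
      rw [Erho, Erho]
      exact ha)
    (by
      intro b c hbc
      obtain ⟨a, ha, hab⟩ := h.yx b c hbc
      refine ⟨eA a, ?_, ?_⟩
      · rw [← heAα]
        intro e
        exact ha (eA.injective e)
      · rw [Erho, Erho]
        exact hab)
  -- counting
  have c1 : ncyc E.face = ncyc R.face := by
    rw [hEdef, K3map_face_eq, K3ncyc]
  have c2 : ncyc R1'.face = ncyc R1.face := by
    rw [hR1def, K3map_face_eq, K3ncyc]
  have hMinj : Set.InjOn (fun k : ℕ => ((some a0, (d k : ZMod n)) : Option (Fin m) × ZMod n)) (M : Set ℕ) := by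
    intro k hk l hl e
    have e1 : (d k : ZMod n) = (d l : ZMod n) := (Prod.mk.inj e).2
    have e2 : u k = u l := by rw [← hum k hk, ← hum l hl, e1]
    exact h.inj k (h.hM k hk).le l (h.hM l hl).le e2
  have c3 := K3inv R1.face p3 (M.image (fun k : ℕ => ((some a0, (d k : ZMod n)) : Option (Fin m) × ZMod n)))
    (by
      intro p hp
      rw [Finset.mem_image] at hp
      obtain ⟨k, hk, rfl⟩ := hp
      have h1 := p1.1 (some a0) (d k : ZMod n) (by
        rw [not_not]
        exact ⟨rfl, d k, (hoffs _).2 ⟨k, hk, rfl⟩, rfl⟩)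
      show (R1.τ (d k : ZMod n) (some a0), R1.ρ (R1.τ (d k : ZMod n) (some a0)) (d k : ZMod n)) = _
      rw [h1.2, h1.1])
  rw [Finset.card_image_of_injOn hMinj] at c3
  have c4 : Fintype.card (Option (Fin m) × ZMod n) = (m + 1) * n := by
    rw [Fintype.card_prod, Fintype.card_option, Fintype.card_fin, ZMod.card]
  rw [c4] at c3
  rw [c1, c2, Fintype.card_sum, ← hn] at g3
  -- transport to `Fin`
  have cA2 : Fintype.card {a // a ≠ α} = Fintype.card A - 1 := by
    rw [Fintype.card_subtype_compl, Fintype.card_subtype_eq]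
  have eF : Fin m ⊕ {a // a ≠ α} ≃ Fin (Fintype.card A + m - 1) :=
    Fintype.equivFinOfCardEq (by
      rw [Fintype.card_sum, Fintype.card_fin, cA2]
      omega)
  have eB := Fintype.equivFin B
  have eC := Fintype.equivFin C
  refine ⟨K3map R' eF (eB.sumCongr eC), K3map_trans R' _ _ g1, ?_, ?_⟩
  · intro b c
    obtain ⟨b, rfl⟩ := eB.surjective b
    obtain ⟨c, rfl⟩ := eC.surjective c
    obtain ⟨a, ha⟩ := g2 b c
    refine ⟨eF a, ?_⟩
    have hb : (Sum.inl (eB b) : Fin (Fintype.card B) ⊕ Fin (Fintype.card C)) = (eB.sumCongr eC) (Sum.inl b) := rfl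
    have hc : (Sum.inr (eC c) : Fin (Fintype.card B) ⊕ Fin (Fintype.card C)) = (eB.sumCongr eC) (Sum.inr c) := rfl
    rw [hb, hc, K3map_rho, K3map_rho]
    rcases ha with ha | ha
    · left; rw [ha]
    · right; rw [ha]
  · rw [K3map_face_eq, K3ncyc]
    omega

end Pool.Agent.KS6_69.GT
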