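import Pool.Agent.KS6_69.GT.Core

set_option autoImplicit false

namespace Pool.Agent.KS6_69.GT


theorem sum_const {X Y : Type} (f : Equiv.Perm X) (F : X → Y) (h : ∀ p, F (f p) = F p)
    (p q : X) (hpq : f.SameCycle p q) : F p = F q := by
  obtain ⟨i, rfl⟩ := hpq
  have : ∀ i : ℤ, ∀ p, F ((f ^ i) p) = F p := by
    intro i
    induction i using Int.induction_on with
    | zero => intro p; simp
    | succ n ih =>
      intro p
      rw [zpow_add_one, Equiv.Perm.mul_apply, ih, h]
    | pred n ih =>
      intro p
      rw [zpow_sub_one, Equiv.Perm.mul_apply, ih]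
      have := h (f⁻¹ p)
      have e : f (f⁻¹ p) = p := f.apply_symm_apply p
      rw [e] at this
      exact this.symm
  exact (this i p).symm

/-- splicing two cycles at `none` -/
def splice {A1 A2 : Type} (T1 : Equiv.Perm (Option A1)) (T2 : Equiv.Perm (Option A2))
    (β β' : A1) (γ γ' : A2) (hβ : T1 none = some β) (hβ' : T1 (some β') = none)
    (hγ : T2 none = some γ) (hγ' : T2 (some γ') = none) : Equiv.Perm (A1 ⊕ A2) where
  toFun := Sum.elim (fun a => (T1 (some a)).elim (Sum.inr γ) Sum.inl)
    (fun b => (T2 (some b)).elim (Sum.inl β) Sum.inr)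
  invFun := Sum.elim (fun a => (T1.symm (some a)).elim (Sum.inr γ') Sum.inl)
    (fun b => (T2.symm (some b)).elim (Sum.inl β') Sum.inr)
  left_inv := by
    rintro (a | b)
    · rcases h : T1 (some a) with _ | a'
      · have h2 : T2.symm (some γ) = none := by rw [Equiv.symm_apply_eq, hγ]
        have h3 : some a = some β' := T1.injective (h.trans hβ'.symm)
        simp only [Sum.elim_inl, h, Option.elim_none, Sum.elim_inr, h2]
        rw [Option.some_injective _ h3]
      · have h2 : T1.symm (some a') = some a := by rw [Equiv.symm_apply_eq, h]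
        simp only [Sum.elim_inl, h, Option.elim_some, h2]
    · rcases h : T2 (some b) with _ | b'
      · have h2 : T1.symm (some β) = none := by rw [Equiv.symm_apply_eq, hβ]
        have h3 : some b = some γ' := T2.injective (h.trans hγ'.symm)
        simp only [Sum.elim_inr, h, Option.elim_none, Sum.elim_inl, h2]
        rw [Option.some_injective _ h3]
      · have h2 : T2.symm (some b') = some b := by rw [Equiv.symm_apply_eq, h]
        simp only [Sum.elim_inr, h, Option.elim_some, h2]
  right_inv := by
    rintro (a | b)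
    · rcases h : T1.symm (some a) with _ | a'
      · have h3 : some β = some a := by
          rw [Equiv.symm_apply_eq] at h
          rw [h, hβ]
        simp only [Sum.elim_inl, h, Option.elim_none, Sum.elim_inr, hγ']
        rw [Option.some_injective _ h3]
      · have h2 : T1 (some a') = some a := by
          rw [Equiv.symm_apply_eq] at h
          exact h.symm
        simp only [Sum.elim_inl, h, Option.elim_some, h2]
    · rcases h : T2.symm (some b) with _ | b'
      · have h3 : some γ = some b := by
          rw [Equiv.symm_apply_eq] at h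
          rw [h, hγ]
        simp only [Sum.elim_inr, h, Option.elim_none, Sum.elim_inl, hβ']
        rw [Option.some_injective _ h3]
      · have h2 : T2 (some b') = some b := by
          rw [Equiv.symm_apply_eq] at h
          exact h.symm
        simp only [Sum.elim_inr, h, Option.elim_some, h2]

/-- the elements in the cycle of `none` -/
theorem sum_orbit {B A : Type} [Finite B] (T : Equiv.Perm (Option B)) (f : Equiv.Perm A)
    (ι : B → A) (β : B) (hβ : T none = some β)
    (hf : ∀ a a', T (some a) = some a' → f (ι a) = ι a') (a : B)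
    (ha : T.SameCycle none (some a)) : f.SameCycle (ι β) (ι a) := by
  have key : ∀ (k : ℕ) (a : B), (T ^ k) none = some a → f.SameCycle (ι β) (ι a) := by
    intro k
    induction k with
    | zero => intro a h; simp at h
    | succ n ih =>
      intro a h
      rw [pow_succ', Equiv.Perm.mul_apply] at h
      rcases h2 : (T ^ n) none with _ | c
      · rw [h2, hβ] at h
        rw [Option.some_injective _ h]
      · rw [h2] at h
        have h3 := ih c h2
        have h4 := hf c a h
        rw [← h4]
        exact Equiv.Perm.sameCycle_apply_right.2 h3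
  obtain ⟨k, -, -, hk⟩ := ha.exists_pow_eq''
  exact key k a hk

theorem sum_exists {A1 A2 N : Type} [Fintype A1] [Fintype A2] [Fintype N]
    (R1 : BRot (Option A1) N) (R2 : BRot (Option A2) N)
    (E1 : Option A1 → N → Prop) (E2 : Option A2 → N → Prop)
    (h1 : R1.PTrans E1) (h2 : R2.PTrans E2) (n1 : ∀ x, E1 none x) (n2 : ∀ x, E2 none x)
    (ne1 : ∀ x, R1.τ x none ≠ none) (ne2 : ∀ x, R2.τ x none ≠ none)
    (hopp : ∀ x, R2.ρ none (R1.ρ none x) = x)
    (hq : ∀ x, R1.face (R1.face (none, x)) = (none, x)) :
    ∃ R : BRot (A1 ⊕ A2) N,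
      R.PTrans (Sum.elim (fun a => E1 (some a)) (fun a => E2 (some a))) ∧
      (∀ a, R.ρ (Sum.inl a) = R1.ρ (some a)) ∧ (∀ a, R.ρ (Sum.inr a) = R2.ρ (some a)) ∧
      (∀ x a a', R1.τ x (some a) = some a' → R.τ x (Sum.inl a) = Sum.inl a') ∧
      (∀ x a b, R1.τ x (some a) = none → R2.τ x none = some b → R.τ x (Sum.inl a) = Sum.inr b) ∧
      (∀ x a a', R2.τ x (some a) = some a' → R.τ x (Sum.inr a) = Sum.inr a') ∧
      (∀ x a b, R2.τ x (some a) = none → R1.τ x none = some b → R.τ x (Sum.inr a) = Sum.inl b) ∧
      ncyc R1.face + ncyc R2.face ≤ ncyc R.face + Fintype.card N := by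
  classical
  have eβ : ∀ x, ∃ β, R1.τ x none = some β := fun x => Option.ne_none_iff_exists'.1 (ne1 x)
  have eγ : ∀ x, ∃ γ, R2.τ x none = some γ := fun x => Option.ne_none_iff_exists'.1 (ne2 x)
  have eβ' : ∀ x, ∃ β, R1.τ x (some β) = none := by
    intro x
    rcases h : (R1.τ x).symm none with _ | b
    · rw [Equiv.symm_apply_eq] at h
      exact absurd h.symm (ne1 x)
    · rw [Equiv.symm_apply_eq] at h
      exact ⟨b, h.symm⟩
  have eγ' : ∀ x, ∃ γ, R2.τ x (some γ) = none := by
    intro x
    rcases h : (R2.τ x).symm none with _ | b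
    · rw [Equiv.symm_apply_eq] at h
      exact absurd h.symm (ne2 x)
    · rw [Equiv.symm_apply_eq] at h
      exact ⟨b, h.symm⟩
  choose β hβ using eβ
  choose γ hγ using eγ
  choose β' hβ' using eβ'
  choose γ' hγ' using eγ'
  let R : BRot (A1 ⊕ A2) N :=
    { ρ := Sum.elim (fun a => R1.ρ (some a)) (fun b => R2.ρ (some b))
      τ := fun x => splice (R1.τ x) (R2.τ x) (β x) (β' x) (γ x) (γ' x) (hβ x) (hβ' x)
        (hγ x) (hγ' x) }
  have r1 : ∀ a, R.ρ (Sum.inl a) = R1.ρ (some a) := fun a => rfl
  have r2 : ∀ a, R.ρ (Sum.inr a) = R2.ρ (some a) := fun a => rfl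
  have t1 : ∀ x a a', R1.τ x (some a) = some a' → R.τ x (Sum.inl a) = Sum.inl a' := by
    intro x a a' h
    change (R1.τ x (some a)).elim (Sum.inr (γ x)) Sum.inl = _
    rw [h]; rfl
  have t2 : ∀ x a, R1.τ x (some a) = none → R.τ x (Sum.inl a) = Sum.inr (γ x) := by
    intro x a h
    change (R1.τ x (some a)).elim (Sum.inr (γ x)) Sum.inl = _
    rw [h]; rfl
  have t3 : ∀ x a a', R2.τ x (some a) = some a' → R.τ x (Sum.inr a) = Sum.inr a' := by
    intro x a a' h
    change (R2.τ x (some a)).elim (Sum.inl (β x)) Sum.inr = _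
    rw [h]; rfl
  have t4 : ∀ x a, R2.τ x (some a) = none → R.τ x (Sum.inr a) = Sum.inl (β x) := by
    intro x a h
    change (R2.τ x (some a)).elim (Sum.inl (β x)) Sum.inr = _
    rw [h]; rfl
  refine ⟨R, ⟨?_, ?_, ?_⟩, r1, r2, t1, ?_, t3, ?_, ?_⟩
  · rintro (a | a) x hE
    · have := h1.1 (some a) x hE
      exact ⟨this.1, t1 x a a this.2⟩
    · have := h2.1 (some a) x hE
      exact ⟨this.1, t3 x a a this.2⟩
  · rintro (a | a) x y hx hy
    · exact h1.2.1 (some a) x y hx hy
    · exact h2.2.1 (some a) x y hx hy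
  · intro x
    have c1 : ∀ a, E1 (some a) x → (R.τ x).SameCycle (Sum.inl (β x)) (Sum.inl a) := fun a ha =>
      sum_orbit (R1.τ x) (R.τ x) Sum.inl (β x) (hβ x) (t1 x) a
        (h1.2.2 x none (some a) (n1 x) ha)
    have c2 : ∀ a, E2 (some a) x → (R.τ x).SameCycle (Sum.inr (γ x)) (Sum.inr a) := fun a ha =>
      sum_orbit (R2.τ x) (R.τ x) Sum.inr (γ x) (hγ x) (t3 x) a
        (h2.2.2 x none (some a) (n2 x) ha)
    have c3 : (R.τ x).SameCycle (Sum.inl (β x)) (Sum.inr (γ x)) := by
      have h3 : (R1.τ x).SameCycle none (some (β' x)) := by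
        have : (R1.τ x).SameCycle (some (β' x)) (R1.τ x (some (β' x))) :=
          Equiv.Perm.sameCycle_apply_right.2 (Equiv.Perm.SameCycle.refl _ _)
        rw [hβ'] at this
        exact this.symm
      have h4 := sum_orbit (R1.τ x) (R.τ x) Sum.inl (β x) (hβ x) (t1 x) (β' x) h3
      rw [← t2 x (β' x) (hβ' x)]
      exact Equiv.Perm.sameCycle_apply_right.2 h4
    rintro (a | a) (b | b) ha hb
    · exact (c1 a ha).symm.trans (c1 b hb)
    · exact (c1 a ha).symm.trans (c3.trans (c2 b hb))
    · exact (c2 a ha).symm.trans (c3.symm.trans (c1 b hb))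
    · exact (c2 a ha).symm.trans (c2 b hb)
  · intro x a b h1' h2'
    rw [hγ x] at h2'
    rw [← Option.some_injective _ h2']
    exact t2 x a h1'
  · intro x a b h1' h2'
    rw [hβ x] at h2'
    rw [← Option.some_injective _ h2']
    exact t4 x a h1'
  · -- counting
    let Q1 := Quotient (Equiv.Perm.SameCycle.setoid R1.face)
    let Q2 := Quotient (Equiv.Perm.SameCycle.setoid R2.face)
    let q1 : Option A1 × N → Q1 := Quotient.mk _
    let q2 : Option A2 × N → Q2 := Quotient.mk _
    have hq1 : ∀ p, q1 (R1.face p) = q1 p := fun p =>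
      Quotient.sound (show R1.face.SameCycle (R1.face p) p from
        Equiv.Perm.sameCycle_apply_left.2 (Equiv.Perm.SameCycle.refl _ _))
    have hq2 : ∀ p, q2 (R2.face p) = q2 p := fun p =>
      Quotient.sound (show R2.face.SameCycle (R2.face p) p from
        Equiv.Perm.sameCycle_apply_left.2 (Equiv.Perm.SameCycle.refl _ _))
    let Ψ : (A1 ⊕ A2) × N → Q1 ⊕ Q2 := fun p =>
      Sum.elim (fun a => if R1.τ p.2 (some a) = none then Sum.inr (q2 (none, p.2))
        else Sum.inl (q1 (some a, p.2))) (fun b => Sum.inr (q2 (some b, p.2))) p.1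
    have f1 : ∀ a x, R1.face (a, x) = (R1.τ x a, R1.ρ (R1.τ x a) x) := fun a x => rfl
    have f2 : ∀ a x, R2.face (a, x) = (R2.τ x a, R2.ρ (R2.τ x a) x) := fun a x => rfl
    have f3 : ∀ a x, R.face (a, x) = (R.τ x a, R.ρ (R.τ x a) x) := fun a x => rfl
    have P1 : ∀ a x, R1.τ x (some a) = none → Ψ (Sum.inl a, x) = Sum.inr (q2 (none, x)) :=
      fun a x h => if_pos h
    have P2 : ∀ a x, R1.τ x (some a) ≠ none → Ψ (Sum.inl a, x) = Sum.inl (q1 (some a, x)) :=
      fun a x h => if_neg h
    have P3 : ∀ a x, Ψ (Sum.inr a, x) = Sum.inr (q2 (some a, x)) := fun a x => rfl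
    have hΨ : ∀ p, Ψ (R.face p) = Ψ p := by
      rintro ⟨a | b, x⟩
      · rcases h : R1.τ x (some a) with _ | a'
        · rw [f3, t2 x a h, r2, P3, P1 a x h, ← hγ x, ← f2, hq2]
        · rw [f3, t1 x a a' h, r1, P2 a x (by rw [h]; simp)]
          have hf : R1.face (some a, x) = (some a', R1.ρ (some a') x) := by rw [f1, h]
          have hne : R1.τ (R1.ρ (some a') x) (some a') ≠ none := by
            intro h0
            have h3 : R1.face (some a', R1.ρ (some a') x) =
                (none, R1.ρ none (R1.ρ (some a') x)) := by rw [f1, h0]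
            have h4 := hq (R1.ρ none (R1.ρ (some a') x))
            rw [← h3] at h4
            have h5 := R1.face.injective h4
            rw [h3, ← hf] at h5
            have h6 := R1.face.injective h5
            simp at h6
          rw [P2 a' _ hne, ← hf, hq1]
      · rcases h : R2.τ x (some b) with _ | b'
        · rw [f3, t4 x b h, r1, P3]
          have h3 := hq x
          rw [f1 none x, hβ x, f1] at h3
          have h4 : R1.τ (R1.ρ (some (β x)) x) (some (β x)) = none := congrArg Prod.fst h3
          have h5 : R1.ρ none (R1.ρ (some (β x)) x) = x := by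
            have := congrArg Prod.snd h3
            simp only [h4] at this
            exact this
          have h6 : R2.ρ none x = R1.ρ (some (β x)) x := by
            have := hopp (R1.ρ (some (β x)) x)
            rw [h5] at this
            exact this
          rw [P1 _ _ h4, ← h6, ← hq2 (some b, x), f2, h]
        · rw [f3, t3 x b b' h, r2, P3, P3, ← hq2 (some b, x), f2, h]
    let Ψ' : Quotient (Equiv.Perm.SameCycle.setoid R.face) → Q1 ⊕ Q2 :=
      Quotient.lift Ψ (fun p q hpq => sum_const R.face Ψ hΨ p q hpq)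
    have hsurj : Function.Surjective (Sum.elim Ψ' (fun x => Sum.inl (q1 (none, x))) :
        Quotient (Equiv.Perm.SameCycle.setoid R.face) ⊕ N → Q1 ⊕ Q2) := by
      rintro (c | c)
      · induction c using Quotient.inductionOn with
        | h p =>
          obtain ⟨a, x⟩ := p
          rcases a with _ | a
          · exact ⟨Sum.inr x, rfl⟩
          · by_cases h : R1.τ x (some a) = none
            · refine ⟨Sum.inr (R1.ρ none x), ?_⟩
              change Sum.inl (q1 (none, R1.ρ none x)) = Sum.inl (q1 (some a, x))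
              rw [← hq1 (some a, x), f1, h]
            · exact ⟨Sum.inl (Quotient.mk _ (Sum.inl a, x)), P2 a x h⟩
      · induction c using Quotient.inductionOn with
        | h p =>
          obtain ⟨a, x⟩ := p
          rcases a with _ | a
          · exact ⟨Sum.inl (Quotient.mk _ (Sum.inl (β' x), x)), P1 _ _ (hβ' x)⟩
          · exact ⟨Sum.inl (Quotient.mk _ (Sum.inr a, x)), P3 a x⟩
    have := Nat.card_le_card_of_surjective _ hsurj
    rw [Nat.card_sum, Nat.card_sum, Nat.card_eq_fintype_card (α := N)] at this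
    exact this


end Pool.Agent.KS6_69.GT

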