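import Pool.Agent.KS6_69.GT.Wrap

set_option autoImplicit false

/-!
Versions of the boolean checks that are cheaper for the kernel: the witnesses for the corner cuts are looked for in a
given list of offsets only.
-/

namespace Pool.Agent.KS6_69.GT

variable {nc : ℕ}

/-- As `okCh`, with the candidate offsets in the list `C`. -/
def okChC (C : List ℤ) (D : ℤ → PD nc) : Bool :=
  (List.finRange nc).all fun j => C.any fun l =>
    (D (-l)).d.pa.contains (Sum.inl l, Sum.inr j) || (D (-l)).d.pa.contains (Sum.inr j, Sum.inl l)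

/-- As `chk`, with `okChC`. -/
def chkC (C : List ℤ) (R : ℕ) (A : ℤ → PD nc) : Bool :=
  let D : ℤ → PD nc := fun e => if -(R : ℤ) ≤ e ∧ e ≤ (R : ℤ) then A e else PD.nil nc
  okB D && okS D && okChC C D

/-- As `Pat.loc`, with `chkC`. -/
def Pat.locC (p : Pat nc) (C : List ℤ) (R q : ℕ) : Bool := (List.range q).all fun i => chkC C R (p.acc q i)

theorem okChC_okCh (C : List ℤ) (R : ℕ) (hC : ∀ l ∈ C, -(R : ℤ) ≤ l ∧ l ≤ R) (D : ℤ → PD nc)
    (h : okChC C D = true) : okCh R D = true := by
  unfold okChC at h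
  unfold okCh
  rw [List.all_eq_true] at h ⊢
  intro j hj
  have h1 := h j hj
  rw [List.any_eq_true] at h1 ⊢
  obtain ⟨l, hl, h2⟩ := h1
  refine ⟨l, ?_, h2⟩
  obtain ⟨h3, h4⟩ := hC l hl
  rw [TR.mem_iv]
  push_cast
  omega

theorem chkC_chk (C : List ℤ) (R : ℕ) (hC : ∀ l ∈ C, -(R : ℤ) ≤ l ∧ l ≤ R) (A : ℤ → PD nc)
    (h : chkC C R A = true) : chk R A = true := by
  unfold chkC at h
  unfold chk
  simp only [Bool.and_eq_true] at h ⊢
  exact ⟨h.1, okChC_okCh C R hC _ h.2⟩

theorem locC_loc (p : Pat nc) (C : List ℤ) (R q : ℕ) (hC : ∀ l ∈ C, -(R : ℤ) ≤ l ∧ l ≤ R)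
    (h : p.locC C R q = true) : p.loc R q = true := by
  unfold Pat.locC at h
  unfold Pat.loc
  rw [List.all_eq_true] at h ⊢
  intro i hi
  exact chkC_chk C R hC _ (h i hi)

/-- One infinite family: the local checks are only needed up to `m1` periods. -/
theorem fam_ext2 (p : Pat nc) (C : List ℤ) (R q1 m1 m P : ℕ) (hPl : p.per.length = P) (hP : 0 < P) (hPR : P ≤ R)
    (hm1 : p.zone.length + 2 * R + P ≤ q1 + m1 * P)
    (hm : p.zone.length + 4 * R + 2 * P ≤ q1 + m * P) (hlp : p.lp R = true)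
    (hC : ∀ l ∈ C, -(R : ℤ) ≤ l ∧ l ≤ R)
    (h1 : ∀ t ≤ m1, p.locC C R (q1 + t * P) = true)
    (h2 : ((List.range (m + 1)).all fun t => p.conn (q1 + t * P)) = true) :
    ∀ t, p.loc R (q1 + t * P) = true ∧ p.conn (q1 + t * P) = true := by
  subst hPl
  have hloc : ∀ t, p.loc R (q1 + t * p.per.length) = true := by
    have key : ∀ s : ℕ, p.loc R (q1 + (m1 + s) * p.per.length) = true := by
      intro s
      induction s with
      | zero => exact locC_loc p C R _ hC (h1 m1 le_rfl)
      | succ s ih =>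
        have e : q1 + (m1 + (s + 1)) * p.per.length = q1 + (m1 + s) * p.per.length + p.per.length := by
          ring
        have hb : p.zone.length + 2 * R + p.per.length ≤ q1 + (m1 + s) * p.per.length := by
          refine hm1.trans ?_
          have : m1 * p.per.length ≤ (m1 + s) * p.per.length := Nat.mul_le_mul_right _ (by omega)
          omega
        rw [e]
        exact ext_loc p R _ hP hb ih
    intro t
    by_cases ht : t ≤ m1
    · exact locC_loc p C R _ hC (h1 t ht)
    · have h3 := key (t - m1)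
      rwa [Nat.add_sub_cancel' (by omega)] at h3
  refine family p R q1 m hP hPR hm hlp ?_
  intro t ht
  rw [List.all_eq_true] at h2
  exact ⟨hloc t, h2 t (List.mem_range.2 (by omega))⟩

/-- A single table. -/
theorem one_fam (p : Pat nc) (C : List ℤ) (R q : ℕ) (hC : ∀ l ∈ C, -(R : ℤ) ≤ l ∧ l ≤ R)
    (h1 : p.locC C R q = true) (h2 : p.conn q = true) : p.loc R q = true ∧ p.conn q = true :=
  ⟨locC_loc p C R q hC h1, h2⟩

end Pool.Agent.KS6_69.GT
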