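import Pool.Agent.KS6_69.GT.TabBlocks
import Pool.Agent.KS6_69.GT.Wrap2

set_option autoImplicit false

namespace Pool.Agent.KS6_69.GT

def P_Fd_d1_run_6_5_S_4_20_8_4_231_242 : Pat 5 :=
  ⟨[⟨⟨[.inl 0, .inr 0, .inl 3, .inr 2, .inl 4, .inr 4, .inl 1, .inr 3, .inl 2, .inr 1, .inl 5, .inl 6], [], [6, 3, 5, 4, 2, 1, 0], [], [], []⟩, [-1, -4, -2, -2, -1], [2, 2, 3, -3, 1]⟩,
    ⟨⟨[.inl 0, .inr 4, .inl 1, .inr 0, .inl 4, .inr 2, .inl 5, .inr 3, .inl 3, .inl 2, .inr 1, .inl 6], [], [6, 4, 5, 2, 3, 1, 0], [], [], [1]⟩, [-3, -3, -2, 3, -1], [2, 2, 1, -2, 1]⟩,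
    ⟨⟨[.inl 0, .inr 4, .inl 1, .inl 2, .inr 0, .inl 4, .inr 2, .inl 5, .inr 3, .inl 3, .inr 1, .inl 6], [], [6, 2, 5, 3, 4, 1, 0], [], [], [0]⟩, [-2, -2, -1, 1, -1], [3, 3, 2, 2, 1]⟩,
    ⟨⟨[.inl 0, .inr 4, .inl 5, .inr 3, .inl 4, .inr 1, .inl 3, .inl 2, .inr 0, .inl 1, .inr 2, .inl 6], [], [6, 4, 5, 3, 2, 1, 0], [], [3], []⟩, [-2, -2, -3, 2, -1], [1, 1, 2, -1, 1]⟩,
    ⟨⟨[.inl 0, .inr 0, .inl 5, .inl 3, .inr 2, .inl 4, .inr 4, .inl 1, .inr 3, .inl 2, .inr 1, .inl 6], [], [6, 2, 3, 5, 4, 1, 0], [], [6], []⟩, [-1, -1, -2, -2, -1], [3, 4, 2, -3, 1]⟩,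
    ⟨⟨[.inl 0, .inr 4, .inl 1, .inr 0, .inl 2, .inl 4, .inr 2, .inl 5, .inr 3, .inl 3, .inr 1, .inl 6], [], [6, 4, 2, 5, 3, 1, 0], [], [], []⟩, [-3, -3, -2, 3, -1], [1, 2, 2, -2, 1]⟩,
    ⟨⟨[.inl 0, .inr 4, .inl 1, .inr 0, .inl 4, .inl 2, .inr 2, .inl 5, .inr 3, .inl 3, .inr 1, .inl 6], [], [6, 3, 2, 5, 4, 1, 0], [], [], []⟩, [-1, 1, -2, 1, -1], [3, 3, 2, 2, 1]⟩,
    ⟨⟨[.inl 0, .inr 4, .inl 5, .inr 3, .inl 4, .inr 1, .inl 2, .inr 0, .inl 1, .inl 3, .inr 2, .inl 6], [], [6, 4, 5, 3, 2, 1, 0], [], [], []⟩, [-3, -2, -2, 2, -1], [1, -1, 2, -1, 1]⟩],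
   [⟨⟨[.inl 0, .inr 0, .inl 5, .inl 3, .inr 2, .inl 4, .inr 4, .inl 1, .inr 3, .inl 2, .inr 1, .inl 6], [], [6, 3, 5, 4, 2, 1, 0], [], [], []⟩, [-1, -4, -2, -2, -1], [3, 4, 2, -3, 1]⟩,
    ⟨⟨[.inl 0, .inr 4, .inl 1, .inr 0, .inl 2, .inl 4, .inr 2, .inl 5, .inr 3, .inl 3, .inr 1, .inl 6], [], [6, 4, 5, 2, 3, 1, 0], [], [], []⟩, [-3, -3, -2, 3, -1], [1, 2, 2, -2, 1]⟩,
    ⟨⟨[.inl 0, .inr 4, .inl 1, .inr 0, .inl 4, .inl 2, .inr 2, .inl 5, .inr 3, .inl 3, .inr 1, .inl 6], [], [6, 2, 5, 3, 4, 1, 0], [], [], []⟩, [-1, 1, -2, 1, -1], [3, 3, 2, 2, 1]⟩,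
    ⟨⟨[.inl 0, .inr 4, .inl 5, .inr 3, .inl 4, .inr 1, .inl 2, .inr 0, .inl 1, .inl 3, .inr 2, .inl 6], [], [6, 4, 5, 3, 2, 1, 0], [], [], []⟩, [-3, -2, -2, 2, -1], [1, -1, 2, -1, 1]⟩]⟩

theorem P_Fd_d1_run_6_5_S_4_20_8_4_231_242_l0 : P_Fd_d1_run_6_5_S_4_20_8_4_231_242.locC [1, 5, 6, 2, 3] 6 (20 + 0 * 4) = true := by decide +kernel

theorem P_Fd_d1_run_6_5_S_4_20_8_4_231_242_l1 : P_Fd_d1_run_6_5_S_4_20_8_4_231_242.locC [1, 5, 6, 2, 3] 6 (20 + 1 * 4) = true := by decide +kernel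

theorem P_Fd_d1_run_6_5_S_4_20_8_4_231_242_fam : ∀ t : ℕ, P_Fd_d1_run_6_5_S_4_20_8_4_231_242.loc 6 (20 + t * 4) = true ∧ P_Fd_d1_run_6_5_S_4_20_8_4_231_242.conn (20 + t * 4) = true :=
  fam_ext2 P_Fd_d1_run_6_5_S_4_20_8_4_231_242 [1, 5, 6, 2, 3] 6 20 1 5 4 (by decide) (by decide) (by decide) (by decide) (by decide) (by decide +kernel) (by decide)
    (by
      intro t ht
      interval_cases t
      · exact P_Fd_d1_run_6_5_S_4_20_8_4_231_242_l0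
      · exact P_Fd_d1_run_6_5_S_4_20_8_4_231_242_l1)
    (by decide +kernel)

theorem P_Fd_d1_run_6_5_S_4_20_8_4_231_242_sh : P_Fd_d1_run_6_5_S_4_20_8_4_231_242.all (shOne 6) = true := by decide +kernel

def S_Fd_d1_run_6_5_S_4_20_8_4_231_242_0 : SpD 5 := ⟨1, .inr 1, [(-3, .inl 3), (1, .inr 0), (-1, .inl 2)], [(0, -2)]⟩

theorem S_Fd_d1_run_6_5_S_4_20_8_4_231_242_0_fam : ∀ t : ℕ, S_Fd_d1_run_6_5_S_4_20_8_4_231_242_0.chk 3 (20 + t * 4) (P_Fd_d1_run_6_5_S_4_20_8_4_231_242.acc (20 + t * 4) S_Fd_d1_run_6_5_S_4_20_8_4_231_242_0.i0) = true :=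
  sp_fam P_Fd_d1_run_6_5_S_4_20_8_4_231_242 S_Fd_d1_run_6_5_S_4_20_8_4_231_242_0 3 20 1 4 (by decide) (by decide) (by decide) (by decide) (by decide +kernel)

def S_Fd_d1_run_6_5_S_4_20_8_4_231_242_1 : SpD 5 := ⟨1, .inr 1, [(-3, .inl 3), (1, .inr 0), (-1, .inl 2)], [(0, -2), (1, -7)]⟩

theorem S_Fd_d1_run_6_5_S_4_20_8_4_231_242_1_fam : ∀ t : ℕ, S_Fd_d1_run_6_5_S_4_20_8_4_231_242_1.chk 3 (20 + t * 4) (P_Fd_d1_run_6_5_S_4_20_8_4_231_242.acc (20 + t * 4) S_Fd_d1_run_6_5_S_4_20_8_4_231_242_1.i0) = true :=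
  sp_fam P_Fd_d1_run_6_5_S_4_20_8_4_231_242 S_Fd_d1_run_6_5_S_4_20_8_4_231_242_1 3 20 1 4 (by decide) (by decide) (by decide) (by decide) (by decide +kernel)

theorem W_Fd_d1_run_6_5_S_4_20_8_4_231_242 (q r : ℕ) (h1 : 20 ≤ q) (h2 : q % 4 = 0) (h5 : r + 1 = q) : Want q r := by
  obtain ⟨t, rfl⟩ : ∃ t : ℕ, q = 20 + t * 4 := ⟨(q - 20) / 4, by omega⟩
  obtain ⟨hl, hc⟩ := P_Fd_d1_run_6_5_S_4_20_8_4_231_242_fam t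
  have hI := inst_one P_Fd_d1_run_6_5_S_4_20_8_4_231_242 6 (20 + t * 4) 6 r 4 (by omega) (by omega) (by omega) (by decide +kernel) (by decide) (by omega) (by decide +kernel) P_Fd_d1_run_6_5_S_4_20_8_4_231_242_sh hl hc
  exact class_d _ _ (by omega) (by omega) (by omega) hI.1 (hI.2 S_Fd_d1_run_6_5_S_4_20_8_4_231_242_0 3 2 (by decide) (by show (1 : ℕ) < _; omega) (S_Fd_d1_run_6_5_S_4_20_8_4_231_242_0_fam t) (blk_2_3_m2 _ (by omega) (by omega))) (hI.2 S_Fd_d1_run_6_5_S_4_20_8_4_231_242_1 3 3 (by decide) (by show (1 : ℕ) < _; omega) (S_Fd_d1_run_6_5_S_4_20_8_4_231_242_1_fam t) (blk_3_3_m2_m7 _ (by omega) (by omega)))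

def P_Feo2_d5_even_3_3_C_0_18_6_4 : Pat 3 :=
  ⟨[⟨⟨[.inl 0, .inl 1, .inr 1, .inl 2, .inl 3], [.inl (-1), .inl (-2), .inr 2, .inl (-3), .inr 0, .inl (-4)], [3, 1, 2, -1], [-4, -3, -2, 0], [], []⟩, [1, -1, 1], [-1, 3, -1]⟩,
    ⟨⟨[.inl 0, .inl 3], [.inl (-1), .inr 1, .inl 2, .inl 1, .inl (-2), .inr 2, .inl (-3), .inr 0, .inl (-4)], [3, 2, 1, -1], [-4, -3, -2, 0], [], []⟩, [1, -3, 1], [-1, 1, -1]⟩,
    ⟨⟨[.inl 0, .inl 1, .inr 1, .inl 2, .inl 3], [.inl (-1), .inl (-2), .inr 2, .inl (-3), .inr 0, .inl (-4)], [3, 1, 2, -1], [-4, -3, -2, 0], [], []⟩, [1, -1, 1], [-1, 3, -1]⟩,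
    ⟨⟨[.inl 0, .inl 3], [.inl (-1), .inr 1, .inl 2, .inl 1, .inl (-2), .inr 2, .inl (-3), .inr 0, .inl (-4)], [3, 2, 1, -1], [-4, -3, -2, 0], [], []⟩, [1, -3, 1], [-1, 1, -1]⟩,
    ⟨⟨[.inl 0, .inl 1, .inr 1, .inl 2, .inl 3], [.inl (-1), .inl (-2), .inr 2, .inl (-3), .inr 0, .inl (-4)], [3, 1, 2, -1], [-4, -3, -2, 0], [], []⟩, [1, -1, 1], [-1, 3, -1]⟩,
    ⟨⟨[.inl 0, .inl 3], [.inl (-1), .inr 1, .inl 2, .inl 1, .inl (-2), .inr 2, .inl (-3), .inr 0, .inl (-4)], [3, 2, 1, -1], [-4, -3, -2, 0], [], []⟩, [1, -3, 1], [-1, 1, -1]⟩],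
   [⟨⟨[.inl 0, .inl 1, .inr 1, .inl 2, .inl 3], [.inl (-1), .inl (-2), .inr 2, .inl (-3), .inr 0, .inl (-4)], [3, 1, 2, -1], [-4, -3, -2, 0], [], []⟩, [1, -1, 1], [-1, 3, -1]⟩,
    ⟨⟨[.inl 0, .inl 3], [.inl (-1), .inr 1, .inl 2, .inl 1, .inl (-2), .inr 2, .inl (-3), .inr 0, .inl (-4)], [3, 2, 1, -1], [-4, -3, -2, 0], [], []⟩, [1, -3, 1], [-1, 1, -1]⟩,
    ⟨⟨[.inl 0, .inl 1, .inr 1, .inl 2, .inl 3], [.inl (-1), .inl (-2), .inr 2, .inl (-3), .inr 0, .inl (-4)], [3, 1, 2, -1], [-4, -3, -2, 0], [], []⟩, [1, -1, 1], [-1, 3, -1]⟩,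
    ⟨⟨[.inl 0, .inl 3], [.inl (-1), .inr 1, .inl 2, .inl 1, .inl (-2), .inr 2, .inl (-3), .inr 0, .inl (-4)], [3, 2, 1, -1], [-4, -3, -2, 0], [], []⟩, [1, -3, 1], [-1, 1, -1]⟩]⟩

theorem P_Feo2_d5_even_3_3_C_0_18_6_4_l0 : P_Feo2_d5_even_3_3_C_0_18_6_4.locC [-3, 2] 4 (18 + 0 * 4) = true := by decide +kernel

theorem P_Feo2_d5_even_3_3_C_0_18_6_4_fam : ∀ t : ℕ, P_Feo2_d5_even_3_3_C_0_18_6_4.loc 4 (18 + t * 4) = true ∧ P_Feo2_d5_even_3_3_C_0_18_6_4.conn (18 + t * 4) = true :=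
  fam_ext2 P_Feo2_d5_even_3_3_C_0_18_6_4 [-3, 2] 4 18 0 3 4 (by decide) (by decide) (by decide) (by decide) (by decide) (by decide +kernel) (by decide)
    (by
      intro t ht
      interval_cases t
      · exact P_Feo2_d5_even_3_3_C_0_18_6_4_l0)
    (by decide +kernel)

theorem P_Feo2_d5_even_3_3_C_0_18_6_4_sh : P_Feo2_d5_even_3_3_C_0_18_6_4.all (shTwo (-1) 3 true) = true := by decide +kernel

theorem W_Feo2_d5_even_3_3_C_0_18_6_4 (q r : ℕ) (h1 : 18 ≤ q) (h2 : q % 4 = 2) (h3 : (q + r) % 4 = 3) (h4 : 3 ≤ r) (h5 : r + 5 ≤ q) : Want q r := by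
  obtain ⟨t, rfl⟩ : ∃ t : ℕ, q = 18 + t * 4 := ⟨(q - 18) / 4, by omega⟩
  obtain ⟨hl, hc⟩ := P_Feo2_d5_even_3_3_C_0_18_6_4_fam t
  have hev : decide (Even (((((18 + t * 4) - 2) / 2) - (r - 3) / 2) - 3)) = true := by
    simp only [Nat.even_iff, decide_eq_true_eq]
    omega
  have hI := inst_two P_Feo2_d5_even_3_3_C_0_18_6_4 4 (18 + t * 4) (-1) 3 ((((18 + t * 4) - 2) / 2) - (r - 3) / 2) (((18 + t * 4) - 2) / 2) r 0 (by decide) (by omega) (by decide) (by omega) (by omega) (by omega) (by omega) (by decide +kernel) (by decide) (by omega) (by decide +kernel) (by rw [hev]; exact P_Feo2_d5_even_3_3_C_0_18_6_4_sh) hl hc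
  exact class_t _ _ (by omega) (tmod _ _ (by omega) (by omega)) hI.1 

def P_S_14_run_7_2_S_0 : Pat 2 :=
  ⟨[⟨⟨[.inl 0, .inl 3, .inl 6, .inl 5, .inl 2, .inl 1, .inr 0, .inl 4, .inr 1, .inl 7], [], [7, 5, 2, 1, 6, 4, 3, 0], [], [], []⟩, [-6, 1], [3, 4]⟩,
    ⟨⟨[.inl 0, .inr 1, .inl 3, .inl 6, .inl 5, .inl 2, .inl 1, .inr 0, .inl 4, .inl 7], [], [7, 1, 4, 5, 2, 3, 6, 0], [], [], []⟩, [-6, -6], [4, -1]⟩,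
    ⟨⟨[.inl 0, .inr 1, .inl 6, .inl 3, .inl 4, .inl 5, .inl 2, .inl 1, .inr 0, .inl 7], [], [7, 1, 4, 5, 2, 3, 6, 0], [], [], []⟩, [-6, -6], [6, 5]⟩,
    ⟨⟨[.inl 0, .inr 1, .inl 6, .inl 1, .inr 0, .inl 4, .inl 3, .inl 5, .inl 2, .inl 7], [], [7, 1, 4, 5, 2, 3, 6, 0], [], [], []⟩, [-3, -6], [4, 3]⟩,
    ⟨⟨[.inl 0, .inl 5, .inl 3, .inr 1, .inl 2, .inr 0, .inl 6, .inl 1, .inl 4, .inl 7], [], [7, 6, 5, 2, 3, 4, 1, 0], [], [], []⟩, [-5, -4], [5, 1]⟩,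
    ⟨⟨[.inl 0, .inr 0, .inl 6, .inl 3, .inl 1, .inr 1, .inl 5, .inl 2, .inl 4, .inl 7], [], [7, 6, 5, 3, 1, 2, 4, 0], [], [], []⟩, [-4, -1], [5, 5]⟩,
    ⟨⟨[.inl 0, .inl 1, .inl 4, .inl 6, .inl 3, .inr 1, .inl 5, .inl 2, .inr 0, .inl 7], [], [7, 2, 1, 3, 4, 6, 5, 0], [], [], []⟩, [1, -3], [5, 3]⟩,
    ⟨⟨[.inl 0, .inr 0, .inl 1, .inr 1, .inl 6, .inl 4, .inl 5, .inl 2, .inl 3, .inl 7], [], [7, 3, 2, 1, 6, 5, 4, 0], [], [], []⟩, [-4, -5], [-1, 5]⟩,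
    ⟨⟨[.inl 0, .inl 3, .inl 5, .inl 6, .inr 1, .inl 4, .inl 2, .inl 1, .inr 0, .inl 7], [], [7, 5, 3, 4, 6, 1, 2, 0], [], [], []⟩, [-6, 5], [6, 3]⟩,
    ⟨⟨[.inl 0, .inl 3, .inl 4, .inl 2, .inr 1, .inl 6, .inl 5, .inl 1, .inr 0, .inl 7], [], [7, 1, 2, 4, 5, 6, 3, 0], [], [], []⟩, [-5, -3], [6, 6]⟩,
    ⟨⟨[.inl 0, .inr 1, .inl 6, .inl 5, .inl 4, .inl 3, .inl 2, .inl 1, .inr 0, .inl 7], [], [7, 6, 1, 3, 2, 4, 5, 0], [], [], []⟩, [-5, -5], [6, 6]⟩,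
    ⟨⟨[.inl 0, .inl 2, .inr 0, .inl 1, .inr 1, .inl 6, .inl 3, .inl 4, .inl 5, .inl 7], [], [7, 6, 1, 4, 3, 5, 2, 0], [], [], []⟩, [-5, -3], [1, 6]⟩,
    ⟨⟨[.inl 0, .inr 0, .inl 2, .inl 3, .inl 6, .inl 4, .inl 5, .inl 1, .inr 1, .inl 7], [], [7, 5, 2, 3, 6, 4, 1, 0], [], [], []⟩, [-1, -5], [1, 1]⟩,
    ⟨⟨[.inl 0, .inl 4, .inl 5, .inl 2, .inl 3, .inl 6, .inr 1, .inl 1, .inr 0, .inl 7], [], [7, 2, 4, 3, 5, 6, 1, 0], [], [], []⟩, [-1, -1], [5, -5]⟩],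
   [⟨⟨[.inl 0, .inl 4, .inl 5, .inl 2, .inl 3, .inl 6, .inr 1, .inl 1, .inr 0, .inl 7], [], [7, 2, 4, 3, 5, 6, 1, 0], [], [], []⟩, [-1, -1], [5, -5]⟩]⟩

theorem P_S_14_run_7_2_S_0_fam : P_S_14_run_7_2_S_0.loc 7 14 = true ∧ P_S_14_run_7_2_S_0.conn 14 = true :=
  one_fam P_S_14_run_7_2_S_0 [1, 0, 7, 3, 2] 7 14 (by decide) (by decide +kernel) (by decide +kernel)

theorem P_S_14_run_7_2_S_0_sh : P_S_14_run_7_2_S_0.all (shOne 7) = true := by decide +kernel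

theorem W_S_14_run_7_2_S_0 (q r : ℕ) (h1 : q = 14) (h5 : r + 5 = q) : Want q r := by
  subst h1
  obtain ⟨hl, hc⟩ := P_S_14_run_7_2_S_0_fam
  have hI := inst_one P_S_14_run_7_2_S_0 7 14 7 r 0 (by omega) (by omega) (by omega) (by decide +kernel) (by decide) (by omega) (by decide +kernel) P_S_14_run_7_2_S_0_sh hl hc
  exact class_t _ _ (by omega) (tmod _ _ (by omega) (by omega)) hI.1 

def P_S_8_run_5_4_S_4_231_242 : Pat 4 :=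
  ⟨[⟨⟨[.inl 0, .inr 1, .inl 2, .inr 0, .inl 3, .inr 2, .inl 4, .inl 1, .inr 3, .inl 5], [], [5, 4, 2, 1, 3, 0], [], [], []⟩, [-3, -3, -1, -3], [1, -1, 3, 3]⟩,
    ⟨⟨[.inl 0, .inl 3, .inr 0, .inl 4, .inr 2, .inl 1, .inr 3, .inl 2, .inr 1, .inl 5], [], [5, 3, 2, 4, 1, 0], [], [], [0]⟩, [-1, -3, 2, -3], [1, 2, 1, -2]⟩,
    ⟨⟨[.inl 0, .inr 2, .inl 4, .inr 3, .inl 2, .inl 1, .inr 1, .inl 3, .inr 0, .inl 5], [], [5, 2, 3, 4, 1, 0], [], [], [1]⟩, [-1, -3, -1, 1], [1, 2, 3, 2]⟩,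
    ⟨⟨[.inl 0, .inl 1, .inr 2, .inl 2, .inr 3, .inl 3, .inr 1, .inl 4, .inr 0, .inl 5], [], [5, 2, 4, 3, 1, 0], [], [3], []⟩, [-1, -2, -3, -3], [1, 2, -2, -1]⟩,
    ⟨⟨[.inl 0, .inr 3, .inl 3, .inr 2, .inl 4, .inr 0, .inl 2, .inl 1, .inr 1, .inl 5], [], [5, 3, 4, 1, 2, 0], [], [5], []⟩, [-1, -2, 1, -2], [2, 2, 2, 2]⟩,
    ⟨⟨[.inl 0, .inl 1, .inr 2, .inl 2, .inr 1, .inl 3, .inr 3, .inl 4, .inr 0, .inl 5], [], [5, 2, 4, 3, 1, 0], [], [], []⟩, [2, -2, -3, 2], [3, 3, -1, 3]⟩,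
    ⟨⟨[.inl 0, .inr 0, .inl 1, .inr 3, .inl 4, .inl 2, .inr 2, .inl 3, .inr 1, .inl 5], [], [5, 3, 4, 1, 2, 0], [], [], []⟩, [-2, -2, -2, -2], [1, 3, 1, 3]⟩,
    ⟨⟨[.inl 0, .inr 0, .inl 2, .inr 2, .inl 4, .inr 3, .inl 1, .inl 3, .inr 1, .inl 5], [], [5, 4, 2, 3, 1, 0], [], [], []⟩, [-1, 1, -1, 2], [-2, 3, 1, -2]⟩],
   [⟨⟨[.inl 0, .inr 0, .inl 2, .inr 2, .inl 4, .inr 3, .inl 1, .inl 3, .inr 1, .inl 5], [], [5, 4, 2, 3, 1, 0], [], [], []⟩, [-1, 1, -1, 2], [-2, 3, 1, -2]⟩]⟩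

theorem P_S_8_run_5_4_S_4_231_242_fam : P_S_8_run_5_4_S_4_231_242.loc 5 8 = true ∧ P_S_8_run_5_4_S_4_231_242.conn 8 = true :=
  one_fam P_S_8_run_5_4_S_4_231_242 [3, 4, 2, 0, 5] 5 8 (by decide) (by decide +kernel) (by decide +kernel)

theorem P_S_8_run_5_4_S_4_231_242_sh : P_S_8_run_5_4_S_4_231_242.all (shOne 5) = true := by decide +kernel

def S_S_8_run_5_4_S_4_231_242_0 : SpD 4 := ⟨2, .inr 1, [(-3, .inl 2), (-1, .inr 0), (-2, .inl 1)], [(0, -2)]⟩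

theorem S_S_8_run_5_4_S_4_231_242_0_fam : S_S_8_run_5_4_S_4_231_242_0.chk 3 8 (P_S_8_run_5_4_S_4_231_242.acc 8 S_S_8_run_5_4_S_4_231_242_0.i0) = true := by decide +kernel

def S_S_8_run_5_4_S_4_231_242_1 : SpD 4 := ⟨2, .inr 1, [(-3, .inl 2), (-1, .inr 0), (-2, .inl 1)], [(0, -2), (1, 2)]⟩

theorem S_S_8_run_5_4_S_4_231_242_1_fam : S_S_8_run_5_4_S_4_231_242_1.chk 3 8 (P_S_8_run_5_4_S_4_231_242.acc 8 S_S_8_run_5_4_S_4_231_242_1.i0) = true := by decide +kernel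

theorem W_S_8_run_5_4_S_4_231_242 (q r : ℕ) (h1 : q = 8) (h5 : r + 1 = q) : Want q r := by
  subst h1
  obtain ⟨hl, hc⟩ := P_S_8_run_5_4_S_4_231_242_fam
  have hI := inst_one P_S_8_run_5_4_S_4_231_242 5 8 5 r 4 (by omega) (by omega) (by omega) (by decide +kernel) (by decide) (by omega) (by decide +kernel) P_S_8_run_5_4_S_4_231_242_sh hl hc
  exact class_d _ _ (by omega) (by omega) (by omega) hI.1 (hI.2 S_S_8_run_5_4_S_4_231_242_0 3 2 (by decide) (by show (2 : ℕ) < _; omega) S_S_8_run_5_4_S_4_231_242_0_fam (blk_2_3_m2 _ (by omega) (by omega))) (hI.2 S_S_8_run_5_4_S_4_231_242_1 3 3 (by decide) (by show (2 : ℕ) < _; omega) S_S_8_run_5_4_S_4_231_242_1_fam (blk_3_3_m2_2 _ (by omega) (by omega)))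

def P_S_9_run_5_2_S_3_231 : Pat 2 :=
  ⟨[⟨⟨[.inl 0, .inr 1, .inl 4, .inl 3, .inl 2, .inl 1, .inr 0, .inl 5], [], [5, 2, 1, 3, 4, 0], [], [], []⟩, [-2, -4], [2, 3]⟩,
    ⟨⟨[.inl 0, .inl 1, .inr 0, .inl 3, .inl 2, .inr 1, .inl 4, .inl 5], [], [5, 4, 2, 3, 1, 0], [], [], []⟩, [-2, -2], [3, 3]⟩,
    ⟨⟨[.inl 0, .inr 1, .inl 4, .inl 1, .inl 2, .inl 3, .inr 0, .inl 5], [], [5, 3, 1, 2, 4, 0], [], [], []⟩, [-2, -4], [4, 4]⟩,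
    ⟨⟨[.inl 0, .inr 0, .inl 4, .inl 3, .inl 2, .inl 1, .inr 1, .inl 5], [], [5, 3, 4, 2, 1, 0], [], [1], [0]⟩, [1, -3], [4, 4]⟩,
    ⟨⟨[.inl 0, .inr 0, .inl 2, .inl 1, .inr 1, .inl 3, .inl 4, .inl 5], [], [5, 4, 1, 2, 3, 0], [], [], []⟩, [-3, -3], [-1, 1]⟩,
    ⟨⟨[.inl 0, .inl 1, .inl 2, .inr 1, .inl 4, .inr 0, .inl 3, .inl 5], [], [5, 3, 2, 4, 1, 0], [], [], []⟩, [1, -1], [3, 4]⟩,
    ⟨⟨[.inl 0, .inr 1, .inl 4, .inl 2, .inl 1, .inr 0, .inl 3, .inl 5], [], [5, 3, 1, 2, 4, 0], [], [2], []⟩, [-4, -4], [-1, 2]⟩,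
    ⟨⟨[.inl 0, .inr 0, .inl 3, .inl 2, .inl 1, .inr 1, .inl 4, .inl 5], [], [5, 1, 3, 2, 4, 0], [], [], []⟩, [-4, -4], [2, 4]⟩,
    ⟨⟨[.inl 0, .inr 0, .inl 3, .inl 1, .inl 2, .inr 1, .inl 4, .inl 5], [], [5, 1, 4, 2, 3, 0], [], [], []⟩, [-3, -2], [2, 2]⟩],
   [⟨⟨[.inl 0, .inr 0, .inl 3, .inl 1, .inl 2, .inr 1, .inl 4, .inl 5], [], [5, 1, 4, 2, 3, 0], [], [], []⟩, [-3, -2], [2, 2]⟩]⟩

theorem P_S_9_run_5_2_S_3_231_fam : P_S_9_run_5_2_S_3_231.loc 5 9 = true ∧ P_S_9_run_5_2_S_3_231.conn 9 = true :=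
  one_fam P_S_9_run_5_2_S_3_231 [4, 3, 0, 1, 2] 5 9 (by decide) (by decide +kernel) (by decide +kernel)

theorem P_S_9_run_5_2_S_3_231_sh : P_S_9_run_5_2_S_3_231.all (shOne 5) = true := by decide +kernel

def S_S_9_run_5_2_S_3_231_0 : SpD 2 := ⟨2, .inl 1, [(1, .inr 0), (2, .inl 4)], [(0, 3)]⟩

theorem S_S_9_run_5_2_S_3_231_0_fam : S_S_9_run_5_2_S_3_231_0.chk 4 9 (P_S_9_run_5_2_S_3_231.acc 9 S_S_9_run_5_2_S_3_231_0.i0) = true := by decide +kernel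

theorem W_S_9_run_5_2_S_3_231 (q r : ℕ) (h1 : q = 9) (h5 : r + 3 = q) : Want q r := by
  subst h1
  obtain ⟨hl, hc⟩ := P_S_9_run_5_2_S_3_231_fam
  have hI := inst_one P_S_9_run_5_2_S_3_231 5 9 5 r 3 (by omega) (by omega) (by omega) (by decide +kernel) (by decide) (by omega) (by decide +kernel) P_S_9_run_5_2_S_3_231_sh hl hc
  exact class_b _ _ (by omega) (by omega) (by omega) hI.1 (hI.2 S_S_9_run_5_2_S_3_231_0 4 2 (by decide) (by show (2 : ℕ) < _; omega) S_S_9_run_5_2_S_3_231_0_fam (blk_2_3_3 _ (by omega) (by omega)))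

def P_Fee_d0_run_0_0_S_0_16_0_1 : Pat 0 :=
  ⟨[],
   [⟨⟨[.inl 0], [], [0], [], [], []⟩, [], []⟩]⟩

theorem P_Fee_d0_run_0_0_S_0_16_0_1_l0 : P_Fee_d0_run_0_0_S_0_16_0_1.locC [] 1 (7 + 0 * 1) = true := by decide +kernel

theorem P_Fee_d0_run_0_0_S_0_16_0_1_fam : ∀ t : ℕ, P_Fee_d0_run_0_0_S_0_16_0_1.loc 1 (7 + t * 1) = true ∧ P_Fee_d0_run_0_0_S_0_16_0_1.conn (7 + t * 1) = true :=
  fam_ext2 P_Fee_d0_run_0_0_S_0_16_0_1 [] 1 7 0 0 1 (by decide) (by decide) (by decide) (by decide) (by decide) (by decide +kernel) (by decide)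
    (by
      intro t ht
      interval_cases t
      · exact P_Fee_d0_run_0_0_S_0_16_0_1_l0)
    (by decide +kernel)

theorem P_Fee_d0_run_0_0_S_0_16_0_1_sh : P_Fee_d0_run_0_0_S_0_16_0_1.all (shOne 0) = true := by decide +kernel

theorem W_Fee_d0_run_0_0_S_0_16_0_1 (q r : ℕ) (h1 : 7 ≤ q) (h2 : q % 1 = 0) (h5 : r + 0 = q) : Want q r := by
  obtain ⟨t, rfl⟩ : ∃ t : ℕ, q = 7 + t * 1 := ⟨q - 7, by omega⟩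
  obtain ⟨hl, hc⟩ := P_Fee_d0_run_0_0_S_0_16_0_1_fam t
  have hI := inst_one P_Fee_d0_run_0_0_S_0_16_0_1 1 (7 + t * 1) 0 r 0 (by omega) (by omega) (by omega) (by decide +kernel) (by decide) (by omega) (by decide +kernel) P_Fee_d0_run_0_0_S_0_16_0_1_sh hl hc
  exact class_t _ _ (by omega) (tmod _ _ (by omega) (by omega)) hI.1 

end Pool.Agent.KS6_69.GT
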