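import Pool.Agent.KS6_69.GT.TabBlocks
import Pool.Agent.KS6_69.GT.Wrap2

set_option autoImplicit false

namespace Pool.Agent.KS6_69.GT

def P_Ft_odd_4_1_C_0_15_7_2 : Pat 1 :=
  ⟨[⟨⟨[.inl 1, .inl 0, .inr 0, .inl 3, .inl 2, .inl 4], [.inl (-1), .inl (-2), .inl (-3), .inl (-4)], [4, -2, 3, -3, 2, 0, -1], [-4, 1], [], []⟩, [-2], [3]⟩,
    ⟨⟨[.inl 1, .inl 2, .inl 3, .inl 4], [.inl (-1), .inl 0, .inr 0, .inl (-2), .inl (-3), .inl (-4)], [4, -1], [-4, 2, -3, 3, -2, 0, 1], [], []⟩, [2], [-2]⟩,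
    ⟨⟨[.inl 1, .inl 2, .inl 0, .inr 0, .inl 3, .inl 4], [.inl (-1), .inl (-2), .inl (-3), .inl (-4)], [4, -2, 0, 2, 3, -3, -1], [-4, 1], [], []⟩, [2], [3]⟩,
    ⟨⟨[.inl 1, .inl 2, .inl 3, .inl 4], [.inl (-1), .inl 0, .inr 0, .inl (-2), .inl (-3), .inl (-4)], [4, 3, 0, -2, -1], [-4, 2, -3, 1], [], []⟩, [-3], [-2]⟩,
    ⟨⟨[.inl 1, .inl 2, .inl 3, .inl 4], [.inl (-1), .inl 0, .inr 0, .inl (-2), .inl (-3), .inl (-4)], [4, 2, -2, 0, -1], [-4, 3, -3, 1], [], []⟩, [2], [-2]⟩,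
    ⟨⟨[.inl 1, .inl 0, .inr 0, .inl 2, .inl 3, .inl 4], [.inl (-1), .inl (-2), .inl (-3), .inl (-4)], [4, -3, 2, -2, -1], [-4, 3, 0, 1], [], []⟩, [-3], [2]⟩,
    ⟨⟨[.inl 1, .inl 2, .inl 3, .inl 4], [.inl (-1), .inl 0, .inr 0, .inl (-2), .inl (-3), .inl (-4)], [4, -3, 3, -2, 0, -1], [-4, 2, 1], [], []⟩, [2], [-2]⟩],
   [⟨⟨[.inl 1, .inl 0, .inr 0, .inl 2, .inl 3, .inl 4], [.inl (-1), .inl (-2), .inl (-3), .inl (-4)], [4, -2, 2, 0, -1], [-4, 3, -3, 1], [], []⟩, [-2], [2]⟩,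
    ⟨⟨[.inl 1, .inl 2, .inl 3, .inl 4], [.inl (-1), .inl 0, .inr 0, .inl (-2), .inl (-3), .inl (-4)], [4, -3, 3, -1], [-4, 2, -2, 0, 1], [], []⟩, [2], [-2]⟩]⟩

theorem P_Ft_odd_4_1_C_0_15_7_2_l0 : P_Ft_odd_4_1_C_0_15_7_2.locC [0] 7 (15 + 0 * 2) = true := by decide +kernel

theorem P_Ft_odd_4_1_C_0_15_7_2_l1 : P_Ft_odd_4_1_C_0_15_7_2.locC [0] 7 (15 + 1 * 2) = true := by decide +kernel

theorem P_Ft_odd_4_1_C_0_15_7_2_l2 : P_Ft_odd_4_1_C_0_15_7_2.locC [0] 7 (15 + 2 * 2) = true := by decide +kernel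

theorem P_Ft_odd_4_1_C_0_15_7_2_l3 : P_Ft_odd_4_1_C_0_15_7_2.locC [0] 7 (15 + 3 * 2) = true := by decide +kernel

theorem P_Ft_odd_4_1_C_0_15_7_2_l4 : P_Ft_odd_4_1_C_0_15_7_2.locC [0] 7 (15 + 4 * 2) = true := by decide +kernel

theorem P_Ft_odd_4_1_C_0_15_7_2_fam : ∀ t : ℕ, P_Ft_odd_4_1_C_0_15_7_2.loc 7 (15 + t * 2) = true ∧ P_Ft_odd_4_1_C_0_15_7_2.conn (15 + t * 2) = true :=
  fam_ext2 P_Ft_odd_4_1_C_0_15_7_2 [0] 7 15 4 12 2 (by decide) (by decide) (by decide) (by decide) (by decide) (by decide +kernel) (by decide)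
    (by
      intro t ht
      interval_cases t
      · exact P_Ft_odd_4_1_C_0_15_7_2_l0
      · exact P_Ft_odd_4_1_C_0_15_7_2_l1
      · exact P_Ft_odd_4_1_C_0_15_7_2_l2
      · exact P_Ft_odd_4_1_C_0_15_7_2_l3
      · exact P_Ft_odd_4_1_C_0_15_7_2_l4)
    (by decide +kernel)

theorem P_Ft_odd_4_1_C_0_15_7_2_sh : P_Ft_odd_4_1_C_0_15_7_2.all (shTwo (0) 4 true) = true := by decide +kernel

theorem W_Ft_odd_4_1_C_0_15_7_2 (q r : ℕ) (h1 : 15 ≤ q) (h2 : q % 2 = 1) (h3 : (q + r) % 4 = 2) (h4 : 1 ≤ r) (h5 : r + 8 ≤ q) : Want q r := by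
  obtain ⟨t, rfl⟩ : ∃ t : ℕ, q = 15 + t * 2 := ⟨(q - 15) / 2, by omega⟩
  obtain ⟨hl, hc⟩ := P_Ft_odd_4_1_C_0_15_7_2_fam t
  have hev : decide (Even (((((15 + t * 2) - 1) / 2) - (r - 1) / 2) - 4)) = true := by
    simp only [Nat.even_iff, decide_eq_true_eq]
    omega
  have hI := inst_two P_Ft_odd_4_1_C_0_15_7_2 7 (15 + t * 2) (0) 4 ((((15 + t * 2) - 1) / 2) - (r - 1) / 2) (((15 + t * 2) - 1) / 2) r 0 (by decide) (by omega) (by decide) (by omega) (by omega) (by omega) (by omega) (by decide +kernel) (by decide) (by omega) (by decide +kernel) (by rw [hev]; exact P_Ft_odd_4_1_C_0_15_7_2_sh) hl hc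
  exact class_t _ _ (by omega) (tmod _ _ (by omega) (by omega)) hI.1 

def P_S_17_run_4_3_S_5_233 : Pat 3 :=
  ⟨[⟨⟨[.inl 0, .inr 1, .inl 1, .inr 0, .inl 3, .inl 2, .inr 2, .inl 4], [], [4, 2, 1, 3, 0], [], [], []⟩, [-2, -3, -2], [2, 1, 2]⟩,
    ⟨⟨[.inl 0, .inr 1, .inl 3, .inr 0, .inl 1, .inl 2, .inr 2, .inl 4], [], [4, 2, 3, 1, 0], [], [], []⟩, [1, -1, -2], [-2, 2, 2]⟩,
    ⟨⟨[.inl 0, .inr 1, .inl 3, .inl 1, .inr 0, .inl 2, .inr 2, .inl 4], [], [4, 2, 1, 3, 0], [], [], []⟩, [-2, -3, -2], [-1, 3, 2]⟩,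
    ⟨⟨[.inl 0, .inr 1, .inl 1, .inr 0, .inl 3, .inl 2, .inr 2, .inl 4], [], [4, 2, 3, 1, 0], [], [1], [0, 1]⟩, [1, -2, -2], [2, 1, 2]⟩,
    ⟨⟨[.inl 0, .inr 1, .inl 3, .inr 0, .inl 1, .inl 2, .inr 2, .inl 4], [], [4, 2, 3, 1, 0], [], [3], []⟩, [2, -1, -2], [-1, 3, 2]⟩,
    ⟨⟨[.inl 0, .inr 1, .inl 1, .inr 0, .inl 3, .inl 2, .inr 2, .inl 4], [], [4, 2, 1, 3, 0], [], [1], []⟩, [-2, -3, -2], [2, 1, 2]⟩,
    ⟨⟨[.inl 0, .inr 1, .inl 3, .inr 0, .inl 1, .inl 2, .inr 2, .inl 4], [], [4, 2, 3, 1, 0], [], [], []⟩, [2, -1, -2], [-2, 3, 2]⟩,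
    ⟨⟨[.inl 0, .inr 1, .inl 1, .inr 0, .inl 3, .inl 2, .inr 2, .inl 4], [], [4, 2, 1, 3, 0], [], [], []⟩, [-2, -3, -2], [2, 1, 2]⟩,
    ⟨⟨[.inl 0, .inr 1, .inl 3, .inr 0, .inl 1, .inl 2, .inr 2, .inl 4], [], [4, 2, 3, 1, 0], [], [], []⟩, [2, -1, -2], [-2, 3, 2]⟩,
    ⟨⟨[.inl 0, .inr 1, .inl 1, .inr 0, .inl 3, .inl 2, .inr 2, .inl 4], [], [4, 2, 1, 3, 0], [], [], []⟩, [-2, -3, -2], [2, 1, 2]⟩,
    ⟨⟨[.inl 0, .inr 1, .inl 3, .inr 0, .inl 1, .inl 2, .inr 2, .inl 4], [], [4, 2, 3, 1, 0], [], [], []⟩, [2, -1, -2], [-2, 3, 2]⟩,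
    ⟨⟨[.inl 0, .inr 1, .inl 1, .inr 0, .inl 3, .inl 2, .inr 2, .inl 4], [], [4, 2, 1, 3, 0], [], [], []⟩, [-2, -3, -2], [2, 1, 2]⟩,
    ⟨⟨[.inl 0, .inr 1, .inl 3, .inr 0, .inl 1, .inl 2, .inr 2, .inl 4], [], [4, 2, 3, 1, 0], [], [], []⟩, [2, -1, -2], [-2, 3, 2]⟩,
    ⟨⟨[.inl 0, .inr 1, .inl 1, .inr 0, .inl 3, .inl 2, .inr 2, .inl 4], [], [4, 2, 1, 3, 0], [], [], []⟩, [-2, -3, -2], [2, 1, 2]⟩,
    ⟨⟨[.inl 0, .inr 1, .inl 3, .inr 0, .inl 1, .inl 2, .inr 2, .inl 4], [], [4, 2, 3, 1, 0], [], [], []⟩, [2, -1, -2], [-2, 3, 2]⟩,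
    ⟨⟨[.inl 0, .inr 1, .inl 1, .inr 0, .inl 3, .inl 2, .inr 2, .inl 4], [], [4, 2, 1, 3, 0], [], [], []⟩, [-2, -3, -2], [2, 1, 2]⟩,
    ⟨⟨[.inl 0, .inr 1, .inl 3, .inr 0, .inl 1, .inl 2, .inr 2, .inl 4], [], [4, 2, 3, 1, 0], [], [], []⟩, [2, -1, -2], [-2, 3, 2]⟩],
   [⟨⟨[.inl 0, .inr 1, .inl 3, .inr 0, .inl 1, .inl 2, .inr 2, .inl 4], [], [4, 2, 3, 1, 0], [], [], []⟩, [2, -1, -2], [-2, 3, 2]⟩]⟩

theorem P_S_17_run_4_3_S_5_233_fam : P_S_17_run_4_3_S_5_233.loc 4 17 = true ∧ P_S_17_run_4_3_S_5_233.conn 17 = true :=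
  one_fam P_S_17_run_4_3_S_5_233 [1, 2, 0] 4 17 (by decide) (by decide +kernel) (by decide +kernel)

theorem P_S_17_run_4_3_S_5_233_sh : P_S_17_run_4_3_S_5_233.all (shOne 4) = true := by decide +kernel

def S_S_17_run_4_3_S_5_233_0 : SpD 3 := ⟨2, .inl 1, [(1, .inr 1), (-1, .inl 2), (1, .inr 0), (2, .inl 3)], [(0, -2), (1, 2), (2, 1)]⟩

theorem S_S_17_run_4_3_S_5_233_0_fam : S_S_17_run_4_3_S_5_233_0.chk 3 17 (P_S_17_run_4_3_S_5_233.acc 17 S_S_17_run_4_3_S_5_233_0.i0) = true := by decide +kernel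

theorem W_S_17_run_4_3_S_5_233 (q r : ℕ) (h1 : q = 17) (h5 : r + 1 = q) : Want q r := by
  subst h1
  obtain ⟨hl, hc⟩ := P_S_17_run_4_3_S_5_233_fam
  have hI := inst_one P_S_17_run_4_3_S_5_233 4 17 4 r 5 (by omega) (by omega) (by omega) (by decide +kernel) (by decide) (by omega) (by decide +kernel) P_S_17_run_4_3_S_5_233_sh hl hc
  exact class_c _ _ (by omega) (by omega) (by omega) hI.1 (hI.2 S_S_17_run_4_3_S_5_233_0 3 2 (by decide) (by show (2 : ℕ) < _; omega) S_S_17_run_4_3_S_5_233_0_fam (blk_2_1_m2_2_1 _ (by omega) (by omega)))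

def P_S_15_run_5_2_S_5_231_242_253 : Pat 2 :=
  ⟨[⟨⟨[.inl 0, .inl 1, .inr 1, .inl 4, .inl 3, .inl 2, .inr 0, .inl 5], [], [5, 4, 2, 3, 1, 0], [], [], []⟩, [1, -4], [4, 5]⟩,
    ⟨⟨[.inl 0, .inr 0, .inl 1, .inr 1, .inl 2, .inl 3, .inl 4, .inl 5], [], [5, 1, 2, 4, 3, 0], [], [], []⟩, [-3, -3], [-1, 2]⟩,
    ⟨⟨[.inl 0, .inl 1, .inl 3, .inl 2, .inr 1, .inl 4, .inr 0, .inl 5], [], [5, 3, 4, 1, 2, 0], [], [], []⟩, [1, -3], [3, 2]⟩,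
    ⟨⟨[.inl 0, .inr 1, .inl 4, .inl 1, .inr 0, .inl 3, .inl 2, .inl 5], [], [5, 4, 1, 3, 2, 0], [], [4], [0]⟩, [-4, -2], [-1, 3]⟩,
    ⟨⟨[.inl 0, .inl 3, .inl 2, .inr 1, .inl 4, .inl 1, .inr 0, .inl 5], [], [5, 2, 3, 4, 1, 0], [], [4], []⟩, [-4, -2], [3, 3]⟩,
    ⟨⟨[.inl 0, .inr 1, .inl 4, .inl 1, .inl 2, .inr 0, .inl 3, .inl 5], [], [5, 1, 2, 4, 3, 0], [], [3], [1]⟩, [-3, -5], [1, 3]⟩,
    ⟨⟨[.inl 0, .inl 3, .inl 1, .inr 1, .inl 4, .inl 2, .inr 0, .inl 5], [], [5, 3, 4, 2, 1, 0], [], [], []⟩, [-1, -3], [3, 3]⟩,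
    ⟨⟨[.inl 0, .inl 2, .inr 0, .inl 3, .inl 1, .inr 1, .inl 4, .inl 5], [], [5, 2, 3, 4, 1, 0], [], [], []⟩, [-3, -3], [1, 3]⟩,
    ⟨⟨[.inl 0, .inl 2, .inr 0, .inl 4, .inl 3, .inl 1, .inr 1, .inl 5], [], [5, 4, 1, 3, 2, 0], [], [], []⟩, [-1, -3], [2, 4]⟩,
    ⟨⟨[.inl 0, .inl 2, .inr 0, .inl 4, .inl 1, .inr 1, .inl 3, .inl 5], [], [5, 2, 3, 4, 1, 0], [], [], []⟩, [-3, -3], [4, 2]⟩,
    ⟨⟨[.inl 0, .inl 3, .inl 1, .inr 1, .inl 4, .inl 2, .inr 0, .inl 5], [], [5, 3, 2, 4, 1, 0], [], [], []⟩, [-2, -3], [1, 3]⟩,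
    ⟨⟨[.inl 0, .inl 2, .inl 3, .inl 4, .inr 0, .inl 1, .inr 1, .inl 5], [], [5, 2, 3, 4, 1, 0], [], [], []⟩, [-1, -2], [1, 4]⟩,
    ⟨⟨[.inl 0, .inr 0, .inl 2, .inl 1, .inr 1, .inl 3, .inl 4, .inl 5], [], [5, 4, 2, 3, 1, 0], [], [], []⟩, [-1, -4], [2, 2]⟩,
    ⟨⟨[.inl 0, .inr 0, .inl 3, .inl 2, .inl 1, .inr 1, .inl 4, .inl 5], [], [5, 1, 2, 3, 4, 0], [], [], []⟩, [-4, -3], [3, 3]⟩,
    ⟨⟨[.inl 0, .inr 0, .inl 4, .inl 3, .inl 2, .inl 1, .inr 1, .inl 5], [], [5, 4, 1, 3, 2, 0], [], [], []⟩, [-2, -2], [4, 3]⟩],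
   [⟨⟨[.inl 0, .inr 0, .inl 4, .inl 3, .inl 2, .inl 1, .inr 1, .inl 5], [], [5, 4, 1, 3, 2, 0], [], [], []⟩, [-2, -2], [4, 3]⟩]⟩

theorem P_S_15_run_5_2_S_5_231_242_253_fam : P_S_15_run_5_2_S_5_231_242_253.loc 5 15 = true ∧ P_S_15_run_5_2_S_5_231_242_253.conn 15 = true :=
  one_fam P_S_15_run_5_2_S_5_231_242_253 [1, 2, 4, 0] 5 15 (by decide) (by decide +kernel) (by decide +kernel)

theorem P_S_15_run_5_2_S_5_231_242_253_sh : P_S_15_run_5_2_S_5_231_242_253.all (shOne 5) = true := by decide +kernel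

def S_S_15_run_5_2_S_5_231_242_253_0 : SpD 2 := ⟨0, .inl 4, [(3, .inr 0), (-1, .inl 3), (2, .inl 5), (5, .inr 1)], [(1, 1)]⟩

theorem S_S_15_run_5_2_S_5_231_242_253_0_fam : S_S_15_run_5_2_S_5_231_242_253_0.chk 5 15 (P_S_15_run_5_2_S_5_231_242_253.acc 15 S_S_15_run_5_2_S_5_231_242_253_0.i0) = true := by decide +kernel

def S_S_15_run_5_2_S_5_231_242_253_1 : SpD 2 := ⟨0, .inl 4, [(3, .inr 0), (-1, .inl 3), (2, .inl 5), (5, .inr 1)], [(0, 3), (1, 1)]⟩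

theorem S_S_15_run_5_2_S_5_231_242_253_1_fam : S_S_15_run_5_2_S_5_231_242_253_1.chk 5 15 (P_S_15_run_5_2_S_5_231_242_253.acc 15 S_S_15_run_5_2_S_5_231_242_253_1.i0) = true := by decide +kernel

def S_S_15_run_5_2_S_5_231_242_253_2 : SpD 2 := ⟨0, .inl 4, [(3, .inr 0), (-1, .inl 3), (2, .inl 5), (5, .inr 1)], [(0, 3), (1, 1), (2, 4)]⟩

theorem S_S_15_run_5_2_S_5_231_242_253_2_fam : S_S_15_run_5_2_S_5_231_242_253_2.chk 5 15 (P_S_15_run_5_2_S_5_231_242_253.acc 15 S_S_15_run_5_2_S_5_231_242_253_2.i0) = true := by decide +kernel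

theorem W_S_15_run_5_2_S_5_231_242_253 (q r : ℕ) (h1 : q = 15) (h5 : r + 3 = q) : Want q r := by
  subst h1
  obtain ⟨hl, hc⟩ := P_S_15_run_5_2_S_5_231_242_253_fam
  have hI := inst_one P_S_15_run_5_2_S_5_231_242_253 5 15 5 r 5 (by omega) (by omega) (by omega) (by decide +kernel) (by decide) (by omega) (by decide +kernel) P_S_15_run_5_2_S_5_231_242_253_sh hl hc
  exact class_f _ _ (by omega) (by omega) (by omega) hI.1 (hI.2 S_S_15_run_5_2_S_5_231_242_253_0 5 2 (by decide) (by show (0 : ℕ) < _; omega) S_S_15_run_5_2_S_5_231_242_253_0_fam (blk_2_3_1 _ (by omega) (by omega))) (hI.2 S_S_15_run_5_2_S_5_231_242_253_1 5 3 (by decide) (by show (0 : ℕ) < _; omega) S_S_15_run_5_2_S_5_231_242_253_1_fam (blk_3_3_3_1 _ (by omega) (by omega))) (hI.2 S_S_15_run_5_2_S_5_231_242_253_2 5 4 (by decide) (by show (0 : ℕ)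 < _; omega) S_S_15_run_5_2_S_5_231_242_253_2_fam (blk_4_3_3_1_4 _ (by omega) (by omega)))

def P_S_12_run_5_2_S_4_242 : Pat 2 :=
  ⟨[⟨⟨[.inl 0, .inr 1, .inl 3, .inl 1, .inr 0, .inl 4, .inl 2, .inl 5], [], [5, 1, 2, 3, 4, 0], [], [], []⟩, [-3, -4], [3, 1]⟩,
    ⟨⟨[.inl 0, .inl 2, .inr 1, .inl 3, .inl 4, .inl 1, .inr 0, .inl 5], [], [5, 4, 1, 3, 2, 0], [], [], []⟩, [-3, -1], [4, 2]⟩,
    ⟨⟨[.inl 0, .inr 1, .inl 4, .inl 3, .inl 2, .inl 1, .inr 0, .inl 5], [], [5, 4, 1, 2, 3, 0], [], [], []⟩, [-3, -3], [4, 4]⟩,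
    ⟨⟨[.inl 0, .inl 1, .inr 0, .inl 2, .inr 1, .inl 4, .inl 3, .inl 5], [], [5, 3, 2, 4, 1, 0], [], [], [1]⟩, [-3, -2], [1, 4]⟩,
    ⟨⟨[.inl 0, .inl 2, .inl 3, .inl 1, .inr 0, .inl 4, .inr 1, .inl 5], [], [5, 4, 1, 2, 3, 0], [], [3], []⟩, [-1, 2], [3, 1]⟩,
    ⟨⟨[.inl 0, .inl 2, .inl 3, .inl 1, .inr 0, .inl 4, .inr 1, .inl 5], [], [5, 4, 3, 2, 1, 0], [], [3], []⟩, [-4, -1], [3, 3]⟩,
    ⟨⟨[.inl 0, .inr 1, .inl 2, .inl 1, .inr 0, .inl 4, .inl 3, .inl 5], [], [5, 1, 3, 2, 4, 0], [], [2], []⟩, [-4, -4], [4, -2]⟩,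
    ⟨⟨[.inl 0, .inr 1, .inl 3, .inl 4, .inl 2, .inl 1, .inr 0, .inl 5], [], [5, 1, 2, 3, 4, 0], [], [], []⟩, [-3, -4], [4, 2]⟩,
    ⟨⟨[.inl 0, .inl 1, .inr 0, .inl 3, .inl 2, .inr 1, .inl 4, .inl 5], [], [5, 3, 2, 4, 1, 0], [], [], []⟩, [-3, -3], [1, 4]⟩,
    ⟨⟨[.inl 0, .inl 1, .inr 1, .inl 2, .inr 0, .inl 4, .inl 3, .inl 5], [], [5, 4, 1, 2, 3, 0], [], [], []⟩, [-1, -2], [3, 1]⟩,
    ⟨⟨[.inl 0, .inr 0, .inl 4, .inl 2, .inl 1, .inr 1, .inl 3, .inl 5], [], [5, 2, 3, 1, 4, 0], [], [], []⟩, [-4, -1], [3, 1]⟩,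
    ⟨⟨[.inl 0, .inl 1, .inr 0, .inl 4, .inl 2, .inr 1, .inl 3, .inl 5], [], [5, 4, 3, 2, 1, 0], [], [], []⟩, [-4, -1], [3, 3]⟩],
   [⟨⟨[.inl 0, .inl 1, .inr 0, .inl 4, .inl 2, .inr 1, .inl 3, .inl 5], [], [5, 4, 3, 2, 1, 0], [], [], []⟩, [-4, -1], [3, 3]⟩]⟩

theorem P_S_12_run_5_2_S_4_242_fam : P_S_12_run_5_2_S_4_242.loc 5 12 = true ∧ P_S_12_run_5_2_S_4_242.conn 12 = true :=
  one_fam P_S_12_run_5_2_S_4_242 [1, 4, 3, 2] 5 12 (by decide) (by decide +kernel) (by decide +kernel)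

theorem P_S_12_run_5_2_S_4_242_sh : P_S_12_run_5_2_S_4_242.all (shOne 5) = true := by decide +kernel

def S_S_12_run_5_2_S_4_242_0 : SpD 2 := ⟨2, .inl 3, [(1, .inr 1), (-1, .inl 2), (2, .inl 4)], [(0, -2), (1, 1)]⟩

theorem S_S_12_run_5_2_S_4_242_0_fam : S_S_12_run_5_2_S_4_242_0.chk 4 12 (P_S_12_run_5_2_S_4_242.acc 12 S_S_12_run_5_2_S_4_242_0.i0) = true := by decide +kernel

theorem W_S_12_run_5_2_S_4_242 (q r : ℕ) (h1 : q = 12) (h5 : r + 3 = q) : Want q r := by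
  subst h1
  obtain ⟨hl, hc⟩ := P_S_12_run_5_2_S_4_242_fam
  have hI := inst_one P_S_12_run_5_2_S_4_242 5 12 5 r 4 (by omega) (by omega) (by omega) (by decide +kernel) (by decide) (by omega) (by decide +kernel) P_S_12_run_5_2_S_4_242_sh hl hc
  exact class_e _ _ (by omega) (by omega) (by omega) hI.1 (hI.2 S_S_12_run_5_2_S_4_242_0 4 3 (by decide) (by show (2 : ℕ) < _; omega) S_S_12_run_5_2_S_4_242_0_fam (blk_3_1_m2_1 _ (by omega) (by omega)))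

def P_S_9_odd_2_3_S_0 : Pat 3 :=
  ⟨[⟨⟨[.inl 1, .inr 0, .inl 2], [.inl (-1), .inr 2, .inl 0, .inr 1, .inl (-2)], [-2, 0, -1], [2, 1], [], []⟩, [-1, 2, -1], [1, -2, 1]⟩,
    ⟨⟨[.inl 1, .inr 0, .inl 2], [.inl (-1), .inr 2, .inl 0, .inr 1, .inl (-2)], [-2, 0, -1], [2, 1], [], []⟩, [-1, 2, -1], [1, -2, 1]⟩,
    ⟨⟨[.inl 1, .inr 0, .inl 2], [.inl (-1), .inr 2, .inl 0, .inr 1, .inl (-2)], [-2, 0, -1], [2, 1], [], []⟩, [-1, 2, -1], [1, -2, 1]⟩,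
    ⟨⟨[.inl 1, .inr 0, .inl 2], [.inl (-1), .inr 2, .inl 0, .inr 1, .inl (-2)], [-2, 0, -1], [2, 1], [], []⟩, [-1, 2, -1], [1, -2, 1]⟩,
    ⟨⟨[.inl 1, .inr 0, .inl 2], [.inl (-1), .inr 2, .inl 0, .inr 1, .inl (-2)], [-2, 0, -1], [2, 1], [], []⟩, [-1, 2, -1], [1, -2, 1]⟩,
    ⟨⟨[.inl 1, .inr 0, .inl 2], [.inl (-1), .inr 2, .inl 0, .inr 1, .inl (-2)], [-2, 0, -1], [2, 1], [], []⟩, [-1, 2, -1], [1, -2, 1]⟩,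
    ⟨⟨[.inl 1, .inr 0, .inl 2], [.inl (-1), .inr 2, .inl 0, .inr 1, .inl (-2)], [-2, 0, -1], [2, 1], [], []⟩, [-1, 2, -1], [1, -2, 1]⟩,
    ⟨⟨[.inl 1, .inr 0, .inl 2], [.inl (-1), .inr 2, .inl 0, .inr 1, .inl (-2)], [-2, 0, -1], [2, 1], [], []⟩, [-1, 2, -1], [1, -2, 1]⟩,
    ⟨⟨[.inl 1, .inr 0, .inl 2], [.inl (-1), .inr 2, .inl 0, .inr 1, .inl (-2)], [-2, 0, -1], [2, 1], [], []⟩, [-1, 2, -1], [1, -2, 1]⟩],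
   [⟨⟨[.inl 1, .inr 0, .inl 2], [.inl (-1), .inr 2, .inl 0, .inr 1, .inl (-2)], [-2, 0, -1], [2, 1], [], []⟩, [-1, 2, -1], [1, -2, 1]⟩]⟩

theorem P_S_9_odd_2_3_S_0_fam : P_S_9_odd_2_3_S_0.loc 2 9 = true ∧ P_S_9_odd_2_3_S_0.conn 9 = true :=
  one_fam P_S_9_odd_2_3_S_0 [0, 1] 2 9 (by decide) (by decide +kernel) (by decide +kernel)

theorem P_S_9_odd_2_3_S_0_sh : P_S_9_odd_2_3_S_0.all (shTwo (0) 2 false) = true := by decide +kernel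

theorem W_S_9_odd_2_3_S_0 (q r : ℕ) (h1 : q = 9) (h3 : (q + r) % 4 = 2) (h4 : 3 ≤ r) (h5 : r + 4 ≤ q) : Want q r := by
  subst h1
  obtain ⟨hl, hc⟩ := P_S_9_odd_2_3_S_0_fam
  have hev : decide (Even ((((9 - 1) / 2) - (r - 3) / 2) - 2)) = false := by
    simp only [Nat.even_iff, decide_eq_false_iff_not]
    omega
  have hI := inst_two P_S_9_odd_2_3_S_0 2 9 (0) 2 (((9 - 1) / 2) - (r - 3) / 2) ((9 - 1) / 2) r 0 (by decide) (by omega) (by decide) (by omega) (by omega) (by omega) (by omega) (by decide +kernel) (by decide) (by omega) (by decide +kernel) (by rw [hev]; exact P_S_9_odd_2_3_S_0_sh) hl hc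
  exact class_t _ _ (by omega) (tmod _ _ (by omega) (by omega)) hI.1 

def P_S_9_odd_3_1_C_4_232 : Pat 1 :=
  ⟨[⟨⟨[.inl 1, .inr 0, .inl 2, .inl 0, .inl (-2), .inl 3], [.inl (-1), .inl (-3)], [3, 0, -2, -1], [-3, 2, 1], [], []⟩, [-1], [3]⟩,
    ⟨⟨[.inl 1, .inl 3], [.inl (-1), .inr 0, .inl (-2), .inl 0, .inl 2, .inl (-3)], [3, -2, 0, -1], [-3, 2, 1], [], []⟩, [1], [-2]⟩,
    ⟨⟨[.inl 1, .inr 0, .inl (-2), .inl 0, .inl 2, .inl 3], [.inl (-1), .inl (-3)], [3, -2, 0, 2, -1], [-3, 1], [], [0]⟩, [4], [-1]⟩,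
    ⟨⟨[.inl 1, .inl 2, .inl 3], [.inl (-1), .inr 0, .inl 0, .inl (-2), .inl (-3)], [3, 2, 0, -1], [-3, -2, 1], [-2], []⟩, [-3], [1]⟩,
    ⟨⟨[.inl 1, .inl 3], [.inl (-1), .inr 0, .inl 2, .inl 0, .inl (-2), .inl (-3)], [3, -1], [-3, 2, 0, -2, 1], [-2], []⟩, [-1], [1]⟩,
    ⟨⟨[.inl 1, .inr 0, .inl 2, .inl 0, .inl (-2), .inl 3], [.inl (-1), .inl (-3)], [3, -2, -1], [-3, 2, 0, 1], [2], []⟩, [-1], [2]⟩,
    ⟨⟨[.inl 1, .inl 3], [.inl (-1), .inr 0, .inl (-2), .inl 0, .inl 2, .inl (-3)], [3, -2, -1], [-3, 0, 2, 1], [], []⟩, [1], [-4]⟩,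
    ⟨⟨[.inl 1, .inl 2, .inl 3], [.inl (-1), .inl 0, .inr 0, .inl (-2), .inl (-3)], [3, 2, 0, -1], [-3, -2, 1], [], []⟩, [-2], [-1]⟩,
    ⟨⟨[.inl 1, .inl 0, .inr 0, .inl 2, .inl 3], [.inl (-1), .inl (-2), .inl (-3)], [3, 2, -1], [-3, -2, 0, 1], [], []⟩, [2], [1]⟩],
   [⟨⟨[.inl 1, .inl 0, .inr 0, .inl 2, .inl 3], [.inl (-1), .inl (-2), .inl (-3)], [3, 2, -1], [-3, -2, 0, 1], [], []⟩, [2], [1]⟩]⟩

theorem P_S_9_odd_3_1_C_4_232_fam : P_S_9_odd_3_1_C_4_232.loc 5 9 = true ∧ P_S_9_odd_3_1_C_4_232.conn 9 = true :=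
  one_fam P_S_9_odd_3_1_C_4_232 [-1, 2, -2] 5 9 (by decide) (by decide +kernel) (by decide +kernel)

theorem P_S_9_odd_3_1_C_4_232_sh : P_S_9_odd_3_1_C_4_232.all (shTwo (0) 3 true) = true := by decide +kernel

def S_S_9_odd_3_1_C_4_232_0 : SpD 1 := ⟨2, .inr 0, [(4, .inl 2), (1, .inl 3), (3, .inl 1)], [(0, 3), (1, 4)]⟩

theorem S_S_9_odd_3_1_C_4_232_0_fam : S_S_9_odd_3_1_C_4_232_0.chk 4 9 (P_S_9_odd_3_1_C_4_232.acc 9 S_S_9_odd_3_1_C_4_232_0.i0) = true := by decide +kernel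

theorem W_S_9_odd_3_1_C_4_232 (q r : ℕ) (h1 : q = 9) (h3 : (q + r) % 4 = 0) (h4 : 1 ≤ r) (h5 : r + 6 ≤ q) : Want q r := by
  subst h1
  obtain ⟨hl, hc⟩ := P_S_9_odd_3_1_C_4_232_fam
  have hev : decide (Even ((((9 - 1) / 2) - (r - 1) / 2) - 3)) = true := by
    simp only [Nat.even_iff, decide_eq_true_eq]
    omega
  have hI := inst_two P_S_9_odd_3_1_C_4_232 5 9 (0) 3 (((9 - 1) / 2) - (r - 1) / 2) ((9 - 1) / 2) r 4 (by decide) (by omega) (by decide) (by omega) (by omega) (by omega) (by omega) (by decide +kernel) (by decide) (by omega) (by decide +kernel) (by rw [hev]; exact P_S_9_odd_3_1_C_4_232_sh) hl hc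
  exact class_a _ _ (by omega) (by omega) (by omega) hI.1 (hI.2 S_S_9_odd_3_1_C_4_232_0 4 2 (by decide) (by show (2 : ℕ) < _; omega) S_S_9_odd_3_1_C_4_232_0_fam (blk_2_0_3_4 _ (by omega) (by omega)))

end Pool.Agent.KS6_69.GT
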