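import Pool.Agent.KS6_69.GT.TabBlocks
import Pool.Agent.KS6_69.GT.Wrap2

set_option autoImplicit false

namespace Pool.Agent.KS6_69.GT

def P_Ff_d7_odd_4_2_C_5_19_7_4_231_242_253 : Pat 2 :=
  ⟨[⟨⟨[.inl 1, .inl 0, .inr 0, .inl 3, .inl 4], [.inl (-1), .inr 1, .inl 2, .inl (-3), .inl (-2), .inl (-4)], [4, 3, -1], [-4, 2, 0, -3, -2, 1], [], []⟩, [-2, -4], [3, 2]⟩,
    ⟨⟨[.inl 1, .inr 0, .inl 3, .inl 2, .inl 4], [.inl (-1), .inl (-2), .inl 0, .inr 1, .inl (-3), .inl (-4)], [4, 3, 2, 0, -1], [-4, -3, -2, 1], [], []⟩, [1, -2], [3, -3]⟩,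
    ⟨⟨[.inl 1, .inr 0, .inl 0, .inr 1, .inl (-2), .inl 2, .inl 3, .inl 4], [.inl (-1), .inl (-3), .inl (-4)], [4, -2, -1], [-4, -3, 3, 2, 0, 1], [], []⟩, [4, -2], [-1, -3]⟩,
    ⟨⟨[.inl 1, .inl (-3), .inl (-2), .inl 4], [.inl (-1), .inl 0, .inr 1, .inl 3, .inl 2, .inr 0, .inl (-4)], [4, -2, 3, 0, -1], [-4, 2, -3, 1], [3], [1, 0]⟩, [-3, 1], [-4, 4]⟩,
    ⟨⟨[.inl 1, .inl 2, .inl 3, .inl (-3), .inr 1, .inl 0, .inr 0, .inl 4], [.inl (-1), .inl (-2), .inl (-4)], [4, -1], [-4, -3, -2, 3, 0, 2, 1], [0], []⟩, [-3, 1], [1, -1]⟩,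
    ⟨⟨[.inl 1, .inl 3, .inr 0, .inl 2, .inl 4], [.inl (-1), .inl (-2), .inl (-3), .inl 0, .inr 1, .inl (-4)], [4, -2, -3, 0, -1], [-4, 3, 2, 1], [3], []⟩, [-1, 3], [2, -1]⟩,
    ⟨⟨[.inl 1, .inr 1, .inl 2, .inl 0, .inr 0, .inl (-3), .inl (-2), .inl 3, .inl 4], [.inl (-1), .inl (-4)], [4, -3, -2, 2, 3, -1], [-4, 0, 1], [], []⟩, [4, 3], [-4, 2]⟩],
   [⟨⟨[.inl 1, .inl 0, .inr 0, .inl 2, .inl (-3), .inl 4], [.inl (-1), .inr 1, .inl 3, .inl (-2), .inl (-4)], [4, 3, -1], [-4, 2, 0, -3, -2, 1], [], []⟩, [-2, -4], [1, 4]⟩,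
    ⟨⟨[.inl 1, .inr 0, .inl 4], [.inl (-1), .inl (-2), .inl 0, .inr 1, .inl (-3), .inl 2, .inl 3, .inl (-4)], [4, 3, 2, 0, -1], [-4, -3, -2, 1], [], []⟩, [-1, -2], [1, -3]⟩,
    ⟨⟨[.inl 1, .inl 0, .inr 1, .inl (-2), .inl 3, .inr 0, .inl 2, .inl 4], [.inl (-1), .inl (-3), .inl (-4)], [4, -2, -3, 0, -1], [-4, 3, 2, 1], [], []⟩, [-1, 3], [2, -3]⟩,
    ⟨⟨[.inl 1, .inr 1, .inl 2, .inl (-3), .inl (-2), .inl 3, .inl 4], [.inl (-1), .inl 0, .inr 0, .inl (-4)], [4, -3, -2, 2, 3, -1], [-4, 0, 1], [], []⟩, [4, 3], [-4, 2]⟩]⟩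

theorem P_Ff_d7_odd_4_2_C_5_19_7_4_231_242_253_l0 : P_Ff_d7_odd_4_2_C_5_19_7_4_231_242_253.locC [0, 3, 1, 2] 7 (19 + 0 * 4) = true := by decide +kernel

theorem P_Ff_d7_odd_4_2_C_5_19_7_4_231_242_253_l1 : P_Ff_d7_odd_4_2_C_5_19_7_4_231_242_253.locC [0, 3, 1, 2] 7 (19 + 1 * 4) = true := by decide +kernel

theorem P_Ff_d7_odd_4_2_C_5_19_7_4_231_242_253_l2 : P_Ff_d7_odd_4_2_C_5_19_7_4_231_242_253.locC [0, 3, 1, 2] 7 (19 + 2 * 4) = true := by decide +kernel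

theorem P_Ff_d7_odd_4_2_C_5_19_7_4_231_242_253_fam : ∀ t : ℕ, P_Ff_d7_odd_4_2_C_5_19_7_4_231_242_253.loc 7 (19 + t * 4) = true ∧ P_Ff_d7_odd_4_2_C_5_19_7_4_231_242_253.conn (19 + t * 4) = true :=
  fam_ext2 P_Ff_d7_odd_4_2_C_5_19_7_4_231_242_253 [0, 3, 1, 2] 7 19 2 6 4 (by decide) (by decide) (by decide) (by decide) (by decide) (by decide +kernel) (by decide)
    (by
      intro t ht
      interval_cases t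
      · exact P_Ff_d7_odd_4_2_C_5_19_7_4_231_242_253_l0
      · exact P_Ff_d7_odd_4_2_C_5_19_7_4_231_242_253_l1
      · exact P_Ff_d7_odd_4_2_C_5_19_7_4_231_242_253_l2)
    (by decide +kernel)

theorem P_Ff_d7_odd_4_2_C_5_19_7_4_231_242_253_sh : P_Ff_d7_odd_4_2_C_5_19_7_4_231_242_253.all (shTwo (0) 4 true) = true := by decide +kernel

def S_Ff_d7_odd_4_2_C_5_19_7_4_231_242_253_0 : SpD 2 := ⟨0, .inl 3, [(3, .inr 1), (4, .inl 4), (2, .inl 5), (3, .inr 0)], [(1, 1)]⟩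

theorem S_Ff_d7_odd_4_2_C_5_19_7_4_231_242_253_0_fam : ∀ t : ℕ, S_Ff_d7_odd_4_2_C_5_19_7_4_231_242_253_0.chk 5 (19 + t * 4) (P_Ff_d7_odd_4_2_C_5_19_7_4_231_242_253.acc (19 + t * 4) S_Ff_d7_odd_4_2_C_5_19_7_4_231_242_253_0.i0) = true :=
  sp_fam P_Ff_d7_odd_4_2_C_5_19_7_4_231_242_253 S_Ff_d7_odd_4_2_C_5_19_7_4_231_242_253_0 5 19 1 4 (by decide) (by decide) (by decide) (by decide) (by decide +kernel)

def S_Ff_d7_odd_4_2_C_5_19_7_4_231_242_253_1 : SpD 2 := ⟨2, .inl 3, [(1, .inr 0), (-2, .inl 1), (1, .inr 1), (2, .inl 2)], [(0, -5), (2, -3)]⟩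

theorem S_Ff_d7_odd_4_2_C_5_19_7_4_231_242_253_1_fam : ∀ t : ℕ, S_Ff_d7_odd_4_2_C_5_19_7_4_231_242_253_1.chk 3 (19 + t * 4) (P_Ff_d7_odd_4_2_C_5_19_7_4_231_242_253.acc (19 + t * 4) S_Ff_d7_odd_4_2_C_5_19_7_4_231_242_253_1.i0) = true :=
  sp_fam P_Ff_d7_odd_4_2_C_5_19_7_4_231_242_253 S_Ff_d7_odd_4_2_C_5_19_7_4_231_242_253_1 3 19 1 4 (by decide) (by decide) (by decide) (by decide) (by decide +kernel)

def S_Ff_d7_odd_4_2_C_5_19_7_4_231_242_253_2 : SpD 2 := ⟨2, .inl 3, [(1, .inr 0), (-2, .inl 1), (1, .inr 1), (2, .inl 2)], [(0, -5), (1, -6), (2, -3)]⟩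

theorem S_Ff_d7_odd_4_2_C_5_19_7_4_231_242_253_2_fam : ∀ t : ℕ, S_Ff_d7_odd_4_2_C_5_19_7_4_231_242_253_2.chk 3 (19 + t * 4) (P_Ff_d7_odd_4_2_C_5_19_7_4_231_242_253.acc (19 + t * 4) S_Ff_d7_odd_4_2_C_5_19_7_4_231_242_253_2.i0) = true :=
  sp_fam P_Ff_d7_odd_4_2_C_5_19_7_4_231_242_253 S_Ff_d7_odd_4_2_C_5_19_7_4_231_242_253_2 3 19 1 4 (by decide) (by decide) (by decide) (by decide) (by decide +kernel)

theorem W_Ff_d7_odd_4_2_C_5_19_7_4_231_242_253 (q r : ℕ) (h1 : 19 ≤ q) (h2 : q % 4 = 3) (h3 : (q + r) % 4 = 3) (h4 : 2 ≤ r) (h5 : r + 7 ≤ q) : Want q r := by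
  obtain ⟨t, rfl⟩ : ∃ t : ℕ, q = 19 + t * 4 := ⟨(q - 19) / 4, by omega⟩
  obtain ⟨hl, hc⟩ := P_Ff_d7_odd_4_2_C_5_19_7_4_231_242_253_fam t
  have hev : decide (Even (((((19 + t * 4) - 1) / 2) - (r - 2) / 2) - 4)) = true := by
    simp only [Nat.even_iff, decide_eq_true_eq]
    omega
  have hI := inst_two P_Ff_d7_odd_4_2_C_5_19_7_4_231_242_253 7 (19 + t * 4) (0) 4 ((((19 + t * 4) - 1) / 2) - (r - 2) / 2) (((19 + t * 4) - 1) / 2) r 5 (by decide) (by omega) (by decide) (by omega) (by omega) (by omega) (by omega) (by decide +kernel) (by decide) (by omega) (by decide +kernel) (by rw [hev]; exact P_Ff_d7_odd_4_2_C_5_19_7_4_231_242_253_sh) hl hc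
  exact class_f _ _ (by omega) (by omega) (by omega) hI.1 (hI.2 S_Ff_d7_odd_4_2_C_5_19_7_4_231_242_253_0 5 2 (by decide) (by show (0 : ℕ) < _; omega) (S_Ff_d7_odd_4_2_C_5_19_7_4_231_242_253_0_fam t) (blk_2_3_1 _ (by omega) (by omega))) (hI.2 S_Ff_d7_odd_4_2_C_5_19_7_4_231_242_253_1 3 3 (by decide) (by show (2 : ℕ) < _; omega) (S_Ff_d7_odd_4_2_C_5_19_7_4_231_242_253_1_fam t) (blk_3_3_m5_m3 _ (by omega) (by omega))) (hI.2 S_Ff_d7_odd_4_2_C_5_19_7_4_231_242_253_2 3 4 (by decide) (by show (2 : ℕ) < _; omega) (S_Ff_d7_odd_4_2_C_5_19_7_4_231_242_253_2_fam t) (blk_4_3_m5_m6_m3 _ (by omega) (by omega)))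

def P_S_15_run_5_4_S_3_251 : Pat 4 :=
  ⟨[⟨⟨[.inl 0, .inr 1, .inl 2, .inr 0, .inl 3, .inl 4, .inr 3, .inl 1, .inr 2, .inl 5], [], [5, 4, 1, 2, 3, 0], [], [], []⟩, [-1, -3, -3, -1], [1, -2, 1, -2]⟩,
    ⟨⟨[.inl 0, .inl 1, .inr 3, .inl 4, .inr 2, .inl 2, .inr 0, .inl 3, .inr 1, .inl 5], [], [5, 4, 1, 3, 2, 0], [], [], []⟩, [-1, 2, -1, -4], [1, 1, -2, 2]⟩,
    ⟨⟨[.inl 0, .inr 2, .inl 2, .inr 0, .inl 4, .inr 1, .inl 3, .inl 1, .inr 3, .inl 5], [], [5, 1, 3, 2, 4, 0], [], [], []⟩, [-1, -1, -4, -4], [2, 2, 2, 2]⟩,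
    ⟨⟨[.inl 0, .inr 1, .inl 1, .inl 2, .inr 3, .inl 3, .inr 2, .inl 4, .inr 0, .inl 5], [], [5, 1, 3, 2, 4, 0], [], [1], []⟩, [2, -4, 1, -2], [4, -2, 4, 2]⟩,
    ⟨⟨[.inl 0, .inr 2, .inl 2, .inr 0, .inl 1, .inr 1, .inl 3, .inr 3, .inl 4, .inl 5], [], [5, 4, 1, 3, 2, 0], [], [4], []⟩, [-2, -2, -2, -2], [1, 2, -1, 2]⟩,
    ⟨⟨[.inl 0, .inr 0, .inl 2, .inl 1, .inr 3, .inl 4, .inr 1, .inl 3, .inr 2, .inl 5], [], [5, 4, 2, 3, 1, 0], [], [2], []⟩, [-1, 2, 1, -2], [-2, 3, 4, 3]⟩,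
    ⟨⟨[.inl 0, .inl 1, .inr 1, .inl 4, .inr 0, .inl 3, .inr 2, .inl 2, .inr 3, .inl 5], [], [5, 4, 2, 3, 1, 0], [], [], []⟩, [2, -2, 2, -2], [3, 1, -1, 1]⟩,
    ⟨⟨[.inl 0, .inr 2, .inl 4, .inr 3, .inl 3, .inr 1, .inl 2, .inl 1, .inr 0, .inl 5], [], [5, 3, 1, 2, 4, 0], [], [], []⟩, [-4, -1, -4, -1], [1, -2, 1, 3]⟩,
    ⟨⟨[.inl 0, .inr 1, .inl 3, .inr 2, .inl 1, .inr 3, .inl 4, .inr 0, .inl 2, .inl 5], [], [5, 1, 4, 2, 3, 0], [], [], []⟩, [-1, -3, -1, -3], [-2, 1, -2, 1]⟩,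
    ⟨⟨[.inl 0, .inr 0, .inl 2, .inr 1, .inl 3, .inr 3, .inl 4, .inl 1, .inr 2, .inl 5], [], [5, 2, 4, 1, 3, 0], [], [], []⟩, [-3, -1, -4, -1], [1, 2, 2, 2]⟩,
    ⟨⟨[.inl 0, .inr 3, .inl 4, .inr 1, .inl 3, .inr 2, .inl 2, .inl 1, .inr 0, .inl 5], [], [5, 1, 2, 4, 3, 0], [], [], []⟩, [-1, 1, 1, -3], [1, 2, 2, 2]⟩,
    ⟨⟨[.inl 0, .inl 1, .inr 1, .inl 3, .inr 2, .inl 2, .inr 3, .inl 4, .inr 0, .inl 5], [], [5, 4, 3, 2, 1, 0], [], [], []⟩, [-1, -2, -2, -2], [1, -1, -1, 3]⟩,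
    ⟨⟨[.inl 0, .inr 2, .inl 4, .inr 0, .inl 1, .inr 1, .inl 3, .inl 2, .inr 3, .inl 5], [], [5, 4, 3, 1, 2, 0], [], [], []⟩, [-1, -2, -2, -2], [1, 3, 3, 4]⟩,
    ⟨⟨[.inl 0, .inr 0, .inl 1, .inl 2, .inr 2, .inl 4, .inr 1, .inl 3, .inr 3, .inl 5], [], [5, 4, 2, 3, 1, 0], [], [], []⟩, [-1, 2, 1, 2], [1, 1, 4, 4]⟩,
    ⟨⟨[.inl 0, .inr 0, .inl 3, .inl 2, .inr 1, .inl 4, .inr 2, .inl 1, .inr 3, .inl 5], [], [5, 3, 4, 2, 1, 0], [], [], []⟩, [-1, -1, 2, -3], [1, 4, -1, 1]⟩],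
   [⟨⟨[.inl 0, .inr 0, .inl 3, .inl 2, .inr 1, .inl 4, .inr 2, .inl 1, .inr 3, .inl 5], [], [5, 3, 4, 2, 1, 0], [], [], []⟩, [-1, -1, 2, -3], [1, 4, -1, 1]⟩]⟩

theorem P_S_15_run_5_4_S_3_251_fam : P_S_15_run_5_4_S_3_251.loc 5 15 = true ∧ P_S_15_run_5_4_S_3_251.conn 15 = true :=
  one_fam P_S_15_run_5_4_S_3_251 [4, 3, 1, 0] 5 15 (by decide) (by decide +kernel) (by decide +kernel)

theorem P_S_15_run_5_4_S_3_251_sh : P_S_15_run_5_4_S_3_251.all (shOne 5) = true := by decide +kernel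

def S_S_15_run_5_4_S_3_251_0 : SpD 4 := ⟨3, .inl 2, [(-1, .inl 0), (-3, .inl 1)], [(0, -3)]⟩

theorem S_S_15_run_5_4_S_3_251_0_fam : S_S_15_run_5_4_S_3_251_0.chk 3 15 (P_S_15_run_5_4_S_3_251.acc 15 S_S_15_run_5_4_S_3_251_0.i0) = true := by decide +kernel

theorem W_S_15_run_5_4_S_3_251 (q r : ℕ) (h1 : q = 15) (h5 : r + 1 = q) : Want q r := by
  subst h1
  obtain ⟨hl, hc⟩ := P_S_15_run_5_4_S_3_251_fam
  have hI := inst_one P_S_15_run_5_4_S_3_251 5 15 5 r 3 (by omega) (by omega) (by omega) (by decide +kernel) (by decide) (by omega) (by decide +kernel) P_S_15_run_5_4_S_3_251_sh hl hc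
  exact class_g _ _ (by omega) (by omega) (by omega) hI.1 (hI.2 S_S_15_run_5_4_S_3_251_0 3 4 (by decide) (by show (3 : ℕ) < _; omega) S_S_15_run_5_4_S_3_251_0_fam (blk_4_1_m3 _ (by omega) (by omega)))

def P_S_15_odd_3_2_S_5_231_242_253 : Pat 2 :=
  ⟨[⟨⟨[.inl 1, .inl 3], [.inl (-1), .inl 0, .inl 2, .inr 1, .inl (-2), .inr 0, .inl (-3)], [-3, -1], [3, 2, -2, 0, 1], [], [1]⟩, [-5, 3], [-3, -2]⟩,
    ⟨⟨[.inl 1, .inr 0, .inl 2, .inl 3], [.inl (-1), .inl 0, .inr 1, .inl (-2), .inl (-3)], [-3, -1], [3, 2, 0, -2, 1], [], []⟩, [-2, -2], [4, -4]⟩,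
    ⟨⟨[.inl 1, .inl 2, .inl 0, .inl (-2), .inr 1, .inl 3], [.inl (-1), .inr 0, .inl (-3)], [-3, 2, 0, -2, -1], [3, 1], [-3], []⟩, [2, -4], [-3, 5]⟩,
    ⟨⟨[.inl 1, .inl 2, .inr 0, .inl 3], [.inl (-1), .inr 1, .inl 0, .inl (-2), .inl (-3)], [-3, 2, -2, -1], [3, 0, 1], [0], []⟩, [4, 1], [3, -3]⟩,
    ⟨⟨[.inl 1, .inl 3], [.inl (-1), .inl 2, .inr 1, .inl (-2), .inl 0, .inr 0, .inl (-3)], [-3, -1], [3, -2, 0, 2, 1], [2], []⟩, [2, 4], [-2, -1]⟩,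
    ⟨⟨[.inl 1, .inl (-2), .inr 0, .inl 3], [.inl (-1), .inr 1, .inl 2, .inl 0, .inl (-3)], [-3, -1], [3, -2, 2, 0, 1], [2], []⟩, [-4, 2], [5, 1]⟩,
    ⟨⟨[.inl 1, .inr 1, .inl 2, .inl 3], [.inl (-1), .inl 0, .inr 0, .inl (-2), .inl (-3)], [-3, -1], [3, 0, -2, 2, 1], [], []⟩, [-3, -1], [-2, 3]⟩,
    ⟨⟨[.inl 1, .inl 3], [.inl (-1), .inl 0, .inl 2, .inr 0, .inl (-2), .inr 1, .inl (-3)], [-3, 0, -2, -1], [3, 2, 1], [], []⟩, [4, -5], [-4, -2]⟩,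
    ⟨⟨[.inl 1, .inl 0, .inl 3], [.inl (-1), .inr 0, .inl 2, .inr 1, .inl (-2), .inl (-3)], [-3, 0, 2, -1], [3, -2, 1], [], []⟩, [1, 4], [3, -4]⟩,
    ⟨⟨[.inl 1, .inl 3], [.inl (-1), .inr 1, .inl 0, .inl 2, .inr 0, .inl (-2), .inl (-3)], [-3, 0, -2, 2, -1], [3, 1], [], []⟩, [4, -3], [-1, 2]⟩,
    ⟨⟨[.inl 1, .inr 1, .inl 2, .inl 0, .inl (-2), .inr 0, .inl 3], [.inl (-1), .inl (-3)], [-3, -2, 2, -1], [3, 0, 1], [], []⟩, [-5, 1], [5, 4]⟩,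
    ⟨⟨[.inl 1, .inl 2, .inl 3], [.inl (-1), .inr 0, .inl (-2), .inr 1, .inl 0, .inl (-3)], [-3, -2, 2, -1], [3, 0, 1], [], []⟩, [-3, -2], [-4, -1]⟩,
    ⟨⟨[.inl 1, .inl 2, .inr 1, .inl (-2), .inl 0, .inr 0, .inl 3], [.inl (-1), .inl (-3)], [-3, 0, -1], [3, 2, -2, 1], [], []⟩, [3, 4], [1, -4]⟩,
    ⟨⟨[.inl 1, .inl 0, .inr 1, .inl 2, .inr 0, .inl (-2), .inl 3], [.inl (-1), .inl (-3)], [-3, 2, -1], [3, -2, 0, 1], [], []⟩, [-1, 2], [-4, 4]⟩,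
    ⟨⟨[.inl 1, .inl 0, .inr 0, .inl 3], [.inl (-1), .inl (-2), .inr 1, .inl 2, .inl (-3)], [-3, 0, -1], [3, -2, 2, 1], [], []⟩, [3, -4], [2, 2]⟩],
   [⟨⟨[.inl 1, .inl 0, .inr 0, .inl 3], [.inl (-1), .inl (-2), .inr 1, .inl 2, .inl (-3)], [-3, 0, -1], [3, -2, 2, 1], [], []⟩, [3, -4], [2, 2]⟩]⟩

theorem P_S_15_odd_3_2_S_5_231_242_253_fam : P_S_15_odd_3_2_S_5_231_242_253.loc 5 15 = true ∧ P_S_15_odd_3_2_S_5_231_242_253.conn 15 = true :=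
  one_fam P_S_15_odd_3_2_S_5_231_242_253 [-2, 0, -1, 1, 2] 5 15 (by decide) (by decide +kernel) (by decide +kernel)

theorem P_S_15_odd_3_2_S_5_231_242_253_sh : P_S_15_odd_3_2_S_5_231_242_253.all (shTwo (0) 3 false) = true := by decide +kernel

def S_S_15_odd_3_2_S_5_231_242_253_0 : SpD 2 := ⟨2, .inl 2, [(1, .inl 3), (3, .inl 0), (-2, .inr 1), (1, .inl 1)], [(1, 1)]⟩

theorem S_S_15_odd_3_2_S_5_231_242_253_0_fam : S_S_15_odd_3_2_S_5_231_242_253_0.chk 3 15 (P_S_15_odd_3_2_S_5_231_242_253.acc 15 S_S_15_odd_3_2_S_5_231_242_253_0.i0) = true := by decide +kernel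

def S_S_15_odd_3_2_S_5_231_242_253_1 : SpD 2 := ⟨2, .inl 2, [(1, .inl 3), (3, .inl 0), (-2, .inr 1), (1, .inl 1)], [(1, 1), (2, 3)]⟩

theorem S_S_15_odd_3_2_S_5_231_242_253_1_fam : S_S_15_odd_3_2_S_5_231_242_253_1.chk 3 15 (P_S_15_odd_3_2_S_5_231_242_253.acc 15 S_S_15_odd_3_2_S_5_231_242_253_1.i0) = true := by decide +kernel

def S_S_15_odd_3_2_S_5_231_242_253_2 : SpD 2 := ⟨2, .inl 2, [(1, .inl 3), (3, .inl 0), (-2, .inr 1), (1, .inl 1)], [(0, 4), (1, 1), (2, 3)]⟩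

theorem S_S_15_odd_3_2_S_5_231_242_253_2_fam : S_S_15_odd_3_2_S_5_231_242_253_2.chk 3 15 (P_S_15_odd_3_2_S_5_231_242_253.acc 15 S_S_15_odd_3_2_S_5_231_242_253_2.i0) = true := by decide +kernel

theorem W_S_15_odd_3_2_S_5_231_242_253 (q r : ℕ) (h1 : q = 15) (h3 : (q + r) % 4 = 3) (h4 : 2 ≤ r) (h5 : r + 7 ≤ q) : Want q r := by
  subst h1
  obtain ⟨hl, hc⟩ := P_S_15_odd_3_2_S_5_231_242_253_fam
  have hev : decide (Even ((((15 - 1) / 2) - (r - 2) / 2) - 3)) = false := by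
    simp only [Nat.even_iff, decide_eq_false_iff_not]
    omega
  have hI := inst_two P_S_15_odd_3_2_S_5_231_242_253 5 15 (0) 3 (((15 - 1) / 2) - (r - 2) / 2) ((15 - 1) / 2) r 5 (by decide) (by omega) (by decide) (by omega) (by omega) (by omega) (by omega) (by decide +kernel) (by decide) (by omega) (by decide +kernel) (by rw [hev]; exact P_S_15_odd_3_2_S_5_231_242_253_sh) hl hc
  exact class_f _ _ (by omega) (by omega) (by omega) hI.1 (hI.2 S_S_15_odd_3_2_S_5_231_242_253_0 3 2 (by decide) (by show (2 : ℕ) < _; omega) S_S_15_odd_3_2_S_5_231_242_253_0_fam (blk_2_3_1 _ (by omega) (by omega))) (hI.2 S_S_15_odd_3_2_S_5_231_242_253_1 3 3 (by decide) (by show (2 : ℕ) < _; omega) S_S_15_odd_3_2_S_5_231_242_253_1_fam (blk_3_3_1_3 _ (by omega) (by omega))) (hI.2 S_S_15_odd_3_2_S_5_231_242_253_2 3 4 (by decide) (by show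 (2 : ℕ) < _; omega) S_S_15_odd_3_2_S_5_231_242_253_2_fam (blk_4_3_4_1_3 _ (by omega) (by omega)))

def P_S_13_run_4_2_S_4_232 : Pat 2 :=
  ⟨[⟨⟨[.inl 0, .inr 1, .inl 3, .inl 2, .inl 1, .inr 0, .inl 4], [], [4, 3, 2, 1, 0], [], [], []⟩, [-3, -1], [1, 3]⟩,
    ⟨⟨[.inl 0, .inr 1, .inl 1, .inl 2, .inl 3, .inr 0, .inl 4], [], [4, 1, 2, 3, 0], [], [], []⟩, [-1, -3], [2, 1]⟩,
    ⟨⟨[.inl 0, .inr 1, .inl 3, .inl 2, .inl 1, .inr 0, .inl 4], [], [4, 3, 2, 1, 0], [], [], []⟩, [-3, -1], [3, 3]⟩,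
    ⟨⟨[.inl 0, .inr 1, .inl 1, .inl 3, .inl 2, .inr 0, .inl 4], [], [4, 1, 2, 3, 0], [], [], []⟩, [-2, -3], [1, 1]⟩,
    ⟨⟨[.inl 0, .inr 1, .inl 1, .inl 2, .inl 3, .inr 0, .inl 4], [], [4, 3, 2, 1, 0], [], [2], []⟩, [-1, -1], [3, 2]⟩,
    ⟨⟨[.inl 0, .inr 1, .inl 3, .inl 2, .inl 1, .inr 0, .inl 4], [], [4, 2, 1, 3, 0], [], [1], []⟩, [-3, -3], [1, 3]⟩,
    ⟨⟨[.inl 0, .inr 1, .inl 1, .inl 2, .inl 3, .inr 0, .inl 4], [], [4, 1, 2, 3, 0], [], [3], [1]⟩, [-1, -2], [3, 1]⟩,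
    ⟨⟨[.inl 0, .inr 1, .inl 3, .inl 2, .inl 1, .inr 0, .inl 4], [], [4, 3, 2, 1, 0], [], [], []⟩, [-3, -1], [1, 3]⟩,
    ⟨⟨[.inl 0, .inr 1, .inl 1, .inl 2, .inl 3, .inr 0, .inl 4], [], [4, 1, 2, 3, 0], [], [], []⟩, [-1, -3], [3, 1]⟩,
    ⟨⟨[.inl 0, .inr 1, .inl 3, .inl 2, .inl 1, .inr 0, .inl 4], [], [4, 3, 2, 1, 0], [], [], []⟩, [-3, -1], [1, 3]⟩,
    ⟨⟨[.inl 0, .inr 1, .inl 1, .inl 2, .inl 3, .inr 0, .inl 4], [], [4, 1, 2, 3, 0], [], [], []⟩, [-1, -3], [3, 1]⟩,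
    ⟨⟨[.inl 0, .inr 1, .inl 3, .inl 2, .inl 1, .inr 0, .inl 4], [], [4, 3, 2, 1, 0], [], [], []⟩, [-3, -1], [1, 3]⟩,
    ⟨⟨[.inl 0, .inr 1, .inl 1, .inl 2, .inl 3, .inr 0, .inl 4], [], [4, 1, 2, 3, 0], [], [], []⟩, [-1, -3], [3, 1]⟩],
   [⟨⟨[.inl 0, .inr 1, .inl 1, .inl 2, .inl 3, .inr 0, .inl 4], [], [4, 1, 2, 3, 0], [], [], []⟩, [-1, -3], [3, 1]⟩]⟩

theorem P_S_13_run_4_2_S_4_232_fam : P_S_13_run_4_2_S_4_232.loc 4 13 = true ∧ P_S_13_run_4_2_S_4_232.conn 13 = true :=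
  one_fam P_S_13_run_4_2_S_4_232 [0, 4] 4 13 (by decide) (by decide +kernel) (by decide +kernel)

theorem P_S_13_run_4_2_S_4_232_sh : P_S_13_run_4_2_S_4_232.all (shOne 4) = true := by decide +kernel

def S_S_13_run_4_2_S_4_232_0 : SpD 2 := ⟨3, .inl 3, [(3, .inr 1), (1, .inl 2), (-1, .inl 1)], [(0, -2), (1, 1)]⟩

theorem S_S_13_run_4_2_S_4_232_0_fam : S_S_13_run_4_2_S_4_232_0.chk 3 13 (P_S_13_run_4_2_S_4_232.acc 13 S_S_13_run_4_2_S_4_232_0.i0) = true := by decide +kernel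

theorem W_S_13_run_4_2_S_4_232 (q r : ℕ) (h1 : q = 13) (h5 : r + 2 = q) : Want q r := by
  subst h1
  obtain ⟨hl, hc⟩ := P_S_13_run_4_2_S_4_232_fam
  have hI := inst_one P_S_13_run_4_2_S_4_232 4 13 4 r 4 (by omega) (by omega) (by omega) (by decide +kernel) (by decide) (by omega) (by decide +kernel) P_S_13_run_4_2_S_4_232_sh hl hc
  exact class_a _ _ (by omega) (by omega) (by omega) hI.1 (hI.2 S_S_13_run_4_2_S_4_232_0 3 2 (by decide) (by show (3 : ℕ) < _; omega) S_S_13_run_4_2_S_4_232_0_fam (blk_2_0_m2_1 _ (by omega) (by omega)))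

def P_S_13_odd_3_1_C_4_432 : Pat 1 :=
  ⟨[⟨⟨[.inl 1, .inl 3], [.inl (-1), .inl 0, .inl 2, .inr 0, .inl (-2), .inl (-3)], [3, 2, -2, -1], [-3, 0, 1], [], [0]⟩, [1], [-2]⟩,
    ⟨⟨[.inl 1, .inl 3], [.inl (-1), .inl 2, .inr 0, .inl 0, .inl (-2), .inl (-3)], [3, -1], [-3, 2, 0, -2, 1], [0], []⟩, [5], [-1]⟩,
    ⟨⟨[.inl 1, .inl (-2), .inr 0, .inl 2, .inl 0, .inl 3], [.inl (-1), .inl (-3)], [3, -2, 2, -1], [-3, 0, 1], [-2], []⟩, [-4], [2]⟩,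
    ⟨⟨[.inl 1, .inl 2, .inr 0, .inl 0, .inl (-2), .inl 3], [.inl (-1), .inl (-3)], [3, 0, -2, -1], [-3, 2, 1], [], []⟩, [4], [2]⟩,
    ⟨⟨[.inl 1, .inl 3], [.inl (-1), .inl 0, .inr 0, .inl 2, .inl (-2), .inl (-3)], [3, 2, 0, -1], [-3, -2, 1], [], []⟩, [-2], [4]⟩,
    ⟨⟨[.inl 1, .inl 3], [.inl (-1), .inl (-2), .inr 0, .inl 2, .inl 0, .inl (-3)], [3, 0, -2, 2, -1], [-3, 1], [], []⟩, [-2], [4]⟩,
    ⟨⟨[.inl 1, .inl 3], [.inl (-1), .inl (-2), .inl 0, .inl 2, .inr 0, .inl (-3)], [3, 2, -2, 0, -1], [-3, 1], [3], []⟩, [4], [-5]⟩,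
    ⟨⟨[.inl 1, .inl 2, .inr 0, .inl (-2), .inl 0, .inl 3], [.inl (-1), .inl (-3)], [3, -1], [-3, 0, 2, -2, 1], [], []⟩, [5], [-4]⟩,
    ⟨⟨[.inl 1, .inl 0, .inl (-2), .inr 0, .inl 2, .inl 3], [.inl (-1), .inl (-3)], [3, -1], [-3, -2, 2, 0, 1], [], []⟩, [-4], [4]⟩,
    ⟨⟨[.inl 1, .inl 2, .inl 0, .inl (-2), .inr 0, .inl 3], [.inl (-1), .inl (-3)], [3, 0, -2, -1], [-3, 2, 1], [], []⟩, [-4], [1]⟩,
    ⟨⟨[.inl 1, .inl 2, .inr 0, .inl (-2), .inl 3], [.inl (-1), .inl 0, .inl (-3)], [3, 0, -1], [-3, 2, -2, 1], [], []⟩, [-1], [-4]⟩,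
    ⟨⟨[.inl 1, .inl 3], [.inl (-1), .inl (-2), .inl 0, .inr 0, .inl 2, .inl (-3)], [3, -2, 0, 2, -1], [-3, 1], [], []⟩, [2], [4]⟩,
    ⟨⟨[.inl 1, .inl 0, .inl 2, .inl 3], [.inl (-1), .inl (-2), .inr 0, .inl (-3)], [3, 2, -2, 0, -1], [-3, 1], [], []⟩, [-4], [-5]⟩],
   [⟨⟨[.inl 1, .inl 0, .inl 2, .inl 3], [.inl (-1), .inl (-2), .inr 0, .inl (-3)], [3, 2, -2, 0, -1], [-3, 1], [], []⟩, [-4], [-5]⟩]⟩

theorem P_S_13_odd_3_1_C_4_432_fam : P_S_13_odd_3_1_C_4_432.loc 5 13 = true ∧ P_S_13_odd_3_1_C_4_432.conn 13 = true :=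
  one_fam P_S_13_odd_3_1_C_4_432 [2, 0] 5 13 (by decide) (by decide +kernel) (by decide +kernel)

theorem P_S_13_odd_3_1_C_4_432_sh : P_S_13_odd_3_1_C_4_432.all (shTwo (0) 3 true) = true := by decide +kernel

def S_S_13_odd_3_1_C_4_432_0 : SpD 1 := ⟨4, .inl (-2), [(-4, .inr 0), (-3, .inl (-3)), (-1, .inl 2)], [(0, -2), (1, 1)]⟩

theorem S_S_13_odd_3_1_C_4_432_0_fam : S_S_13_odd_3_1_C_4_432_0.chk 4 13 (P_S_13_odd_3_1_C_4_432.acc 13 S_S_13_odd_3_1_C_4_432_0.i0) = true := by decide +kernel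

theorem W_S_13_odd_3_1_C_4_432 (q r : ℕ) (h1 : q = 13) (h3 : (q + r) % 4 = 0) (h4 : 1 ≤ r) (h5 : r + 6 ≤ q) : Want q r := by
  subst h1
  obtain ⟨hl, hc⟩ := P_S_13_odd_3_1_C_4_432_fam
  have hev : decide (Even ((((13 - 1) / 2) - (r - 1) / 2) - 3)) = true := by
    simp only [Nat.even_iff, decide_eq_true_eq]
    omega
  have hI := inst_two P_S_13_odd_3_1_C_4_432 5 13 (0) 3 (((13 - 1) / 2) - (r - 1) / 2) ((13 - 1) / 2) r 4 (by decide) (by omega) (by decide) (by omega) (by omega) (by omega) (by omega) (by decide +kernel) (by decide) (by omega) (by decide +kernel) (by rw [hev]; exact P_S_13_odd_3_1_C_4_432_sh) hl hc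
  exact class_a _ _ (by omega) (by omega) (by omega) hI.1 (hI.2 S_S_13_odd_3_1_C_4_432_0 4 2 (by decide) (by show (4 : ℕ) < _; omega) S_S_13_odd_3_1_C_4_432_0_fam (blk_2_0_m2_1 _ (by omega) (by omega)))

def P_S_11_odd_4_0_S_5_231_242_253 : Pat 0 :=
  ⟨[⟨⟨[.inl 1, .inl 0, .inl 2, .inl 3, .inl (-2), .inl (-3), .inl 4], [.inl (-1), .inl (-4)], [-4, 3, -1], [4, -3, -2, 0, 2, 1], [-2], []⟩, [], []⟩,
    ⟨⟨[.inl 1, .inl (-2), .inl 0, .inl 4], [.inl (-1), .inl (-3), .inl 2, .inl 3, .inl (-4)], [-4, 0, -1], [4, -3, -2, 2, 3, 1], [], []⟩, [], []⟩,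
    ⟨⟨[.inl 1, .inl 3, .inl 0, .inl 2, .inl (-2), .inl 4], [.inl (-1), .inl (-3), .inl (-4)], [-4, 2, -3, -2, 0, -1], [4, 3, 1], [2], []⟩, [], []⟩,
    ⟨⟨[.inl 1, .inl 0, .inl (-2), .inl 4], [.inl (-1), .inl 2, .inl 3, .inl (-3), .inl (-4)], [-4, -2, -1], [4, 0, 2, 3, -3, 1], [], []⟩, [], []⟩,
    ⟨⟨[.inl 1, .inl 2, .inl 4], [.inl (-1), .inl 0, .inl (-2), .inl 3, .inl (-3), .inl (-4)], [-4, -3, -2, 2, 0, -1], [4, 3, 1], [-2], []⟩, [], []⟩,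
    ⟨⟨[.inl 1, .inl 3, .inl 4], [.inl (-1), .inl (-2), .inl 2, .inl (-3), .inl 0, .inl (-4)], [-4, -2, -3, 2, 3, -1], [4, 0, 1], [0], []⟩, [], []⟩,
    ⟨⟨[.inl 1, .inl 2, .inl 0, .inl (-2), .inl 3, .inl 4], [.inl (-1), .inl (-3), .inl (-4)], [-4, -3, -1], [4, 3, -2, 2, 0, 1], [2], []⟩, [], []⟩,
    ⟨⟨[.inl 1, .inl 3, .inl 4], [.inl (-1), .inl 2, .inl (-3), .inl (-2), .inl 0, .inl (-4)], [-4, -1], [4, 3, 2, 0, -2, -3, 1], [], []⟩, [], []⟩,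
    ⟨⟨[.inl 1, .inl 3, .inl 4], [.inl (-1), .inl 2, .inl 0, .inl (-2), .inl (-3), .inl (-4)], [-4, -3, 3, 2, -2, -1], [4, 0, 1], [], []⟩, [], []⟩,
    ⟨⟨[.inl 1, .inl 0, .inl (-3), .inl 4], [.inl (-1), .inl 2, .inl 3, .inl (-2), .inl (-4)], [-4, 3, 2, 0, -1], [4, -2, -3, 1], [], []⟩, [], []⟩,
    ⟨⟨[.inl 1, .inl (-2), .inl (-3), .inl 2, .inl 4], [.inl (-1), .inl 0, .inl 3, .inl (-4)], [-4, 3, 2, -1], [4, -3, -2, 0, 1], [], []⟩, [], []⟩],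
   [⟨⟨[.inl 1, .inl (-2), .inl (-3), .inl 2, .inl 4], [.inl (-1), .inl 0, .inl 3, .inl (-4)], [-4, 3, 2, -1], [4, -3, -2, 0, 1], [], []⟩, [], []⟩]⟩

theorem P_S_11_odd_4_0_S_5_231_242_253_fam : P_S_11_odd_4_0_S_5_231_242_253.loc 7 11 = true ∧ P_S_11_odd_4_0_S_5_231_242_253.conn 11 = true :=
  one_fam P_S_11_odd_4_0_S_5_231_242_253 [] 7 11 (by decide) (by decide +kernel) (by decide +kernel)

theorem P_S_11_odd_4_0_S_5_231_242_253_sh : P_S_11_odd_4_0_S_5_231_242_253.all (shTwo (0) 4 false) = true := by decide +kernel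

def S_S_11_odd_4_0_S_5_231_242_253_0 : SpD 0 := ⟨2, .inl (-2), [(-2, .inl 0), (3, .inl 3), (2, .inl 4), (4, .inl 2)], [(0, -2)]⟩

theorem S_S_11_odd_4_0_S_5_231_242_253_0_fam : S_S_11_odd_4_0_S_5_231_242_253_0.chk 4 11 (P_S_11_odd_4_0_S_5_231_242_253.acc 11 S_S_11_odd_4_0_S_5_231_242_253_0.i0) = true := by decide +kernel

def S_S_11_odd_4_0_S_5_231_242_253_1 : SpD 0 := ⟨2, .inl (-2), [(-2, .inl 0), (3, .inl 3), (2, .inl 4), (4, .inl 2)], [(0, -2), (2, 1)]⟩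

theorem S_S_11_odd_4_0_S_5_231_242_253_1_fam : S_S_11_odd_4_0_S_5_231_242_253_1.chk 4 11 (P_S_11_odd_4_0_S_5_231_242_253.acc 11 S_S_11_odd_4_0_S_5_231_242_253_1.i0) = true := by decide +kernel

def S_S_11_odd_4_0_S_5_231_242_253_2 : SpD 0 := ⟨2, .inl (-2), [(-2, .inl 0), (3, .inl 3), (2, .inl 4), (4, .inl 2)], [(0, -2), (1, -3), (2, 1)]⟩

theorem S_S_11_odd_4_0_S_5_231_242_253_2_fam : S_S_11_odd_4_0_S_5_231_242_253_2.chk 4 11 (P_S_11_odd_4_0_S_5_231_242_253.acc 11 S_S_11_odd_4_0_S_5_231_242_253_2.i0) = true := by decide +kernel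

theorem W_S_11_odd_4_0_S_5_231_242_253 (q r : ℕ) (h1 : q = 11) (h3 : (q + r) % 4 = 3) (h4 : 0 ≤ r) (h5 : r + 11 ≤ q) : Want q r := by
  subst h1
  obtain ⟨hl, hc⟩ := P_S_11_odd_4_0_S_5_231_242_253_fam
  have hev : decide (Even ((((11 - 1) / 2) - (r - 0) / 2) - 4)) = false := by
    simp only [Nat.even_iff, decide_eq_false_iff_not]
    omega
  have hI := inst_two P_S_11_odd_4_0_S_5_231_242_253 7 11 (0) 4 (((11 - 1) / 2) - (r - 0) / 2) ((11 - 1) / 2) r 5 (by decide) (by omega) (by decide) (by omega) (by omega) (by omega) (by omega) (by decide +kernel) (by decide) (by omega) (by decide +kernel) (by rw [hev]; exact P_S_11_odd_4_0_S_5_231_242_253_sh) hl hc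
  exact class_f _ _ (by omega) (by omega) (by omega) hI.1 (hI.2 S_S_11_odd_4_0_S_5_231_242_253_0 4 2 (by decide) (by show (2 : ℕ) < _; omega) S_S_11_odd_4_0_S_5_231_242_253_0_fam (blk_2_3_m2 _ (by omega) (by omega))) (hI.2 S_S_11_odd_4_0_S_5_231_242_253_1 4 3 (by decide) (by show (2 : ℕ) < _; omega) S_S_11_odd_4_0_S_5_231_242_253_1_fam (blk_3_3_m2_1 _ (by omega) (by omega))) (hI.2 S_S_11_odd_4_0_S_5_231_242_253_2 4 4 (by decide) (by show (2 : ℕ) < _; omega) S_S_11_odd_4_0_S_5_231_242_253_2_fam (blk_4_3_m2_m3_1 _ (by omega) (by omega)))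

end Pool.Agent.KS6_69.GT
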