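import Pool.Agent.KS6_69.GT.TabBlocks
import Pool.Agent.KS6_69.GT.Wrap2
import Pool.Agent.KS6_69.GT.Tab01

set_option autoImplicit false

namespace Pool.Agent.KS6_69.GT

def P_Fc_d1_run_5_4_S_5_21_9_4_233 : Pat 4 :=
  ⟨[⟨⟨[.inl 0, .inr 3, .inl 1, .inr 0, .inl 4, .inr 2, .inl 2, .inr 1, .inl 3, .inl 5], [], [5, 3, 4, 2, 1, 0], [], [], []⟩, [-1, -2, 1, -1], [2, 5, 2, -2]⟩,
    ⟨⟨[.inl 0, .inr 2, .inl 3, .inr 1, .inl 4, .inl 2, .inr 0, .inl 1, .inr 3, .inl 5], [], [5, 4, 2, 1, 3, 0], [], [], []⟩, [-3, -2, -3, -4], [-2, 1, -1, 2]⟩,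
    ⟨⟨[.inl 0, .inr 2, .inl 3, .inr 1, .inl 4, .inr 3, .inl 1, .inl 2, .inr 0, .inl 5], [], [5, 1, 3, 4, 2, 0], [], [], []⟩, [-2, -1, -2, 2], [4, 1, 2, -3]⟩,
    ⟨⟨[.inl 0, .inr 2, .inl 3, .inr 1, .inl 4, .inl 1, .inr 3, .inl 2, .inr 0, .inl 5], [], [5, 2, 3, 1, 4, 0], [], [3], [3]⟩, [1, -1, -4, -2], [4, 4, 3, 2]⟩,
    ⟨⟨[.inl 0, .inl 3, .inr 3, .inl 2, .inr 0, .inl 1, .inr 2, .inl 4, .inr 1, .inl 5], [], [5, 3, 4, 2, 1, 0], [], [2], []⟩, [1, 1, -2, 1], [-1, 2, 4, -2]⟩,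
    ⟨⟨[.inl 0, .inr 3, .inl 2, .inr 2, .inl 4, .inr 0, .inl 1, .inr 1, .inl 3, .inl 5], [], [5, 4, 3, 1, 2, 0], [], [], [1]⟩, [1, -5, 1, -2], [-1, -1, 2, -1]⟩,
    ⟨⟨[.inl 0, .inr 2, .inl 1, .inr 0, .inl 3, .inr 1, .inl 4, .inl 2, .inr 3, .inl 5], [], [5, 1, 2, 4, 3, 0], [], [5], []⟩, [-4, -2, -3, 1], [-1, 2, -1, 4]⟩,
    ⟨⟨[.inl 0, .inr 1, .inl 4, .inl 2, .inr 2, .inl 3, .inr 3, .inl 1, .inr 0, .inl 5], [], [5, 1, 2, 3, 4, 0], [], [], []⟩, [-4, -4, -2, 2], [3, 2, 3, -1]⟩,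
    ⟨⟨[.inl 0, .inr 2, .inl 4, .inr 3, .inl 1, .inl 3, .inr 0, .inl 2, .inr 1, .inl 5], [], [5, 1, 2, 3, 4, 0], [], [], []⟩, [2, -2, -4, 3], [1, 2, 4, 1]⟩],
   [⟨⟨[.inl 0, .inr 3, .inl 1, .inr 0, .inl 4, .inr 2, .inl 2, .inr 1, .inl 3, .inl 5], [], [5, 3, 4, 2, 1, 0], [], [], []⟩, [-1, -2, 1, -1], [2, 2, 2, -2]⟩,
    ⟨⟨[.inl 0, .inr 2, .inl 3, .inr 1, .inl 4, .inl 2, .inr 0, .inl 1, .inr 3, .inl 5], [], [5, 4, 2, 1, 3, 0], [], [], []⟩, [-3, -2, -3, -4], [-2, 2, -1, 4]⟩,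
    ⟨⟨[.inl 0, .inr 2, .inl 3, .inr 3, .inl 1, .inr 1, .inl 4, .inl 2, .inr 0, .inl 5], [], [5, 1, 3, 4, 2, 0], [], [], []⟩, [-2, -2, -2, 2], [3, 2, 3, -3]⟩,
    ⟨⟨[.inl 0, .inr 2, .inl 4, .inr 3, .inl 1, .inl 3, .inr 0, .inl 2, .inr 1, .inl 5], [], [5, 2, 3, 1, 4, 0], [], [], []⟩, [2, -2, -4, 3], [1, 2, 4, 1]⟩]⟩

theorem P_Fc_d1_run_5_4_S_5_21_9_4_233_l0 : P_Fc_d1_run_5_4_S_5_21_9_4_233.locC [1, 4, 3, 2] 6 (21 + 0 * 4) = true := by decide +kernel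

theorem P_Fc_d1_run_5_4_S_5_21_9_4_233_l1 : P_Fc_d1_run_5_4_S_5_21_9_4_233.locC [1, 4, 3, 2] 6 (21 + 1 * 4) = true := by decide +kernel

theorem P_Fc_d1_run_5_4_S_5_21_9_4_233_fam : ∀ t : ℕ, P_Fc_d1_run_5_4_S_5_21_9_4_233.loc 6 (21 + t * 4) = true ∧ P_Fc_d1_run_5_4_S_5_21_9_4_233.conn (21 + t * 4) = true :=
  fam_ext2 P_Fc_d1_run_5_4_S_5_21_9_4_233 [1, 4, 3, 2] 6 21 1 5 4 (by decide) (by decide) (by decide) (by decide) (by decide) (by decide +kernel) (by decide)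
    (by
      intro t ht
      interval_cases t
      · exact P_Fc_d1_run_5_4_S_5_21_9_4_233_l0
      · exact P_Fc_d1_run_5_4_S_5_21_9_4_233_l1)
    (by decide +kernel)

theorem P_Fc_d1_run_5_4_S_5_21_9_4_233_sh : P_Fc_d1_run_5_4_S_5_21_9_4_233.all (shOne 5) = true := by decide +kernel

def S_Fc_d1_run_5_4_S_5_21_9_4_233_0 : SpD 4 := ⟨2, .inl 2, [(1, .inr 3), (-1, .inl 4), (3, .inr 1), (-2, .inl 1)], [(0, -2), (1, -3), (2, -4)]⟩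

theorem S_Fc_d1_run_5_4_S_5_21_9_4_233_0_fam : ∀ t : ℕ, S_Fc_d1_run_5_4_S_5_21_9_4_233_0.chk 4 (21 + t * 4) (P_Fc_d1_run_5_4_S_5_21_9_4_233.acc (21 + t * 4) S_Fc_d1_run_5_4_S_5_21_9_4_233_0.i0) = true :=
  sp_fam P_Fc_d1_run_5_4_S_5_21_9_4_233 S_Fc_d1_run_5_4_S_5_21_9_4_233_0 4 21 1 4 (by decide) (by decide) (by decide) (by decide) (by decide +kernel)

theorem W_Fc_d1_run_5_4_S_5_21_9_4_233 (q r : ℕ) (h1 : 21 ≤ q) (h2 : q % 4 = 1) (h5 : r + 1 = q) : Want q r := by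
  obtain ⟨t, rfl⟩ : ∃ t : ℕ, q = 21 + t * 4 := ⟨(q - 21) / 4, by omega⟩
  obtain ⟨hl, hc⟩ := P_Fc_d1_run_5_4_S_5_21_9_4_233_fam t
  have hI := inst_one P_Fc_d1_run_5_4_S_5_21_9_4_233 6 (21 + t * 4) 5 r 5 (by omega) (by omega) (by omega) (by decide +kernel) (by decide) (by omega) (by decide +kernel) P_Fc_d1_run_5_4_S_5_21_9_4_233_sh hl hc
  exact class_c _ _ (by omega) (by omega) (by omega) hI.1 (hI.2 S_Fc_d1_run_5_4_S_5_21_9_4_233_0 4 2 (by decide) (by show (2 : ℕ) < _; omega) (S_Fc_d1_run_5_4_S_5_21_9_4_233_0_fam t) (blk_2_1_m2_m3_m4 _ (by omega) (by omega)))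

def P_Feo2_d1_run_4_3_S_0_18_6_4 : Pat 3 :=
  ⟨[⟨⟨[.inl 0, .inr 2, .inl 1, .inr 0, .inl 3, .inl 2, .inr 1, .inl 4], [], [4, 2, 1, 3, 0], [], [], []⟩, [-2, -2, -3], [2, 3, 1]⟩,
    ⟨⟨[.inl 0, .inr 2, .inl 3, .inr 0, .inl 1, .inl 2, .inr 1, .inl 4], [], [4, 2, 3, 1, 0], [], [], []⟩, [1, -2, -1], [-2, 1, 3]⟩,
    ⟨⟨[.inl 0, .inr 2, .inl 1, .inr 0, .inl 2, .inl 3, .inr 1, .inl 4], [], [4, 2, 1, 3, 0], [], [], []⟩, [-2, -1, -3], [-1, 2, 1]⟩,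
    ⟨⟨[.inl 0, .inr 2, .inl 3, .inr 0, .inl 2, .inl 1, .inr 1, .inl 4], [], [4, 2, 3, 1, 0], [], [], []⟩, [2, -3, -1], [1, 2, 3]⟩,
    ⟨⟨[.inl 0, .inr 2, .inl 1, .inr 0, .inl 3, .inl 2, .inr 1, .inl 4], [], [4, 1, 2, 3, 0], [], [], []⟩, [-1, -2, -3], [2, 2, 1]⟩,
    ⟨⟨[.inl 0, .inr 2, .inl 3, .inr 0, .inl 1, .inl 2, .inr 1, .inl 4], [], [4, 3, 2, 1, 0], [], [], []⟩, [2, -2, -1], [-2, 2, 3]⟩],
   [⟨⟨[.inl 0, .inr 2, .inl 1, .inr 0, .inl 3, .inl 2, .inr 1, .inl 4], [], [4, 2, 1, 3, 0], [], [], []⟩, [-2, -2, -3], [2, 2, 1]⟩,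
    ⟨⟨[.inl 0, .inr 2, .inl 3, .inr 0, .inl 1, .inl 2, .inr 1, .inl 4], [], [4, 2, 3, 1, 0], [], [], []⟩, [2, -2, -1], [-2, 2, 3]⟩,
    ⟨⟨[.inl 0, .inr 2, .inl 1, .inr 0, .inl 3, .inl 2, .inr 1, .inl 4], [], [4, 2, 1, 3, 0], [], [], []⟩, [-2, -2, -3], [2, 2, 1]⟩,
    ⟨⟨[.inl 0, .inr 2, .inl 3, .inr 0, .inl 1, .inl 2, .inr 1, .inl 4], [], [4, 2, 3, 1, 0], [], [], []⟩, [2, -2, -1], [-2, 2, 3]⟩]⟩

theorem P_Feo2_d1_run_4_3_S_0_18_6_4_l0 : P_Feo2_d1_run_4_3_S_0_18_6_4.locC [1, 2, 3] 4 (18 + 0 * 4) = true := by decide +kernel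

theorem P_Feo2_d1_run_4_3_S_0_18_6_4_fam : ∀ t : ℕ, P_Feo2_d1_run_4_3_S_0_18_6_4.loc 4 (18 + t * 4) = true ∧ P_Feo2_d1_run_4_3_S_0_18_6_4.conn (18 + t * 4) = true :=
  fam_ext2 P_Feo2_d1_run_4_3_S_0_18_6_4 [1, 2, 3] 4 18 0 3 4 (by decide) (by decide) (by decide) (by decide) (by decide) (by decide +kernel) (by decide)
    (by
      intro t ht
      interval_cases t
      · exact P_Feo2_d1_run_4_3_S_0_18_6_4_l0)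
    (by decide +kernel)

theorem P_Feo2_d1_run_4_3_S_0_18_6_4_sh : P_Feo2_d1_run_4_3_S_0_18_6_4.all (shOne 4) = true := by decide +kernel

theorem W_Feo2_d1_run_4_3_S_0_18_6_4 (q r : ℕ) (h1 : 18 ≤ q) (h2 : q % 4 = 2) (h5 : r + 1 = q) : Want q r := by
  obtain ⟨t, rfl⟩ : ∃ t : ℕ, q = 18 + t * 4 := ⟨(q - 18) / 4, by omega⟩
  obtain ⟨hl, hc⟩ := P_Feo2_d1_run_4_3_S_0_18_6_4_fam t
  have hI := inst_one P_Feo2_d1_run_4_3_S_0_18_6_4 4 (18 + t * 4) 4 r 0 (by omega) (by omega) (by omega) (by decide +kernel) (by decide) (by omega) (by decide +kernel) P_Feo2_d1_run_4_3_S_0_18_6_4_sh hl hc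
  exact class_t _ _ (by omega) (tmod _ _ (by omega) (by omega)) hI.1 

def P_S_16_run_7_2_S_4_231_242 : Pat 2 :=
  ⟨[⟨⟨[.inl 0, .inl 2, .inl 1, .inr 0, .inl 6, .inl 3, .inl 5, .inl 4, .inr 1, .inl 7], [], [7, 6, 5, 1, 2, 3, 4, 0], [], [], []⟩, [-6, -2], [5, 3]⟩,
    ⟨⟨[.inl 0, .inl 1, .inl 2, .inr 0, .inl 6, .inl 4, .inr 1, .inl 5, .inl 3, .inl 7], [], [7, 1, 2, 3, 6, 5, 4, 0], [], [], []⟩, [-4, -2], [6, 3]⟩,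
    ⟨⟨[.inl 0, .inr 0, .inl 6, .inl 5, .inl 1, .inl 4, .inl 2, .inl 3, .inr 1, .inl 7], [], [7, 4, 1, 5, 3, 2, 6, 0], [], [], [1]⟩, [-6, 1], [6, 5]⟩,
    ⟨⟨[.inl 0, .inl 4, .inr 1, .inl 5, .inl 1, .inl 3, .inl 2, .inr 0, .inl 6, .inl 7], [], [7, 6, 2, 5, 4, 3, 1, 0], [], [], []⟩, [-5, -3], [3, -1]⟩,
    ⟨⟨[.inl 0, .inr 0, .inl 6, .inl 5, .inl 1, .inl 3, .inl 4, .inl 2, .inr 1, .inl 7], [], [7, 6, 4, 2, 1, 3, 5, 0], [], [], []⟩, [-5, -3], [5, 2]⟩,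
    ⟨⟨[.inl 0, .inl 4, .inl 3, .inl 2, .inl 1, .inr 0, .inl 6, .inl 5, .inr 1, .inl 7], [], [7, 2, 3, 5, 6, 4, 1, 0], [], [2], []⟩, [-5, 1], [6, 4]⟩,
    ⟨⟨[.inl 0, .inl 1, .inl 2, .inl 5, .inr 1, .inl 4, .inl 6, .inl 3, .inr 0, .inl 7], [], [7, 5, 2, 3, 4, 6, 1, 0], [], [2], []⟩, [-3, -2], [6, -1]⟩,
    ⟨⟨[.inl 0, .inr 0, .inl 5, .inl 3, .inl 4, .inl 1, .inl 2, .inr 1, .inl 6, .inl 7], [], [7, 4, 5, 1, 2, 3, 6, 0], [], [], []⟩, [-6, -5], [3, 1]⟩,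
    ⟨⟨[.inl 0, .inr 0, .inl 6, .inl 3, .inl 2, .inl 1, .inl 4, .inl 5, .inr 1, .inl 7], [], [7, 5, 4, 3, 1, 2, 6, 0], [], [5], []⟩, [-6, -1], [5, 3]⟩,
    ⟨⟨[.inl 0, .inl 1, .inr 0, .inl 6, .inl 4, .inl 2, .inl 5, .inl 3, .inr 1, .inl 7], [], [7, 2, 4, 5, 6, 3, 1, 0], [], [], []⟩, [-5, -4], [5, 1]⟩,
    ⟨⟨[.inl 0, .inl 1, .inl 3, .inl 6, .inr 1, .inl 4, .inl 5, .inl 2, .inr 0, .inl 7], [], [7, 6, 1, 2, 3, 4, 5, 0], [], [], []⟩, [-3, -1], [6, 4]⟩,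
    ⟨⟨[.inl 0, .inr 0, .inl 5, .inl 2, .inl 1, .inl 3, .inl 4, .inr 1, .inl 6, .inl 7], [], [7, 5, 4, 3, 2, 1, 6, 0], [], [], []⟩, [-6, -3], [4, 1]⟩,
    ⟨⟨[.inl 0, .inl 3, .inl 2, .inl 1, .inr 0, .inl 6, .inl 4, .inl 5, .inr 1, .inl 7], [], [7, 3, 1, 4, 6, 5, 2, 0], [], [], []⟩, [-6, -1], [6, 1]⟩,
    ⟨⟨[.inl 0, .inl 2, .inl 1, .inr 0, .inl 6, .inr 1, .inl 5, .inl 4, .inl 3, .inl 7], [], [7, 1, 6, 5, 2, 3, 4, 0], [], [], []⟩, [-5, -1], [4, 2]⟩,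
    ⟨⟨[.inl 0, .inr 1, .inl 6, .inl 2, .inl 5, .inl 4, .inl 3, .inl 1, .inr 0, .inl 7], [], [7, 2, 3, 5, 6, 1, 4, 0], [], [], []⟩, [-5, -4], [5, 2]⟩,
    ⟨⟨[.inl 0, .inl 2, .inl 3, .inr 1, .inl 6, .inl 4, .inl 1, .inr 0, .inl 5, .inl 7], [], [7, 4, 3, 5, 2, 6, 1, 0], [], [], []⟩, [-4, -2], [5, 2]⟩],
   [⟨⟨[.inl 0, .inl 2, .inl 3, .inr 1, .inl 6, .inl 4, .inl 1, .inr 0, .inl 5, .inl 7], [], [7, 4, 3, 5, 2, 6, 1, 0], [], [], []⟩, [-4, -2], [5, 2]⟩]⟩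

theorem P_S_16_run_7_2_S_4_231_242_fam : P_S_16_run_7_2_S_4_231_242.loc 7 16 = true ∧ P_S_16_run_7_2_S_4_231_242.conn 16 = true :=
  one_fam P_S_16_run_7_2_S_4_231_242 [6, 5, 7, 0] 7 16 (by decide) (by decide +kernel) (by decide +kernel)

theorem P_S_16_run_7_2_S_4_231_242_sh : P_S_16_run_7_2_S_4_231_242.all (shOne 7) = true := by decide +kernel

def S_S_16_run_7_2_S_4_231_242_0 : SpD 2 := ⟨4, .inl 2, [(-1, .inl 1), (-2, .inr 1), (-1, .inl 4)], [(1, 1)]⟩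

theorem S_S_16_run_7_2_S_4_231_242_0_fam : S_S_16_run_7_2_S_4_231_242_0.chk 4 16 (P_S_16_run_7_2_S_4_231_242.acc 16 S_S_16_run_7_2_S_4_231_242_0.i0) = true := by decide +kernel

def S_S_16_run_7_2_S_4_231_242_1 : SpD 2 := ⟨4, .inl 2, [(-1, .inl 1), (-2, .inr 1), (-1, .inl 4)], [(0, -3), (1, 1)]⟩

theorem S_S_16_run_7_2_S_4_231_242_1_fam : S_S_16_run_7_2_S_4_231_242_1.chk 4 16 (P_S_16_run_7_2_S_4_231_242.acc 16 S_S_16_run_7_2_S_4_231_242_1.i0) = true := by decide +kernel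

theorem W_S_16_run_7_2_S_4_231_242 (q r : ℕ) (h1 : q = 16) (h5 : r + 5 = q) : Want q r := by
  subst h1
  obtain ⟨hl, hc⟩ := P_S_16_run_7_2_S_4_231_242_fam
  have hI := inst_one P_S_16_run_7_2_S_4_231_242 7 16 7 r 4 (by omega) (by omega) (by omega) (by decide +kernel) (by decide) (by omega) (by decide +kernel) P_S_16_run_7_2_S_4_231_242_sh hl hc
  exact class_d _ _ (by omega) (by omega) (by omega) hI.1 (hI.2 S_S_16_run_7_2_S_4_231_242_0 4 2 (by decide) (by show (4 : ℕ) < _; omega) S_S_16_run_7_2_S_4_231_242_0_fam (blk_2_3_1 _ (by omega) (by omega))) (hI.2 S_S_16_run_7_2_S_4_231_242_1 4 3 (by decide) (by show (4 : ℕ) < _; omega) S_S_16_run_7_2_S_4_231_242_1_fam (blk_3_3_m3_1 _ (by omega) (by omega)))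

def P_S_10_run_6_3_S_0 : Pat 3 :=
  ⟨[⟨⟨[.inl 0, .inr 2, .inl 1, .inr 1, .inl 2, .inr 0, .inl 4, .inl 5, .inl 3, .inl 6], [], [6, 4, 5, 3, 1, 2, 0], [], [], []⟩, [-1, -2, -2], [4, 1, 1]⟩,
    ⟨⟨[.inl 0, .inr 2, .inl 2, .inr 0, .inl 4, .inl 3, .inl 1, .inr 1, .inl 5, .inl 6], [], [6, 2, 4, 5, 3, 1, 0], [], [], []⟩, [-3, -1, -1], [1, 4, 1]⟩,
    ⟨⟨[.inl 0, .inl 2, .inr 1, .inl 5, .inl 4, .inl 1, .inr 2, .inl 3, .inr 0, .inl 6], [], [6, 5, 4, 3, 2, 1, 0], [], [], []⟩, [-1, 1, -1], [4, 4, 2]⟩,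
    ⟨⟨[.inl 0, .inl 2, .inr 1, .inl 1, .inr 2, .inl 3, .inr 0, .inl 4, .inl 5, .inl 6], [], [6, 4, 5, 2, 1, 3, 0], [], [], []⟩, [1, -4, -4], [4, -1, 3]⟩,
    ⟨⟨[.inl 0, .inr 0, .inl 2, .inl 5, .inr 1, .inl 4, .inl 1, .inr 2, .inl 3, .inl 6], [], [6, 5, 1, 2, 3, 4, 0], [], [], []⟩, [-4, 2, -2], [-1, 4, 1]⟩,
    ⟨⟨[.inl 0, .inl 3, .inl 2, .inr 2, .inl 4, .inl 1, .inr 1, .inl 5, .inr 0, .inl 6], [], [6, 2, 5, 4, 3, 1, 0], [], [], []⟩, [1, -4, -1], [4, 2, 4]⟩,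
    ⟨⟨[.inl 0, .inr 2, .inl 2, .inr 0, .inl 4, .inl 1, .inr 1, .inl 3, .inl 5, .inl 6], [], [6, 4, 5, 1, 2, 3, 0], [], [], []⟩, [-4, -4, -3], [-1, -2, 1]⟩,
    ⟨⟨[.inl 0, .inr 0, .inl 2, .inl 1, .inr 2, .inl 5, .inl 4, .inl 3, .inr 1, .inl 6], [], [6, 5, 1, 3, 2, 4, 0], [], [], []⟩, [-4, -2, -1], [1, 2, 1]⟩,
    ⟨⟨[.inl 0, .inr 1, .inl 3, .inl 1, .inr 0, .inl 5, .inl 4, .inr 2, .inl 2, .inl 6], [], [6, 2, 1, 5, 3, 4, 0], [], [], []⟩, [-1, -4, -1], [3, 2, 2]⟩,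
    ⟨⟨[.inl 0, .inr 2, .inl 5, .inl 1, .inl 2, .inr 0, .inl 3, .inl 4, .inr 1, .inl 6], [], [6, 2, 1, 3, 5, 4, 0], [], [], []⟩, [-4, -2, -4], [1, 4, 4]⟩],
   [⟨⟨[.inl 0, .inr 2, .inl 5, .inl 1, .inl 2, .inr 0, .inl 3, .inl 4, .inr 1, .inl 6], [], [6, 2, 1, 3, 5, 4, 0], [], [], []⟩, [-4, -2, -4], [1, 4, 4]⟩]⟩

theorem P_S_10_run_6_3_S_0_fam : P_S_10_run_6_3_S_0.loc 6 10 = true ∧ P_S_10_run_6_3_S_0.conn 10 = true :=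
  one_fam P_S_10_run_6_3_S_0 [2, 4, 1, 3] 6 10 (by decide) (by decide +kernel) (by decide +kernel)

theorem P_S_10_run_6_3_S_0_sh : P_S_10_run_6_3_S_0.all (shOne 6) = true := by decide +kernel

theorem W_S_10_run_6_3_S_0 (q r : ℕ) (h1 : q = 10) (h5 : r + 3 = q) : Want q r := by
  subst h1
  obtain ⟨hl, hc⟩ := P_S_10_run_6_3_S_0_fam
  have hI := inst_one P_S_10_run_6_3_S_0 6 10 6 r 0 (by omega) (by omega) (by omega) (by decide +kernel) (by decide) (by omega) (by decide +kernel) P_S_10_run_6_3_S_0_sh hl hc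
  exact class_t _ _ (by omega) (tmod _ _ (by omega) (by omega)) hI.1 

def P_S_12_even_3_1_S_4_231_242 : Pat 1 :=
  ⟨[⟨⟨[.inl 0, .inl (-3), .inl 1, .inl 2, .inr 0, .inl (-2), .inl 3], [.inl (-1), .inl (-4)], [-4, 1, 2, -2, -3, -1], [3, 0], [-2], []⟩, [6], [-3]⟩,
    ⟨⟨[.inl 0, .inl (-2), .inl 1, .inl 2, .inl (-3), .inl 3], [.inl (-1), .inr 0, .inl (-4)], [-4, -3, -2, 1, 2, -1], [3, 0], [2], []⟩, [2], [-6]⟩,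
    ⟨⟨[.inl 0, .inl (-3), .inl 3], [.inl (-1), .inl (-2), .inr 0, .inl 1, .inl 2, .inl (-4)], [-4, 2, -1], [3, -2, -3, 1, 0], [], []⟩, [-4], [1]⟩,
    ⟨⟨[.inl 0, .inr 0, .inl (-3), .inl 1, .inl 3], [.inl (-1), .inl (-2), .inl 2, .inl (-4)], [-4, -1], [3, 2, -2, -3, 1, 0], [], []⟩, [-1], [-2]⟩,
    ⟨⟨[.inl 0, .inr 0, .inl 2, .inl 3], [.inl (-1), .inl 1, .inl (-3), .inl (-2), .inl (-4)], [-4, -3, -1], [3, 2, -2, 1, 0], [1], [0]⟩, [-5], [1]⟩,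
    ⟨⟨[.inl 0, .inl 3], [.inl (-1), .inl 1, .inr 0, .inl 2, .inl (-2), .inl (-3), .inl (-4)], [-4, -3, -1], [3, 2, 1, -2, 0], [], []⟩, [-1], [5]⟩,
    ⟨⟨[.inl 0, .inl (-2), .inl (-3), .inl 1, .inl 2, .inl 3], [.inl (-1), .inr 0, .inl (-4)], [-4, -2, -3, 2, 1, -1], [3, 0], [], []⟩, [2], [-6]⟩,
    ⟨⟨[.inl 0, .inl 3], [.inl (-1), .inl (-3), .inl 2, .inr 0, .inl 1, .inl (-2), .inl (-4)], [-4, -1], [3, -2, 1, 2, -3, 0], [], []⟩, [6], [1]⟩,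
    ⟨⟨[.inl 0, .inr 0, .inl (-3), .inl 3], [.inl (-1), .inl 2, .inl (-2), .inl 1, .inl (-4)], [-4, -2, -3, 2, -1], [3, 1, 0], [], []⟩, [-1], [-2]⟩,
    ⟨⟨[.inl 0, .inl 3], [.inl (-1), .inl (-2), .inl (-3), .inl 1, .inr 0, .inl 2, .inl (-4)], [-4, 2, 1, -1], [3, -2, -3, 0], [], []⟩, [3], [2]⟩,
    ⟨⟨[.inl 0, .inl (-3), .inr 0, .inl 2, .inl (-2), .inl 1, .inl 3], [.inl (-1), .inl (-4)], [-4, -3, -2, 1, 2, -1], [3, 0], [], []⟩, [-5], [4]⟩,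
    ⟨⟨[.inl 0, .inr 0, .inl 2, .inl (-2), .inl (-3), .inl 1, .inl 3], [.inl (-1), .inl (-4)], [-4, -3, -2, 1, -1], [3, 2, 0], [], []⟩, [-2], [5]⟩],
   [⟨⟨[.inl 0, .inr 0, .inl 2, .inl (-2), .inl (-3), .inl 1, .inl 3], [.inl (-1), .inl (-4)], [-4, -3, -2, 1, -1], [3, 2, 0], [], []⟩, [-2], [5]⟩]⟩

theorem P_S_12_even_3_1_S_4_231_242_fam : P_S_12_even_3_1_S_4_231_242.loc 6 12 = true ∧ P_S_12_even_3_1_S_4_231_242.conn 12 = true :=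
  one_fam P_S_12_even_3_1_S_4_231_242 [2, 0, -1, 1] 6 12 (by decide) (by decide +kernel) (by decide +kernel)

theorem P_S_12_even_3_1_S_4_231_242_sh : P_S_12_even_3_1_S_4_231_242.all (shTwo (-1) 3 false) = true := by decide +kernel

def S_S_12_even_3_1_S_4_231_242_0 : SpD 1 := ⟨2, .inl (-2), [(1, .inl 2), (2, .inr 0), (-3, .inl (-1))], [(1, 1)]⟩

theorem S_S_12_even_3_1_S_4_231_242_0_fam : S_S_12_even_3_1_S_4_231_242_0.chk 3 12 (P_S_12_even_3_1_S_4_231_242.acc 12 S_S_12_even_3_1_S_4_231_242_0.i0) = true := by decide +kernel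

def S_S_12_even_3_1_S_4_231_242_1 : SpD 1 := ⟨2, .inl (-2), [(1, .inl 2), (2, .inr 0), (-3, .inl (-1))], [(0, 3), (1, 1)]⟩

theorem S_S_12_even_3_1_S_4_231_242_1_fam : S_S_12_even_3_1_S_4_231_242_1.chk 3 12 (P_S_12_even_3_1_S_4_231_242.acc 12 S_S_12_even_3_1_S_4_231_242_1.i0) = true := by decide +kernel

theorem W_S_12_even_3_1_S_4_231_242 (q r : ℕ) (h1 : q = 12) (h3 : (q + r) % 4 = 3) (h4 : 1 ≤ r) (h5 : r + 9 ≤ q) : Want q r := by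
  subst h1
  obtain ⟨hl, hc⟩ := P_S_12_even_3_1_S_4_231_242_fam
  have hev : decide (Even ((((12 - 2) / 2) - (r - 1) / 2) - 3)) = false := by
    simp only [Nat.even_iff, decide_eq_false_iff_not]
    omega
  have hI := inst_two P_S_12_even_3_1_S_4_231_242 6 12 (-1) 3 (((12 - 2) / 2) - (r - 1) / 2) ((12 - 2) / 2) r 4 (by decide) (by omega) (by decide) (by omega) (by omega) (by omega) (by omega) (by decide +kernel) (by decide) (by omega) (by decide +kernel) (by rw [hev]; exact P_S_12_even_3_1_S_4_231_242_sh) hl hc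
  exact class_d _ _ (by omega) (by omega) (by omega) hI.1 (hI.2 S_S_12_even_3_1_S_4_231_242_0 3 2 (by decide) (by show (2 : ℕ) < _; omega) S_S_12_even_3_1_S_4_231_242_0_fam (blk_2_3_1 _ (by omega) (by omega))) (hI.2 S_S_12_even_3_1_S_4_231_242_1 3 3 (by decide) (by show (2 : ℕ) < _; omega) S_S_12_even_3_1_S_4_231_242_1_fam (blk_3_3_3_1 _ (by omega) (by omega)))

def P_S_9_odd_4_1_C_0 : Pat 1 :=
  ⟨[⟨⟨[.inl 1, .inl 3, .inl 4], [.inl (-1), .inl 0, .inl 2, .inl (-3), .inl (-2), .inr 0, .inl (-4)], [4, -1], [-4, -3, 0, 3, 2, -2, 1], [], []⟩, [-4], [-2]⟩,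
    ⟨⟨[.inl 1, .inl 0, .inl (-2), .inr 0, .inl 3, .inl 2, .inl 4], [.inl (-1), .inl (-3), .inl (-4)], [4, 0, -3, -2, 2, 3, -1], [-4, 1], [], []⟩, [-2], [3]⟩,
    ⟨⟨[.inl 1, .inl 0, .inr 0, .inl (-2), .inl (-3), .inl 3, .inl 2, .inl 4], [.inl (-1), .inl (-4)], [4, 3, 2, -1], [-4, 0, -3, -2, 1], [], []⟩, [4], [-3]⟩,
    ⟨⟨[.inl 1, .inl 4], [.inl (-1), .inl (-3), .inl 0, .inl (-2), .inr 0, .inl 3, .inl 2, .inl (-4)], [4, 0, -1], [-4, -3, 2, 3, -2, 1], [], []⟩, [1], [2]⟩,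
    ⟨⟨[.inl 1, .inl 2, .inl 3, .inl 0, .inr 0, .inl (-3), .inl (-2), .inl 4], [.inl (-1), .inl (-4)], [4, 3, 0, -3, -2, 2, -1], [-4, 1], [], []⟩, [-3], [-1]⟩,
    ⟨⟨[.inl 1, .inr 0, .inl 2, .inl 4], [.inl (-1), .inl 0, .inl 3, .inl (-3), .inl (-2), .inl (-4)], [4, -1], [-4, -2, -3, 0, 3, 2, 1], [], []⟩, [-2], [4]⟩,
    ⟨⟨[.inl 1, .inl 0, .inl (-2), .inl 3, .inl 2, .inl 4], [.inl (-1), .inl (-3), .inr 0, .inl (-4)], [4, 0, -3, -2, -1], [-4, 2, 3, 1], [], []⟩, [1], [-4]⟩,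
    ⟨⟨[.inl 1, .inl 2, .inl (-3), .inl 0, .inl 3, .inl 4], [.inl (-1), .inl (-2), .inr 0, .inl (-4)], [4, -1], [-4, 0, 3, -3, 2, -2, 1], [], []⟩, [2], [-1]⟩,
    ⟨⟨[.inl 1, .inr 0, .inl 0, .inl (-3), .inl (-2), .inl 3, .inl 2, .inl 4], [.inl (-1), .inl (-4)], [4, 3, 0, -2, 2, -1], [-4, -3, 1], [], []⟩, [3], [2]⟩],
   [⟨⟨[.inl 1, .inr 0, .inl 0, .inl (-3), .inl (-2), .inl 3, .inl 2, .inl 4], [.inl (-1), .inl (-4)], [4, 3, 0, -2, 2, -1], [-4, -3, 1], [], []⟩, [3], [2]⟩]⟩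

theorem P_S_9_odd_4_1_C_0_fam : P_S_9_odd_4_1_C_0.loc 6 9 = true ∧ P_S_9_odd_4_1_C_0.conn 9 = true :=
  one_fam P_S_9_odd_4_1_C_0 [-2, 0, 1, -3] 6 9 (by decide) (by decide +kernel) (by decide +kernel)

theorem P_S_9_odd_4_1_C_0_sh : P_S_9_odd_4_1_C_0.all (shTwo (0) 4 true) = true := by decide +kernel

theorem W_S_9_odd_4_1_C_0 (q r : ℕ) (h1 : q = 9) (h3 : (q + r) % 4 = 2) (h4 : 1 ≤ r) (h5 : r + 8 ≤ q) : Want q r := by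
  subst h1
  obtain ⟨hl, hc⟩ := P_S_9_odd_4_1_C_0_fam
  have hev : decide (Even ((((9 - 1) / 2) - (r - 1) / 2) - 4)) = true := by
    simp only [Nat.even_iff, decide_eq_true_eq]
    omega
  have hI := inst_two P_S_9_odd_4_1_C_0 6 9 (0) 4 (((9 - 1) / 2) - (r - 1) / 2) ((9 - 1) / 2) r 0 (by decide) (by omega) (by decide) (by omega) (by omega) (by omega) (by omega) (by decide +kernel) (by decide) (by omega) (by decide +kernel) (by rw [hev]; exact P_S_9_odd_4_1_C_0_sh) hl hc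
  exact class_t _ _ (by omega) (tmod _ _ (by omega) (by omega)) hI.1 

end Pool.Agent.KS6_69.GT
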