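import Pool.Agent.KS6_69.GT.TabBlocks
import Pool.Agent.KS6_69.GT.Wrap2
import Pool.Agent.KS6_69.GT.Tab03

set_option autoImplicit false

namespace Pool.Agent.KS6_69.GT

def P_Fa_d6_odd_4_3_C_4_17_7_2_232 : Pat 3 :=
  ⟨[⟨⟨[.inl 1, .inl 2, .inl 3, .inr 2, .inl 4], [.inl (-1), .inr 0, .inl 0, .inr 1, .inl (-2), .inl (-3), .inl (-4)], [4, 3, -3, 0, -1], [-4, 2, -2, 1], [], []⟩, [-1, 3, -1], [1, -2, 1]⟩,
    ⟨⟨[.inl 1, .inl 2, .inl 3, .inr 2, .inl 4], [.inl (-1), .inr 0, .inl 0, .inr 1, .inl (-2), .inl (-3), .inl (-4)], [4, 3, -3, 0, -2, 2, -1], [-4, 1], [], []⟩, [-1, 3, -1], [2, -2, 1]⟩,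
    ⟨⟨[.inl 1, .inr 0, .inl 0, .inr 1, .inl 2, .inl 3, .inr 2, .inl 4], [.inl (-1), .inl (-2), .inl (-3), .inl (-4)], [4, 3, -1], [-4, 2, -3, 0, -2, 1], [], [0]⟩, [3, 3, -1], [2, 2, 1]⟩,
    ⟨⟨[.inl 1, .inl 2, .inl 3, .inr 2, .inl 4], [.inl (-1), .inl (-2), .inr 0, .inl 0, .inr 1, .inl (-3), .inl (-4)], [4, 3, -3, 0, -2, 2, -1], [-4, 1], [-4], []⟩, [-2, 3, -1], [2, -3, 1]⟩,
    ⟨⟨[.inl 1, .inl 2, .inl 3, .inr 2, .inl 4], [.inl (-1), .inl (-2), .inr 0, .inl 0, .inr 1, .inl (-3), .inl (-4)], [4, 3, -1], [-4, -3, 2, 0, -2, 1], [-4], []⟩, [-2, -2, -1], [2, -3, 1]⟩,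
    ⟨⟨[.inl 1, .inl 2, .inl 3, .inr 2, .inl 4], [.inl (-1), .inl (-2), .inr 0, .inl 0, .inr 1, .inl (-3), .inl (-4)], [4, 3, -2, 0, -3, 2, -1], [-4, 1], [0], []⟩, [-2, 2, -1], [-3, -3, 1]⟩,
    ⟨⟨[.inl 1, .inl 2, .inl 3, .inr 2, .inl 4], [.inl (-1), .inl (-2), .inr 0, .inl 0, .inr 1, .inl (-3), .inl (-4)], [4, 3, -2, 0, -1], [-4, 2, -3, 1], [], []⟩, [-2, 2, -1], [1, -3, 1]⟩],
   [⟨⟨[.inl 1, .inl 2, .inl 3, .inr 2, .inl 4], [.inl (-1), .inr 0, .inl 0, .inr 1, .inl (-2), .inl (-3), .inl (-4)], [4, 3, -3, 2, -2, 0, -1], [-4, 1], [], []⟩, [-1, 2, -1], [1, -2, 1]⟩,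
    ⟨⟨[.inl 1, .inl 2, .inl 3, .inr 2, .inl 4], [.inl (-1), .inr 0, .inl 0, .inr 1, .inl (-2), .inl (-3), .inl (-4)], [4, 3, -2, 0, -1], [-4, 2, -3, 1], [], []⟩, [-1, 2, -1], [1, -2, 1]⟩]⟩

theorem P_Fa_d6_odd_4_3_C_4_17_7_2_232_l0 : P_Fa_d6_odd_4_3_C_4_17_7_2_232.locC [0, 3] 6 (17 + 0 * 2) = true := by decide +kernel

theorem P_Fa_d6_odd_4_3_C_4_17_7_2_232_l1 : P_Fa_d6_odd_4_3_C_4_17_7_2_232.locC [0, 3] 6 (17 + 1 * 2) = true := by decide +kernel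

theorem P_Fa_d6_odd_4_3_C_4_17_7_2_232_l2 : P_Fa_d6_odd_4_3_C_4_17_7_2_232.locC [0, 3] 6 (17 + 2 * 2) = true := by decide +kernel

theorem P_Fa_d6_odd_4_3_C_4_17_7_2_232_fam : ∀ t : ℕ, P_Fa_d6_odd_4_3_C_4_17_7_2_232.loc 6 (17 + t * 2) = true ∧ P_Fa_d6_odd_4_3_C_4_17_7_2_232.conn (17 + t * 2) = true :=
  fam_ext2 P_Fa_d6_odd_4_3_C_4_17_7_2_232 [0, 3] 6 17 2 9 2 (by decide) (by decide) (by decide) (by decide) (by decide) (by decide +kernel) (by decide)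
    (by
      intro t ht
      interval_cases t
      · exact P_Fa_d6_odd_4_3_C_4_17_7_2_232_l0
      · exact P_Fa_d6_odd_4_3_C_4_17_7_2_232_l1
      · exact P_Fa_d6_odd_4_3_C_4_17_7_2_232_l2)
    (by decide +kernel)

theorem P_Fa_d6_odd_4_3_C_4_17_7_2_232_sh : P_Fa_d6_odd_4_3_C_4_17_7_2_232.all (shTwo (0) 4 true) = true := by decide +kernel

def S_Fa_d6_odd_4_3_C_4_17_7_2_232_0 : SpD 3 := ⟨2, .inr 0, [(3, .inl 3), (6, .inl 2), (5, .inl 1)], [(0, 4), (1, 3)]⟩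

theorem S_Fa_d6_odd_4_3_C_4_17_7_2_232_0_fam : ∀ t : ℕ, S_Fa_d6_odd_4_3_C_4_17_7_2_232_0.chk 6 (17 + t * 2) (P_Fa_d6_odd_4_3_C_4_17_7_2_232.acc (17 + t * 2) S_Fa_d6_odd_4_3_C_4_17_7_2_232_0.i0) = true :=
  sp_fam P_Fa_d6_odd_4_3_C_4_17_7_2_232 S_Fa_d6_odd_4_3_C_4_17_7_2_232_0 6 17 1 2 (by decide) (by decide) (by decide) (by decide) (by decide +kernel)

theorem W_Fa_d6_odd_4_3_C_4_17_7_2_232 (q r : ℕ) (h1 : 17 ≤ q) (h2 : q % 2 = 1) (h3 : (q + r) % 4 = 0) (h4 : 3 ≤ r) (h5 : r + 6 ≤ q) : Want q r := by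
  obtain ⟨t, rfl⟩ : ∃ t : ℕ, q = 17 + t * 2 := ⟨(q - 17) / 2, by omega⟩
  obtain ⟨hl, hc⟩ := P_Fa_d6_odd_4_3_C_4_17_7_2_232_fam t
  have hev : decide (Even (((((17 + t * 2) - 1) / 2) - (r - 3) / 2) - 4)) = true := by
    simp only [Nat.even_iff, decide_eq_true_eq]
    omega
  have hI := inst_two P_Fa_d6_odd_4_3_C_4_17_7_2_232 6 (17 + t * 2) (0) 4 ((((17 + t * 2) - 1) / 2) - (r - 3) / 2) (((17 + t * 2) - 1) / 2) r 4 (by decide) (by omega) (by decide) (by omega) (by omega) (by omega) (by omega) (by decide +kernel) (by decide) (by omega) (by decide +kernel) (by rw [hev]; exact P_Fa_d6_odd_4_3_C_4_17_7_2_232_sh) hl hc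
  exact class_a _ _ (by omega) (by omega) (by omega) hI.1 (hI.2 S_Fa_d6_odd_4_3_C_4_17_7_2_232_0 6 2 (by decide) (by show (2 : ℕ) < _; omega) (S_Fa_d6_odd_4_3_C_4_17_7_2_232_0_fam t) (blk_2_0_4_3 _ (by omega) (by omega)))

def P_S_16_run_5_4_S_4_231_242 : Pat 4 :=
  ⟨[⟨⟨[.inl 0, .inr 1, .inl 2, .inr 2, .inl 4, .inl 1, .inr 0, .inl 3, .inr 3, .inl 5], [], [5, 1, 3, 2, 4, 0], [], [], []⟩, [-1, -4, 1, 1], [3, 2, 3, 2]⟩,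
    ⟨⟨[.inl 0, .inl 3, .inr 3, .inl 2, .inr 1, .inl 4, .inr 2, .inl 1, .inr 0, .inl 5], [], [5, 4, 3, 2, 1, 0], [], [], []⟩, [-3, 1, 1, -2], [1, 3, -1, -1]⟩,
    ⟨⟨[.inl 0, .inr 1, .inl 1, .inr 2, .inl 3, .inr 3, .inl 4, .inr 0, .inl 2, .inl 5], [], [5, 3, 4, 1, 2, 0], [], [], []⟩, [-1, -2, -3, -2], [2, -1, -1, 1]⟩,
    ⟨⟨[.inl 0, .inr 0, .inl 2, .inl 3, .inr 3, .inl 4, .inr 1, .inl 1, .inr 2, .inl 5], [], [5, 4, 1, 2, 3, 0], [], [], []⟩, [-3, 2, -3, -1], [2, 3, 1, 1]⟩,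
    ⟨⟨[.inl 0, .inr 0, .inl 3, .inr 3, .inl 4, .inr 2, .inl 2, .inl 1, .inr 1, .inl 5], [], [5, 3, 4, 1, 2, 0], [], [1], []⟩, [-2, -3, -1, -1], [2, 1, 1, 1]⟩,
    ⟨⟨[.inl 0, .inr 0, .inl 3, .inr 3, .inl 4, .inr 1, .inl 2, .inl 1, .inr 2, .inl 5], [], [5, 3, 4, 1, 2, 0], [], [], []⟩, [-2, -1, -1, -1], [2, -2, 1, 1]⟩,
    ⟨⟨[.inl 0, .inr 1, .inl 2, .inl 3, .inr 3, .inl 4, .inr 2, .inl 1, .inr 0, .inl 5], [], [5, 4, 3, 2, 1, 0], [], [1], [1]⟩, [-2, -3, -1, -1], [4, 2, 1, 1]⟩,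
    ⟨⟨[.inl 0, .inr 2, .inl 2, .inl 1, .inr 0, .inl 3, .inr 3, .inl 4, .inr 1, .inl 5], [], [5, 2, 4, 3, 1, 0], [], [5], []⟩, [-2, 1, -1, -1], [1, 2, 1, 4]⟩,
    ⟨⟨[.inl 0, .inr 1, .inl 3, .inl 2, .inr 0, .inl 1, .inr 2, .inl 4, .inr 3, .inl 5], [], [5, 4, 3, 1, 2, 0], [], [], []⟩, [-1, -2, -1, 3], [1, -1, 2, 1]⟩,
    ⟨⟨[.inl 0, .inr 0, .inl 3, .inr 1, .inl 1, .inl 2, .inr 2, .inl 4, .inr 3, .inl 5], [], [5, 4, 3, 2, 1, 0], [], [], []⟩, [-1, -2, 1, -1], [2, 1, 3, 1]⟩,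
    ⟨⟨[.inl 0, .inr 1, .inl 3, .inl 2, .inr 2, .inl 1, .inr 0, .inl 4, .inr 3, .inl 5], [], [5, 4, 3, 2, 1, 0], [], [], []⟩, [-4, -1, -2, -1], [2, 1, -1, 4]⟩,
    ⟨⟨[.inl 0, .inr 3, .inl 1, .inr 0, .inl 2, .inr 1, .inl 3, .inl 4, .inr 2, .inl 5], [], [5, 1, 2, 3, 4, 0], [], [], []⟩, [-2, -1, 3, -4], [2, 3, 4, -3]⟩,
    ⟨⟨[.inl 0, .inl 1, .inr 2, .inl 2, .inr 0, .inl 3, .inr 1, .inl 4, .inr 3, .inl 5], [], [5, 3, 1, 4, 2, 0], [], [], []⟩, [-2, 1, -3, 2], [3, 4, 1, 1]⟩,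
    ⟨⟨[.inl 0, .inr 0, .inl 3, .inr 1, .inl 2, .inl 1, .inr 2, .inl 4, .inr 3, .inl 5], [], [5, 4, 1, 3, 2, 0], [], [], []⟩, [-2, 2, -1, -1], [1, -1, 1, 2]⟩,
    ⟨⟨[.inl 0, .inr 1, .inl 3, .inr 2, .inl 1, .inr 3, .inl 2, .inr 0, .inl 4, .inl 5], [], [5, 4, 2, 1, 3, 0], [], [], []⟩, [-1, -3, -1, -4], [3, 1, -3, -2]⟩,
    ⟨⟨[.inl 0, .inr 0, .inl 2, .inr 1, .inl 1, .inr 2, .inl 4, .inl 3, .inr 3, .inl 5], [], [5, 1, 4, 2, 3, 0], [], [], []⟩, [-3, -1, -4, -2], [1, -2, 3, 2]⟩],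
   [⟨⟨[.inl 0, .inr 0, .inl 2, .inr 1, .inl 1, .inr 2, .inl 4, .inl 3, .inr 3, .inl 5], [], [5, 1, 4, 2, 3, 0], [], [], []⟩, [-3, -1, -4, -2], [1, -2, 3, 2]⟩]⟩

theorem P_S_16_run_5_4_S_4_231_242_fam : P_S_16_run_5_4_S_4_231_242.loc 5 16 = true ∧ P_S_16_run_5_4_S_4_231_242.conn 16 = true :=
  one_fam P_S_16_run_5_4_S_4_231_242 [4, 2, 1, 3, 0] 5 16 (by decide) (by decide +kernel) (by decide +kernel)

theorem P_S_16_run_5_4_S_4_231_242_sh : P_S_16_run_5_4_S_4_231_242.all (shOne 5) = true := by decide +kernel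

def S_S_16_run_5_4_S_4_231_242_0 : SpD 4 := ⟨5, .inl 1, [(1, .inr 1), (-2, .inl (-1)), (-3, .inl 2)], [(0, -2)]⟩

theorem S_S_16_run_5_4_S_4_231_242_0_fam : S_S_16_run_5_4_S_4_231_242_0.chk 3 16 (P_S_16_run_5_4_S_4_231_242.acc 16 S_S_16_run_5_4_S_4_231_242_0.i0) = true := by decide +kernel

def S_S_16_run_5_4_S_4_231_242_1 : SpD 4 := ⟨2, .inl 5, [(3, .inl 4), (4, .inr 1), (1, .inl 2)], [(0, -3), (1, -8)]⟩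

theorem S_S_16_run_5_4_S_4_231_242_1_fam : S_S_16_run_5_4_S_4_231_242_1.chk 5 16 (P_S_16_run_5_4_S_4_231_242.acc 16 S_S_16_run_5_4_S_4_231_242_1.i0) = true := by decide +kernel

theorem W_S_16_run_5_4_S_4_231_242 (q r : ℕ) (h1 : q = 16) (h5 : r + 1 = q) : Want q r := by
  subst h1
  obtain ⟨hl, hc⟩ := P_S_16_run_5_4_S_4_231_242_fam
  have hI := inst_one P_S_16_run_5_4_S_4_231_242 5 16 5 r 4 (by omega) (by omega) (by omega) (by decide +kernel) (by decide) (by omega) (by decide +kernel) P_S_16_run_5_4_S_4_231_242_sh hl hc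
  exact class_d _ _ (by omega) (by omega) (by omega) hI.1 (hI.2 S_S_16_run_5_4_S_4_231_242_0 3 2 (by decide) (by show (5 : ℕ) < _; omega) S_S_16_run_5_4_S_4_231_242_0_fam (blk_2_3_m2 _ (by omega) (by omega))) (hI.2 S_S_16_run_5_4_S_4_231_242_1 5 3 (by decide) (by show (2 : ℕ) < _; omega) S_S_16_run_5_4_S_4_231_242_1_fam (blk_3_3_m3_m8 _ (by omega) (by omega)))

def P_S_15_run_7_2_S_3_251 : Pat 2 :=
  ⟨[⟨⟨[.inl 0, .inr 0, .inl 4, .inl 1, .inl 5, .inl 3, .inl 2, .inr 1, .inl 6, .inl 7], [], [7, 1, 2, 3, 4, 6, 5, 0], [], [], []⟩, [-5, -4], [2, 5]⟩,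
    ⟨⟨[.inl 0, .inl 3, .inl 5, .inl 2, .inr 1, .inl 6, .inl 4, .inl 1, .inr 0, .inl 7], [], [7, 6, 5, 4, 3, 2, 1, 0], [], [], []⟩, [-4, -4], [6, 6]⟩,
    ⟨⟨[.inl 0, .inl 1, .inl 5, .inl 4, .inl 2, .inr 0, .inl 3, .inr 1, .inl 6, .inl 7], [], [7, 5, 1, 3, 4, 6, 2, 0], [], [], []⟩, [-2, -4], [2, 4]⟩,
    ⟨⟨[.inl 0, .inl 2, .inl 4, .inr 0, .inl 6, .inl 5, .inl 3, .inl 1, .inr 1, .inl 7], [], [7, 5, 6, 2, 4, 1, 3, 0], [], [4], [0]⟩, [-4, -4], [5, 1]⟩,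
    ⟨⟨[.inl 0, .inl 2, .inl 4, .inl 6, .inr 1, .inl 5, .inl 3, .inl 1, .inr 0, .inl 7], [], [7, 6, 5, 1, 3, 4, 2, 0], [], [], []⟩, [-2, -1], [1, 5]⟩,
    ⟨⟨[.inl 0, .inl 2, .inl 5, .inl 4, .inl 3, .inl 6, .inr 0, .inl 1, .inr 1, .inl 7], [], [7, 3, 1, 2, 5, 6, 4, 0], [], [], []⟩, [-1, -5], [1, 3]⟩,
    ⟨⟨[.inl 0, .inr 0, .inl 4, .inl 1, .inl 3, .inl 6, .inl 5, .inl 2, .inr 1, .inl 7], [], [7, 5, 3, 2, 4, 6, 1, 0], [], [], []⟩, [-1, -4], [3, 6]⟩,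
    ⟨⟨[.inl 0, .inr 1, .inl 4, .inl 6, .inl 5, .inl 2, .inl 3, .inl 1, .inr 0, .inl 7], [], [7, 5, 4, 3, 1, 2, 6, 0], [], [5], []⟩, [-6, -6], [3, 3]⟩,
    ⟨⟨[.inl 0, .inl 1, .inr 0, .inl 6, .inl 2, .inl 5, .inl 3, .inl 4, .inr 1, .inl 7], [], [7, 1, 4, 5, 6, 2, 3, 0], [], [], []⟩, [-5, -3], [4, 6]⟩,
    ⟨⟨[.inl 0, .inr 1, .inl 5, .inl 2, .inl 6, .inl 4, .inl 1, .inr 0, .inl 3, .inl 7], [], [7, 6, 1, 4, 2, 3, 5, 0], [], [], []⟩, [-3, -5], [2, 4]⟩,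
    ⟨⟨[.inl 0, .inl 4, .inr 0, .inl 5, .inl 1, .inr 1, .inl 6, .inl 2, .inl 3, .inl 7], [], [7, 6, 3, 5, 4, 1, 2, 0], [], [], []⟩, [-3, -3], [5, 1]⟩,
    ⟨⟨[.inl 0, .inl 3, .inl 1, .inr 0, .inl 2, .inl 4, .inl 5, .inr 1, .inl 6, .inl 7], [], [7, 6, 5, 3, 4, 1, 2, 0], [], [], []⟩, [-2, -1], [2, 4]⟩,
    ⟨⟨[.inl 0, .inl 2, .inr 0, .inl 5, .inl 1, .inr 1, .inl 6, .inl 4, .inl 3, .inl 7], [], [7, 4, 6, 5, 2, 3, 1, 0], [], [], []⟩, [-4, -6], [4, 4]⟩,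
    ⟨⟨[.inl 0, .inr 0, .inl 3, .inl 5, .inl 4, .inl 6, .inl 2, .inl 1, .inr 1, .inl 7], [], [7, 1, 3, 6, 5, 4, 2, 0], [], [], []⟩, [-2, -4], [1, 4]⟩,
    ⟨⟨[.inl 0, .inl 1, .inr 1, .inl 5, .inl 3, .inl 6, .inl 2, .inr 0, .inl 4, .inl 7], [], [7, 4, 6, 2, 3, 5, 1, 0], [], [], []⟩, [-1, -6], [4, 4]⟩],
   [⟨⟨[.inl 0, .inl 1, .inr 1, .inl 5, .inl 3, .inl 6, .inl 2, .inr 0, .inl 4, .inl 7], [], [7, 4, 6, 2, 3, 5, 1, 0], [], [], []⟩, [-1, -6], [4, 4]⟩]⟩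

theorem P_S_15_run_7_2_S_3_251_fam : P_S_15_run_7_2_S_3_251.loc 7 15 = true ∧ P_S_15_run_7_2_S_3_251.conn 15 = true :=
  one_fam P_S_15_run_7_2_S_3_251 [1, 6, 4, 0, 3] 7 15 (by decide) (by decide +kernel) (by decide +kernel)

theorem P_S_15_run_7_2_S_3_251_sh : P_S_15_run_7_2_S_3_251.all (shOne 7) = true := by decide +kernel

def S_S_15_run_7_2_S_3_251_0 : SpD 2 := ⟨2, .inl 5, [(1, .inr 0), (-3, .inl 1)], [(0, 3)]⟩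

theorem S_S_15_run_7_2_S_3_251_0_fam : S_S_15_run_7_2_S_3_251_0.chk 5 15 (P_S_15_run_7_2_S_3_251.acc 15 S_S_15_run_7_2_S_3_251_0.i0) = true := by decide +kernel

theorem W_S_15_run_7_2_S_3_251 (q r : ℕ) (h1 : q = 15) (h5 : r + 5 = q) : Want q r := by
  subst h1
  obtain ⟨hl, hc⟩ := P_S_15_run_7_2_S_3_251_fam
  have hI := inst_one P_S_15_run_7_2_S_3_251 7 15 7 r 3 (by omega) (by omega) (by omega) (by decide +kernel) (by decide) (by omega) (by decide +kernel) P_S_15_run_7_2_S_3_251_sh hl hc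
  exact class_g _ _ (by omega) (by omega) (by omega) hI.1 (hI.2 S_S_15_run_7_2_S_3_251_0 5 4 (by decide) (by show (2 : ℕ) < _; omega) S_S_15_run_7_2_S_3_251_0_fam (blk_4_1_3 _ (by omega) (by omega)))

def P_S_16_even_3_1_C_4_242 : Pat 1 :=
  ⟨[⟨⟨[.inl 0, .inr 0, .inl 2, .inl 3], [.inl (-1), .inl 1, .inl (-2), .inl (-3), .inl (-4)], [3, 2, 1, -3, -1], [-4, -2, 0], [], []⟩, [2], [4]⟩,
    ⟨⟨[.inl 0, .inl (-3), .inr 0, .inl (-2), .inl 3], [.inl (-1), .inl 2, .inl 1, .inl (-4)], [3, 1, -1], [-4, -3, -2, 2, 0], [], []⟩, [-5], [-2]⟩,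
    ⟨⟨[.inl 0, .inl 2, .inl 1, .inr 0, .inl (-2), .inl 3], [.inl (-1), .inl (-3), .inl (-4)], [3, 1, -3, -1], [-4, 2, -2, 0], [], []⟩, [4], [-2]⟩,
    ⟨⟨[.inl 0, .inl (-3), .inl (-2), .inr 0, .inl 3], [.inl (-1), .inl 2, .inl 1, .inl (-4)], [3, -3, 1, -1], [-4, -2, 2, 0], [1], []⟩, [1], [4]⟩,
    ⟨⟨[.inl 0, .inl (-2), .inr 0, .inl (-3), .inl 2, .inl 3], [.inl (-1), .inl 1, .inl (-4)], [3, 1, -3, -2, -1], [-4, 2, 0], [-4], []⟩, [-4], [-1]⟩,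
    ⟨⟨[.inl 0, .inl (-3), .inl (-2), .inr 0, .inl 2, .inl 3], [.inl (-1), .inl 1, .inl (-4)], [3, 1, -1], [-4, -3, -2, 2, 0], [1], []⟩, [2], [4]⟩,
    ⟨⟨[.inl 0, .inl (-2), .inl 2, .inl 1, .inl 3], [.inl (-1), .inr 0, .inl (-3), .inl (-4)], [3, -1], [-4, -3, -2, 2, 1, 0], [], [0]⟩, [2], [-4]⟩,
    ⟨⟨[.inl 0, .inl 1, .inl (-3), .inl (-2), .inl 2, .inl 3], [.inl (-1), .inr 0, .inl (-4)], [3, -1], [-4, -3, 1, 2, -2, 0], [], []⟩, [-4], [-2]⟩,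
    ⟨⟨[.inl 0, .inl 3], [.inl (-1), .inl (-2), .inl 1, .inl (-3), .inl 2, .inr 0, .inl (-4)], [3, 2, 1, -1], [-4, -3, -2, 0], [], []⟩, [6], [-2]⟩,
    ⟨⟨[.inl 0, .inl (-3), .inl 3], [.inl (-1), .inl (-2), .inr 0, .inl 2, .inl 1, .inl (-4)], [3, -1], [-4, -2, -3, 2, 1, 0], [], []⟩, [-4], [4]⟩,
    ⟨⟨[.inl 0, .inl 1, .inl (-2), .inr 0, .inl 3], [.inl (-1), .inl (-3), .inl 2, .inl (-4)], [3, -2, -3, -1], [-4, 2, 1, 0], [], []⟩, [1], [2]⟩,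
    ⟨⟨[.inl 0, .inl 2, .inl (-2), .inr 0, .inl (-3), .inl 3], [.inl (-1), .inl 1, .inl (-4)], [3, 1, 2, -2, -1], [-4, -3, 0], [], []⟩, [2], [-1]⟩,
    ⟨⟨[.inl 0, .inl 3], [.inl (-1), .inl (-2), .inl (-3), .inl 1, .inr 0, .inl 2, .inl (-4)], [3, 2, 1, -1], [-4, -3, -2, 0], [], []⟩, [-2], [5]⟩,
    ⟨⟨[.inl 0, .inl 1, .inl 2, .inl 3], [.inl (-1), .inl (-3), .inl (-2), .inr 0, .inl (-4)], [3, 1, 2, -1], [-4, -2, -3, 0], [], []⟩, [-4], [-2]⟩,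
    ⟨⟨[.inl 0, .inl 3], [.inl (-1), .inl (-3), .inl 2, .inl 1, .inl (-2), .inr 0, .inl (-4)], [3, 2, -3, -1], [-4, 1, -2, 0], [], []⟩, [1], [-6]⟩,
    ⟨⟨[.inl 0, .inr 0, .inl (-3), .inl (-2), .inl 3], [.inl (-1), .inl 2, .inl 1, .inl (-4)], [3, 1, 2, -3, -1], [-4, -2, 0], [], []⟩, [2], [-1]⟩],
   [⟨⟨[.inl 0, .inr 0, .inl (-3), .inl (-2), .inl 3], [.inl (-1), .inl 2, .inl 1, .inl (-4)], [3, 1, 2, -3, -1], [-4, -2, 0], [], []⟩, [2], [-1]⟩]⟩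

theorem P_S_16_even_3_1_C_4_242_fam : P_S_16_even_3_1_C_4_242.loc 6 16 = true ∧ P_S_16_even_3_1_C_4_242.conn 16 = true :=
  one_fam P_S_16_even_3_1_C_4_242 [-2, -1, 2, 1, -4] 6 16 (by decide) (by decide +kernel) (by decide +kernel)

theorem P_S_16_even_3_1_C_4_242_sh : P_S_16_even_3_1_C_4_242.all (shTwo (-1) 3 true) = true := by decide +kernel

def S_S_16_even_3_1_C_4_242_0 : SpD 1 := ⟨2, .inl 1, [(2, .inl 3), (4, .inr 0), (6, .inl 2)], [(0, 3), (1, 1)]⟩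

theorem S_S_16_even_3_1_C_4_242_0_fam : S_S_16_even_3_1_C_4_242_0.chk 6 16 (P_S_16_even_3_1_C_4_242.acc 16 S_S_16_even_3_1_C_4_242_0.i0) = true := by decide +kernel

theorem W_S_16_even_3_1_C_4_242 (q r : ℕ) (h1 : q = 16) (h3 : (q + r) % 4 = 1) (h4 : 1 ≤ r) (h5 : r + 7 ≤ q) : Want q r := by
  subst h1
  obtain ⟨hl, hc⟩ := P_S_16_even_3_1_C_4_242_fam
  have hev : decide (Even ((((16 - 2) / 2) - (r - 1) / 2) - 3)) = true := by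
    simp only [Nat.even_iff, decide_eq_true_eq]
    omega
  have hI := inst_two P_S_16_even_3_1_C_4_242 6 16 (-1) 3 (((16 - 2) / 2) - (r - 1) / 2) ((16 - 2) / 2) r 4 (by decide) (by omega) (by decide) (by omega) (by omega) (by omega) (by omega) (by decide +kernel) (by decide) (by omega) (by decide +kernel) (by rw [hev]; exact P_S_16_even_3_1_C_4_242_sh) hl hc
  exact class_e _ _ (by omega) (by omega) (by omega) hI.1 (hI.2 S_S_16_even_3_1_C_4_242_0 6 3 (by decide) (by show (2 : ℕ) < _; omega) S_S_16_even_3_1_C_4_242_0_fam (blk_3_1_3_1 _ (by omega) (by omega)))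

def P_S_17_odd_4_0_C_5_233 : Pat 0 :=
  ⟨[⟨⟨[.inl 1, .inl (-2), .inl 0, .inl 2, .inl 3, .inl 4], [.inl (-1), .inl (-3), .inl (-4)], [4, -1], [-4, 0, 2, -3, -2, 3, 1], [], []⟩, [], []⟩,
    ⟨⟨[.inl 1, .inl (-2), .inl 2, .inl 0, .inl 3, .inl 4], [.inl (-1), .inl (-3), .inl (-4)], [4, -1], [-4, -3, 0, -2, 3, 2, 1], [], []⟩, [], []⟩,
    ⟨⟨[.inl 1, .inl (-3), .inl (-2), .inl 2, .inl 3, .inl 0, .inl 4], [.inl (-1), .inl (-4)], [4, -1], [-4, 2, -2, 0, -3, 3, 1], [-4], []⟩, [], []⟩,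
    ⟨⟨[.inl 1, .inl (-3), .inl (-2), .inl 0, .inl 2, .inl 3, .inl 4], [.inl (-1), .inl (-4)], [4, -2, -1], [-4, 3, -3, 0, 2, 1], [3], []⟩, [], []⟩,
    ⟨⟨[.inl 1, .inl 4], [.inl (-1), .inl 0, .inl (-3), .inl 3, .inl 2, .inl (-2), .inl (-4)], [4, -3, 3, 0, -1], [-4, -2, 2, 1], [-2], []⟩, [], []⟩,
    ⟨⟨[.inl 1, .inl 4], [.inl (-1), .inl (-2), .inl (-3), .inl 0, .inl 3, .inl 2, .inl (-4)], [4, -2, -3, 0, 3, 2, -1], [-4, 1], [3], []⟩, [], []⟩,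
    ⟨⟨[.inl 1, .inl 3, .inl 2, .inl 4], [.inl (-1), .inl (-3), .inl (-2), .inl 0, .inl (-4)], [4, 2, 3, 0, -2, -3, -1], [-4, 1], [3], []⟩, [], []⟩,
    ⟨⟨[.inl 1, .inl 2, .inl 0, .inl 4], [.inl (-1), .inl 3, .inl (-2), .inl (-3), .inl (-4)], [4, 3, 2, -3, -2, -1], [-4, 0, 1], [], []⟩, [], []⟩,
    ⟨⟨[.inl 1, .inl 0, .inl (-3), .inl 2, .inl 3, .inl 4], [.inl (-1), .inl (-2), .inl (-4)], [4, -1], [-4, 2, -3, -2, 3, 0, 1], [], []⟩, [], []⟩,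
    ⟨⟨[.inl 1, .inl (-3), .inl (-2), .inl 3, .inl 0, .inl 2, .inl 4], [.inl (-1), .inl (-4)], [4, -1], [-4, 0, -3, -2, 3, 2, 1], [], []⟩, [], []⟩,
    ⟨⟨[.inl 1, .inl 0, .inl 2, .inl (-3), .inl (-2), .inl 3, .inl 4], [.inl (-1), .inl (-4)], [4, -2, -1], [-4, -3, 0, 2, 3, 1], [], []⟩, [], []⟩,
    ⟨⟨[.inl 1, .inl 3, .inl 2, .inl (-3), .inl (-2), .inl 4], [.inl (-1), .inl 0, .inl (-4)], [4, 0, -1], [-4, 2, -2, -3, 3, 1], [], []⟩, [], []⟩,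
    ⟨⟨[.inl 1, .inl 2, .inl 3, .inl (-3), .inl 0, .inl 4], [.inl (-1), .inl (-2), .inl (-4)], [4, -2, 0, 3, 2, -1], [-4, -3, 1], [], []⟩, [], []⟩,
    ⟨⟨[.inl 1, .inl 3, .inl 0, .inl 2, .inl 4], [.inl (-1), .inl (-3), .inl (-2), .inl (-4)], [4, -2, 0, -3, 3, 2, -1], [-4, 1], [], []⟩, [], []⟩,
    ⟨⟨[.inl 1, .inl 4], [.inl (-1), .inl 0, .inl 3, .inl 2, .inl (-2), .inl (-3), .inl (-4)], [4, -2, 0, 3, -1], [-4, 2, -3, 1], [], []⟩, [], []⟩,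
    ⟨⟨[.inl 1, .inl 4], [.inl (-1), .inl (-3), .inl 3, .inl 2, .inl 0, .inl (-2), .inl (-4)], [4, 3, -3, 2, 0, -2, -1], [-4, 1], [], []⟩, [], []⟩,
    ⟨⟨[.inl 1, .inl (-2), .inl (-3), .inl 0, .inl 3, .inl 4], [.inl (-1), .inl 2, .inl (-4)], [4, 2, -3, -2, 0, 3, -1], [-4, 1], [], []⟩, [], []⟩],
   [⟨⟨[.inl 1, .inl (-2), .inl (-3), .inl 0, .inl 3, .inl 4], [.inl (-1), .inl 2, .inl (-4)], [4, 2, -3, -2, 0, 3, -1], [-4, 1], [], []⟩, [], []⟩]⟩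

theorem P_S_17_odd_4_0_C_5_233_fam : P_S_17_odd_4_0_C_5_233.loc 7 17 = true ∧ P_S_17_odd_4_0_C_5_233.conn 17 = true :=
  one_fam P_S_17_odd_4_0_C_5_233 [] 7 17 (by decide) (by decide +kernel) (by decide +kernel)

theorem P_S_17_odd_4_0_C_5_233_sh : P_S_17_odd_4_0_C_5_233.all (shTwo (0) 4 true) = true := by decide +kernel

def S_S_17_odd_4_0_C_5_233_0 : SpD 0 := ⟨2, .inl 3, [(1, .inl 4), (4, .inl 0), (-2, .inl 1), (4, .inl 2)], [(0, 2), (1, 1), (2, -4)]⟩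

theorem S_S_17_odd_4_0_C_5_233_0_fam : S_S_17_odd_4_0_C_5_233_0.chk 4 17 (P_S_17_odd_4_0_C_5_233.acc 17 S_S_17_odd_4_0_C_5_233_0.i0) = true := by decide +kernel

theorem W_S_17_odd_4_0_C_5_233 (q r : ℕ) (h1 : q = 17) (h3 : (q + r) % 4 = 1) (h4 : 0 ≤ r) (h5 : r + 9 ≤ q) : Want q r := by
  subst h1
  obtain ⟨hl, hc⟩ := P_S_17_odd_4_0_C_5_233_fam
  have hev : decide (Even ((((17 - 1) / 2) - (r - 0) / 2) - 4)) = true := by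
    simp only [Nat.even_iff, decide_eq_true_eq]
    omega
  have hI := inst_two P_S_17_odd_4_0_C_5_233 7 17 (0) 4 (((17 - 1) / 2) - (r - 0) / 2) ((17 - 1) / 2) r 5 (by decide) (by omega) (by decide) (by omega) (by omega) (by omega) (by omega) (by decide +kernel) (by decide) (by omega) (by decide +kernel) (by rw [hev]; exact P_S_17_odd_4_0_C_5_233_sh) hl hc
  exact class_c _ _ (by omega) (by omega) (by omega) hI.1 (hI.2 S_S_17_odd_4_0_C_5_233_0 4 2 (by decide) (by show (2 : ℕ) < _; omega) S_S_17_odd_4_0_C_5_233_0_fam (blk_2_1_2_1_m4 _ (by omega) (by omega)))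

def P_S_13_odd_4_0_C_5_233 : Pat 0 :=
  ⟨[⟨⟨[.inl 1, .inl 3, .inl 2, .inl 4], [.inl (-1), .inl (-3), .inl (-2), .inl 0, .inl (-4)], [4, -1], [-4, -3, 2, 0, -2, 3, 1], [-2], []⟩, [], []⟩,
    ⟨⟨[.inl 1, .inl (-2), .inl 3, .inl 0, .inl 2, .inl 4], [.inl (-1), .inl (-3), .inl (-4)], [4, 2, 3, -2, -1], [-4, 0, -3, 1], [2], []⟩, [], []⟩,
    ⟨⟨[.inl 1, .inl 4], [.inl (-1), .inl 3, .inl 2, .inl (-3), .inl 0, .inl (-2), .inl (-4)], [4, 0, -1], [-4, -3, -2, 2, 3, 1], [4], []⟩, [], []⟩,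
    ⟨⟨[.inl 1, .inl 3, .inl 0, .inl 2, .inl (-2), .inl (-3), .inl 4], [.inl (-1), .inl (-4)], [4, 3, -1], [-4, -3, 2, -2, 0, 1], [], []⟩, [], []⟩,
    ⟨⟨[.inl 1, .inl 4], [.inl (-1), .inl (-3), .inl 0, .inl (-2), .inl 2, .inl 3, .inl (-4)], [4, 0, 3, 2, -3, -2, -1], [-4, 1], [], []⟩, [], []⟩,
    ⟨⟨[.inl 1, .inl (-3), .inl 4], [.inl (-1), .inl 2, .inl 3, .inl 0, .inl (-2), .inl (-4)], [4, -1], [-4, -3, -2, 3, 2, 0, 1], [], []⟩, [], []⟩,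
    ⟨⟨[.inl 1, .inl (-2), .inl 2, .inl 4], [.inl (-1), .inl (-3), .inl 0, .inl 3, .inl (-4)], [4, 3, -2, -3, 0, -1], [-4, 2, 1], [], []⟩, [], []⟩,
    ⟨⟨[.inl 1, .inl (-3), .inl (-2), .inl 0, .inl 3, .inl 2, .inl 4], [.inl (-1), .inl (-4)], [4, 3, -3, -2, 0, -1], [-4, 2, 1], [], []⟩, [], []⟩,
    ⟨⟨[.inl 1, .inl 2, .inl 4], [.inl (-1), .inl (-3), .inl 0, .inl 3, .inl (-2), .inl (-4)], [4, 3, -3, -2, 0, -1], [-4, 2, 1], [], []⟩, [], []⟩,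
    ⟨⟨[.inl 1, .inl (-2), .inl 3, .inl 0, .inl (-3), .inl 2, .inl 4], [.inl (-1), .inl (-4)], [4, 3, 0, -3, -1], [-4, -2, 2, 1], [], []⟩, [], []⟩,
    ⟨⟨[.inl 1, .inl (-2), .inl 0, .inl 4], [.inl (-1), .inl 3, .inl 2, .inl (-3), .inl (-4)], [4, -2, 0, -1], [-4, -3, 2, 3, 1], [], []⟩, [], []⟩,
    ⟨⟨[.inl 1, .inl 0, .inl (-2), .inl 2, .inl 3, .inl 4], [.inl (-1), .inl (-3), .inl (-4)], [4, 0, -1], [-4, -2, -3, 2, 3, 1], [0], []⟩, [], []⟩,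
    ⟨⟨[.inl 1, .inl (-3), .inl 0, .inl 3, .inl 4], [.inl (-1), .inl 2, .inl (-2), .inl (-4)], [4, -1], [-4, -3, -2, 0, 3, 2, 1], [2], []⟩, [], []⟩],
   [⟨⟨[.inl 1, .inl (-3), .inl 0, .inl 3, .inl 4], [.inl (-1), .inl 2, .inl (-2), .inl (-4)], [4, -1], [-4, -3, -2, 0, 3, 2, 1], [], []⟩, [], []⟩]⟩

theorem P_S_13_odd_4_0_C_5_233_fam : P_S_13_odd_4_0_C_5_233.loc 6 13 = true ∧ P_S_13_odd_4_0_C_5_233.conn 13 = true :=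
  one_fam P_S_13_odd_4_0_C_5_233 [] 6 13 (by decide) (by decide +kernel) (by decide +kernel)

theorem P_S_13_odd_4_0_C_5_233_sh : P_S_13_odd_4_0_C_5_233.all (shTwo (0) 4 true) = true := by decide +kernel

def S_S_13_odd_4_0_C_5_233_0 : SpD 0 := ⟨2, .inl (-2), [(-5, .inl (-3)), (-4, .inl (-4)), (-3, .inl (-1)), (-4, .inl 0)], [(0, -2), (1, 1), (2, -5)]⟩

theorem S_S_13_odd_4_0_C_5_233_0_fam : S_S_13_odd_4_0_C_5_233_0.chk 5 13 (P_S_13_odd_4_0_C_5_233.acc 13 S_S_13_odd_4_0_C_5_233_0.i0) = true := by decide +kernel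

theorem W_S_13_odd_4_0_C_5_233 (q r : ℕ) (h1 : q = 13) (h3 : (q + r) % 4 = 1) (h4 : 0 ≤ r) (h5 : r + 9 ≤ q) : Want q r := by
  subst h1
  obtain ⟨hl, hc⟩ := P_S_13_odd_4_0_C_5_233_fam
  have hev : decide (Even ((((13 - 1) / 2) - (r - 0) / 2) - 4)) = true := by
    simp only [Nat.even_iff, decide_eq_true_eq]
    omega
  have hI := inst_two P_S_13_odd_4_0_C_5_233 6 13 (0) 4 (((13 - 1) / 2) - (r - 0) / 2) ((13 - 1) / 2) r 5 (by decide) (by omega) (by decide) (by omega) (by omega) (by omega) (by omega) (by decide +kernel) (by decide) (by omega) (by decide +kernel) (by rw [hev]; exact P_S_13_odd_4_0_C_5_233_sh) hl hc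
  exact class_c _ _ (by omega) (by omega) (by omega) hI.1 (hI.2 S_S_13_odd_4_0_C_5_233_0 5 2 (by decide) (by show (2 : ℕ) < _; omega) S_S_13_odd_4_0_C_5_233_0_fam (blk_2_1_m2_1_m5 _ (by omega) (by omega)))

end Pool.Agent.KS6_69.GT
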