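import Pool.Agent.KS6_69.GT.TabBlocks
import Pool.Agent.KS6_69.GT.Wrap2
import Pool.Agent.KS6_69.GT.Tab04

set_option autoImplicit false

namespace Pool.Agent.KS6_69.GT

def P_Fg_d1_run_5_4_S_3_19_7_4_251 : Pat 4 :=
  ⟨[⟨⟨[.inl 0, .inr 3, .inl 4, .inr 2, .inl 1, .inr 1, .inl 2, .inl 3, .inr 0, .inl 5], [], [5, 3, 2, 1, 4, 0], [], [], []⟩, [-2, -3, 2, -4], [2, -2, -1, 4]⟩,
    ⟨⟨[.inl 0, .inr 3, .inl 1, .inr 2, .inl 2, .inr 1, .inl 4, .inl 3, .inr 0, .inl 5], [], [5, 3, 4, 1, 2, 0], [], [], []⟩, [-2, -2, -3, -2], [2, 2, 1, 1]⟩,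
    ⟨⟨[.inl 0, .inr 3, .inl 1, .inr 2, .inl 2, .inr 1, .inl 4, .inl 3, .inr 0, .inl 5], [], [5, 3, 2, 4, 1, 0], [], [], []⟩, [-2, 1, -1, -1], [2, 2, -2, 1]⟩,
    ⟨⟨[.inl 0, .inr 3, .inl 4, .inr 2, .inl 2, .inr 1, .inl 1, .inl 3, .inr 0, .inl 5], [], [5, 3, 4, 2, 1, 0], [], [], []⟩, [-2, -2, 3, -1], [2, -1, 1, 4]⟩,
    ⟨⟨[.inl 0, .inr 3, .inl 1, .inr 2, .inl 2, .inr 1, .inl 4, .inl 3, .inr 0, .inl 5], [], [5, 3, 1, 2, 4, 0], [], [3], []⟩, [-2, -2, -1, -4], [2, 3, 1, 1]⟩,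
    ⟨⟨[.inl 0, .inr 3, .inl 1, .inr 2, .inl 4, .inr 1, .inl 2, .inl 3, .inr 0, .inl 5], [], [5, 3, 4, 2, 1, 0], [], [3], []⟩, [-2, 2, -1, -1], [2, 1, 3, 1]⟩,
    ⟨⟨[.inl 0, .inr 3, .inl 2, .inr 2, .inl 1, .inr 1, .inl 4, .inl 3, .inr 0, .inl 5], [], [5, 3, 4, 2, 1, 0], [], [3], []⟩, [-2, -1, 1, -1], [2, 2, -3, 2]⟩],
   [⟨⟨[.inl 0, .inr 3, .inl 4, .inr 2, .inl 1, .inr 1, .inl 2, .inl 3, .inr 0, .inl 5], [], [5, 3, 2, 1, 4, 0], [], [], []⟩, [-2, -3, 3, -4], [2, -2, -1, 4]⟩,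
    ⟨⟨[.inl 0, .inr 3, .inl 1, .inr 2, .inl 2, .inr 1, .inl 4, .inl 3, .inr 0, .inl 5], [], [5, 3, 4, 1, 2, 0], [], [], []⟩, [-2, -2, -3, -2], [2, 3, 1, 1]⟩,
    ⟨⟨[.inl 0, .inr 3, .inl 1, .inr 2, .inl 4, .inr 1, .inl 2, .inl 3, .inr 0, .inl 5], [], [5, 3, 2, 4, 1, 0], [], [], []⟩, [-2, 2, -1, -1], [2, 1, 3, 1]⟩,
    ⟨⟨[.inl 0, .inr 3, .inl 2, .inr 2, .inl 1, .inr 1, .inl 4, .inl 3, .inr 0, .inl 5], [], [5, 3, 4, 2, 1, 0], [], [], []⟩, [-2, -1, 1, -1], [2, 2, -3, 2]⟩]⟩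

theorem P_Fg_d1_run_5_4_S_3_19_7_4_251_l0 : P_Fg_d1_run_5_4_S_3_19_7_4_251.locC [1, 3, 4, 0] 6 (19 + 0 * 4) = true := by decide +kernel

theorem P_Fg_d1_run_5_4_S_3_19_7_4_251_l1 : P_Fg_d1_run_5_4_S_3_19_7_4_251.locC [1, 3, 4, 0] 6 (19 + 1 * 4) = true := by decide +kernel

theorem P_Fg_d1_run_5_4_S_3_19_7_4_251_fam : ∀ t : ℕ, P_Fg_d1_run_5_4_S_3_19_7_4_251.loc 6 (19 + t * 4) = true ∧ P_Fg_d1_run_5_4_S_3_19_7_4_251.conn (19 + t * 4) = true :=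
  fam_ext2 P_Fg_d1_run_5_4_S_3_19_7_4_251 [1, 3, 4, 0] 6 19 1 5 4 (by decide) (by decide) (by decide) (by decide) (by decide) (by decide +kernel) (by decide)
    (by
      intro t ht
      interval_cases t
      · exact P_Fg_d1_run_5_4_S_3_19_7_4_251_l0
      · exact P_Fg_d1_run_5_4_S_3_19_7_4_251_l1)
    (by decide +kernel)

theorem P_Fg_d1_run_5_4_S_3_19_7_4_251_sh : P_Fg_d1_run_5_4_S_3_19_7_4_251.all (shOne 5) = true := by decide +kernel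

def S_Fg_d1_run_5_4_S_3_19_7_4_251_0 : SpD 4 := ⟨1, .inl 3, [(2, .inl 5), (1, .inl 4)], [(0, 2)]⟩

theorem S_Fg_d1_run_5_4_S_3_19_7_4_251_0_fam : ∀ t : ℕ, S_Fg_d1_run_5_4_S_3_19_7_4_251_0.chk 5 (19 + t * 4) (P_Fg_d1_run_5_4_S_3_19_7_4_251.acc (19 + t * 4) S_Fg_d1_run_5_4_S_3_19_7_4_251_0.i0) = true :=
  sp_fam P_Fg_d1_run_5_4_S_3_19_7_4_251 S_Fg_d1_run_5_4_S_3_19_7_4_251_0 5 19 1 4 (by decide) (by decide) (by decide) (by decide) (by decide +kernel)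

theorem W_Fg_d1_run_5_4_S_3_19_7_4_251 (q r : ℕ) (h1 : 19 ≤ q) (h2 : q % 4 = 3) (h5 : r + 1 = q) : Want q r := by
  obtain ⟨t, rfl⟩ : ∃ t : ℕ, q = 19 + t * 4 := ⟨(q - 19) / 4, by omega⟩
  obtain ⟨hl, hc⟩ := P_Fg_d1_run_5_4_S_3_19_7_4_251_fam t
  have hI := inst_one P_Fg_d1_run_5_4_S_3_19_7_4_251 6 (19 + t * 4) 5 r 3 (by omega) (by omega) (by omega) (by decide +kernel) (by decide) (by omega) (by decide +kernel) P_Fg_d1_run_5_4_S_3_19_7_4_251_sh hl hc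
  exact class_g _ _ (by omega) (by omega) (by omega) hI.1 (hI.2 S_Fg_d1_run_5_4_S_3_19_7_4_251_0 5 4 (by decide) (by show (1 : ℕ) < _; omega) (S_Fg_d1_run_5_4_S_3_19_7_4_251_0_fam t) (blk_4_1_2 _ (by omega) (by omega)))

def P_Fb_odd_3_0_C_3_17_5_4_131 : Pat 0 :=
  ⟨[⟨⟨[.inl 1, .inl 2, .inl 3], [.inl (-1), .inl 0, .inl (-2), .inl (-3)], [3, -2, 2, 0, -1], [-3, 1], [], []⟩, [], []⟩,
    ⟨⟨[.inl 1, .inl 0, .inl 2, .inl 3], [.inl (-1), .inl (-2), .inl (-3)], [3, -1], [-3, 2, -2, 0, 1], [-2], []⟩, [], []⟩,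
    ⟨⟨[.inl 1, .inl 0, .inl 2, .inl 3], [.inl (-1), .inl (-2), .inl (-3)], [3, -2, 0, -1], [-3, 2, 1], [0], []⟩, [], []⟩,
    ⟨⟨[.inl 1, .inl 0, .inl 2, .inl 3], [.inl (-1), .inl (-2), .inl (-3)], [3, -2, 0, -1], [-3, 2, 1], [2], []⟩, [], []⟩,
    ⟨⟨[.inl 1, .inl 2, .inl 3], [.inl (-1), .inl 0, .inl (-2), .inl (-3)], [3, -2, -1], [-3, 2, 0, 1], [], []⟩, [], []⟩],
   [⟨⟨[.inl 1, .inl 2, .inl 3], [.inl (-1), .inl 0, .inl (-2), .inl (-3)], [3, -2, 2, 0, -1], [-3, 1], [], []⟩, [], []⟩,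
    ⟨⟨[.inl 1, .inl 0, .inl 2, .inl 3], [.inl (-1), .inl (-2), .inl (-3)], [3, -1], [-3, 2, -2, 0, 1], [], []⟩, [], []⟩,
    ⟨⟨[.inl 1, .inl 0, .inl 2, .inl 3], [.inl (-1), .inl (-2), .inl (-3)], [3, -2, 0, -1], [-3, 2, 1], [], []⟩, [], []⟩,
    ⟨⟨[.inl 1, .inl 2, .inl 3], [.inl (-1), .inl 0, .inl (-2), .inl (-3)], [3, -2, -1], [-3, 2, 0, 1], [], []⟩, [], []⟩]⟩

theorem P_Fb_odd_3_0_C_3_17_5_4_131_l0 : P_Fb_odd_3_0_C_3_17_5_4_131.locC [] 5 (17 + 0 * 4) = true := by decide +kernel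

theorem P_Fb_odd_3_0_C_3_17_5_4_131_l1 : P_Fb_odd_3_0_C_3_17_5_4_131.locC [] 5 (17 + 1 * 4) = true := by decide +kernel

theorem P_Fb_odd_3_0_C_3_17_5_4_131_fam : ∀ t : ℕ, P_Fb_odd_3_0_C_3_17_5_4_131.loc 5 (17 + t * 4) = true ∧ P_Fb_odd_3_0_C_3_17_5_4_131.conn (17 + t * 4) = true :=
  fam_ext2 P_Fb_odd_3_0_C_3_17_5_4_131 [] 5 17 1 4 4 (by decide) (by decide) (by decide) (by decide) (by decide) (by decide +kernel) (by decide)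
    (by
      intro t ht
      interval_cases t
      · exact P_Fb_odd_3_0_C_3_17_5_4_131_l0
      · exact P_Fb_odd_3_0_C_3_17_5_4_131_l1)
    (by decide +kernel)

theorem P_Fb_odd_3_0_C_3_17_5_4_131_sh : P_Fb_odd_3_0_C_3_17_5_4_131.all (shTwo (0) 3 true) = true := by decide +kernel

def S_Fb_odd_3_0_C_3_17_5_4_131_0 : SpD 0 := ⟨1, .inl 2, [(1, .inl 1), (2, .inl 0)], [(0, -2)]⟩

theorem S_Fb_odd_3_0_C_3_17_5_4_131_0_fam : ∀ t : ℕ, S_Fb_odd_3_0_C_3_17_5_4_131_0.chk 2 (17 + t * 4) (P_Fb_odd_3_0_C_3_17_5_4_131.acc (17 + t * 4) S_Fb_odd_3_0_C_3_17_5_4_131_0.i0) = true :=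
  sp_fam P_Fb_odd_3_0_C_3_17_5_4_131 S_Fb_odd_3_0_C_3_17_5_4_131_0 2 17 1 4 (by decide) (by decide) (by decide) (by decide) (by decide +kernel)

theorem W_Fb_odd_3_0_C_3_17_5_4_131 (q r : ℕ) (h1 : 17 ≤ q) (h2 : q % 4 = 1) (h3 : (q + r) % 4 = 3) (h4 : 0 ≤ r) (h5 : r + 7 ≤ q) : Want q r := by
  obtain ⟨t, rfl⟩ : ∃ t : ℕ, q = 17 + t * 4 := ⟨(q - 17) / 4, by omega⟩
  obtain ⟨hl, hc⟩ := P_Fb_odd_3_0_C_3_17_5_4_131_fam t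
  have hev : decide (Even (((((17 + t * 4) - 1) / 2) - (r - 0) / 2) - 3)) = true := by
    simp only [Nat.even_iff, decide_eq_true_eq]
    omega
  have hI := inst_two P_Fb_odd_3_0_C_3_17_5_4_131 5 (17 + t * 4) (0) 3 ((((17 + t * 4) - 1) / 2) - (r - 0) / 2) (((17 + t * 4) - 1) / 2) r 3 (by decide) (by omega) (by decide) (by omega) (by omega) (by omega) (by omega) (by decide +kernel) (by decide) (by omega) (by decide +kernel) (by rw [hev]; exact P_Fb_odd_3_0_C_3_17_5_4_131_sh) hl hc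
  exact class_b _ _ (by omega) (by omega) (by omega) hI.1 (hI.2 S_Fb_odd_3_0_C_3_17_5_4_131_0 2 2 (by decide) (by show (1 : ℕ) < _; omega) (S_Fb_odd_3_0_C_3_17_5_4_131_0_fam t) (blk_2_3_m2 _ (by omega) (by omega)))

def P_S_12_run_5_4_S_4_231_242 : Pat 4 :=
  ⟨[⟨⟨[.inl 0, .inr 0, .inl 1, .inl 2, .inr 2, .inl 4, .inr 3, .inl 3, .inr 1, .inl 5], [], [5, 3, 4, 1, 2, 0], [], [], []⟩, [-2, 2, -3, 1], [-3, 4, 2, -1]⟩,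
    ⟨⟨[.inl 0, .inr 3, .inl 3, .inl 4, .inr 2, .inl 2, .inr 0, .inl 1, .inr 1, .inl 5], [], [5, 2, 1, 4, 3, 0], [], [], []⟩, [-2, -3, 1, -3], [1, 1, 2, -1]⟩,
    ⟨⟨[.inl 0, .inr 0, .inl 2, .inr 2, .inl 3, .inr 3, .inl 4, .inr 1, .inl 1, .inl 5], [], [5, 2, 3, 4, 1, 0], [], [3], []⟩, [-1, -1, -2, 2], [2, -2, -1, 3]⟩,
    ⟨⟨[.inl 0, .inr 2, .inl 3, .inr 0, .inl 2, .inl 1, .inr 1, .inl 4, .inr 3, .inl 5], [], [5, 1, 3, 4, 2, 0], [], [5], []⟩, [1, -4, -2, 2], [2, 3, 3, 3]⟩,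
    ⟨⟨[.inl 0, .inr 0, .inl 2, .inl 4, .inr 2, .inl 3, .inr 3, .inl 1, .inr 1, .inl 5], [], [5, 1, 3, 4, 2, 0], [], [], [3]⟩, [-2, -4, 2, -5], [-1, 1, 1, -2]⟩,
    ⟨⟨[.inl 0, .inr 0, .inl 4, .inr 1, .inl 3, .inl 1, .inr 3, .inl 2, .inr 2, .inl 5], [], [5, 1, 3, 4, 2, 0], [], [], []⟩, [-2, -1, -1, -3], [1, 2, 2, -2]⟩,
    ⟨⟨[.inl 0, .inr 2, .inl 2, .inr 3, .inl 3, .inr 0, .inl 1, .inr 1, .inl 4, .inl 5], [], [5, 4, 1, 2, 3, 0], [], [], []⟩, [-1, -3, -3, -3], [1, 3, -2, 1]⟩,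
    ⟨⟨[.inl 0, .inr 0, .inl 1, .inr 1, .inl 4, .inl 3, .inr 2, .inl 2, .inr 3, .inl 5], [], [5, 3, 2, 4, 1, 0], [], [5], []⟩, [-1, -2, -2, -1], [1, 1, 1, 2]⟩,
    ⟨⟨[.inl 0, .inr 0, .inl 2, .inr 3, .inl 3, .inr 1, .inl 4, .inl 1, .inr 2, .inl 5], [], [5, 2, 4, 3, 1, 0], [], [], []⟩, [-1, -1, -1, 1], [2, 3, 3, 2]⟩,
    ⟨⟨[.inl 0, .inl 3, .inr 3, .inl 1, .inr 1, .inl 4, .inr 0, .inl 2, .inr 2, .inl 5], [], [5, 4, 3, 2, 1, 0], [], [], []⟩, [3, -3, 1, -2], [2, 1, 3, -1]⟩,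
    ⟨⟨[.inl 0, .inr 0, .inl 2, .inr 2, .inl 1, .inr 3, .inl 3, .inr 1, .inl 4, .inl 5], [], [5, 3, 4, 1, 2, 0], [], [], []⟩, [-2, -1, 1, -2], [2, 3, -1, 3]⟩,
    ⟨⟨[.inl 0, .inr 0, .inl 4, .inr 3, .inl 3, .inl 2, .inr 2, .inl 1, .inr 1, .inl 5], [], [5, 4, 3, 1, 2, 0], [], [], []⟩, [-2, -3, -3, 1], [2, 4, -1, 5]⟩],
   [⟨⟨[.inl 0, .inr 0, .inl 4, .inr 3, .inl 3, .inl 2, .inr 2, .inl 1, .inr 1, .inl 5], [], [5, 4, 3, 1, 2, 0], [], [], []⟩, [-2, -3, -3, 1], [2, 4, -1, 5]⟩]⟩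

theorem P_S_12_run_5_4_S_4_231_242_fam : P_S_12_run_5_4_S_4_231_242.loc 5 12 = true ∧ P_S_12_run_5_4_S_4_231_242.conn 12 = true :=
  one_fam P_S_12_run_5_4_S_4_231_242 [2, 1, 3, 4] 5 12 (by decide) (by decide +kernel) (by decide +kernel)

theorem P_S_12_run_5_4_S_4_231_242_sh : P_S_12_run_5_4_S_4_231_242.all (shOne 5) = true := by decide +kernel

def S_S_12_run_5_4_S_4_231_242_0 : SpD 4 := ⟨2, .inl 5, [(2, .inr 3), (-3, .inl 0), (-4, .inl 1)], [(0, -4)]⟩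

theorem S_S_12_run_5_4_S_4_231_242_0_fam : S_S_12_run_5_4_S_4_231_242_0.chk 5 12 (P_S_12_run_5_4_S_4_231_242.acc 12 S_S_12_run_5_4_S_4_231_242_0.i0) = true := by decide +kernel

def S_S_12_run_5_4_S_4_231_242_1 : SpD 4 := ⟨2, .inl 5, [(2, .inr 3), (-3, .inl 0), (-4, .inl 1)], [(0, -4), (1, -9)]⟩

theorem S_S_12_run_5_4_S_4_231_242_1_fam : S_S_12_run_5_4_S_4_231_242_1.chk 5 12 (P_S_12_run_5_4_S_4_231_242.acc 12 S_S_12_run_5_4_S_4_231_242_1.i0) = true := by decide +kernel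

theorem W_S_12_run_5_4_S_4_231_242 (q r : ℕ) (h1 : q = 12) (h5 : r + 1 = q) : Want q r := by
  subst h1
  obtain ⟨hl, hc⟩ := P_S_12_run_5_4_S_4_231_242_fam
  have hI := inst_one P_S_12_run_5_4_S_4_231_242 5 12 5 r 4 (by omega) (by omega) (by omega) (by decide +kernel) (by decide) (by omega) (by decide +kernel) P_S_12_run_5_4_S_4_231_242_sh hl hc
  exact class_d _ _ (by omega) (by omega) (by omega) hI.1 (hI.2 S_S_12_run_5_4_S_4_231_242_0 5 2 (by decide) (by show (2 : ℕ) < _; omega) S_S_12_run_5_4_S_4_231_242_0_fam (blk_2_3_m4 _ (by omega) (by omega))) (hI.2 S_S_12_run_5_4_S_4_231_242_1 5 3 (by decide) (by show (2 : ℕ) < _; omega) S_S_12_run_5_4_S_4_231_242_1_fam (blk_3_3_m4_m9 _ (by omega) (by omega)))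

def P_S_13_run_5_2_S_3_231 : Pat 2 :=
  ⟨[⟨⟨[.inl 0, .inr 0, .inl 4, .inl 3, .inl 2, .inl 1, .inr 1, .inl 5], [], [5, 4, 1, 2, 3, 0], [], [], []⟩, [-3, -2], [5, 4]⟩,
    ⟨⟨[.inl 0, .inl 1, .inr 1, .inl 2, .inr 0, .inl 4, .inl 3, .inl 5], [], [5, 2, 4, 3, 1, 0], [], [], []⟩, [-2, -2], [2, 1]⟩,
    ⟨⟨[.inl 0, .inr 0, .inl 4, .inl 3, .inl 1, .inr 1, .inl 2, .inl 5], [], [5, 3, 1, 2, 4, 0], [], [], []⟩, [-4, -1], [4, 1]⟩,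
    ⟨⟨[.inl 0, .inl 2, .inr 0, .inl 4, .inl 3, .inl 1, .inr 1, .inl 5], [], [5, 3, 4, 2, 1, 0], [], [], []⟩, [-2, -1], [4, 4]⟩,
    ⟨⟨[.inl 0, .inl 1, .inr 1, .inl 2, .inl 3, .inl 4, .inr 0, .inl 5], [], [5, 4, 2, 1, 3, 0], [], [4], []⟩, [1, -4], [4, 1]⟩,
    ⟨⟨[.inl 0, .inl 1, .inr 1, .inl 2, .inr 0, .inl 3, .inl 4, .inl 5], [], [5, 1, 4, 2, 3, 0], [], [], [0]⟩, [-5, -1], [-1, 1]⟩,
    ⟨⟨[.inl 0, .inr 0, .inl 4, .inl 2, .inl 1, .inr 1, .inl 3, .inl 5], [], [5, 3, 2, 1, 4, 0], [], [], []⟩, [-4, -1], [3, 3]⟩,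
    ⟨⟨[.inl 0, .inr 0, .inl 4, .inl 2, .inl 1, .inr 1, .inl 3, .inl 5], [], [5, 2, 1, 3, 4, 0], [], [5], []⟩, [-4, -4], [3, 3]⟩,
    ⟨⟨[.inl 0, .inl 2, .inl 1, .inr 0, .inl 4, .inr 1, .inl 3, .inl 5], [], [5, 1, 3, 4, 2, 0], [], [], []⟩, [-4, 2], [3, 3]⟩,
    ⟨⟨[.inl 0, .inr 1, .inl 4, .inl 2, .inl 3, .inl 1, .inr 0, .inl 5], [], [5, 1, 4, 2, 3, 0], [], [], []⟩, [-3, -3], [3, 3]⟩,
    ⟨⟨[.inl 0, .inr 1, .inl 2, .inl 1, .inr 0, .inl 3, .inl 4, .inl 5], [], [5, 2, 4, 1, 3, 0], [], [], []⟩, [-3, -3], [3, -2]⟩,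
    ⟨⟨[.inl 0, .inr 1, .inl 3, .inl 2, .inl 1, .inr 0, .inl 4, .inl 5], [], [5, 4, 1, 2, 3, 0], [], [], []⟩, [-3, -3], [4, 2]⟩,
    ⟨⟨[.inl 0, .inl 1, .inr 1, .inl 3, .inl 2, .inr 0, .inl 4, .inl 5], [], [5, 3, 2, 4, 1, 0], [], [], []⟩, [-3, -3], [2, 2]⟩],
   [⟨⟨[.inl 0, .inl 1, .inr 1, .inl 3, .inl 2, .inr 0, .inl 4, .inl 5], [], [5, 3, 2, 4, 1, 0], [], [], []⟩, [-3, -3], [2, 2]⟩]⟩

theorem P_S_13_run_5_2_S_3_231_fam : P_S_13_run_5_2_S_3_231.loc 5 13 = true ∧ P_S_13_run_5_2_S_3_231.conn 13 = true :=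
  one_fam P_S_13_run_5_2_S_3_231 [1, 4, 0, 2] 5 13 (by decide) (by decide +kernel) (by decide +kernel)

theorem P_S_13_run_5_2_S_3_231_sh : P_S_13_run_5_2_S_3_231.all (shOne 5) = true := by decide +kernel

def S_S_13_run_5_2_S_3_231_0 : SpD 2 := ⟨2, .inl 5, [(3, .inr 0), (-2, .inl 2)], [(0, -6)]⟩

theorem S_S_13_run_5_2_S_3_231_0_fam : S_S_13_run_5_2_S_3_231_0.chk 5 13 (P_S_13_run_5_2_S_3_231.acc 13 S_S_13_run_5_2_S_3_231_0.i0) = true := by decide +kernel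

theorem W_S_13_run_5_2_S_3_231 (q r : ℕ) (h1 : q = 13) (h5 : r + 3 = q) : Want q r := by
  subst h1
  obtain ⟨hl, hc⟩ := P_S_13_run_5_2_S_3_231_fam
  have hI := inst_one P_S_13_run_5_2_S_3_231 5 13 5 r 3 (by omega) (by omega) (by omega) (by decide +kernel) (by decide) (by omega) (by decide +kernel) P_S_13_run_5_2_S_3_231_sh hl hc
  exact class_b _ _ (by omega) (by omega) (by omega) hI.1 (hI.2 S_S_13_run_5_2_S_3_231_0 5 2 (by decide) (by show (2 : ℕ) < _; omega) S_S_13_run_5_2_S_3_231_0_fam (blk_2_3_m6 _ (by omega) (by omega)))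

def P_S_11_odd_3_2_C_3_251 : Pat 2 :=
  ⟨[⟨⟨[.inl 1, .inr 1, .inl (-2), .inl 0, .inl 2, .inr 0, .inl 3], [.inl (-1), .inl (-3)], [3, -2, -1], [-3, 0, 2, 1], [], [1]⟩, [4, 2], [5, -4]⟩,
    ⟨⟨[.inl 1, .inl 2, .inr 1, .inl (-2), .inl 0, .inl 3], [.inl (-1), .inr 0, .inl (-3)], [3, 2, -2, -1], [-3, 0, 1], [0], []⟩, [1, 2], [-3, -2]⟩,
    ⟨⟨[.inl 1, .inl 0, .inl 3], [.inl (-1), .inl 2, .inr 0, .inl (-2), .inr 1, .inl (-3)], [3, -2, 2, -1], [-3, 0, 1], [], []⟩, [4, -5], [-1, -2]⟩,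
    ⟨⟨[.inl 1, .inl (-2), .inr 0, .inl 2, .inr 1, .inl 0, .inl 3], [.inl (-1), .inl (-3)], [3, -2, -1], [-3, 0, 2, 1], [], []⟩, [-4, 4], [3, -2]⟩,
    ⟨⟨[.inl 1, .inl 3], [.inl (-1), .inl 2, .inr 0, .inl (-2), .inr 1, .inl 0, .inl (-3)], [3, 0, -1], [-3, -2, 2, 1], [], []⟩, [4, -5], [-4, 1]⟩,
    ⟨⟨[.inl 1, .inl (-2), .inr 0, .inl 3], [.inl (-1), .inr 1, .inl 2, .inl 0, .inl (-3)], [3, 0, -2, 2, -1], [-3, 1], [], []⟩, [-5, -1], [5, 1]⟩,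
    ⟨⟨[.inl 1, .inr 1, .inl 2, .inl 3], [.inl (-1), .inr 0, .inl (-2), .inl 0, .inl (-3)], [3, 0, -1], [-3, -2, 2, 1], [], []⟩, [-3, -1], [-4, 3]⟩,
    ⟨⟨[.inl 1, .inl 2, .inr 1, .inl (-2), .inl 0, .inr 0, .inl 3], [.inl (-1), .inl (-3)], [3, -1], [-3, -2, 0, 2, 1], [], []⟩, [2, 4], [1, -4]⟩,
    ⟨⟨[.inl 1, .inl 0, .inl 2, .inr 0, .inl (-2), .inr 1, .inl 3], [.inl (-1), .inl (-3)], [3, -2, 2, -1], [-3, 0, 1], [], []⟩, [-1, 1], [-4, 5]⟩,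
    ⟨⟨[.inl 1, .inl 2, .inl 0, .inr 0, .inl (-2), .inl 3], [.inl (-1), .inr 1, .inl (-3)], [3, -1], [-3, 0, -2, 2, 1], [], []⟩, [3, -3], [-2, -1]⟩,
    ⟨⟨[.inl 1, .inl 0, .inr 1, .inl 3], [.inl (-1), .inl (-2), .inr 0, .inl 2, .inl (-3)], [3, 2, -1], [-3, -2, 0, 1], [-3], []⟩, [-5, 2], [4, 5]⟩],
   [⟨⟨[.inl 1, .inl 0, .inr 1, .inl 3], [.inl (-1), .inl (-2), .inr 0, .inl 2, .inl (-3)], [3, 2, -1], [-3, -2, 0, 1], [], []⟩, [-5, 2], [4, 5]⟩]⟩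

theorem P_S_11_odd_3_2_C_3_251_fam : P_S_11_odd_3_2_C_3_251.loc 5 11 = true ∧ P_S_11_odd_3_2_C_3_251.conn 11 = true :=
  one_fam P_S_11_odd_3_2_C_3_251 [-2, 2, 0, 1] 5 11 (by decide) (by decide +kernel) (by decide +kernel)

theorem P_S_11_odd_3_2_C_3_251_sh : P_S_11_odd_3_2_C_3_251.all (shTwo (0) 3 true) = true := by decide +kernel

def S_S_11_odd_3_2_C_3_251_0 : SpD 2 := ⟨1, .inl 0, [(-1, .inr 1), (1, .inl (-2))], [(0, -2)]⟩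

theorem S_S_11_odd_3_2_C_3_251_0_fam : S_S_11_odd_3_2_C_3_251_0.chk 2 11 (P_S_11_odd_3_2_C_3_251.acc 11 S_S_11_odd_3_2_C_3_251_0.i0) = true := by decide +kernel

theorem W_S_11_odd_3_2_C_3_251 (q r : ℕ) (h1 : q = 11) (h3 : (q + r) % 4 = 1) (h4 : 2 ≤ r) (h5 : r + 5 ≤ q) : Want q r := by
  subst h1
  obtain ⟨hl, hc⟩ := P_S_11_odd_3_2_C_3_251_fam
  have hev : decide (Even ((((11 - 1) / 2) - (r - 2) / 2) - 3)) = true := by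
    simp only [Nat.even_iff, decide_eq_true_eq]
    omega
  have hI := inst_two P_S_11_odd_3_2_C_3_251 5 11 (0) 3 (((11 - 1) / 2) - (r - 2) / 2) ((11 - 1) / 2) r 3 (by decide) (by omega) (by decide) (by omega) (by omega) (by omega) (by omega) (by decide +kernel) (by decide) (by omega) (by decide +kernel) (by rw [hev]; exact P_S_11_odd_3_2_C_3_251_sh) hl hc
  exact class_g _ _ (by omega) (by omega) (by omega) hI.1 (hI.2 S_S_11_odd_3_2_C_3_251_0 2 4 (by decide) (by show (1 : ℕ) < _; omega) S_S_11_odd_3_2_C_3_251_0_fam (blk_4_1_m2 _ (by omega) (by omega)))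

def P_S_10_even_3_1_S_0 : Pat 1 :=
  ⟨[⟨⟨[.inl 0, .inl 1, .inr 0, .inl 2, .inl 3], [.inl (-1), .inl (-2), .inl (-3), .inl (-4)], [-4, -2, -1], [3, 1, 2, -3, 0], [], []⟩, [-1], [3]⟩,
    ⟨⟨[.inl 0, .inl 1, .inl (-2), .inl 2, .inl 3], [.inl (-1), .inr 0, .inl (-3), .inl (-4)], [-4, -1], [3, 2, 1, -2, -3, 0], [], []⟩, [1], [-5]⟩,
    ⟨⟨[.inl 0, .inl 2, .inr 0, .inl (-2), .inl 3], [.inl (-1), .inl 1, .inl (-3), .inl (-4)], [-4, 2, -1], [3, 1, -2, -3, 0], [], []⟩, [1], [-1]⟩,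
    ⟨⟨[.inl 0, .inl 3], [.inl (-1), .inr 0, .inl 1, .inl 2, .inl (-2), .inl (-3), .inl (-4)], [-4, -1], [3, -3, 2, 1, -2, 0], [], []⟩, [-3], [-1]⟩,
    ⟨⟨[.inl 0, .inl 3], [.inl (-1), .inr 0, .inl 2, .inl (-2), .inl (-3), .inl 1, .inl (-4)], [-4, 1, 2, -1], [3, -2, -3, 0], [], []⟩, [3], [4]⟩,
    ⟨⟨[.inl 0, .inr 0, .inl 2, .inl 3], [.inl (-1), .inl (-3), .inl 1, .inl (-2), .inl (-4)], [-4, -2, -1], [3, 1, 2, -3, 0], [], []⟩, [3], [4]⟩,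
    ⟨⟨[.inl 0, .inl 1, .inl 2, .inr 0, .inl 3], [.inl (-1), .inl (-2), .inl (-3), .inl (-4)], [-4, -3, -1], [3, 1, 2, -2, 0], [], []⟩, [5], [1]⟩,
    ⟨⟨[.inl 0, .inl (-3), .inl (-2), .inl 3], [.inl (-1), .inl 1, .inl 2, .inr 0, .inl (-4)], [-4, 2, -2, -3, 1, -1], [3, 0], [], []⟩, [-1], [-3]⟩,
    ⟨⟨[.inl 0, .inl 1, .inl 2, .inl 3], [.inl (-1), .inl (-2), .inr 0, .inl (-3), .inl (-4)], [-4, 1, -1], [3, -3, 2, -2, 0], [], []⟩, [-4], [-3]⟩,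
    ⟨⟨[.inl 0, .inl 3], [.inl (-1), .inl (-3), .inl (-2), .inr 0, .inl 2, .inl 1, .inl (-4)], [-4, 1, -1], [3, 2, -3, -2, 0], [], []⟩, [-4], [1]⟩],
   [⟨⟨[.inl 0, .inl 3], [.inl (-1), .inl (-3), .inl (-2), .inr 0, .inl 2, .inl 1, .inl (-4)], [-4, 1, -1], [3, 2, -3, -2, 0], [], []⟩, [-4], [1]⟩]⟩

theorem P_S_10_even_3_1_S_0_fam : P_S_10_even_3_1_S_0.loc 6 10 = true ∧ P_S_10_even_3_1_S_0.conn 10 = true :=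
  one_fam P_S_10_even_3_1_S_0 [2, -1, 0] 6 10 (by decide) (by decide +kernel) (by decide +kernel)

theorem P_S_10_even_3_1_S_0_sh : P_S_10_even_3_1_S_0.all (shTwo (-1) 3 false) = true := by decide +kernel

theorem W_S_10_even_3_1_S_0 (q r : ℕ) (h1 : q = 10) (h3 : (q + r) % 4 = 3) (h4 : 1 ≤ r) (h5 : r + 9 ≤ q) : Want q r := by
  subst h1
  obtain ⟨hl, hc⟩ := P_S_10_even_3_1_S_0_fam
  have hev : decide (Even ((((10 - 2) / 2) - (r - 1) / 2) - 3)) = false := by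
    simp only [Nat.even_iff, decide_eq_false_iff_not]
    omega
  have hI := inst_two P_S_10_even_3_1_S_0 6 10 (-1) 3 (((10 - 2) / 2) - (r - 1) / 2) ((10 - 2) / 2) r 0 (by decide) (by omega) (by decide) (by omega) (by omega) (by omega) (by omega) (by decide +kernel) (by decide) (by omega) (by decide +kernel) (by rw [hev]; exact P_S_10_even_3_1_S_0_sh) hl hc
  exact class_t _ _ (by omega) (tmod _ _ (by omega) (by omega)) hI.1 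

end Pool.Agent.KS6_69.GT
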