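import Pool.Agent.KS6_69.GT.TabBlocks
import Pool.Agent.KS6_69.GT.Wrap2
import Pool.Agent.KS6_69.GT.Tab05

set_option autoImplicit false

namespace Pool.Agent.KS6_69.GT

def P_Fb_d3_run_6_3_S_3_21_9_4_231 : Pat 3 :=
  ⟨[⟨⟨[.inl 0, .inl 2, .inr 0, .inl 1, .inr 1, .inl 5, .inl 3, .inr 2, .inl 4, .inl 6], [], [6, 5, 3, 4, 2, 1, 0], [], [], []⟩, [-3, -4, -1], [-1, 2, 2]⟩,
    ⟨⟨[.inl 0, .inr 2, .inl 4, .inl 2, .inl 1, .inr 1, .inl 5, .inl 3, .inr 0, .inl 6], [], [6, 3, 5, 1, 2, 4, 0], [], [], []⟩, [-2, -2, -4], [2, 4, 2]⟩,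
    ⟨⟨[.inl 0, .inl 1, .inr 0, .inl 3, .inr 1, .inl 2, .inr 2, .inl 4, .inl 5, .inl 6], [], [6, 4, 5, 2, 3, 1, 0], [], [], []⟩, [-4, -2, -2], [2, 1, 2]⟩,
    ⟨⟨[.inl 0, .inl 2, .inr 2, .inl 5, .inl 4, .inr 0, .inl 3, .inl 1, .inr 1, .inl 6], [], [6, 5, 1, 2, 4, 3, 0], [], [], []⟩, [-2, -1, -2], [2, 1, 2]⟩,
    ⟨⟨[.inl 0, .inl 2, .inr 2, .inl 3, .inl 1, .inr 0, .inl 5, .inr 1, .inl 4, .inl 6], [], [6, 5, 3, 4, 2, 1, 0], [], [], []⟩, [-2, -1, -2], [2, 2, 2]⟩,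
    ⟨⟨[.inl 0, .inl 2, .inr 1, .inl 5, .inl 4, .inl 1, .inr 0, .inl 3, .inr 2, .inl 6], [], [6, 4, 2, 5, 3, 1, 0], [], [], [1]⟩, [-2, -4, -2], [2, 4, 2]⟩,
    ⟨⟨[.inl 0, .inl 3, .inr 0, .inl 5, .inl 1, .inr 2, .inl 4, .inl 2, .inr 1, .inl 6], [], [6, 5, 4, 2, 3, 1, 0], [], [5], []⟩, [-2, -2, -2], [3, 1, 4]⟩,
    ⟨⟨[.inl 0, .inl 4, .inr 2, .inl 2, .inl 3, .inl 1, .inr 0, .inl 5, .inr 1, .inl 6], [], [6, 4, 5, 2, 3, 1, 0], [], [5], []⟩, [-2, -1, -2], [4, 1, 1]⟩,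
    ⟨⟨[.inl 0, .inl 2, .inr 0, .inl 5, .inr 1, .inl 3, .inl 1, .inr 2, .inl 4, .inl 6], [], [6, 5, 3, 1, 4, 2, 0], [], [], []⟩, [1, -1, -1], [2, 2, 1]⟩],
   [⟨⟨[.inl 0, .inl 2, .inr 0, .inl 1, .inr 1, .inl 5, .inl 4, .inl 3, .inr 2, .inl 6], [], [6, 5, 3, 4, 2, 1, 0], [], [], []⟩, [-3, -4, -1], [-1, 4, 2]⟩,
    ⟨⟨[.inl 0, .inr 2, .inl 4, .inl 2, .inl 3, .inr 0, .inl 5, .inl 1, .inr 1, .inl 6], [], [6, 3, 5, 1, 2, 4, 0], [], [], []⟩, [-2, -2, -4], [3, 1, 4]⟩,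
    ⟨⟨[.inl 0, .inl 4, .inr 2, .inl 2, .inl 3, .inl 1, .inr 0, .inl 5, .inr 1, .inl 6], [], [6, 4, 5, 2, 3, 1, 0], [], [], []⟩, [-4, -1, -2], [4, 1, 1]⟩,
    ⟨⟨[.inl 0, .inl 2, .inr 0, .inl 5, .inr 1, .inl 3, .inl 1, .inr 2, .inl 4, .inl 6], [], [6, 5, 1, 4, 3, 2, 0], [], [], []⟩, [1, -1, -1], [2, 2, 1]⟩]⟩

theorem P_Fb_d3_run_6_3_S_3_21_9_4_231_l0 : P_Fb_d3_run_6_3_S_3_21_9_4_231.locC [5, 4, 1, 2] 6 (21 + 0 * 4) = true := by decide +kernel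

theorem P_Fb_d3_run_6_3_S_3_21_9_4_231_l1 : P_Fb_d3_run_6_3_S_3_21_9_4_231.locC [5, 4, 1, 2] 6 (21 + 1 * 4) = true := by decide +kernel

theorem P_Fb_d3_run_6_3_S_3_21_9_4_231_fam : ∀ t : ℕ, P_Fb_d3_run_6_3_S_3_21_9_4_231.loc 6 (21 + t * 4) = true ∧ P_Fb_d3_run_6_3_S_3_21_9_4_231.conn (21 + t * 4) = true :=
  fam_ext2 P_Fb_d3_run_6_3_S_3_21_9_4_231 [5, 4, 1, 2] 6 21 1 5 4 (by decide) (by decide) (by decide) (by decide) (by decide) (by decide +kernel) (by decide)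
    (by
      intro t ht
      interval_cases t
      · exact P_Fb_d3_run_6_3_S_3_21_9_4_231_l0
      · exact P_Fb_d3_run_6_3_S_3_21_9_4_231_l1)
    (by decide +kernel)

theorem P_Fb_d3_run_6_3_S_3_21_9_4_231_sh : P_Fb_d3_run_6_3_S_3_21_9_4_231.all (shOne 6) = true := by decide +kernel

def S_Fb_d3_run_6_3_S_3_21_9_4_231_0 : SpD 3 := ⟨2, .inl 5, [(3, .inr 1), (-1, .inl 4)], [(0, -4)]⟩

theorem S_Fb_d3_run_6_3_S_3_21_9_4_231_0_fam : ∀ t : ℕ, S_Fb_d3_run_6_3_S_3_21_9_4_231_0.chk 5 (21 + t * 4) (P_Fb_d3_run_6_3_S_3_21_9_4_231.acc (21 + t * 4) S_Fb_d3_run_6_3_S_3_21_9_4_231_0.i0) = true :=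
  sp_fam P_Fb_d3_run_6_3_S_3_21_9_4_231 S_Fb_d3_run_6_3_S_3_21_9_4_231_0 5 21 1 4 (by decide) (by decide) (by decide) (by decide) (by decide +kernel)

theorem W_Fb_d3_run_6_3_S_3_21_9_4_231 (q r : ℕ) (h1 : 21 ≤ q) (h2 : q % 4 = 1) (h5 : r + 3 = q) : Want q r := by
  obtain ⟨t, rfl⟩ : ∃ t : ℕ, q = 21 + t * 4 := ⟨(q - 21) / 4, by omega⟩
  obtain ⟨hl, hc⟩ := P_Fb_d3_run_6_3_S_3_21_9_4_231_fam t
  have hI := inst_one P_Fb_d3_run_6_3_S_3_21_9_4_231 6 (21 + t * 4) 6 r 3 (by omega) (by omega) (by omega) (by decide +kernel) (by decide) (by omega) (by decide +kernel) P_Fb_d3_run_6_3_S_3_21_9_4_231_sh hl hc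
  exact class_b _ _ (by omega) (by omega) (by omega) hI.1 (hI.2 S_Fb_d3_run_6_3_S_3_21_9_4_231_0 5 2 (by decide) (by show (2 : ℕ) < _; omega) (S_Fb_d3_run_6_3_S_3_21_9_4_231_0_fam t) (blk_2_3_m4 _ (by omega) (by omega)))

def P_Fa_odd_4_1_S_4_15_7_2_132 : Pat 1 :=
  ⟨[⟨⟨[.inl 1, .inl (-2), .inl 2, .inl (-3), .inl 3, .inl 0, .inr 0, .inl 4], [.inl (-1), .inl (-4)], [-4, -1], [4, 3, 2, 0, -3, -2, 1], [0], []⟩, [-2], [4]⟩,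
    ⟨⟨[.inl 1, .inl (-3), .inl 4], [.inl (-1), .inl 0, .inr 0, .inl (-2), .inl 3, .inl 2, .inl (-4)], [-4, -2, 0, -3, -1], [4, 3, 2, 1], [-2], [0]⟩, [2], [-2]⟩,
    ⟨⟨[.inl 1, .inl (-2), .inl 2, .inl (-3), .inl 0, .inl 4], [.inl (-1), .inr 0, .inl 3, .inl (-4)], [-4, -3, -2, 0, -1], [4, 3, 2, 1], [], []⟩, [2], [1]⟩,
    ⟨⟨[.inl 1, .inl (-3), .inl (-2), .inl 2, .inr 0, .inl 0, .inl 3, .inl 4], [.inl (-1), .inl (-4)], [-4, -3, -2, 0, 3, 2, -1], [4, 1], [0], []⟩, [-1], [-2]⟩,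
    ⟨⟨[.inl 1, .inl 3, .inl 2, .inl (-2), .inl 4], [.inl (-1), .inl 0, .inr 0, .inl (-3), .inl (-4)], [-4, -3, -2, -1], [4, 0, 3, 2, 1], [], []⟩, [-4], [-2]⟩,
    ⟨⟨[.inl 1, .inl (-2), .inl 4], [.inl (-1), .inl 3, .inl (-3), .inr 0, .inl 2, .inl 0, .inl (-4)], [-4, -3, -2, -1], [4, 3, 2, 0, 1], [], []⟩, [1], [2]⟩,
    ⟨⟨[.inl 1, .inl 4], [.inl (-1), .inl 2, .inl (-2), .inl 3, .inl (-3), .inl 0, .inr 0, .inl (-4)], [-4, -3, -2, 0, -1], [4, 2, 3, 1], [], []⟩, [2], [-1]⟩],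
   [⟨⟨[.inl 1, .inl (-2), .inl 3, .inl 0, .inr 0, .inl 2, .inl (-3), .inl 4], [.inl (-1), .inl (-4)], [-4, -3, -2, -1], [4, 3, 2, 0, 1], [], []⟩, [-2], [2]⟩,
    ⟨⟨[.inl 1, .inl 4], [.inl (-1), .inl 2, .inl (-3), .inl 0, .inr 0, .inl (-2), .inl 3, .inl (-4)], [-4, -3, -2, 0, -1], [4, 3, 2, 1], [], []⟩, [2], [-2]⟩]⟩

theorem P_Fa_odd_4_1_S_4_15_7_2_132_l0 : P_Fa_odd_4_1_S_4_15_7_2_132.locC [0, 2, -3] 4 (15 + 0 * 2) = true := by decide +kernel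

theorem P_Fa_odd_4_1_S_4_15_7_2_132_l1 : P_Fa_odd_4_1_S_4_15_7_2_132.locC [0, 2, -3] 4 (15 + 1 * 2) = true := by decide +kernel

theorem P_Fa_odd_4_1_S_4_15_7_2_132_fam : ∀ t : ℕ, P_Fa_odd_4_1_S_4_15_7_2_132.loc 4 (15 + t * 2) = true ∧ P_Fa_odd_4_1_S_4_15_7_2_132.conn (15 + t * 2) = true :=
  fam_ext2 P_Fa_odd_4_1_S_4_15_7_2_132 [0, 2, -3] 4 15 1 6 2 (by decide) (by decide) (by decide) (by decide) (by decide) (by decide +kernel) (by decide)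
    (by
      intro t ht
      interval_cases t
      · exact P_Fa_odd_4_1_S_4_15_7_2_132_l0
      · exact P_Fa_odd_4_1_S_4_15_7_2_132_l1)
    (by decide +kernel)

theorem P_Fa_odd_4_1_S_4_15_7_2_132_sh : P_Fa_odd_4_1_S_4_15_7_2_132.all (shTwo (0) 4 false) = true := by decide +kernel

def S_Fa_odd_4_1_S_4_15_7_2_132_0 : SpD 1 := ⟨1, .inr 0, [(2, .inl 2), (-1, .inl (-1)), (2, .inl 0)], [(0, 3), (1, -2)]⟩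

theorem S_Fa_odd_4_1_S_4_15_7_2_132_0_fam : ∀ t : ℕ, S_Fa_odd_4_1_S_4_15_7_2_132_0.chk 2 (15 + t * 2) (P_Fa_odd_4_1_S_4_15_7_2_132.acc (15 + t * 2) S_Fa_odd_4_1_S_4_15_7_2_132_0.i0) = true :=
  sp_fam P_Fa_odd_4_1_S_4_15_7_2_132 S_Fa_odd_4_1_S_4_15_7_2_132_0 2 15 1 2 (by decide) (by decide) (by decide) (by decide) (by decide +kernel)

theorem W_Fa_odd_4_1_S_4_15_7_2_132 (q r : ℕ) (h1 : 15 ≤ q) (h2 : q % 2 = 1) (h3 : (q + r) % 4 = 0) (h4 : 1 ≤ r) (h5 : r + 10 ≤ q) : Want q r := by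
  obtain ⟨t, rfl⟩ : ∃ t : ℕ, q = 15 + t * 2 := ⟨(q - 15) / 2, by omega⟩
  obtain ⟨hl, hc⟩ := P_Fa_odd_4_1_S_4_15_7_2_132_fam t
  have hev : decide (Even (((((15 + t * 2) - 1) / 2) - (r - 1) / 2) - 4)) = false := by
    simp only [Nat.even_iff, decide_eq_false_iff_not]
    omega
  have hI := inst_two P_Fa_odd_4_1_S_4_15_7_2_132 4 (15 + t * 2) (0) 4 ((((15 + t * 2) - 1) / 2) - (r - 1) / 2) (((15 + t * 2) - 1) / 2) r 4 (by decide) (by omega) (by decide) (by omega) (by omega) (by omega) (by omega) (by decide +kernel) (by decide) (by omega) (by decide +kernel) (by rw [hev]; exact P_Fa_odd_4_1_S_4_15_7_2_132_sh) hl hc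
  exact class_a _ _ (by omega) (by omega) (by omega) hI.1 (hI.2 S_Fa_odd_4_1_S_4_15_7_2_132_0 2 2 (by decide) (by show (1 : ℕ) < _; omega) (S_Fa_odd_4_1_S_4_15_7_2_132_0_fam t) (blk_2_0_3_m2 _ (by omega) (by omega)))

def P_S_14_run_6_3_S_0 : Pat 3 :=
  ⟨[⟨⟨[.inl 0, .inr 1, .inl 1, .inr 0, .inl 5, .inl 4, .inr 2, .inl 3, .inl 2, .inl 6], [], [6, 1, 4, 3, 2, 5, 0], [], [], []⟩, [-2, -5, -1], [4, -1, -2]⟩,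
    ⟨⟨[.inl 0, .inr 2, .inl 5, .inl 1, .inr 0, .inl 3, .inl 4, .inl 2, .inr 1, .inl 6], [], [6, 3, 1, 2, 4, 5, 0], [], [], []⟩, [-5, -3, -5], [1, 4, 2]⟩,
    ⟨⟨[.inl 0, .inr 1, .inl 4, .inl 5, .inl 2, .inr 0, .inl 1, .inl 3, .inr 2, .inl 6], [], [6, 1, 2, 3, 4, 5, 0], [], [], []⟩, [-1, -5, 1], [1, 4, 2]⟩,
    ⟨⟨[.inl 0, .inr 0, .inl 3, .inr 2, .inl 2, .inr 1, .inl 1, .inl 4, .inl 5, .inl 6], [], [6, 4, 3, 5, 2, 1, 0], [], [], []⟩, [-1, -4, -2], [2, 1, -1]⟩,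
    ⟨⟨[.inl 0, .inr 1, .inl 5, .inl 4, .inr 2, .inl 3, .inl 2, .inl 1, .inr 0, .inl 6], [], [6, 5, 4, 3, 2, 1, 0], [], [], []⟩, [-4, -1, -2], [5, 4, 2]⟩,
    ⟨⟨[.inl 0, .inl 1, .inr 0, .inl 4, .inr 2, .inl 5, .inl 3, .inl 2, .inr 1, .inl 6], [], [6, 2, 3, 4, 5, 1, 0], [], [], []⟩, [-2, -4, 2], [1, 4, 3]⟩,
    ⟨⟨[.inl 0, .inr 1, .inl 2, .inl 4, .inl 3, .inr 0, .inl 1, .inr 2, .inl 5, .inl 6], [], [6, 5, 3, 1, 2, 4, 0], [], [], []⟩, [-1, -4, -2], [1, 1, 1]⟩,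
    ⟨⟨[.inl 0, .inr 0, .inl 1, .inr 1, .inl 3, .inl 5, .inl 4, .inr 2, .inl 2, .inl 6], [], [6, 2, 4, 5, 3, 1, 0], [], [], []⟩, [-1, -1, -1], [1, 3, -2]⟩,
    ⟨⟨[.inl 0, .inr 0, .inl 3, .inl 5, .inl 1, .inr 1, .inl 4, .inl 2, .inr 2, .inl 6], [], [6, 4, 5, 3, 2, 1, 0], [], [], []⟩, [-1, -4, -3], [3, 3, 5]⟩,
    ⟨⟨[.inl 0, .inl 1, .inr 0, .inl 4, .inr 2, .inl 3, .inl 2, .inr 1, .inl 5, .inl 6], [], [6, 5, 1, 2, 4, 3, 0], [], [], []⟩, [-5, -4, 2], [4, 5, 1]⟩,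
    ⟨⟨[.inl 0, .inr 1, .inl 3, .inl 1, .inl 2, .inr 2, .inl 5, .inl 4, .inr 0, .inl 6], [], [6, 1, 4, 5, 2, 3, 0], [], [], []⟩, [3, -3, -1], [5, 2, 5]⟩,
    ⟨⟨[.inl 0, .inr 0, .inl 1, .inr 1, .inl 5, .inr 2, .inl 2, .inl 3, .inl 4, .inl 6], [], [6, 2, 5, 4, 1, 3, 0], [], [], []⟩, [-3, -3, 1], [1, 5, -2]⟩,
    ⟨⟨[.inl 0, .inr 0, .inl 3, .inl 2, .inl 1, .inr 1, .inl 5, .inr 2, .inl 4, .inl 6], [], [6, 3, 2, 5, 4, 1, 0], [], [], []⟩, [-1, -2, 2], [2, 3, -1]⟩,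
    ⟨⟨[.inl 0, .inr 0, .inl 1, .inr 2, .inl 5, .inl 3, .inl 4, .inl 2, .inr 1, .inl 6], [], [6, 5, 3, 1, 2, 4, 0], [], [], []⟩, [-4, 1, -5], [-3, 4, 1]⟩],
   [⟨⟨[.inl 0, .inr 0, .inl 1, .inr 2, .inl 5, .inl 3, .inl 4, .inl 2, .inr 1, .inl 6], [], [6, 5, 3, 1, 2, 4, 0], [], [], []⟩, [-4, 1, -5], [-3, 4, 1]⟩]⟩

theorem P_S_14_run_6_3_S_0_fam : P_S_14_run_6_3_S_0.loc 6 14 = true ∧ P_S_14_run_6_3_S_0.conn 14 = true :=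
  one_fam P_S_14_run_6_3_S_0 [1, 2, 5, 0, 4] 6 14 (by decide) (by decide +kernel) (by decide +kernel)

theorem P_S_14_run_6_3_S_0_sh : P_S_14_run_6_3_S_0.all (shOne 6) = true := by decide +kernel

theorem W_S_14_run_6_3_S_0 (q r : ℕ) (h1 : q = 14) (h5 : r + 3 = q) : Want q r := by
  subst h1
  obtain ⟨hl, hc⟩ := P_S_14_run_6_3_S_0_fam
  have hI := inst_one P_S_14_run_6_3_S_0 6 14 6 r 0 (by omega) (by omega) (by omega) (by decide +kernel) (by decide) (by omega) (by decide +kernel) P_S_14_run_6_3_S_0_sh hl hc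
  exact class_t _ _ (by omega) (tmod _ _ (by omega) (by omega)) hI.1 

def P_S_11_run_5_3_S_4_232 : Pat 3 :=
  ⟨[⟨⟨[.inl 0, .inr 1, .inl 4, .inl 2, .inr 2, .inl 1, .inr 0, .inl 3, .inl 5], [], [5, 2, 4, 3, 1, 0], [], [], []⟩, [-1, -1, -3], [1, 3, -2]⟩,
    ⟨⟨[.inl 0, .inr 1, .inl 1, .inl 2, .inr 0, .inl 3, .inl 4, .inr 2, .inl 5], [], [5, 2, 1, 3, 4, 0], [], [], [2]⟩, [-1, -4, 2], [3, -3, 1]⟩,
    ⟨⟨[.inl 0, .inr 0, .inl 3, .inl 2, .inl 1, .inr 1, .inl 4, .inr 2, .inl 5], [], [5, 2, 3, 1, 4, 0], [], [], []⟩, [-4, -4, -1], [1, 3, 2]⟩,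
    ⟨⟨[.inl 0, .inr 2, .inl 1, .inr 1, .inl 2, .inr 0, .inl 4, .inl 3, .inl 5], [], [5, 1, 3, 2, 4, 0], [], [1], []⟩, [-1, -3, -4], [2, 1, -2]⟩,
    ⟨⟨[.inl 0, .inr 0, .inl 2, .inl 3, .inr 2, .inl 4, .inl 1, .inr 1, .inl 5], [], [5, 4, 1, 2, 3, 0], [], [1], []⟩, [-3, -1, -2], [2, 3, 2]⟩,
    ⟨⟨[.inl 0, .inl 3, .inl 1, .inr 1, .inl 2, .inr 0, .inl 4, .inr 2, .inl 5], [], [5, 4, 3, 2, 1, 0], [], [5], []⟩, [-2, -3, 1], [3, 1, 3]⟩,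
    ⟨⟨[.inl 0, .inr 0, .inl 2, .inr 2, .inl 3, .inl 1, .inr 1, .inl 4, .inl 5], [], [5, 4, 1, 3, 2, 0], [], [], []⟩, [-2, -1, -2], [1, 4, -1]⟩,
    ⟨⟨[.inl 0, .inl 2, .inr 1, .inl 1, .inr 0, .inl 3, .inl 4, .inr 2, .inl 5], [], [5, 3, 4, 2, 1, 0], [], [], []⟩, [-1, -3, 2], [2, 1, 3]⟩,
    ⟨⟨[.inl 0, .inr 1, .inl 4, .inl 1, .inr 0, .inl 3, .inl 2, .inr 2, .inl 5], [], [5, 3, 4, 2, 1, 0], [], [], []⟩, [-3, -1, -3], [2, 4, 3]⟩,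
    ⟨⟨[.inl 0, .inl 3, .inr 2, .inl 2, .inl 1, .inr 0, .inl 4, .inr 1, .inl 5], [], [5, 2, 3, 4, 1, 0], [], [], []⟩, [-2, 3, 2], [4, 4, -2]⟩,
    ⟨⟨[.inl 0, .inr 1, .inl 1, .inr 0, .inl 2, .inr 2, .inl 4, .inl 3, .inl 5], [], [5, 2, 3, 1, 4, 0], [], [], []⟩, [-2, -4, -3], [1, 1, 4]⟩],
   [⟨⟨[.inl 0, .inr 1, .inl 1, .inr 0, .inl 2, .inr 2, .inl 4, .inl 3, .inl 5], [], [5, 2, 3, 1, 4, 0], [], [], []⟩, [-2, -4, -3], [1, 1, 4]⟩]⟩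

theorem P_S_11_run_5_3_S_4_232_fam : P_S_11_run_5_3_S_4_232.loc 5 11 = true ∧ P_S_11_run_5_3_S_4_232.conn 11 = true :=
  one_fam P_S_11_run_5_3_S_4_232 [1, 4, 2, 3] 5 11 (by decide) (by decide +kernel) (by decide +kernel)

theorem P_S_11_run_5_3_S_4_232_sh : P_S_11_run_5_3_S_4_232.all (shOne 5) = true := by decide +kernel

def S_S_11_run_5_3_S_4_232_0 : SpD 3 := ⟨2, .inl 1, [(-2, .inl 3), (-1, .inr 2), (1, .inl 2)], [(0, -2), (1, 3)]⟩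

theorem S_S_11_run_5_3_S_4_232_0_fam : S_S_11_run_5_3_S_4_232_0.chk 3 11 (P_S_11_run_5_3_S_4_232.acc 11 S_S_11_run_5_3_S_4_232_0.i0) = true := by decide +kernel

theorem W_S_11_run_5_3_S_4_232 (q r : ℕ) (h1 : q = 11) (h5 : r + 2 = q) : Want q r := by
  subst h1
  obtain ⟨hl, hc⟩ := P_S_11_run_5_3_S_4_232_fam
  have hI := inst_one P_S_11_run_5_3_S_4_232 5 11 5 r 4 (by omega) (by omega) (by omega) (by decide +kernel) (by decide) (by omega) (by decide +kernel) P_S_11_run_5_3_S_4_232_sh hl hc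
  exact class_a _ _ (by omega) (by omega) (by omega) hI.1 (hI.2 S_S_11_run_5_3_S_4_232_0 3 2 (by decide) (by show (2 : ℕ) < _; omega) S_S_11_run_5_3_S_4_232_0_fam (blk_2_0_m2_3 _ (by omega) (by omega)))

def P_S_14_even_3_1_S_0 : Pat 1 :=
  ⟨[⟨⟨[.inl 0, .inl (-2), .inl 3], [.inl (-1), .inl 2, .inl (-3), .inr 0, .inl 1, .inl (-4)], [-4, -3, -1], [3, -2, 1, 2, 0], [], []⟩, [1], [3]⟩,
    ⟨⟨[.inl 0, .inl 1, .inl (-2), .inl 3], [.inl (-1), .inl 2, .inl (-3), .inr 0, .inl (-4)], [-4, -1], [3, 2, 1, -2, -3, 0], [], []⟩, [-6], [-1]⟩,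
    ⟨⟨[.inl 0, .inl 2, .inl 3], [.inl (-1), .inl 1, .inr 0, .inl (-2), .inl (-3), .inl (-4)], [-4, -3, -1], [3, 2, 1, -2, 0], [], []⟩, [5], [-3]⟩,
    ⟨⟨[.inl 0, .inl (-3), .inl 3], [.inl (-1), .inl 2, .inl (-2), .inr 0, .inl 1, .inl (-4)], [-4, 1, -2, -3, -1], [3, 2, 0], [], []⟩, [-3], [4]⟩,
    ⟨⟨[.inl 0, .inl (-2), .inl (-3), .inl 1, .inr 0, .inl 3], [.inl (-1), .inl 2, .inl (-4)], [-4, -2, -1], [3, 1, -3, 2, 0], [], []⟩, [4], [2]⟩,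
    ⟨⟨[.inl 0, .inl (-3), .inr 0, .inl 1, .inl 2, .inl 3], [.inl (-1), .inl (-2), .inl (-4)], [-4, -1], [3, -2, -3, 1, 2, 0], [], []⟩, [1], [4]⟩,
    ⟨⟨[.inl 0, .inl (-3), .inl (-2), .inl 3], [.inl (-1), .inl 2, .inl 1, .inr 0, .inl (-4)], [-4, 1, -3, -2, -1], [3, 2, 0], [], []⟩, [-2], [-1]⟩,
    ⟨⟨[.inl 0, .inl 1, .inl 2, .inl 3], [.inl (-1), .inl (-2), .inl (-3), .inr 0, .inl (-4)], [-4, 2, -3, -2, -1], [3, 1, 0], [], []⟩, [-4], [-5]⟩,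
    ⟨⟨[.inl 0, .inr 0, .inl (-3), .inl (-2), .inl 3], [.inl (-1), .inl 2, .inl 1, .inl (-4)], [-4, 1, 2, -1], [3, -3, -2, 0], [], []⟩, [2], [-4]⟩,
    ⟨⟨[.inl 0, .inl 1, .inl (-2), .inl 2, .inl (-3), .inr 0, .inl 3], [.inl (-1), .inl (-4)], [-4, -2, -1], [3, 1, 2, -3, 0], [], []⟩, [-4], [6]⟩,
    ⟨⟨[.inl 0, .inr 0, .inl (-2), .inl 2, .inl 3], [.inl (-1), .inl 1, .inl (-3), .inl (-4)], [-4, -3, -1], [3, 2, 1, -2, 0], [], []⟩, [2], [-2]⟩,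
    ⟨⟨[.inl 0, .inl (-2), .inr 0, .inl 2, .inl 3], [.inl (-1), .inl 1, .inl (-3), .inl (-4)], [-4, -3, -2, -1], [3, 2, 1, 0], [], []⟩, [2], [1]⟩,
    ⟨⟨[.inl 0, .inl 2, .inl 3], [.inl (-1), .inl 1, .inr 0, .inl (-2), .inl (-3), .inl (-4)], [-4, 2, 1, -1], [3, -3, -2, 0], [], []⟩, [-1], [-2]⟩,
    ⟨⟨[.inl 0, .inl (-2), .inl 3], [.inl (-1), .inl (-3), .inl 2, .inl 1, .inr 0, .inl (-4)], [-4, -2, -1], [3, -3, 2, 1, 0], [], []⟩, [3], [-2]⟩],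
   [⟨⟨[.inl 0, .inl (-2), .inl 3], [.inl (-1), .inl (-3), .inl 2, .inl 1, .inr 0, .inl (-4)], [-4, -2, -1], [3, -3, 2, 1, 0], [], []⟩, [3], [-2]⟩]⟩

theorem P_S_14_even_3_1_S_0_fam : P_S_14_even_3_1_S_0.loc 6 14 = true ∧ P_S_14_even_3_1_S_0.conn 14 = true :=
  one_fam P_S_14_even_3_1_S_0 [1, -2, -3] 6 14 (by decide) (by decide +kernel) (by decide +kernel)

theorem P_S_14_even_3_1_S_0_sh : P_S_14_even_3_1_S_0.all (shTwo (-1) 3 false) = true := by decide +kernel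

theorem W_S_14_even_3_1_S_0 (q r : ℕ) (h1 : q = 14) (h3 : (q + r) % 4 = 3) (h4 : 1 ≤ r) (h5 : r + 9 ≤ q) : Want q r := by
  subst h1
  obtain ⟨hl, hc⟩ := P_S_14_even_3_1_S_0_fam
  have hev : decide (Even ((((14 - 2) / 2) - (r - 1) / 2) - 3)) = false := by
    simp only [Nat.even_iff, decide_eq_false_iff_not]
    omega
  have hI := inst_two P_S_14_even_3_1_S_0 6 14 (-1) 3 (((14 - 2) / 2) - (r - 1) / 2) ((14 - 2) / 2) r 0 (by decide) (by omega) (by decide) (by omega) (by omega) (by omega) (by omega) (by decide +kernel) (by decide) (by omega) (by decide +kernel) (by rw [hev]; exact P_S_14_even_3_1_S_0_sh) hl hc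
  exact class_t _ _ (by omega) (tmod _ _ (by omega) (by omega)) hI.1 

def P_S_14_even_2_0_C_0 : Pat 0 :=
  ⟨[⟨⟨[.inl 0, .inl 1, .inl 2], [.inl (-1), .inl (-2), .inl (-3)], [2, -2, 1, -1], [-3, 0], [], []⟩, [], []⟩,
    ⟨⟨[.inl 0, .inl 1, .inl 2], [.inl (-1), .inl (-2), .inl (-3)], [2, -1], [-3, 1, -2, 0], [], []⟩, [], []⟩,
    ⟨⟨[.inl 0, .inl 1, .inl 2], [.inl (-1), .inl (-2), .inl (-3)], [2, -2, 1, -1], [-3, 0], [], []⟩, [], []⟩,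
    ⟨⟨[.inl 0, .inl 1, .inl 2], [.inl (-1), .inl (-2), .inl (-3)], [2, -1], [-3, 1, -2, 0], [], []⟩, [], []⟩,
    ⟨⟨[.inl 0, .inl 1, .inl 2], [.inl (-1), .inl (-2), .inl (-3)], [2, -2, 1, -1], [-3, 0], [], []⟩, [], []⟩,
    ⟨⟨[.inl 0, .inl 1, .inl 2], [.inl (-1), .inl (-2), .inl (-3)], [2, -1], [-3, 1, -2, 0], [], []⟩, [], []⟩,
    ⟨⟨[.inl 0, .inl 1, .inl 2], [.inl (-1), .inl (-2), .inl (-3)], [2, -2, 1, -1], [-3, 0], [], []⟩, [], []⟩,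
    ⟨⟨[.inl 0, .inl 1, .inl 2], [.inl (-1), .inl (-2), .inl (-3)], [2, -1], [-3, 1, -2, 0], [], []⟩, [], []⟩,
    ⟨⟨[.inl 0, .inl 1, .inl 2], [.inl (-1), .inl (-2), .inl (-3)], [2, -2, 1, -1], [-3, 0], [], []⟩, [], []⟩,
    ⟨⟨[.inl 0, .inl 1, .inl 2], [.inl (-1), .inl (-2), .inl (-3)], [2, -1], [-3, 1, -2, 0], [], []⟩, [], []⟩,
    ⟨⟨[.inl 0, .inl 1, .inl 2], [.inl (-1), .inl (-2), .inl (-3)], [2, -2, 1, -1], [-3, 0], [], []⟩, [], []⟩,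
    ⟨⟨[.inl 0, .inl 1, .inl 2], [.inl (-1), .inl (-2), .inl (-3)], [2, -1], [-3, 1, -2, 0], [], []⟩, [], []⟩,
    ⟨⟨[.inl 0, .inl 1, .inl 2], [.inl (-1), .inl (-2), .inl (-3)], [2, -2, 1, -1], [-3, 0], [], []⟩, [], []⟩,
    ⟨⟨[.inl 0, .inl 1, .inl 2], [.inl (-1), .inl (-2), .inl (-3)], [2, -1], [-3, 1, -2, 0], [], []⟩, [], []⟩],
   [⟨⟨[.inl 0, .inl 1, .inl 2], [.inl (-1), .inl (-2), .inl (-3)], [2, -1], [-3, 1, -2, 0], [], []⟩, [], []⟩]⟩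

theorem P_S_14_even_2_0_C_0_fam : P_S_14_even_2_0_C_0.loc 4 14 = true ∧ P_S_14_even_2_0_C_0.conn 14 = true :=
  one_fam P_S_14_even_2_0_C_0 [] 4 14 (by decide) (by decide +kernel) (by decide +kernel)

theorem P_S_14_even_2_0_C_0_sh : P_S_14_even_2_0_C_0.all (shTwo (-1) 2 true) = true := by decide +kernel

theorem W_S_14_even_2_0_C_0 (q r : ℕ) (h1 : q = 14) (h3 : (q + r) % 4 = 2) (h4 : 0 ≤ r) (h5 : r + 6 ≤ q) : Want q r := by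
  subst h1
  obtain ⟨hl, hc⟩ := P_S_14_even_2_0_C_0_fam
  have hev : decide (Even ((((14 - 2) / 2) - (r - 0) / 2) - 2)) = true := by
    simp only [Nat.even_iff, decide_eq_true_eq]
    omega
  have hI := inst_two P_S_14_even_2_0_C_0 4 14 (-1) 2 (((14 - 2) / 2) - (r - 0) / 2) ((14 - 2) / 2) r 0 (by decide) (by omega) (by decide) (by omega) (by omega) (by omega) (by omega) (by decide +kernel) (by decide) (by omega) (by decide +kernel) (by rw [hev]; exact P_S_14_even_2_0_C_0_sh) hl hc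
  exact class_t _ _ (by omega) (tmod _ _ (by omega) (by omega)) hI.1 

end Pool.Agent.KS6_69.GT
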