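import Pool.Agent.KS6_69.GT.TabBlocks
import Pool.Agent.KS6_69.GT.Wrap2
import Pool.Agent.KS6_69.GT.Tab07

set_option autoImplicit false

namespace Pool.Agent.KS6_69.GT

def P_Fee_d2_run_5_3_S_0_20_8_4 : Pat 3 :=
  ⟨[⟨⟨[.inl 0, .inl 1, .inr 0, .inl 4, .inr 1, .inl 2, .inl 3, .inr 2, .inl 5], [], [5, 2, 1, 4, 3, 0], [], [], []⟩, [-1, 3, -1], [1, -1, 2]⟩,
    ⟨⟨[.inl 0, .inr 1, .inl 4, .inl 3, .inr 0, .inl 2, .inl 1, .inr 2, .inl 5], [], [5, 3, 2, 1, 4, 0], [], [], []⟩, [-1, -4, -4], [2, 2, 3]⟩,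
    ⟨⟨[.inl 0, .inr 0, .inl 3, .inr 2, .inl 2, .inl 1, .inr 1, .inl 4, .inl 5], [], [5, 1, 2, 3, 4, 0], [], [], []⟩, [-4, -4, -2], [2, 3, 1]⟩,
    ⟨⟨[.inl 0, .inr 0, .inl 3, .inl 2, .inr 1, .inl 1, .inr 2, .inl 4, .inl 5], [], [5, 1, 4, 3, 2, 0], [], [], []⟩, [-2, -2, -1], [3, -3, 2]⟩,
    ⟨⟨[.inl 0, .inl 1, .inr 0, .inl 4, .inr 1, .inl 3, .inl 2, .inr 2, .inl 5], [], [5, 2, 1, 4, 3, 0], [], [], []⟩, [-2, 3, -3], [1, 2, 2]⟩,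
    ⟨⟨[.inl 0, .inl 1, .inr 1, .inl 4, .inl 3, .inr 0, .inl 2, .inr 2, .inl 5], [], [5, 3, 1, 4, 2, 0], [], [], []⟩, [-1, -3, -2], [2, 4, 4]⟩,
    ⟨⟨[.inl 0, .inr 0, .inl 4, .inl 3, .inr 2, .inl 2, .inl 1, .inr 1, .inl 5], [], [5, 2, 4, 1, 3, 0], [], [], []⟩, [-3, -2, -2], [4, 4, 1]⟩,
    ⟨⟨[.inl 0, .inr 0, .inl 2, .inl 3, .inr 1, .inl 1, .inr 2, .inl 4, .inl 5], [], [5, 3, 1, 4, 2, 0], [], [], []⟩, [-2, 1, -1], [1, -3, 1]⟩],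
   [⟨⟨[.inl 0, .inl 1, .inr 0, .inl 4, .inr 1, .inl 2, .inl 3, .inr 2, .inl 5], [], [5, 2, 1, 4, 3, 0], [], [], []⟩, [-1, 3, -1], [1, -1, 2]⟩,
    ⟨⟨[.inl 0, .inr 1, .inl 4, .inl 3, .inr 0, .inl 2, .inl 1, .inr 2, .inl 5], [], [5, 3, 2, 1, 4, 0], [], [], []⟩, [-1, -4, -4], [2, 4, 4]⟩,
    ⟨⟨[.inl 0, .inr 0, .inl 4, .inl 3, .inr 2, .inl 2, .inl 1, .inr 1, .inl 5], [], [5, 1, 2, 3, 4, 0], [], [], []⟩, [-4, -4, -2], [4, 4, 1]⟩,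
    ⟨⟨[.inl 0, .inr 0, .inl 2, .inl 3, .inr 1, .inl 1, .inr 2, .inl 4, .inl 5], [], [5, 1, 4, 3, 2, 0], [], [], []⟩, [-2, 1, -1], [1, -3, 1]⟩]⟩

theorem P_Fee_d2_run_5_3_S_0_20_8_4_l0 : P_Fee_d2_run_5_3_S_0_20_8_4.locC [1, 3, 0, 2] 5 (20 + 0 * 4) = true := by decide +kernel

theorem P_Fee_d2_run_5_3_S_0_20_8_4_l1 : P_Fee_d2_run_5_3_S_0_20_8_4.locC [1, 3, 0, 2] 5 (20 + 1 * 4) = true := by decide +kernel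

theorem P_Fee_d2_run_5_3_S_0_20_8_4_fam : ∀ t : ℕ, P_Fee_d2_run_5_3_S_0_20_8_4.loc 5 (20 + t * 4) = true ∧ P_Fee_d2_run_5_3_S_0_20_8_4.conn (20 + t * 4) = true :=
  fam_ext2 P_Fee_d2_run_5_3_S_0_20_8_4 [1, 3, 0, 2] 5 20 1 4 4 (by decide) (by decide) (by decide) (by decide) (by decide) (by decide +kernel) (by decide)
    (by
      intro t ht
      interval_cases t
      · exact P_Fee_d2_run_5_3_S_0_20_8_4_l0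
      · exact P_Fee_d2_run_5_3_S_0_20_8_4_l1)
    (by decide +kernel)

theorem P_Fee_d2_run_5_3_S_0_20_8_4_sh : P_Fee_d2_run_5_3_S_0_20_8_4.all (shOne 5) = true := by decide +kernel

theorem W_Fee_d2_run_5_3_S_0_20_8_4 (q r : ℕ) (h1 : 20 ≤ q) (h2 : q % 4 = 0) (h5 : r + 2 = q) : Want q r := by
  obtain ⟨t, rfl⟩ : ∃ t : ℕ, q = 20 + t * 4 := ⟨(q - 20) / 4, by omega⟩
  obtain ⟨hl, hc⟩ := P_Fee_d2_run_5_3_S_0_20_8_4_fam t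
  have hI := inst_one P_Fee_d2_run_5_3_S_0_20_8_4 5 (20 + t * 4) 5 r 0 (by omega) (by omega) (by omega) (by decide +kernel) (by decide) (by omega) (by decide +kernel) P_Fee_d2_run_5_3_S_0_20_8_4_sh hl hc
  exact class_t _ _ (by omega) (tmod _ _ (by omega) (by omega)) hI.1 

def P_Fc_odd_4_0_C_5_21_9_4_333 : Pat 0 :=
  ⟨[⟨⟨[.inl 1, .inl 0, .inl (-2), .inl 3, .inl (-3), .inl 4], [.inl (-1), .inl 2, .inl (-4)], [4, 3, 2, 0, -3, -2, -1], [-4, 1], [-2], []⟩, [], []⟩,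
    ⟨⟨[.inl 1, .inl (-2), .inl 2, .inl (-3), .inl 4], [.inl (-1), .inl 0, .inl 3, .inl (-4)], [4, 2, 3, -1], [-4, -3, 0, -2, 1], [0], []⟩, [], []⟩,
    ⟨⟨[.inl 1, .inl 2, .inl (-2), .inl 4], [.inl (-1), .inl (-3), .inl 0, .inl 3, .inl (-4)], [4, 2, 3, -2, -1], [-4, -3, 0, 1], [], []⟩, [], []⟩,
    ⟨⟨[.inl 1, .inl 3, .inl (-3), .inl (-2), .inl 2, .inl 4], [.inl (-1), .inl 0, .inl (-4)], [4, 3, 2, 0, -1], [-4, -3, -2, 1], [], []⟩, [], []⟩,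
    ⟨⟨[.inl 1, .inl 3, .inl 2, .inl 0, .inl (-3), .inl 4], [.inl (-1), .inl (-2), .inl (-4)], [4, 3, 0, 2, -1], [-4, -2, -3, 1], [0], []⟩, [], []⟩,
    ⟨⟨[.inl 1, .inl 2, .inl 0, .inl (-3), .inl 4], [.inl (-1), .inl (-2), .inl 3, .inl (-4)], [4, 3, 0, 2, -1], [-4, -2, -3, 1], [2], []⟩, [], []⟩,
    ⟨⟨[.inl 1, .inl (-2), .inl 4], [.inl (-1), .inl 0, .inl 2, .inl (-3), .inl 3, .inl (-4)], [4, 3, -1], [-4, -3, -2, 0, 2, 1], [0], []⟩, [], []⟩,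
    ⟨⟨[.inl 1, .inl 3, .inl (-2), .inl 4], [.inl (-1), .inl (-3), .inl 0, .inl 2, .inl (-4)], [4, 2, 3, -1], [-4, -3, -2, 0, 1], [], []⟩, [], []⟩,
    ⟨⟨[.inl 1, .inl 3, .inl 0, .inl (-2), .inl 4], [.inl (-1), .inl (-3), .inl 2, .inl (-4)], [4, 3, 2, 0, -1], [-4, -2, -3, 1], [], []⟩, [], []⟩],
   [⟨⟨[.inl 1, .inl 0, .inl (-2), .inl 3, .inl (-3), .inl 4], [.inl (-1), .inl 2, .inl (-4)], [4, 3, 2, 0, -1], [-4, -2, -3, 1], [], []⟩, [], []⟩,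
    ⟨⟨[.inl 1, .inl (-2), .inl 4], [.inl (-1), .inl 0, .inl 2, .inl (-3), .inl 3, .inl (-4)], [4, 2, 3, -1], [-4, -3, -2, 0, 1], [], []⟩, [], []⟩,
    ⟨⟨[.inl 1, .inl 3, .inl (-2), .inl 4], [.inl (-1), .inl (-3), .inl 0, .inl 2, .inl (-4)], [4, 2, 3, -1], [-4, -3, -2, 0, 1], [], []⟩, [], []⟩,
    ⟨⟨[.inl 1, .inl 3, .inl 0, .inl (-2), .inl 4], [.inl (-1), .inl (-3), .inl 2, .inl (-4)], [4, 3, 2, 0, -1], [-4, -2, -3, 1], [], []⟩, [], []⟩]⟩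

theorem P_Fc_odd_4_0_C_5_21_9_4_333_l0 : P_Fc_odd_4_0_C_5_21_9_4_333.locC [] 5 (21 + 0 * 4) = true := by decide +kernel

theorem P_Fc_odd_4_0_C_5_21_9_4_333_l1 : P_Fc_odd_4_0_C_5_21_9_4_333.locC [] 5 (21 + 1 * 4) = true := by decide +kernel

theorem P_Fc_odd_4_0_C_5_21_9_4_333_fam : ∀ t : ℕ, P_Fc_odd_4_0_C_5_21_9_4_333.loc 5 (21 + t * 4) = true ∧ P_Fc_odd_4_0_C_5_21_9_4_333.conn (21 + t * 4) = true :=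
  fam_ext2 P_Fc_odd_4_0_C_5_21_9_4_333 [] 5 21 1 4 4 (by decide) (by decide) (by decide) (by decide) (by decide) (by decide +kernel) (by decide)
    (by
      intro t ht
      interval_cases t
      · exact P_Fc_odd_4_0_C_5_21_9_4_333_l0
      · exact P_Fc_odd_4_0_C_5_21_9_4_333_l1)
    (by decide +kernel)

theorem P_Fc_odd_4_0_C_5_21_9_4_333_sh : P_Fc_odd_4_0_C_5_21_9_4_333.all (shTwo (0) 4 true) = true := by decide +kernel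

def S_Fc_odd_4_0_C_5_21_9_4_333_0 : SpD 0 := ⟨3, .inl 2, [(3, .inl 3), (1, .inl 1), (-1, .inl (-3)), (-2, .inl (-2))], [(0, -3), (1, -4), (2, -2)]⟩

theorem S_Fc_odd_4_0_C_5_21_9_4_333_0_fam : ∀ t : ℕ, S_Fc_odd_4_0_C_5_21_9_4_333_0.chk 3 (21 + t * 4) (P_Fc_odd_4_0_C_5_21_9_4_333.acc (21 + t * 4) S_Fc_odd_4_0_C_5_21_9_4_333_0.i0) = true :=
  sp_fam P_Fc_odd_4_0_C_5_21_9_4_333 S_Fc_odd_4_0_C_5_21_9_4_333_0 3 21 1 4 (by decide) (by decide) (by decide) (by decide) (by decide +kernel)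

theorem W_Fc_odd_4_0_C_5_21_9_4_333 (q r : ℕ) (h1 : 21 ≤ q) (h2 : q % 4 = 1) (h3 : (q + r) % 4 = 1) (h4 : 0 ≤ r) (h5 : r + 9 ≤ q) : Want q r := by
  obtain ⟨t, rfl⟩ : ∃ t : ℕ, q = 21 + t * 4 := ⟨(q - 21) / 4, by omega⟩
  obtain ⟨hl, hc⟩ := P_Fc_odd_4_0_C_5_21_9_4_333_fam t
  have hev : decide (Even (((((21 + t * 4) - 1) / 2) - (r - 0) / 2) - 4)) = true := by
    simp only [Nat.even_iff, decide_eq_true_eq]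
    omega
  have hI := inst_two P_Fc_odd_4_0_C_5_21_9_4_333 5 (21 + t * 4) (0) 4 ((((21 + t * 4) - 1) / 2) - (r - 0) / 2) (((21 + t * 4) - 1) / 2) r 5 (by decide) (by omega) (by decide) (by omega) (by omega) (by omega) (by omega) (by decide +kernel) (by decide) (by omega) (by decide +kernel) (by rw [hev]; exact P_Fc_odd_4_0_C_5_21_9_4_333_sh) hl hc
  exact class_c _ _ (by omega) (by omega) (by omega) hI.1 (hI.2 S_Fc_odd_4_0_C_5_21_9_4_333_0 3 2 (by decide) (by show (3 : ℕ) < _; omega) (S_Fc_odd_4_0_C_5_21_9_4_333_0_fam t) (blk_2_1_m3_m4_m2 _ (by omega) (by omega)))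

def P_S_14_run_4_3_S_0 : Pat 3 :=
  ⟨[⟨⟨[.inl 0, .inr 0, .inl 1, .inr 1, .inl 3, .inl 2, .inr 2, .inl 4], [], [4, 2, 1, 3, 0], [], [], []⟩, [-3, -2, -2], [1, 2, 2]⟩,
    ⟨⟨[.inl 0, .inr 0, .inl 3, .inr 1, .inl 1, .inl 2, .inr 2, .inl 4], [], [4, 2, 3, 1, 0], [], [], []⟩, [-1, 2, -2], [3, -2, 2]⟩,
    ⟨⟨[.inl 0, .inr 0, .inl 1, .inr 1, .inl 3, .inl 2, .inr 2, .inl 4], [], [4, 2, 1, 3, 0], [], [], []⟩, [-3, -2, -2], [1, 2, 2]⟩,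
    ⟨⟨[.inl 0, .inr 0, .inl 3, .inr 1, .inl 1, .inl 2, .inr 2, .inl 4], [], [4, 2, 3, 1, 0], [], [], []⟩, [-1, 2, -2], [3, -2, 2]⟩,
    ⟨⟨[.inl 0, .inr 0, .inl 1, .inr 1, .inl 3, .inl 2, .inr 2, .inl 4], [], [4, 2, 1, 3, 0], [], [], []⟩, [-3, -2, -2], [1, 2, 3]⟩,
    ⟨⟨[.inl 0, .inr 0, .inl 3, .inr 1, .inl 1, .inl 2, .inr 2, .inl 4], [], [4, 2, 3, 1, 0], [], [], []⟩, [-1, 1, -2], [3, -2, 1]⟩,
    ⟨⟨[.inl 0, .inr 0, .inl 1, .inr 1, .inl 2, .inl 3, .inr 2, .inl 4], [], [4, 2, 1, 3, 0], [], [], []⟩, [-3, -2, -1], [1, -1, 2]⟩,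
    ⟨⟨[.inl 0, .inr 0, .inl 3, .inr 1, .inl 2, .inl 1, .inr 2, .inl 4], [], [4, 2, 3, 1, 0], [], [], []⟩, [-1, 2, -3], [3, 1, 2]⟩,
    ⟨⟨[.inl 0, .inr 0, .inl 1, .inr 1, .inl 3, .inl 2, .inr 2, .inl 4], [], [4, 1, 2, 3, 0], [], [], []⟩, [-3, -1, -2], [1, 2, 2]⟩,
    ⟨⟨[.inl 0, .inr 0, .inl 3, .inr 1, .inl 1, .inl 2, .inr 2, .inl 4], [], [4, 3, 2, 1, 0], [], [], []⟩, [-1, 2, -2], [3, -2, 2]⟩,
    ⟨⟨[.inl 0, .inr 0, .inl 1, .inr 1, .inl 3, .inl 2, .inr 2, .inl 4], [], [4, 2, 1, 3, 0], [], [], []⟩, [-3, -2, -2], [1, 2, 2]⟩,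
    ⟨⟨[.inl 0, .inr 0, .inl 3, .inr 1, .inl 1, .inl 2, .inr 2, .inl 4], [], [4, 2, 3, 1, 0], [], [], []⟩, [-1, 2, -2], [3, -2, 2]⟩,
    ⟨⟨[.inl 0, .inr 0, .inl 1, .inr 1, .inl 3, .inl 2, .inr 2, .inl 4], [], [4, 2, 1, 3, 0], [], [], []⟩, [-3, -2, -2], [1, 2, 2]⟩,
    ⟨⟨[.inl 0, .inr 0, .inl 3, .inr 1, .inl 1, .inl 2, .inr 2, .inl 4], [], [4, 2, 3, 1, 0], [], [], []⟩, [-1, 2, -2], [3, -2, 2]⟩],
   [⟨⟨[.inl 0, .inr 0, .inl 3, .inr 1, .inl 1, .inl 2, .inr 2, .inl 4], [], [4, 2, 3, 1, 0], [], [], []⟩, [-1, 2, -2], [3, -2, 2]⟩]⟩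

theorem P_S_14_run_4_3_S_0_fam : P_S_14_run_4_3_S_0.loc 4 14 = true ∧ P_S_14_run_4_3_S_0.conn 14 = true :=
  one_fam P_S_14_run_4_3_S_0 [1, 2, 3] 4 14 (by decide) (by decide +kernel) (by decide +kernel)

theorem P_S_14_run_4_3_S_0_sh : P_S_14_run_4_3_S_0.all (shOne 4) = true := by decide +kernel

theorem W_S_14_run_4_3_S_0 (q r : ℕ) (h1 : q = 14) (h5 : r + 1 = q) : Want q r := by
  subst h1
  obtain ⟨hl, hc⟩ := P_S_14_run_4_3_S_0_fam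
  have hI := inst_one P_S_14_run_4_3_S_0 4 14 4 r 0 (by omega) (by omega) (by omega) (by decide +kernel) (by decide) (by omega) (by decide +kernel) P_S_14_run_4_3_S_0_sh hl hc
  exact class_t _ _ (by omega) (tmod _ _ (by omega) (by omega)) hI.1 

def P_S_14_run_4_2_S_0 : Pat 2 :=
  ⟨[⟨⟨[.inl 0, .inr 0, .inl 3, .inl 2, .inl 1, .inr 1, .inl 4], [], [4, 1, 2, 3, 0], [], [], []⟩, [-3, -1], [1, 3]⟩,
    ⟨⟨[.inl 0, .inl 1, .inr 1, .inl 2, .inr 0, .inl 3, .inl 4], [], [4, 3, 2, 1, 0], [], [], []⟩, [-1, -3], [3, 1]⟩,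
    ⟨⟨[.inl 0, .inr 0, .inl 3, .inl 2, .inl 1, .inr 1, .inl 4], [], [4, 1, 2, 3, 0], [], [], []⟩, [-3, -1], [1, 3]⟩,
    ⟨⟨[.inl 0, .inl 1, .inr 1, .inl 2, .inr 0, .inl 3, .inl 4], [], [4, 3, 2, 1, 0], [], [], []⟩, [-1, -3], [3, 1]⟩,
    ⟨⟨[.inl 0, .inr 0, .inl 3, .inl 2, .inl 1, .inr 1, .inl 4], [], [4, 1, 2, 3, 0], [], [], []⟩, [-3, -1], [1, 3]⟩,
    ⟨⟨[.inl 0, .inl 1, .inr 1, .inl 2, .inr 0, .inl 3, .inl 4], [], [4, 3, 2, 1, 0], [], [], []⟩, [-1, -3], [3, 1]⟩,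
    ⟨⟨[.inl 0, .inr 0, .inl 3, .inl 2, .inl 1, .inr 1, .inl 4], [], [4, 1, 2, 3, 0], [], [], []⟩, [-3, -1], [1, 3]⟩,
    ⟨⟨[.inl 0, .inl 1, .inr 1, .inl 2, .inr 0, .inl 3, .inl 4], [], [4, 3, 2, 1, 0], [], [], []⟩, [-1, -3], [3, 1]⟩,
    ⟨⟨[.inl 0, .inr 0, .inl 3, .inl 2, .inl 1, .inr 1, .inl 4], [], [4, 1, 2, 3, 0], [], [], []⟩, [-3, -1], [1, 3]⟩,
    ⟨⟨[.inl 0, .inl 1, .inr 1, .inl 2, .inr 0, .inl 3, .inl 4], [], [4, 3, 2, 1, 0], [], [], []⟩, [-1, -3], [3, 1]⟩,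
    ⟨⟨[.inl 0, .inr 0, .inl 3, .inl 2, .inl 1, .inr 1, .inl 4], [], [4, 1, 2, 3, 0], [], [], []⟩, [-3, -1], [1, 3]⟩,
    ⟨⟨[.inl 0, .inl 1, .inr 1, .inl 2, .inr 0, .inl 3, .inl 4], [], [4, 3, 2, 1, 0], [], [], []⟩, [-1, -3], [3, 1]⟩,
    ⟨⟨[.inl 0, .inr 0, .inl 3, .inl 2, .inl 1, .inr 1, .inl 4], [], [4, 1, 2, 3, 0], [], [], []⟩, [-3, -1], [1, 3]⟩,
    ⟨⟨[.inl 0, .inl 1, .inr 1, .inl 2, .inr 0, .inl 3, .inl 4], [], [4, 3, 2, 1, 0], [], [], []⟩, [-1, -3], [3, 1]⟩],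
   [⟨⟨[.inl 0, .inl 1, .inr 1, .inl 2, .inr 0, .inl 3, .inl 4], [], [4, 3, 2, 1, 0], [], [], []⟩, [-1, -3], [3, 1]⟩]⟩

theorem P_S_14_run_4_2_S_0_fam : P_S_14_run_4_2_S_0.loc 4 14 = true ∧ P_S_14_run_4_2_S_0.conn 14 = true :=
  one_fam P_S_14_run_4_2_S_0 [1, 3] 4 14 (by decide) (by decide +kernel) (by decide +kernel)

theorem P_S_14_run_4_2_S_0_sh : P_S_14_run_4_2_S_0.all (shOne 4) = true := by decide +kernel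

theorem W_S_14_run_4_2_S_0 (q r : ℕ) (h1 : q = 14) (h5 : r + 2 = q) : Want q r := by
  subst h1
  obtain ⟨hl, hc⟩ := P_S_14_run_4_2_S_0_fam
  have hI := inst_one P_S_14_run_4_2_S_0 4 14 4 r 0 (by omega) (by omega) (by omega) (by decide +kernel) (by decide) (by omega) (by decide +kernel) P_S_14_run_4_2_S_0_sh hl hc
  exact class_t _ _ (by omega) (tmod _ _ (by omega) (by omega)) hI.1 

def P_S_13_odd_4_1_C_0 : Pat 1 :=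
  ⟨[⟨⟨[.inl 1, .inl 0, .inl 2, .inl (-2), .inl 4], [.inl (-1), .inl 3, .inl (-3), .inr 0, .inl (-4)], [4, 3, 2, -3, -2, -1], [-4, 0, 1], [], []⟩, [1], [-6]⟩,
    ⟨⟨[.inl 1, .inl 0, .inl 2, .inl (-2), .inl 4], [.inl (-1), .inl 3, .inl (-3), .inr 0, .inl (-4)], [4, 3, -2, -1], [-4, -3, 0, 2, 1], [], []⟩, [1], [-1]⟩,
    ⟨⟨[.inl 1, .inl 0, .inl 2, .inl (-2), .inl 4], [.inl (-1), .inl 3, .inl (-3), .inr 0, .inl (-4)], [4, 2, -2, -1], [-4, 0, -3, 3, 1], [], []⟩, [-3], [-1]⟩,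
    ⟨⟨[.inl 1, .inl 2, .inl (-2), .inr 0, .inl 0, .inl 4], [.inl (-1), .inl 3, .inl (-3), .inl (-4)], [4, 3, 2, -1], [-4, 0, -3, -2, 1], [], []⟩, [-5], [3]⟩,
    ⟨⟨[.inl 1, .inl 3, .inl 4], [.inl (-1), .inl (-3), .inl 0, .inr 0, .inl 2, .inl (-2), .inl (-4)], [4, 3, 2, -2, 0, -1], [-4, -3, 1], [], []⟩, [2], [5]⟩,
    ⟨⟨[.inl 1, .inl 2, .inl 0, .inr 0, .inl (-3), .inl (-2), .inl 3, .inl 4], [.inl (-1), .inl (-4)], [4, 3, 2, -2, -3, -1], [-4, 0, 1], [], []⟩, [4], [-6]⟩,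
    ⟨⟨[.inl 1, .inl 4], [.inl (-1), .inl 3, .inl 0, .inl 2, .inl (-3), .inr 0, .inl (-2), .inl (-4)], [4, 3, 2, -3, -2, 0, -1], [-4, 1], [], []⟩, [-3], [-2]⟩,
    ⟨⟨[.inl 1, .inl 3, .inl (-2), .inl (-3), .inl 4], [.inl (-1), .inl 2, .inr 0, .inl 0, .inl (-4)], [4, 0, -1], [-4, -2, 3, 2, -3, 1], [], []⟩, [6], [1]⟩,
    ⟨⟨[.inl 1, .inl (-3), .inl 2, .inl 4], [.inl (-1), .inr 0, .inl 0, .inl (-2), .inl 3, .inl (-4)], [4, -1], [-4, 3, 2, 0, -2, -3, 1], [], []⟩, [-1], [2]⟩,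
    ⟨⟨[.inl 1, .inl 3, .inl 4], [.inl (-1), .inl (-2), .inl 0, .inl 2, .inl (-3), .inr 0, .inl (-4)], [4, -3, 0, -2, -1], [-4, 2, 3, 1], [], []⟩, [-5], [-4]⟩,
    ⟨⟨[.inl 1, .inl 4], [.inl (-1), .inl (-2), .inr 0, .inl 3, .inl 2, .inl 0, .inl (-3), .inl (-4)], [4, 0, 2, 3, -1], [-4, -3, -2, 1], [], []⟩, [-2], [1]⟩,
    ⟨⟨[.inl 1, .inl 2, .inr 0, .inl 3, .inl 0, .inl 4], [.inl (-1), .inl (-3), .inl (-2), .inl (-4)], [4, 3, 2, -1], [-4, -3, -2, 0, 1], [], []⟩, [-1], [5]⟩,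
    ⟨⟨[.inl 1, .inl 2, .inl 3, .inr 0, .inl 0, .inl (-2), .inl 4], [.inl (-1), .inl (-3), .inl (-4)], [4, 2, 3, 0, -3, -2, -1], [-4, 1], [], []⟩, [6], [3]⟩],
   [⟨⟨[.inl 1, .inl 2, .inl 3, .inr 0, .inl 0, .inl (-2), .inl 4], [.inl (-1), .inl (-3), .inl (-4)], [4, 2, 3, 0, -3, -2, -1], [-4, 1], [], []⟩, [6], [3]⟩]⟩

theorem P_S_13_odd_4_1_C_0_fam : P_S_13_odd_4_1_C_0.loc 7 13 = true ∧ P_S_13_odd_4_1_C_0.conn 13 = true :=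
  one_fam P_S_13_odd_4_1_C_0 [0, -3, 2, -2] 7 13 (by decide) (by decide +kernel) (by decide +kernel)

theorem P_S_13_odd_4_1_C_0_sh : P_S_13_odd_4_1_C_0.all (shTwo (0) 4 true) = true := by decide +kernel

theorem W_S_13_odd_4_1_C_0 (q r : ℕ) (h1 : q = 13) (h3 : (q + r) % 4 = 2) (h4 : 1 ≤ r) (h5 : r + 8 ≤ q) : Want q r := by
  subst h1
  obtain ⟨hl, hc⟩ := P_S_13_odd_4_1_C_0_fam
  have hev : decide (Even ((((13 - 1) / 2) - (r - 1) / 2) - 4)) = true := by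
    simp only [Nat.even_iff, decide_eq_true_eq]
    omega
  have hI := inst_two P_S_13_odd_4_1_C_0 7 13 (0) 4 (((13 - 1) / 2) - (r - 1) / 2) ((13 - 1) / 2) r 0 (by decide) (by omega) (by decide) (by omega) (by omega) (by omega) (by omega) (by decide +kernel) (by decide) (by omega) (by decide +kernel) (by rw [hev]; exact P_S_13_odd_4_1_C_0_sh) hl hc
  exact class_t _ _ (by omega) (tmod _ _ (by omega) (by omega)) hI.1 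

def P_S_10_even_3_1_C_0 : Pat 1 :=
  ⟨[⟨⟨[.inl 0, .inl 1, .inl 2, .inl 3], [.inl (-1), .inl (-3), .inl (-2), .inr 0, .inl (-4)], [3, -1], [-4, 1, 2, -2, -3, 0], [], []⟩, [-4], [-1]⟩,
    ⟨⟨[.inl 0, .inr 0, .inl (-2), .inl 2, .inl 1, .inl 3], [.inl (-1), .inl (-3), .inl (-4)], [3, -1], [-4, 2, -3, 1, -2, 0], [], []⟩, [2], [-4]⟩,
    ⟨⟨[.inl 0, .inl 1, .inl (-3), .inl (-2), .inr 0, .inl 2, .inl 3], [.inl (-1), .inl (-4)], [3, -3, -1], [-4, 1, 2, -2, 0], [], []⟩, [-4], [3]⟩,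
    ⟨⟨[.inl 0, .inl 2, .inl 1, .inl 3], [.inl (-1), .inr 0, .inl (-2), .inl (-3), .inl (-4)], [3, 2, 1, -1], [-4, -3, -2, 0], [], []⟩, [2], [-2]⟩,
    ⟨⟨[.inl 0, .inl 2, .inl 1, .inr 0, .inl 3], [.inl (-1), .inl (-2), .inl (-3), .inl (-4)], [3, -2, 2, -1], [-4, 1, -3, 0], [], []⟩, [5], [4]⟩,
    ⟨⟨[.inl 0, .inl (-2), .inl 1, .inl 2, .inl 3], [.inl (-1), .inr 0, .inl (-3), .inl (-4)], [3, -1], [-4, 1, -3, -2, 2, 0], [], []⟩, [-3], [-2]⟩,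
    ⟨⟨[.inl 0, .inl (-3), .inr 0, .inl 2, .inl 1, .inl 3], [.inl (-1), .inl (-2), .inl (-4)], [3, -2, 2, -1], [-4, -3, 1, 0], [], []⟩, [1], [4]⟩,
    ⟨⟨[.inl 0, .inl 1, .inl 3], [.inl (-1), .inl (-3), .inl (-2), .inl 2, .inr 0, .inl (-4)], [3, -1], [-4, -3, 1, 2, -2, 0], [], []⟩, [4], [-1]⟩,
    ⟨⟨[.inl 0, .inl 3], [.inl (-1), .inr 0, .inl 2, .inl 1, .inl (-3), .inl (-2), .inl (-4)], [3, 2, -2, -3, 1, -1], [-4, 0], [], []⟩, [-4], [4]⟩,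
    ⟨⟨[.inl 0, .inl 1, .inl 2, .inl 3], [.inl (-1), .inl (-2), .inl (-3), .inr 0, .inl (-4)], [3, -1], [-4, -3, -2, 2, 1, 0], [], []⟩, [1], [-5]⟩],
   [⟨⟨[.inl 0, .inl 1, .inl 2, .inl 3], [.inl (-1), .inl (-2), .inl (-3), .inr 0, .inl (-4)], [3, -1], [-4, -3, -2, 2, 1, 0], [], []⟩, [1], [-5]⟩]⟩

theorem P_S_10_even_3_1_C_0_fam : P_S_10_even_3_1_C_0.loc 6 10 = true ∧ P_S_10_even_3_1_C_0.conn 10 = true :=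
  one_fam P_S_10_even_3_1_C_0 [2, -3, 0, 1, -1] 6 10 (by decide) (by decide +kernel) (by decide +kernel)

theorem P_S_10_even_3_1_C_0_sh : P_S_10_even_3_1_C_0.all (shTwo (-1) 3 true) = true := by decide +kernel

theorem W_S_10_even_3_1_C_0 (q r : ℕ) (h1 : q = 10) (h3 : (q + r) % 4 = 1) (h4 : 1 ≤ r) (h5 : r + 7 ≤ q) : Want q r := by
  subst h1
  obtain ⟨hl, hc⟩ := P_S_10_even_3_1_C_0_fam
  have hev : decide (Even ((((10 - 2) / 2) - (r - 1) / 2) - 3)) = true := by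
    simp only [Nat.even_iff, decide_eq_true_eq]
    omega
  have hI := inst_two P_S_10_even_3_1_C_0 6 10 (-1) 3 (((10 - 2) / 2) - (r - 1) / 2) ((10 - 2) / 2) r 0 (by decide) (by omega) (by decide) (by omega) (by omega) (by omega) (by omega) (by decide +kernel) (by decide) (by omega) (by decide +kernel) (by rw [hev]; exact P_S_10_even_3_1_C_0_sh) hl hc
  exact class_t _ _ (by omega) (tmod _ _ (by omega) (by omega)) hI.1 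

end Pool.Agent.KS6_69.GT
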