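import Pool.Agent.KS6_69.GT.TabBlocks
import Pool.Agent.KS6_69.GT.Wrap2
import Pool.Agent.KS6_69.GT.Tab08

set_option autoImplicit false

namespace Pool.Agent.KS6_69.GT

def P_Ft_d4_odd_3_3_C_0_15_7_2 : Pat 3 :=
  ⟨[⟨⟨[.inl 1, .inr 2, .inl 0, .inr 1, .inl 2, .inl 3], [.inl (-1), .inr 0, .inl (-2), .inl (-3)], [3, -2, -1], [-3, 2, 0, 1], [], []⟩, [1, -2, 1], [-1, 2, -1]⟩,
    ⟨⟨[.inl 1, .inr 2, .inl 0, .inr 1, .inl 2, .inl 3], [.inl (-1), .inr 0, .inl (-2), .inl (-3)], [3, -2, -1], [-3, 2, 0, 1], [], []⟩, [1, -2, 1], [-1, 2, -1]⟩,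
    ⟨⟨[.inl 1, .inr 2, .inl 0, .inr 1, .inl 2, .inl 3], [.inl (-1), .inr 0, .inl (-2), .inl (-3)], [3, -2, -1], [-3, 2, 0, 1], [], []⟩, [1, -2, 1], [-1, 2, -1]⟩,
    ⟨⟨[.inl 1, .inr 2, .inl 0, .inr 1, .inl 2, .inl 3], [.inl (-1), .inr 0, .inl (-2), .inl (-3)], [3, -2, -1], [-3, 2, 0, 1], [], []⟩, [1, -2, 1], [-1, 2, -1]⟩,
    ⟨⟨[.inl 1, .inr 2, .inl 0, .inr 1, .inl 2, .inl 3], [.inl (-1), .inr 0, .inl (-2), .inl (-3)], [3, -2, -1], [-3, 2, 0, 1], [], []⟩, [1, -2, 1], [-1, 2, -1]⟩,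
    ⟨⟨[.inl 1, .inr 2, .inl 0, .inr 1, .inl 2, .inl 3], [.inl (-1), .inr 0, .inl (-2), .inl (-3)], [3, -2, -1], [-3, 2, 0, 1], [], []⟩, [1, -2, 1], [-1, 2, -1]⟩,
    ⟨⟨[.inl 1, .inr 2, .inl 0, .inr 1, .inl 2, .inl 3], [.inl (-1), .inr 0, .inl (-2), .inl (-3)], [3, -2, -1], [-3, 2, 0, 1], [], []⟩, [1, -2, 1], [-1, 2, -1]⟩],
   [⟨⟨[.inl 1, .inr 2, .inl 0, .inr 1, .inl 2, .inl 3], [.inl (-1), .inr 0, .inl (-2), .inl (-3)], [3, -2, -1], [-3, 2, 0, 1], [], []⟩, [1, -2, 1], [-1, 2, -1]⟩,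
    ⟨⟨[.inl 1, .inr 2, .inl 0, .inr 1, .inl 2, .inl 3], [.inl (-1), .inr 0, .inl (-2), .inl (-3)], [3, -2, -1], [-3, 2, 0, 1], [], []⟩, [1, -2, 1], [-1, 2, -1]⟩]⟩

theorem P_Ft_d4_odd_3_3_C_0_15_7_2_l0 : P_Ft_d4_odd_3_3_C_0_15_7_2.locC [0, -1] 5 (15 + 0 * 2) = true := by decide +kernel

theorem P_Ft_d4_odd_3_3_C_0_15_7_2_l1 : P_Ft_d4_odd_3_3_C_0_15_7_2.locC [0, -1] 5 (15 + 1 * 2) = true := by decide +kernel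

theorem P_Ft_d4_odd_3_3_C_0_15_7_2_l2 : P_Ft_d4_odd_3_3_C_0_15_7_2.locC [0, -1] 5 (15 + 2 * 2) = true := by decide +kernel

theorem P_Ft_d4_odd_3_3_C_0_15_7_2_fam : ∀ t : ℕ, P_Ft_d4_odd_3_3_C_0_15_7_2.loc 5 (15 + t * 2) = true ∧ P_Ft_d4_odd_3_3_C_0_15_7_2.conn (15 + t * 2) = true :=
  fam_ext2 P_Ft_d4_odd_3_3_C_0_15_7_2 [0, -1] 5 15 2 8 2 (by decide) (by decide) (by decide) (by decide) (by decide) (by decide +kernel) (by decide)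
    (by
      intro t ht
      interval_cases t
      · exact P_Ft_d4_odd_3_3_C_0_15_7_2_l0
      · exact P_Ft_d4_odd_3_3_C_0_15_7_2_l1
      · exact P_Ft_d4_odd_3_3_C_0_15_7_2_l2)
    (by decide +kernel)

theorem P_Ft_d4_odd_3_3_C_0_15_7_2_sh : P_Ft_d4_odd_3_3_C_0_15_7_2.all (shTwo (0) 3 true) = true := by decide +kernel

theorem W_Ft_d4_odd_3_3_C_0_15_7_2 (q r : ℕ) (h1 : 15 ≤ q) (h2 : q % 2 = 1) (h3 : (q + r) % 4 = 2) (h4 : 3 ≤ r) (h5 : r + 4 ≤ q) : Want q r := by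
  obtain ⟨t, rfl⟩ : ∃ t : ℕ, q = 15 + t * 2 := ⟨(q - 15) / 2, by omega⟩
  obtain ⟨hl, hc⟩ := P_Ft_d4_odd_3_3_C_0_15_7_2_fam t
  have hev : decide (Even (((((15 + t * 2) - 1) / 2) - (r - 3) / 2) - 3)) = true := by
    simp only [Nat.even_iff, decide_eq_true_eq]
    omega
  have hI := inst_two P_Ft_d4_odd_3_3_C_0_15_7_2 5 (15 + t * 2) (0) 3 ((((15 + t * 2) - 1) / 2) - (r - 3) / 2) (((15 + t * 2) - 1) / 2) r 0 (by decide) (by omega) (by decide) (by omega) (by omega) (by omega) (by omega) (by decide +kernel) (by decide) (by omega) (by decide +kernel) (by rw [hev]; exact P_Ft_d4_odd_3_3_C_0_15_7_2_sh) hl hc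
  exact class_t _ _ (by omega) (tmod _ _ (by omega) (by omega)) hI.1 

def P_Fe_even_3_1_C_4_20_8_4_242 : Pat 1 :=
  ⟨[⟨⟨[.inl 0, .inl 1, .inl (-3), .inl 3], [.inl (-1), .inl (-2), .inl 2, .inr 0, .inl (-4)], [3, 1, -3, -1], [-4, 2, -2, 0], [], []⟩, [-1], [-6]⟩,
    ⟨⟨[.inl 0, .inl 3], [.inl (-1), .inl 1, .inl (-3), .inl (-2), .inr 0, .inl 2, .inl (-4)], [3, 2, 1, -1], [-4, -3, -2, 0], [], []⟩, [-4], [3]⟩,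
    ⟨⟨[.inl 0, .inl 1, .inl 2, .inr 0, .inl 3], [.inl (-1), .inl (-2), .inl (-3), .inl (-4)], [3, 2, 1, -1], [-4, -2, -3, 0], [-4], []⟩, [6], [1]⟩,
    ⟨⟨[.inl 0, .inl 1, .inl (-2), .inl 2, .inr 0, .inl 3], [.inl (-1), .inl (-3), .inl (-4)], [3, 2, -1], [-4, -3, 1, -2, 0], [-3], []⟩, [-1], [2]⟩,
    ⟨⟨[.inl 0, .inl 2, .inl (-2), .inl 1, .inl (-3), .inl 3], [.inl (-1), .inr 0, .inl (-4)], [3, 1, -1], [-4, 2, -2, -3, 0], [2], []⟩, [-3], [-6]⟩,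
    ⟨⟨[.inl 0, .inl 3], [.inl (-1), .inl (-2), .inl (-3), .inl 1, .inr 0, .inl 2, .inl (-4)], [3, 2, 1, -1], [-4, -3, -2, 0], [1], []⟩, [-2], [4]⟩,
    ⟨⟨[.inl 0, .inl 1, .inl 2, .inr 0, .inl 3], [.inl (-1), .inl (-3), .inl (-2), .inl (-4)], [3, 1, 2, -1], [-4, -3, -2, 0], [], []⟩, [6], [1]⟩,
    ⟨⟨[.inl 0, .inl 1, .inl (-2), .inl 2, .inr 0, .inl 3], [.inl (-1), .inl (-3), .inl (-4)], [3, 2, -2, -3, 1, -1], [-4, 0], [], []⟩, [-1], [1]⟩],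
   [⟨⟨[.inl 0, .inl 1, .inl (-3), .inl 3], [.inl (-1), .inl (-2), .inl 2, .inr 0, .inl (-4)], [3, 1, -3, -1], [-4, 2, -2, 0], [], []⟩, [-1], [-6]⟩,
    ⟨⟨[.inl 0, .inl 3], [.inl (-1), .inl 1, .inl (-3), .inl (-2), .inr 0, .inl 2, .inl (-4)], [3, 2, 1, -1], [-4, -3, -2, 0], [], []⟩, [-4], [4]⟩,
    ⟨⟨[.inl 0, .inl 1, .inl 2, .inr 0, .inl 3], [.inl (-1), .inl (-2), .inl (-3), .inl (-4)], [3, 2, 1, -1], [-4, -3, -2, 0], [], []⟩, [6], [1]⟩,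
    ⟨⟨[.inl 0, .inl 1, .inl (-2), .inl 2, .inr 0, .inl 3], [.inl (-1), .inl (-3), .inl (-4)], [3, 2, -2, -3, 1, -1], [-4, 0], [], []⟩, [-1], [1]⟩]⟩

theorem P_Fe_even_3_1_C_4_20_8_4_242_l0 : P_Fe_even_3_1_C_4_20_8_4_242.locC [2, 1] 6 (20 + 0 * 4) = true := by decide +kernel

theorem P_Fe_even_3_1_C_4_20_8_4_242_l1 : P_Fe_even_3_1_C_4_20_8_4_242.locC [2, 1] 6 (20 + 1 * 4) = true := by decide +kernel

theorem P_Fe_even_3_1_C_4_20_8_4_242_fam : ∀ t : ℕ, P_Fe_even_3_1_C_4_20_8_4_242.loc 6 (20 + t * 4) = true ∧ P_Fe_even_3_1_C_4_20_8_4_242.conn (20 + t * 4) = true :=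
  fam_ext2 P_Fe_even_3_1_C_4_20_8_4_242 [2, 1] 6 20 1 5 4 (by decide) (by decide) (by decide) (by decide) (by decide) (by decide +kernel) (by decide)
    (by
      intro t ht
      interval_cases t
      · exact P_Fe_even_3_1_C_4_20_8_4_242_l0
      · exact P_Fe_even_3_1_C_4_20_8_4_242_l1)
    (by decide +kernel)

theorem P_Fe_even_3_1_C_4_20_8_4_242_sh : P_Fe_even_3_1_C_4_20_8_4_242.all (shTwo (-1) 3 true) = true := by decide +kernel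

def S_Fe_even_3_1_C_4_20_8_4_242_0 : SpD 1 := ⟨2, .inl 2, [(4, .inl 0), (2, .inl 3), (4, .inl 1)], [(0, -2), (1, 2)]⟩

theorem S_Fe_even_3_1_C_4_20_8_4_242_0_fam : ∀ t : ℕ, S_Fe_even_3_1_C_4_20_8_4_242_0.chk 4 (20 + t * 4) (P_Fe_even_3_1_C_4_20_8_4_242.acc (20 + t * 4) S_Fe_even_3_1_C_4_20_8_4_242_0.i0) = true :=
  sp_fam P_Fe_even_3_1_C_4_20_8_4_242 S_Fe_even_3_1_C_4_20_8_4_242_0 4 20 1 4 (by decide) (by decide) (by decide) (by decide) (by decide +kernel)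

theorem W_Fe_even_3_1_C_4_20_8_4_242 (q r : ℕ) (h1 : 20 ≤ q) (h2 : q % 4 = 0) (h3 : (q + r) % 4 = 1) (h4 : 1 ≤ r) (h5 : r + 7 ≤ q) : Want q r := by
  obtain ⟨t, rfl⟩ : ∃ t : ℕ, q = 20 + t * 4 := ⟨(q - 20) / 4, by omega⟩
  obtain ⟨hl, hc⟩ := P_Fe_even_3_1_C_4_20_8_4_242_fam t
  have hev : decide (Even (((((20 + t * 4) - 2) / 2) - (r - 1) / 2) - 3)) = true := by
    simp only [Nat.even_iff, decide_eq_true_eq]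
    omega
  have hI := inst_two P_Fe_even_3_1_C_4_20_8_4_242 6 (20 + t * 4) (-1) 3 ((((20 + t * 4) - 2) / 2) - (r - 1) / 2) (((20 + t * 4) - 2) / 2) r 4 (by decide) (by omega) (by decide) (by omega) (by omega) (by omega) (by omega) (by decide +kernel) (by decide) (by omega) (by decide +kernel) (by rw [hev]; exact P_Fe_even_3_1_C_4_20_8_4_242_sh) hl hc
  exact class_e _ _ (by omega) (by omega) (by omega) hI.1 (hI.2 S_Fe_even_3_1_C_4_20_8_4_242_0 4 3 (by decide) (by show (2 : ℕ) < _; omega) (S_Fe_even_3_1_C_4_20_8_4_242_0_fam t) (blk_3_1_m2_2 _ (by omega) (by omega)))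

def P_S_16_run_5_2_S_4_242 : Pat 2 :=
  ⟨[⟨⟨[.inl 0, .inl 1, .inr 1, .inl 4, .inl 3, .inl 2, .inr 0, .inl 5], [], [5, 4, 3, 1, 2, 0], [], [], []⟩, [-2, -4], [1, 3]⟩,
    ⟨⟨[.inl 0, .inl 1, .inl 2, .inr 1, .inl 4, .inr 0, .inl 3, .inl 5], [], [5, 1, 3, 4, 2, 0], [], [], []⟩, [-1, -3], [3, 1]⟩,
    ⟨⟨[.inl 0, .inl 1, .inr 0, .inl 4, .inl 2, .inl 3, .inr 1, .inl 5], [], [5, 4, 2, 1, 3, 0], [], [3], []⟩, [-3, -1], [1, 3]⟩,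
    ⟨⟨[.inl 0, .inl 3, .inr 0, .inl 4, .inl 2, .inl 1, .inr 1, .inl 5], [], [5, 2, 3, 4, 1, 0], [], [1], []⟩, [-1, -3], [3, 4]⟩,
    ⟨⟨[.inl 0, .inr 0, .inl 4, .inl 1, .inl 3, .inl 2, .inr 1, .inl 5], [], [5, 4, 1, 2, 3, 0], [], [], [1]⟩, [-3, -5], [4, 2]⟩,
    ⟨⟨[.inl 0, .inl 3, .inl 1, .inl 2, .inr 1, .inl 4, .inr 0, .inl 5], [], [5, 4, 3, 2, 1, 0], [], [], []⟩, [2, -3], [4, 3]⟩,
    ⟨⟨[.inl 0, .inl 2, .inl 3, .inr 1, .inl 4, .inl 1, .inr 0, .inl 5], [], [5, 4, 3, 2, 1, 0], [], [3], []⟩, [-3, -2], [1, 4]⟩,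
    ⟨⟨[.inl 0, .inl 3, .inl 4, .inr 0, .inl 2, .inl 1, .inr 1, .inl 5], [], [5, 2, 3, 4, 1, 0], [], [], []⟩, [-1, -4], [-2, 2]⟩,
    ⟨⟨[.inl 0, .inr 0, .inl 4, .inl 3, .inl 2, .inl 1, .inr 1, .inl 5], [], [5, 1, 2, 3, 4, 0], [], [], []⟩, [-4, -3], [2, 4]⟩,
    ⟨⟨[.inl 0, .inl 1, .inr 0, .inl 4, .inl 2, .inl 3, .inr 1, .inl 5], [], [5, 3, 2, 4, 1, 0], [], [], []⟩, [-4, -2], [2, 4]⟩,
    ⟨⟨[.inl 0, .inr 1, .inl 1, .inl 3, .inl 4, .inl 2, .inr 0, .inl 5], [], [5, 1, 2, 3, 4, 0], [], [], []⟩, [-2, -4], [3, 1]⟩,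
    ⟨⟨[.inl 0, .inr 1, .inl 4, .inl 1, .inl 3, .inl 2, .inr 0, .inl 5], [], [5, 4, 3, 2, 1, 0], [], [], []⟩, [-2, -1], [1, 3]⟩,
    ⟨⟨[.inl 0, .inl 3, .inl 4, .inr 0, .inl 2, .inl 1, .inr 1, .inl 5], [], [5, 3, 4, 2, 1, 0], [], [], []⟩, [-1, -4], [2, 4]⟩,
    ⟨⟨[.inl 0, .inl 1, .inr 1, .inl 3, .inl 2, .inr 0, .inl 4, .inl 5], [], [5, 1, 3, 4, 2, 0], [], [], []⟩, [-3, -4], [2, 2]⟩,
    ⟨⟨[.inl 0, .inr 0, .inl 4, .inl 3, .inl 2, .inl 1, .inr 1, .inl 5], [], [5, 1, 3, 4, 2, 0], [], [], []⟩, [-2, -3], [2, 3]⟩,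
    ⟨⟨[.inl 0, .inl 1, .inr 1, .inl 3, .inl 2, .inr 0, .inl 4, .inl 5], [], [5, 2, 3, 4, 1, 0], [], [], []⟩, [-2, -2], [3, 5]⟩],
   [⟨⟨[.inl 0, .inl 1, .inr 1, .inl 3, .inl 2, .inr 0, .inl 4, .inl 5], [], [5, 2, 3, 4, 1, 0], [], [], []⟩, [-2, -2], [3, 5]⟩]⟩

theorem P_S_16_run_5_2_S_4_242_fam : P_S_16_run_5_2_S_4_242.loc 5 16 = true ∧ P_S_16_run_5_2_S_4_242.conn 16 = true :=
  one_fam P_S_16_run_5_2_S_4_242 [4, 5, 0, 3, 2] 5 16 (by decide) (by decide +kernel) (by decide +kernel)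

theorem P_S_16_run_5_2_S_4_242_sh : P_S_16_run_5_2_S_4_242.all (shOne 5) = true := by decide +kernel

def S_S_16_run_5_2_S_4_242_0 : SpD 2 := ⟨2, .inl 1, [(1, .inl 4), (2, .inr 1), (-3, .inl 0)], [(0, 2), (1, 5)]⟩

theorem S_S_16_run_5_2_S_4_242_0_fam : S_S_16_run_5_2_S_4_242_0.chk 4 16 (P_S_16_run_5_2_S_4_242.acc 16 S_S_16_run_5_2_S_4_242_0.i0) = true := by decide +kernel

theorem W_S_16_run_5_2_S_4_242 (q r : ℕ) (h1 : q = 16) (h5 : r + 3 = q) : Want q r := by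
  subst h1
  obtain ⟨hl, hc⟩ := P_S_16_run_5_2_S_4_242_fam
  have hI := inst_one P_S_16_run_5_2_S_4_242 5 16 5 r 4 (by omega) (by omega) (by omega) (by decide +kernel) (by decide) (by omega) (by decide +kernel) P_S_16_run_5_2_S_4_242_sh hl hc
  exact class_e _ _ (by omega) (by omega) (by omega) hI.1 (hI.2 S_S_16_run_5_2_S_4_242_0 4 3 (by decide) (by show (2 : ℕ) < _; omega) S_S_16_run_5_2_S_4_242_0_fam (blk_3_1_2_5 _ (by omega) (by omega)))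

def P_S_10_run_8_3_S_0 : Pat 3 :=
  ⟨[⟨⟨[.inl 0, .inr 1, .inl 6, .inl 7, .inl 2, .inl 1, .inl 3, .inr 2, .inl 4, .inr 0, .inl 5, .inl 8], [], [8, 7, 3, 5, 2, 1, 6, 4, 0], [], [], []⟩, [-3, -4, -4], [-1, 3, 3]⟩,
    ⟨⟨[.inl 0, .inl 1, .inl 6, .inl 2, .inr 0, .inl 7, .inl 5, .inl 3, .inr 1, .inl 4, .inr 2, .inl 8], [], [8, 7, 2, 1, 5, 4, 3, 6, 0], [], [], []⟩, [-3, -3, -3], [3, 4, 3]⟩,
    ⟨⟨[.inl 0, .inr 0, .inl 4, .inr 2, .inl 5, .inl 2, .inl 7, .inl 3, .inl 1, .inr 1, .inl 6, .inl 8], [], [8, 4, 5, 6, 2, 1, 7, 3, 0], [], [], []⟩, [-3, -3, -3], [3, 4, 4]⟩,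
    ⟨⟨[.inl 0, .inl 4, .inr 0, .inl 6, .inl 1, .inr 2, .inl 7, .inl 5, .inl 2, .inl 3, .inr 1, .inl 8], [], [8, 7, 3, 4, 1, 6, 5, 2, 0], [], [], []⟩, [1, -3, -3], [3, 1, 4]⟩,
    ⟨⟨[.inl 0, .inl 2, .inl 1, .inl 5, .inr 2, .inl 4, .inr 0, .inl 3, .inl 6, .inl 7, .inr 1, .inl 8], [], [8, 7, 4, 1, 2, 5, 6, 3, 0], [], [], []⟩, [-3, -1, -3], [-1, 4, 1]⟩,
    ⟨⟨[.inl 0, .inr 1, .inl 2, .inl 1, .inr 0, .inl 5, .inl 3, .inr 2, .inl 7, .inl 6, .inl 4, .inl 8], [], [8, 3, 1, 2, 5, 6, 7, 4, 0], [], [], []⟩, [-3, -4, -1], [3, 2, 4]⟩,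
    ⟨⟨[.inl 0, .inl 2, .inr 1, .inl 4, .inl 1, .inr 2, .inl 7, .inl 3, .inr 0, .inl 5, .inl 6, .inl 8], [], [8, 7, 4, 1, 6, 3, 2, 5, 0], [], [], []⟩, [-3, -4, -4], [1, 4, 4]⟩,
    ⟨⟨[.inl 0, .inr 1, .inl 2, .inl 1, .inl 3, .inr 2, .inl 4, .inr 0, .inl 7, .inl 5, .inl 6, .inl 8], [], [8, 5, 1, 3, 4, 6, 7, 2, 0], [], [], []⟩, [-1, -2, -4], [3, 2, 1]⟩,
    ⟨⟨[.inl 0, .inl 1, .inl 3, .inr 2, .inl 7, .inl 2, .inr 0, .inl 5, .inl 4, .inr 1, .inl 6, .inl 8], [], [8, 5, 6, 2, 7, 4, 3, 1, 0], [], [], []⟩, [-3, -4, -1], [3, 3, 3]⟩,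
    ⟨⟨[.inl 0, .inr 1, .inl 4, .inl 2, .inl 1, .inl 6, .inr 0, .inl 3, .inr 2, .inl 7, .inl 5, .inl 8], [], [8, 5, 7, 6, 3, 4, 1, 2, 0], [], [], []⟩, [1, -2, -4], [3, 3, 3]⟩],
   [⟨⟨[.inl 0, .inr 1, .inl 4, .inl 2, .inl 1, .inl 6, .inr 0, .inl 3, .inr 2, .inl 7, .inl 5, .inl 8], [], [8, 5, 7, 6, 3, 4, 1, 2, 0], [], [], []⟩, [1, -2, -4], [3, 3, 3]⟩]⟩

theorem P_S_10_run_8_3_S_0_fam : P_S_10_run_8_3_S_0.loc 8 10 = true ∧ P_S_10_run_8_3_S_0.conn 10 = true :=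
  one_fam P_S_10_run_8_3_S_0 [4, 3, 2, 5, 7] 8 10 (by decide) (by decide +kernel) (by decide +kernel)

theorem P_S_10_run_8_3_S_0_sh : P_S_10_run_8_3_S_0.all (shOne 8) = true := by decide +kernel

theorem W_S_10_run_8_3_S_0 (q r : ℕ) (h1 : q = 10) (h5 : r + 5 = q) : Want q r := by
  subst h1
  obtain ⟨hl, hc⟩ := P_S_10_run_8_3_S_0_fam
  have hI := inst_one P_S_10_run_8_3_S_0 8 10 8 r 0 (by omega) (by omega) (by omega) (by decide +kernel) (by decide) (by omega) (by decide +kernel) P_S_10_run_8_3_S_0_sh hl hc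
  exact class_t _ _ (by omega) (tmod _ _ (by omega) (by omega)) hI.1 

def P_S_11_run_5_2_S_5_231_242_253 : Pat 2 :=
  ⟨[⟨⟨[.inl 0, .inr 0, .inl 3, .inl 2, .inl 1, .inr 1, .inl 4, .inl 5], [], [5, 4, 1, 3, 2, 0], [], [], []⟩, [-2, -3], [3, 3]⟩,
    ⟨⟨[.inl 0, .inr 0, .inl 1, .inr 1, .inl 4, .inl 2, .inl 3, .inl 5], [], [5, 3, 4, 1, 2, 0], [], [], []⟩, [-2, -3], [1, 3]⟩,
    ⟨⟨[.inl 0, .inr 0, .inl 4, .inl 3, .inl 2, .inl 1, .inr 1, .inl 5], [], [5, 3, 2, 4, 1, 0], [], [], []⟩, [-1, -3], [3, 3]⟩,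
    ⟨⟨[.inl 0, .inl 2, .inr 0, .inl 1, .inr 1, .inl 3, .inl 4, .inl 5], [], [5, 3, 4, 1, 2, 0], [], [3], [0]⟩, [-3, -3], [1, 3]⟩,
    ⟨⟨[.inl 0, .inr 0, .inl 3, .inl 2, .inl 1, .inr 1, .inl 4, .inl 5], [], [5, 3, 2, 4, 1, 0], [], [5], []⟩, [-1, -3], [3, 3]⟩,
    ⟨⟨[.inl 0, .inl 1, .inr 0, .inl 2, .inr 1, .inl 4, .inl 3, .inl 5], [], [5, 3, 2, 4, 1, 0], [], [3], []⟩, [-3, -3], [1, 3]⟩,
    ⟨⟨[.inl 0, .inr 1, .inl 4, .inl 2, .inl 1, .inr 0, .inl 3, .inl 5], [], [5, 4, 1, 2, 3, 0], [], [5], []⟩, [-1, -3], [3, 3]⟩,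
    ⟨⟨[.inl 0, .inr 0, .inl 1, .inr 1, .inl 4, .inl 2, .inl 3, .inl 5], [], [5, 2, 1, 4, 3, 0], [], [], []⟩, [-3, -3], [1, 3]⟩,
    ⟨⟨[.inl 0, .inr 0, .inl 2, .inl 1, .inr 1, .inl 4, .inl 3, .inl 5], [], [5, 2, 3, 4, 1, 0], [], [], []⟩, [-1, -3], [2, 3]⟩,
    ⟨⟨[.inl 0, .inr 0, .inl 2, .inl 3, .inl 1, .inr 1, .inl 4, .inl 5], [], [5, 4, 1, 2, 3, 0], [], [], []⟩, [-3, -3], [2, 3]⟩,
    ⟨⟨[.inl 0, .inr 0, .inl 2, .inl 3, .inl 1, .inr 1, .inl 4, .inl 5], [], [5, 4, 1, 3, 2, 0], [], [], []⟩, [-2, -3], [2, 3]⟩],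
   [⟨⟨[.inl 0, .inr 0, .inl 2, .inl 3, .inl 1, .inr 1, .inl 4, .inl 5], [], [5, 4, 1, 3, 2, 0], [], [], []⟩, [-2, -3], [2, 3]⟩]⟩

theorem P_S_11_run_5_2_S_5_231_242_253_fam : P_S_11_run_5_2_S_5_231_242_253.loc 5 11 = true ∧ P_S_11_run_5_2_S_5_231_242_253.conn 11 = true :=
  one_fam P_S_11_run_5_2_S_5_231_242_253 [1, 0, 2, 3] 5 11 (by decide) (by decide +kernel) (by decide +kernel)

theorem P_S_11_run_5_2_S_5_231_242_253_sh : P_S_11_run_5_2_S_5_231_242_253.all (shOne 5) = true := by decide +kernel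

def S_S_11_run_5_2_S_5_231_242_253_0 : SpD 2 := ⟨1, .inl 5, [(1, .inl 4), (2, .inr 0), (-1, .inl 2), (-2, .inl 3)], [(2, -2)]⟩

theorem S_S_11_run_5_2_S_5_231_242_253_0_fam : S_S_11_run_5_2_S_5_231_242_253_0.chk 5 11 (P_S_11_run_5_2_S_5_231_242_253.acc 11 S_S_11_run_5_2_S_5_231_242_253_0.i0) = true := by decide +kernel

def S_S_11_run_5_2_S_5_231_242_253_1 : SpD 2 := ⟨2, .inl 3, [(1, .inr 0), (-2, .inl 1), (-3, .inl 2), (-1, .inl 4)], [(0, -2), (2, 1)]⟩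

theorem S_S_11_run_5_2_S_5_231_242_253_1_fam : S_S_11_run_5_2_S_5_231_242_253_1.chk 4 11 (P_S_11_run_5_2_S_5_231_242_253.acc 11 S_S_11_run_5_2_S_5_231_242_253_1.i0) = true := by decide +kernel

def S_S_11_run_5_2_S_5_231_242_253_2 : SpD 2 := ⟨2, .inl 3, [(1, .inr 0), (-2, .inl 1), (-3, .inl 2), (-1, .inl 4)], [(0, -2), (1, 2), (2, 1)]⟩

theorem S_S_11_run_5_2_S_5_231_242_253_2_fam : S_S_11_run_5_2_S_5_231_242_253_2.chk 4 11 (P_S_11_run_5_2_S_5_231_242_253.acc 11 S_S_11_run_5_2_S_5_231_242_253_2.i0) = true := by decide +kernel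

theorem W_S_11_run_5_2_S_5_231_242_253 (q r : ℕ) (h1 : q = 11) (h5 : r + 3 = q) : Want q r := by
  subst h1
  obtain ⟨hl, hc⟩ := P_S_11_run_5_2_S_5_231_242_253_fam
  have hI := inst_one P_S_11_run_5_2_S_5_231_242_253 5 11 5 r 5 (by omega) (by omega) (by omega) (by decide +kernel) (by decide) (by omega) (by decide +kernel) P_S_11_run_5_2_S_5_231_242_253_sh hl hc
  exact class_f _ _ (by omega) (by omega) (by omega) hI.1 (hI.2 S_S_11_run_5_2_S_5_231_242_253_0 5 2 (by decide) (by show (1 : ℕ) < _; omega) S_S_11_run_5_2_S_5_231_242_253_0_fam (blk_2_3_m2 _ (by omega) (by omega))) (hI.2 S_S_11_run_5_2_S_5_231_242_253_1 4 3 (by decide) (by show (2 : ℕ) < _; omega) S_S_11_run_5_2_S_5_231_242_253_1_fam (blk_3_3_m2_1 _ (by omega) (by omega))) (hI.2 S_S_11_run_5_2_S_5_231_242_253_2 4 4 (by decide) (by show (2 : ℕ) <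 _; omega) S_S_11_run_5_2_S_5_231_242_253_2_fam (blk_4_3_m2_2_1 _ (by omega) (by omega)))

def P_S_12_even_2_0_C_0 : Pat 0 :=
  ⟨[⟨⟨[.inl 0, .inl 1, .inl 2], [.inl (-1), .inl (-2), .inl (-3)], [2, -2, 1, -1], [-3, 0], [], []⟩, [], []⟩,
    ⟨⟨[.inl 0, .inl 1, .inl 2], [.inl (-1), .inl (-2), .inl (-3)], [2, -1], [-3, 1, -2, 0], [], []⟩, [], []⟩,
    ⟨⟨[.inl 0, .inl 1, .inl 2], [.inl (-1), .inl (-2), .inl (-3)], [2, -2, 1, -1], [-3, 0], [], []⟩, [], []⟩,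
    ⟨⟨[.inl 0, .inl 1, .inl 2], [.inl (-1), .inl (-2), .inl (-3)], [2, -1], [-3, 1, -2, 0], [], []⟩, [], []⟩,
    ⟨⟨[.inl 0, .inl 1, .inl 2], [.inl (-1), .inl (-2), .inl (-3)], [2, -2, 1, -1], [-3, 0], [], []⟩, [], []⟩,
    ⟨⟨[.inl 0, .inl 1, .inl 2], [.inl (-1), .inl (-2), .inl (-3)], [2, -1], [-3, 1, -2, 0], [], []⟩, [], []⟩,
    ⟨⟨[.inl 0, .inl 1, .inl 2], [.inl (-1), .inl (-2), .inl (-3)], [2, -2, 1, -1], [-3, 0], [], []⟩, [], []⟩,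
    ⟨⟨[.inl 0, .inl 1, .inl 2], [.inl (-1), .inl (-2), .inl (-3)], [2, -1], [-3, 1, -2, 0], [], []⟩, [], []⟩,
    ⟨⟨[.inl 0, .inl 1, .inl 2], [.inl (-1), .inl (-2), .inl (-3)], [2, -2, 1, -1], [-3, 0], [], []⟩, [], []⟩,
    ⟨⟨[.inl 0, .inl 1, .inl 2], [.inl (-1), .inl (-2), .inl (-3)], [2, -1], [-3, 1, -2, 0], [], []⟩, [], []⟩,
    ⟨⟨[.inl 0, .inl 1, .inl 2], [.inl (-1), .inl (-2), .inl (-3)], [2, -2, 1, -1], [-3, 0], [], []⟩, [], []⟩,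
    ⟨⟨[.inl 0, .inl 1, .inl 2], [.inl (-1), .inl (-2), .inl (-3)], [2, -1], [-3, 1, -2, 0], [], []⟩, [], []⟩],
   [⟨⟨[.inl 0, .inl 1, .inl 2], [.inl (-1), .inl (-2), .inl (-3)], [2, -1], [-3, 1, -2, 0], [], []⟩, [], []⟩]⟩

theorem P_S_12_even_2_0_C_0_fam : P_S_12_even_2_0_C_0.loc 4 12 = true ∧ P_S_12_even_2_0_C_0.conn 12 = true :=
  one_fam P_S_12_even_2_0_C_0 [] 4 12 (by decide) (by decide +kernel) (by decide +kernel)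

theorem P_S_12_even_2_0_C_0_sh : P_S_12_even_2_0_C_0.all (shTwo (-1) 2 true) = true := by decide +kernel

theorem W_S_12_even_2_0_C_0 (q r : ℕ) (h1 : q = 12) (h3 : (q + r) % 4 = 2) (h4 : 0 ≤ r) (h5 : r + 6 ≤ q) : Want q r := by
  subst h1
  obtain ⟨hl, hc⟩ := P_S_12_even_2_0_C_0_fam
  have hev : decide (Even ((((12 - 2) / 2) - (r - 0) / 2) - 2)) = true := by
    simp only [Nat.even_iff, decide_eq_true_eq]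
    omega
  have hI := inst_two P_S_12_even_2_0_C_0 4 12 (-1) 2 (((12 - 2) / 2) - (r - 0) / 2) ((12 - 2) / 2) r 0 (by decide) (by omega) (by decide) (by omega) (by omega) (by omega) (by omega) (by decide +kernel) (by decide) (by omega) (by decide +kernel) (by rw [hev]; exact P_S_12_even_2_0_C_0_sh) hl hc
  exact class_t _ _ (by omega) (tmod _ _ (by omega) (by omega)) hI.1 

end Pool.Agent.KS6_69.GT
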