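import Pool.Agent.KS6_69.GT.TabBlocks
import Pool.Agent.KS6_69.GT.Wrap2
import Pool.Agent.KS6_69.GT.Tab10

set_option autoImplicit false

namespace Pool.Agent.KS6_69.GT

def P_Feo2_S_even_4_1_C_0_18_6_4 : Pat 1 :=
  ⟨[⟨⟨[.inl 0, .inl (-2), .inl 2, .inl 3, .inl 4], [.inl (-1), .inr 0, .inl (-4), .inl (-3), .inl 1, .inl (-5)], [4, 2, 3, -1], [-5, -4, -3, 1, -2, 0], [], []⟩, [2], [-1]⟩,
    ⟨⟨[.inl 0, .inl 3, .inl 1, .inl (-3), .inr 0, .inl 2, .inl (-2), .inl 4], [.inl (-1), .inl (-4), .inl (-5)], [4, 1, 2, 3, -1], [-5, -2, -3, -4, 0], [], []⟩, [-4], [1]⟩,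
    ⟨⟨[.inl 0, .inl 2, .inl 1, .inr 0, .inl (-3), .inl 3, .inl 4], [.inl (-1), .inl (-4), .inl (-2), .inl (-5)], [4, 3, -1], [-5, -4, -3, -2, 2, 1, 0], [], []⟩, [-1], [-2]⟩,
    ⟨⟨[.inl 0, .inl 3, .inl (-2), .inl 4], [.inl (-1), .inl (-3), .inr 0, .inl 1, .inl 2, .inl (-4), .inl (-5)], [4, 2, 1, 3, -1], [-5, -2, -3, -4, 0], [], []⟩, [1], [4]⟩,
    ⟨⟨[.inl 0, .inl 3, .inr 0, .inl (-4), .inl 4], [.inl (-1), .inl (-2), .inl (-3), .inl 2, .inl 1, .inl (-5)], [4, 2, 3, -1], [-5, 1, -3, -2, -4, 0], [], []⟩, [1], [-1]⟩,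
    ⟨⟨[.inl 0, .inl 4], [.inl (-1), .inl (-4), .inl (-3), .inr 0, .inl 2, .inl (-2), .inl 1, .inl 3, .inl (-5)], [4, 1, 3, 2, -4, -3, -1], [-5, -2, 0], [], []⟩, [1], [-1]⟩],
   [⟨⟨[.inl 0, .inl 4], [.inl (-1), .inr 0, .inl (-4), .inl 2, .inl 3, .inl (-2), .inl (-3), .inl 1, .inl (-5)], [4, 2, 3, -1], [-5, -4, -3, 1, -2, 0], [], []⟩, [2], [-1]⟩,
    ⟨⟨[.inl 0, .inl 3, .inl 2, .inl (-2), .inl 4], [.inl (-1), .inl (-4), .inl (-3), .inr 0, .inl 1, .inl (-5)], [4, 1, 2, 3, -1], [-5, -2, -3, -4, 0], [], []⟩, [-4], [4]⟩,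
    ⟨⟨[.inl 0, .inl 3, .inr 0, .inl (-3), .inl 4], [.inl (-1), .inl (-4), .inl 1, .inl 2, .inl (-2), .inl (-5)], [4, 3, -1], [-5, 2, 1, -3, -2, -4, 0], [], []⟩, [1], [-2]⟩,
    ⟨⟨[.inl 0, .inl 4], [.inl (-1), .inl (-3), .inr 0, .inl 2, .inl (-2), .inl 1, .inl 3, .inl (-4), .inl (-5)], [4, 2, 1, 3, -4, -3, -1], [-5, -2, 0], [], []⟩, [1], [-1]⟩]⟩

theorem P_Feo2_S_even_4_1_C_0_18_6_4_l0 : P_Feo2_S_even_4_1_C_0_18_6_4.locC [-3, 2] 7 (18 + 0 * 4) = true := by decide +kernel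

theorem P_Feo2_S_even_4_1_C_0_18_6_4_l1 : P_Feo2_S_even_4_1_C_0_18_6_4.locC [-3, 2] 7 (18 + 1 * 4) = true := by decide +kernel

theorem P_Feo2_S_even_4_1_C_0_18_6_4_l2 : P_Feo2_S_even_4_1_C_0_18_6_4.locC [-3, 2] 7 (18 + 2 * 4) = true := by decide +kernel

theorem P_Feo2_S_even_4_1_C_0_18_6_4_fam : ∀ t : ℕ, P_Feo2_S_even_4_1_C_0_18_6_4.loc 7 (18 + t * 4) = true ∧ P_Feo2_S_even_4_1_C_0_18_6_4.conn (18 + t * 4) = true :=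
  fam_ext2 P_Feo2_S_even_4_1_C_0_18_6_4 [-3, 2] 7 18 2 6 4 (by decide) (by decide) (by decide) (by decide) (by decide) (by decide +kernel) (by decide)
    (by
      intro t ht
      interval_cases t
      · exact P_Feo2_S_even_4_1_C_0_18_6_4_l0
      · exact P_Feo2_S_even_4_1_C_0_18_6_4_l1
      · exact P_Feo2_S_even_4_1_C_0_18_6_4_l2)
    (by decide +kernel)

theorem P_Feo2_S_even_4_1_C_0_18_6_4_sh : P_Feo2_S_even_4_1_C_0_18_6_4.all (shTwo (-1) 4 true) = true := by decide +kernel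

theorem W_Feo2_S_even_4_1_C_0_18_6_4 (q r : ℕ) (h1 : 18 ≤ q) (h2 : q % 4 = 2) (h3 : (q + r) % 4 = 3) (h4 : 1 ≤ r) (h5 : r + 9 ≤ q) : Want q r := by
  obtain ⟨t, rfl⟩ : ∃ t : ℕ, q = 18 + t * 4 := ⟨(q - 18) / 4, by omega⟩
  obtain ⟨hl, hc⟩ := P_Feo2_S_even_4_1_C_0_18_6_4_fam t
  have hev : decide (Even (((((18 + t * 4) - 2) / 2) - (r - 1) / 2) - 4)) = true := by
    simp only [Nat.even_iff, decide_eq_true_eq]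
    omega
  have hI := inst_two P_Feo2_S_even_4_1_C_0_18_6_4 7 (18 + t * 4) (-1) 4 ((((18 + t * 4) - 2) / 2) - (r - 1) / 2) (((18 + t * 4) - 2) / 2) r 0 (by decide) (by omega) (by decide) (by omega) (by omega) (by omega) (by omega) (by decide +kernel) (by decide) (by omega) (by decide +kernel) (by rw [hev]; exact P_Feo2_S_even_4_1_C_0_18_6_4_sh) hl hc
  exact class_t _ _ (by omega) (tmod _ _ (by omega) (by omega)) hI.1 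

def P_Fa_d2_run_5_3_S_4_17_7_2_232 : Pat 3 :=
  ⟨[⟨⟨[.inl 0, .inr 0, .inl 2, .inl 1, .inr 1, .inl 4, .inl 3, .inr 2, .inl 5], [], [5, 4, 3, 1, 2, 0], [], [], []⟩, [-2, -1, -2], [2, 1, 4]⟩,
    ⟨⟨[.inl 0, .inl 1, .inr 2, .inl 3, .inl 2, .inr 0, .inl 4, .inr 1, .inl 5], [], [5, 3, 4, 2, 1, 0], [], [], [1]⟩, [-2, -1, -2], [4, 1, 1]⟩,
    ⟨⟨[.inl 0, .inr 0, .inl 2, .inr 2, .inl 4, .inr 1, .inl 1, .inl 3, .inl 5], [], [5, 4, 3, 1, 2, 0], [], [], []⟩, [-2, -1, -1], [1, 1, 1]⟩,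
    ⟨⟨[.inl 0, .inr 1, .inl 4, .inl 2, .inl 1, .inr 0, .inl 3, .inr 2, .inl 5], [], [5, 3, 4, 2, 1, 0], [], [2], []⟩, [-1, -1, -1], [1, 1, 2]⟩,
    ⟨⟨[.inl 0, .inl 1, .inr 2, .inl 3, .inr 1, .inl 2, .inr 0, .inl 4, .inl 5], [], [5, 4, 3, 2, 1, 0], [], [4], []⟩, [-1, -1, -4], [2, 1, 2]⟩,
    ⟨⟨[.inl 0, .inr 0, .inl 2, .inl 1, .inr 1, .inl 4, .inl 3, .inr 2, .inl 5], [], [5, 1, 2, 3, 4, 0], [], [3], []⟩, [-4, -1, -2], [2, 1, 2]⟩,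
    ⟨⟨[.inl 0, .inl 1, .inr 2, .inl 3, .inr 1, .inl 2, .inr 0, .inl 4, .inl 5], [], [5, 4, 3, 2, 1, 0], [], [], []⟩, [-2, -1, -2], [2, 1, 2]⟩],
   [⟨⟨[.inl 0, .inr 0, .inl 2, .inl 1, .inr 1, .inl 4, .inl 3, .inr 2, .inl 5], [], [5, 4, 3, 1, 2, 0], [], [], []⟩, [-2, -1, -2], [2, 1, 2]⟩,
    ⟨⟨[.inl 0, .inl 1, .inr 2, .inl 3, .inr 1, .inl 2, .inr 0, .inl 4, .inl 5], [], [5, 3, 4, 2, 1, 0], [], [], []⟩, [-2, -1, -2], [2, 1, 2]⟩]⟩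

theorem P_Fa_d2_run_5_3_S_4_17_7_2_232_l0 : P_Fa_d2_run_5_3_S_4_17_7_2_232.locC [2, 3, 4, 1] 5 (17 + 0 * 2) = true := by decide +kernel

theorem P_Fa_d2_run_5_3_S_4_17_7_2_232_l1 : P_Fa_d2_run_5_3_S_4_17_7_2_232.locC [2, 3, 4, 1] 5 (17 + 1 * 2) = true := by decide +kernel

theorem P_Fa_d2_run_5_3_S_4_17_7_2_232_fam : ∀ t : ℕ, P_Fa_d2_run_5_3_S_4_17_7_2_232.loc 5 (17 + t * 2) = true ∧ P_Fa_d2_run_5_3_S_4_17_7_2_232.conn (17 + t * 2) = true :=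
  fam_ext2 P_Fa_d2_run_5_3_S_4_17_7_2_232 [2, 3, 4, 1] 5 17 1 7 2 (by decide) (by decide) (by decide) (by decide) (by decide) (by decide +kernel) (by decide)
    (by
      intro t ht
      interval_cases t
      · exact P_Fa_d2_run_5_3_S_4_17_7_2_232_l0
      · exact P_Fa_d2_run_5_3_S_4_17_7_2_232_l1)
    (by decide +kernel)

theorem P_Fa_d2_run_5_3_S_4_17_7_2_232_sh : P_Fa_d2_run_5_3_S_4_17_7_2_232.all (shOne 5) = true := by decide +kernel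

def S_Fa_d2_run_5_3_S_4_17_7_2_232_0 : SpD 3 := ⟨2, .inl 3, [(-1, .inr 1), (-2, .inl 2), (-1, .inl 1)], [(0, -2), (1, -5)]⟩

theorem S_Fa_d2_run_5_3_S_4_17_7_2_232_0_fam : ∀ t : ℕ, S_Fa_d2_run_5_3_S_4_17_7_2_232_0.chk 3 (17 + t * 2) (P_Fa_d2_run_5_3_S_4_17_7_2_232.acc (17 + t * 2) S_Fa_d2_run_5_3_S_4_17_7_2_232_0.i0) = true :=
  sp_fam P_Fa_d2_run_5_3_S_4_17_7_2_232 S_Fa_d2_run_5_3_S_4_17_7_2_232_0 3 17 1 2 (by decide) (by decide) (by decide) (by decide) (by decide +kernel)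

theorem W_Fa_d2_run_5_3_S_4_17_7_2_232 (q r : ℕ) (h1 : 17 ≤ q) (h2 : q % 2 = 1) (h5 : r + 2 = q) : Want q r := by
  obtain ⟨t, rfl⟩ : ∃ t : ℕ, q = 17 + t * 2 := ⟨(q - 17) / 2, by omega⟩
  obtain ⟨hl, hc⟩ := P_Fa_d2_run_5_3_S_4_17_7_2_232_fam t
  have hI := inst_one P_Fa_d2_run_5_3_S_4_17_7_2_232 5 (17 + t * 2) 5 r 4 (by omega) (by omega) (by omega) (by decide +kernel) (by decide) (by omega) (by decide +kernel) P_Fa_d2_run_5_3_S_4_17_7_2_232_sh hl hc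
  exact class_a _ _ (by omega) (by omega) (by omega) hI.1 (hI.2 S_Fa_d2_run_5_3_S_4_17_7_2_232_0 3 2 (by decide) (by show (2 : ℕ) < _; omega) (S_Fa_d2_run_5_3_S_4_17_7_2_232_0_fam t) (blk_2_0_m2_m5 _ (by omega) (by omega)))

def P_S_12_run_5_3_S_0 : Pat 3 :=
  ⟨[⟨⟨[.inl 0, .inl 2, .inr 2, .inl 4, .inl 1, .inr 1, .inl 3, .inr 0, .inl 5], [], [5, 4, 2, 3, 1, 0], [], [], []⟩, [2, -1, -3], [3, 3, 3]⟩,
    ⟨⟨[.inl 0, .inl 3, .inr 0, .inl 1, .inr 1, .inl 4, .inl 2, .inr 2, .inl 5], [], [5, 3, 4, 2, 1, 0], [], [], []⟩, [-2, -3, -2], [1, 4, 1]⟩,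
    ⟨⟨[.inl 0, .inr 0, .inl 1, .inl 3, .inl 2, .inr 1, .inl 4, .inr 2, .inl 5], [], [5, 2, 3, 4, 1, 0], [], [], []⟩, [-1, 1, -1], [-2, 2, 4]⟩,
    ⟨⟨[.inl 0, .inr 1, .inl 1, .inr 2, .inl 2, .inr 0, .inl 4, .inl 3, .inl 5], [], [5, 4, 2, 1, 3, 0], [], [], []⟩, [-3, -3, -3], [1, -1, 1]⟩,
    ⟨⟨[.inl 0, .inl 1, .inr 2, .inl 4, .inl 2, .inr 1, .inl 3, .inr 0, .inl 5], [], [5, 3, 4, 1, 2, 0], [], [], []⟩, [-1, -2, -1], [1, 3, 1]⟩,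
    ⟨⟨[.inl 0, .inr 1, .inl 4, .inr 0, .inl 1, .inl 2, .inl 3, .inr 2, .inl 5], [], [5, 2, 1, 3, 4, 0], [], [], []⟩, [-1, -4, -1], [1, 1, 2]⟩,
    ⟨⟨[.inl 0, .inr 0, .inl 2, .inl 1, .inr 2, .inl 3, .inr 1, .inl 4, .inl 5], [], [5, 4, 2, 3, 1, 0], [], [], []⟩, [-1, -1, -4], [1, 3, 2]⟩,
    ⟨⟨[.inl 0, .inr 1, .inl 1, .inr 0, .inl 3, .inr 2, .inl 4, .inl 2, .inl 5], [], [5, 1, 2, 4, 3, 0], [], [], []⟩, [-1, -3, -2], [1, 1, 4]⟩,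
    ⟨⟨[.inl 0, .inr 1, .inl 3, .inl 2, .inr 0, .inl 4, .inl 1, .inr 2, .inl 5], [], [5, 4, 3, 2, 1, 0], [], [], []⟩, [-1, -1, -2], [2, 2, 2]⟩,
    ⟨⟨[.inl 0, .inl 2, .inr 0, .inl 4, .inl 1, .inr 1, .inl 3, .inr 2, .inl 5], [], [5, 4, 3, 1, 2, 0], [], [], []⟩, [1, -3, 1], [2, 2, 3]⟩,
    ⟨⟨[.inl 0, .inl 3, .inr 2, .inl 2, .inr 0, .inl 1, .inr 1, .inl 4, .inl 5], [], [5, 3, 2, 4, 1, 0], [], [], []⟩, [-2, -2, -2], [-1, 3, -1]⟩,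
    ⟨⟨[.inl 0, .inr 2, .inl 4, .inl 3, .inl 1, .inr 1, .inl 2, .inr 0, .inl 5], [], [5, 3, 1, 2, 4, 0], [], [], []⟩, [-2, -2, -4], [2, 1, 2]⟩],
   [⟨⟨[.inl 0, .inr 2, .inl 4, .inl 3, .inl 1, .inr 1, .inl 2, .inr 0, .inl 5], [], [5, 3, 1, 2, 4, 0], [], [], []⟩, [-2, -2, -4], [2, 1, 2]⟩]⟩

theorem P_S_12_run_5_3_S_0_fam : P_S_12_run_5_3_S_0.loc 5 12 = true ∧ P_S_12_run_5_3_S_0.conn 12 = true :=
  one_fam P_S_12_run_5_3_S_0 [1, 4, 3, 2] 5 12 (by decide) (by decide +kernel) (by decide +kernel)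

theorem P_S_12_run_5_3_S_0_sh : P_S_12_run_5_3_S_0.all (shOne 5) = true := by decide +kernel

theorem W_S_12_run_5_3_S_0 (q r : ℕ) (h1 : q = 12) (h5 : r + 2 = q) : Want q r := by
  subst h1
  obtain ⟨hl, hc⟩ := P_S_12_run_5_3_S_0_fam
  have hI := inst_one P_S_12_run_5_3_S_0 5 12 5 r 0 (by omega) (by omega) (by omega) (by decide +kernel) (by decide) (by omega) (by decide +kernel) P_S_12_run_5_3_S_0_sh hl hc
  exact class_t _ _ (by omega) (tmod _ _ (by omega) (by omega)) hI.1 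

def P_S_11_odd_2_3_S_0 : Pat 3 :=
  ⟨[⟨⟨[.inl 1, .inr 0, .inl 2], [.inl (-1), .inr 2, .inl 0, .inr 1, .inl (-2)], [-2, 0, -1], [2, 1], [], []⟩, [-1, 2, -1], [1, -2, 1]⟩,
    ⟨⟨[.inl 1, .inr 0, .inl 2], [.inl (-1), .inr 2, .inl 0, .inr 1, .inl (-2)], [-2, 0, -1], [2, 1], [], []⟩, [-1, 2, -1], [1, -2, 1]⟩,
    ⟨⟨[.inl 1, .inr 0, .inl 2], [.inl (-1), .inr 2, .inl 0, .inr 1, .inl (-2)], [-2, 0, -1], [2, 1], [], []⟩, [-1, 2, -1], [1, -2, 1]⟩,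
    ⟨⟨[.inl 1, .inr 0, .inl 2], [.inl (-1), .inr 2, .inl 0, .inr 1, .inl (-2)], [-2, 0, -1], [2, 1], [], []⟩, [-1, 2, -1], [1, -2, 1]⟩,
    ⟨⟨[.inl 1, .inr 0, .inl 2], [.inl (-1), .inr 2, .inl 0, .inr 1, .inl (-2)], [-2, 0, -1], [2, 1], [], []⟩, [-1, 2, -1], [1, -2, 1]⟩,
    ⟨⟨[.inl 1, .inr 0, .inl 2], [.inl (-1), .inr 2, .inl 0, .inr 1, .inl (-2)], [-2, 0, -1], [2, 1], [], []⟩, [-1, 2, -1], [1, -2, 1]⟩,
    ⟨⟨[.inl 1, .inr 0, .inl 2], [.inl (-1), .inr 2, .inl 0, .inr 1, .inl (-2)], [-2, 0, -1], [2, 1], [], []⟩, [-1, 2, -1], [1, -2, 1]⟩,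
    ⟨⟨[.inl 1, .inr 0, .inl 2], [.inl (-1), .inr 2, .inl 0, .inr 1, .inl (-2)], [-2, 0, -1], [2, 1], [], []⟩, [-1, 2, -1], [1, -2, 1]⟩,
    ⟨⟨[.inl 1, .inr 0, .inl 2], [.inl (-1), .inr 2, .inl 0, .inr 1, .inl (-2)], [-2, 0, -1], [2, 1], [], []⟩, [-1, 2, -1], [1, -2, 1]⟩,
    ⟨⟨[.inl 1, .inr 0, .inl 2], [.inl (-1), .inr 2, .inl 0, .inr 1, .inl (-2)], [-2, 0, -1], [2, 1], [], []⟩, [-1, 2, -1], [1, -2, 1]⟩,
    ⟨⟨[.inl 1, .inr 0, .inl 2], [.inl (-1), .inr 2, .inl 0, .inr 1, .inl (-2)], [-2, 0, -1], [2, 1], [], []⟩, [-1, 2, -1], [1, -2, 1]⟩],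
   [⟨⟨[.inl 1, .inr 0, .inl 2], [.inl (-1), .inr 2, .inl 0, .inr 1, .inl (-2)], [-2, 0, -1], [2, 1], [], []⟩, [-1, 2, -1], [1, -2, 1]⟩]⟩

theorem P_S_11_odd_2_3_S_0_fam : P_S_11_odd_2_3_S_0.loc 2 11 = true ∧ P_S_11_odd_2_3_S_0.conn 11 = true :=
  one_fam P_S_11_odd_2_3_S_0 [0, 1] 2 11 (by decide) (by decide +kernel) (by decide +kernel)

theorem P_S_11_odd_2_3_S_0_sh : P_S_11_odd_2_3_S_0.all (shTwo (0) 2 false) = true := by decide +kernel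

theorem W_S_11_odd_2_3_S_0 (q r : ℕ) (h1 : q = 11) (h3 : (q + r) % 4 = 2) (h4 : 3 ≤ r) (h5 : r + 4 ≤ q) : Want q r := by
  subst h1
  obtain ⟨hl, hc⟩ := P_S_11_odd_2_3_S_0_fam
  have hev : decide (Even ((((11 - 1) / 2) - (r - 3) / 2) - 2)) = false := by
    simp only [Nat.even_iff, decide_eq_false_iff_not]
    omega
  have hI := inst_two P_S_11_odd_2_3_S_0 2 11 (0) 2 (((11 - 1) / 2) - (r - 3) / 2) ((11 - 1) / 2) r 0 (by decide) (by omega) (by decide) (by omega) (by omega) (by omega) (by omega) (by decide +kernel) (by decide) (by omega) (by decide +kernel) (by rw [hev]; exact P_S_11_odd_2_3_S_0_sh) hl hc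
  exact class_t _ _ (by omega) (tmod _ _ (by omega) (by omega)) hI.1 

def P_S_15_odd_4_0_S_5_231_242_253 : Pat 0 :=
  ⟨[⟨⟨[.inl 1, .inl 0, .inl 4], [.inl (-1), .inl 2, .inl 3, .inl (-3), .inl (-2), .inl (-4)], [-4, -2, 2, -3, 0, 3, -1], [4, 1], [], []⟩, [], []⟩,
    ⟨⟨[.inl 1, .inl (-3), .inl 0, .inl (-2), .inl 3, .inl 2, .inl 4], [.inl (-1), .inl (-4)], [-4, -2, 3, 2, 0, -3, -1], [4, 1], [0], []⟩, [], []⟩,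
    ⟨⟨[.inl 1, .inl 0, .inl (-2), .inl 4], [.inl (-1), .inl 3, .inl 2, .inl (-3), .inl (-4)], [-4, -2, -3, -1], [4, 0, 2, 3, 1], [], []⟩, [], []⟩,
    ⟨⟨[.inl 1, .inl (-3), .inl (-2), .inl 0, .inl 4], [.inl (-1), .inl 3, .inl 2, .inl (-4)], [-4, 0, -2, 2, -3, -1], [4, 3, 1], [], []⟩, [], []⟩,
    ⟨⟨[.inl 1, .inl (-3), .inl 0, .inl 4], [.inl (-1), .inl 3, .inl (-2), .inl 2, .inl (-4)], [-4, 0, -3, -2, 3, 2, -1], [4, 1], [0], []⟩, [], []⟩,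
    ⟨⟨[.inl 1, .inl (-3), .inl 2, .inl 3, .inl 4], [.inl (-1), .inl 0, .inl (-2), .inl (-4)], [-4, -3, -2, 2, -1], [4, 0, 3, 1], [-2], []⟩, [], []⟩,
    ⟨⟨[.inl 1, .inl (-3), .inl (-2), .inl 2, .inl 3, .inl 4], [.inl (-1), .inl 0, .inl (-4)], [-4, -3, -2, -1], [4, 2, 0, 3, 1], [], []⟩, [], []⟩,
    ⟨⟨[.inl 1, .inl (-3), .inl (-2), .inl 3, .inl 4], [.inl (-1), .inl 2, .inl 0, .inl (-4)], [-4, -1], [4, 0, -2, -3, 2, 3, 1], [], []⟩, [], []⟩,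
    ⟨⟨[.inl 1, .inl (-2), .inl 3, .inl 2, .inl (-3), .inl 4], [.inl (-1), .inl 0, .inl (-4)], [-4, 3, -2, -1], [4, 0, -3, 2, 1], [], []⟩, [], []⟩,
    ⟨⟨[.inl 1, .inl 2, .inl (-3), .inl (-2), .inl 0, .inl 4], [.inl (-1), .inl 3, .inl (-4)], [-4, -1], [4, -3, 3, -2, 0, 2, 1], [], []⟩, [], []⟩,
    ⟨⟨[.inl 1, .inl 0, .inl 4], [.inl (-1), .inl 3, .inl 2, .inl (-2), .inl (-3), .inl (-4)], [-4, 3, 2, -3, -1], [4, -2, 0, 1], [], []⟩, [], []⟩,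
    ⟨⟨[.inl 1, .inl 4], [.inl (-1), .inl 3, .inl 0, .inl 2, .inl (-2), .inl (-3), .inl (-4)], [-4, 0, -1], [4, -3, -2, 3, 2, 1], [], []⟩, [], []⟩,
    ⟨⟨[.inl 1, .inl 0, .inl 3, .inl 4], [.inl (-1), .inl 2, .inl (-2), .inl (-3), .inl (-4)], [-4, 0, -1], [4, 3, 2, -3, -2, 1], [], []⟩, [], []⟩,
    ⟨⟨[.inl 1, .inl (-3), .inl (-2), .inl 3, .inl 2, .inl 4], [.inl (-1), .inl 0, .inl (-4)], [-4, -3, -1], [4, 2, -2, 3, 0, 1], [-4], []⟩, [], []⟩,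
    ⟨⟨[.inl 1, .inl (-2), .inl 4], [.inl (-1), .inl 3, .inl 0, .inl 2, .inl (-3), .inl (-4)], [-4, -3, -2, 0, -1], [4, 2, 3, 1], [-4], []⟩, [], []⟩],
   [⟨⟨[.inl 1, .inl (-2), .inl 4], [.inl (-1), .inl 3, .inl 0, .inl 2, .inl (-3), .inl (-4)], [-4, -3, -2, 0, -1], [4, 2, 3, 1], [], []⟩, [], []⟩]⟩

theorem P_S_15_odd_4_0_S_5_231_242_253_fam : P_S_15_odd_4_0_S_5_231_242_253.loc 7 15 = true ∧ P_S_15_odd_4_0_S_5_231_242_253.conn 15 = true :=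
  one_fam P_S_15_odd_4_0_S_5_231_242_253 [] 7 15 (by decide) (by decide +kernel) (by decide +kernel)

theorem P_S_15_odd_4_0_S_5_231_242_253_sh : P_S_15_odd_4_0_S_5_231_242_253.all (shTwo (0) 4 false) = true := by decide +kernel

def S_S_15_odd_4_0_S_5_231_242_253_0 : SpD 0 := ⟨1, .inl 0, [(3, .inl 3), (6, .inl 4), (2, .inl (-2)), (1, .inl (-3))], [(2, 1)]⟩

theorem S_S_15_odd_4_0_S_5_231_242_253_0_fam : S_S_15_odd_4_0_S_5_231_242_253_0.chk 6 15 (P_S_15_odd_4_0_S_5_231_242_253.acc 15 S_S_15_odd_4_0_S_5_231_242_253_0.i0) = true := by decide +kernel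

def S_S_15_odd_4_0_S_5_231_242_253_1 : SpD 0 := ⟨1, .inl 0, [(3, .inl 3), (6, .inl 4), (2, .inl (-2)), (1, .inl (-3))], [(0, 2), (1, 4)]⟩

theorem S_S_15_odd_4_0_S_5_231_242_253_1_fam : S_S_15_odd_4_0_S_5_231_242_253_1.chk 6 15 (P_S_15_odd_4_0_S_5_231_242_253.acc 15 S_S_15_odd_4_0_S_5_231_242_253_1.i0) = true := by decide +kernel

def S_S_15_odd_4_0_S_5_231_242_253_2 : SpD 0 := ⟨1, .inl 0, [(3, .inl 3), (6, .inl 4), (2, .inl (-2)), (1, .inl (-3))], [(0, 2), (1, 4), (2, 1)]⟩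

theorem S_S_15_odd_4_0_S_5_231_242_253_2_fam : S_S_15_odd_4_0_S_5_231_242_253_2.chk 6 15 (P_S_15_odd_4_0_S_5_231_242_253.acc 15 S_S_15_odd_4_0_S_5_231_242_253_2.i0) = true := by decide +kernel

theorem W_S_15_odd_4_0_S_5_231_242_253 (q r : ℕ) (h1 : q = 15) (h3 : (q + r) % 4 = 3) (h4 : 0 ≤ r) (h5 : r + 11 ≤ q) : Want q r := by
  subst h1
  obtain ⟨hl, hc⟩ := P_S_15_odd_4_0_S_5_231_242_253_fam
  have hev : decide (Even ((((15 - 1) / 2) - (r - 0) / 2) - 4)) = false := by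
    simp only [Nat.even_iff, decide_eq_false_iff_not]
    omega
  have hI := inst_two P_S_15_odd_4_0_S_5_231_242_253 7 15 (0) 4 (((15 - 1) / 2) - (r - 0) / 2) ((15 - 1) / 2) r 5 (by decide) (by omega) (by decide) (by omega) (by omega) (by omega) (by omega) (by decide +kernel) (by decide) (by omega) (by decide +kernel) (by rw [hev]; exact P_S_15_odd_4_0_S_5_231_242_253_sh) hl hc
  exact class_f _ _ (by omega) (by omega) (by omega) hI.1 (hI.2 S_S_15_odd_4_0_S_5_231_242_253_0 6 2 (by decide) (by show (1 : ℕ) < _; omega) S_S_15_odd_4_0_S_5_231_242_253_0_fam (blk_2_3_1 _ (by omega) (by omega))) (hI.2 S_S_15_odd_4_0_S_5_231_242_253_1 6 3 (by decide) (by show (1 : ℕ) < _; omega) S_S_15_odd_4_0_S_5_231_242_253_1_fam (blk_3_3_2_4 _ (by omega) (by omega))) (hI.2 S_S_15_odd_4_0_S_5_231_242_253_2 6 4 (by decide) (by show (1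 : ℕ) < _; omega) S_S_15_odd_4_0_S_5_231_242_253_2_fam (blk_4_3_2_4_1 _ (by omega) (by omega)))

def P_Fee_d4_even_1_0_C_0_8_0_1 : Pat 0 :=
  ⟨[],
   [⟨⟨[.inl 0, .inl 1], [.inl (-1), .inl (-2)], [1, -1], [-2, 0], [], []⟩, [], []⟩]⟩

theorem P_Fee_d4_even_1_0_C_0_8_0_1_l0 : P_Fee_d4_even_1_0_C_0_8_0_1.locC [] 2 (8 + 0 * 1) = true := by decide +kernel

theorem P_Fee_d4_even_1_0_C_0_8_0_1_fam : ∀ t : ℕ, P_Fee_d4_even_1_0_C_0_8_0_1.loc 2 (8 + t * 1) = true ∧ P_Fee_d4_even_1_0_C_0_8_0_1.conn (8 + t * 1) = true :=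
  fam_ext2 P_Fee_d4_even_1_0_C_0_8_0_1 [] 2 8 0 2 1 (by decide) (by decide) (by decide) (by decide) (by decide) (by decide +kernel) (by decide)
    (by
      intro t ht
      interval_cases t
      · exact P_Fee_d4_even_1_0_C_0_8_0_1_l0)
    (by decide +kernel)

theorem P_Fee_d4_even_1_0_C_0_8_0_1_sh : P_Fee_d4_even_1_0_C_0_8_0_1.all (shTwo (-1) 1 true) = true := by decide +kernel

theorem W_Fee_d4_even_1_0_C_0_8_0_1 (q r : ℕ) (h1 : 8 ≤ q) (h2 : q % 2 = 0) (h3 : (q + r) % 4 = 0) (h4 : 0 ≤ r) (h5 : r + 4 ≤ q) : Want q r := by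
  obtain ⟨t, rfl⟩ : ∃ t : ℕ, q = 8 + t * 1 := ⟨q - 8, by omega⟩
  obtain ⟨hl, hc⟩ := P_Fee_d4_even_1_0_C_0_8_0_1_fam t
  have hev : decide (Even (((((8 + t * 1) - 2) / 2) - (r - 0) / 2) - 1)) = true := by
    simp only [Nat.even_iff, decide_eq_true_eq]
    omega
  have hI := inst_two P_Fee_d4_even_1_0_C_0_8_0_1 2 (8 + t * 1) (-1) 1 ((((8 + t * 1) - 2) / 2) - (r - 0) / 2) (((8 + t * 1) - 2) / 2) r 0 (by decide) (by omega) (by decide) (by omega) (by omega) (by omega) (by omega) (by decide +kernel) (by decide) (by omega) (by decide +kernel) (by rw [hev]; exact P_Fee_d4_even_1_0_C_0_8_0_1_sh) hl hc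
  exact class_t _ _ (by omega) (tmod _ _ (by omega) (by omega)) hI.1 

end Pool.Agent.KS6_69.GT
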