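import Pool.Agent.KS6_69.GT.TabBlocks
import Pool.Agent.KS6_69.GT.Wrap2
import Pool.Agent.KS6_69.GT.Tab11

set_option autoImplicit false

namespace Pool.Agent.KS6_69.GT

def P_Fg_d5_run_7_2_S_3_23_7_4 : Pat 2 :=
  ⟨[⟨⟨[.inl 0, .inl 1, .inr 0, .inl 5, .inl 4, .inl 3, .inl 2, .inr 1, .inl 6, .inl 7], [], [7, 5, 3, 1, 4, 6, 2, 0], [], [], []⟩, [-4, -4], [5, 4]⟩,
    ⟨⟨[.inl 0, .inl 1, .inl 2, .inr 1, .inl 6, .inl 3, .inr 0, .inl 5, .inl 4, .inl 7], [], [7, 5, 1, 3, 6, 2, 4, 0], [], [], []⟩, [-2, -4], [2, 4]⟩,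
    ⟨⟨[.inl 0, .inl 1, .inr 0, .inl 5, .inl 4, .inl 3, .inl 2, .inr 1, .inl 6, .inl 7], [], [7, 4, 6, 2, 1, 5, 3, 0], [], [], []⟩, [-4, -4], [2, 4]⟩,
    ⟨⟨[.inl 0, .inl 1, .inl 4, .inl 3, .inr 0, .inl 5, .inl 2, .inr 1, .inl 6, .inl 7], [], [7, 5, 1, 4, 6, 2, 3, 0], [], [], []⟩, [-2, -4], [4, 4]⟩,
    ⟨⟨[.inl 0, .inl 1, .inl 2, .inr 1, .inl 6, .inl 3, .inr 0, .inl 5, .inl 4, .inl 7], [], [7, 5, 3, 1, 4, 6, 2, 0], [], [], []⟩, [-2, -4], [2, 4]⟩,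
    ⟨⟨[.inl 0, .inl 1, .inr 0, .inl 5, .inl 4, .inl 3, .inl 2, .inr 1, .inl 6, .inl 7], [], [7, 5, 1, 3, 6, 2, 4, 0], [], [5], [0]⟩, [-5, -4], [4, 4]⟩,
    ⟨⟨[.inl 0, .inl 1, .inl 4, .inl 3, .inr 0, .inl 5, .inl 2, .inr 1, .inl 6, .inl 7], [], [7, 4, 6, 2, 1, 5, 3, 0], [], [2], []⟩, [-2, -4], [2, 4]⟩],
   [⟨⟨[.inl 0, .inl 1, .inr 0, .inl 5, .inl 4, .inl 3, .inl 2, .inr 1, .inl 6, .inl 7], [], [7, 5, 3, 1, 4, 6, 2, 0], [], [], []⟩, [-4, -4], [4, 4]⟩,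
    ⟨⟨[.inl 0, .inl 1, .inl 2, .inr 1, .inl 6, .inl 3, .inr 0, .inl 5, .inl 4, .inl 7], [], [7, 5, 1, 3, 6, 2, 4, 0], [], [], []⟩, [-2, -4], [2, 4]⟩,
    ⟨⟨[.inl 0, .inl 1, .inr 0, .inl 5, .inl 4, .inl 3, .inl 2, .inr 1, .inl 6, .inl 7], [], [7, 4, 1, 5, 3, 6, 2, 0], [], [], []⟩, [-4, -4], [4, 4]⟩,
    ⟨⟨[.inl 0, .inl 1, .inl 4, .inl 3, .inr 0, .inl 5, .inl 2, .inr 1, .inl 6, .inl 7], [], [7, 4, 6, 2, 5, 1, 3, 0], [], [], []⟩, [-2, -4], [2, 4]⟩]⟩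

theorem P_Fg_d5_run_7_2_S_3_23_7_4_l0 : P_Fg_d5_run_7_2_S_3_23_7_4.locC [2, 5] 7 (23 + 0 * 4) = true := by decide +kernel

theorem P_Fg_d5_run_7_2_S_3_23_7_4_l1 : P_Fg_d5_run_7_2_S_3_23_7_4.locC [2, 5] 7 (23 + 1 * 4) = true := by decide +kernel

theorem P_Fg_d5_run_7_2_S_3_23_7_4_fam : ∀ t : ℕ, P_Fg_d5_run_7_2_S_3_23_7_4.loc 7 (23 + t * 4) = true ∧ P_Fg_d5_run_7_2_S_3_23_7_4.conn (23 + t * 4) = true :=
  fam_ext2 P_Fg_d5_run_7_2_S_3_23_7_4 [2, 5] 7 23 1 5 4 (by decide) (by decide) (by decide) (by decide) (by decide) (by decide +kernel) (by decide)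
    (by
      intro t ht
      interval_cases t
      · exact P_Fg_d5_run_7_2_S_3_23_7_4_l0
      · exact P_Fg_d5_run_7_2_S_3_23_7_4_l1)
    (by decide +kernel)

theorem P_Fg_d5_run_7_2_S_3_23_7_4_sh : P_Fg_d5_run_7_2_S_3_23_7_4.all (shOne 7) = true := by decide +kernel

def S_Fg_d5_run_7_2_S_3_23_7_4_0 : SpD 2 := ⟨5, .inr 0, [(-5, .inl 0), (-1, .inl 1)], [(0, -2)]⟩

theorem S_Fg_d5_run_7_2_S_3_23_7_4_0_fam : ∀ t : ℕ, S_Fg_d5_run_7_2_S_3_23_7_4_0.chk 5 (23 + t * 4) (P_Fg_d5_run_7_2_S_3_23_7_4.acc (23 + t * 4) S_Fg_d5_run_7_2_S_3_23_7_4_0.i0) = true :=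
  sp_fam P_Fg_d5_run_7_2_S_3_23_7_4 S_Fg_d5_run_7_2_S_3_23_7_4_0 5 23 1 4 (by decide) (by decide) (by decide) (by decide) (by decide +kernel)

theorem W_Fg_d5_run_7_2_S_3_23_7_4 (q r : ℕ) (h1 : 23 ≤ q) (h2 : q % 4 = 3) (h5 : r + 5 = q) : Want q r := by
  obtain ⟨t, rfl⟩ : ∃ t : ℕ, q = 23 + t * 4 := ⟨(q - 23) / 4, by omega⟩
  obtain ⟨hl, hc⟩ := P_Fg_d5_run_7_2_S_3_23_7_4_fam t
  have hI := inst_one P_Fg_d5_run_7_2_S_3_23_7_4 7 (23 + t * 4) 7 r 3 (by omega) (by omega) (by omega) (by decide +kernel) (by decide) (by omega) (by decide +kernel) P_Fg_d5_run_7_2_S_3_23_7_4_sh hl hc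
  exact class_g _ _ (by omega) (by omega) (by omega) hI.1 (hI.2 S_Fg_d5_run_7_2_S_3_23_7_4_0 5 4 (by decide) (by show (5 : ℕ) < _; omega) (S_Fg_d5_run_7_2_S_3_23_7_4_0_fam t) (blk_4_1_m2 _ (by omega) (by omega)))

def P_Fee_d2_run_5_3_S_0_18_6_4 : Pat 3 :=
  ⟨[⟨⟨[.inl 0, .inr 0, .inl 1, .inr 2, .inl 4, .inl 3, .inl 2, .inr 1, .inl 5], [], [5, 2, 3, 4, 1, 0], [], [], []⟩, [-1, -3, -1], [1, 1, 3]⟩,
    ⟨⟨[.inl 0, .inr 0, .inl 1, .inr 2, .inl 2, .inl 3, .inl 4, .inr 1, .inl 5], [], [5, 4, 3, 2, 1, 0], [], [], []⟩, [-1, -1, -3], [1, 3, 1]⟩,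
    ⟨⟨[.inl 0, .inr 0, .inl 1, .inr 2, .inl 4, .inl 3, .inl 2, .inr 1, .inl 5], [], [5, 2, 3, 4, 1, 0], [], [], []⟩, [-1, -3, -1], [1, 1, 3]⟩,
    ⟨⟨[.inl 0, .inr 0, .inl 1, .inr 2, .inl 2, .inl 3, .inl 4, .inr 1, .inl 5], [], [5, 4, 3, 2, 1, 0], [], [], []⟩, [-1, -1, -3], [1, 3, 1]⟩,
    ⟨⟨[.inl 0, .inr 0, .inl 1, .inr 2, .inl 4, .inl 3, .inl 2, .inr 1, .inl 5], [], [5, 2, 3, 4, 1, 0], [], [], []⟩, [-1, -3, -1], [1, 1, 3]⟩,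
    ⟨⟨[.inl 0, .inr 0, .inl 1, .inr 2, .inl 2, .inl 3, .inl 4, .inr 1, .inl 5], [], [5, 4, 3, 2, 1, 0], [], [], []⟩, [-1, -1, -3], [1, 3, 1]⟩],
   [⟨⟨[.inl 0, .inr 0, .inl 1, .inr 2, .inl 4, .inl 3, .inl 2, .inr 1, .inl 5], [], [5, 2, 3, 4, 1, 0], [], [], []⟩, [-1, -3, -1], [1, 1, 3]⟩,
    ⟨⟨[.inl 0, .inr 0, .inl 1, .inr 2, .inl 2, .inl 3, .inl 4, .inr 1, .inl 5], [], [5, 4, 3, 2, 1, 0], [], [], []⟩, [-1, -1, -3], [1, 3, 1]⟩,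
    ⟨⟨[.inl 0, .inr 0, .inl 1, .inr 2, .inl 4, .inl 3, .inl 2, .inr 1, .inl 5], [], [5, 2, 3, 4, 1, 0], [], [], []⟩, [-1, -3, -1], [1, 1, 3]⟩,
    ⟨⟨[.inl 0, .inr 0, .inl 1, .inr 2, .inl 2, .inl 3, .inl 4, .inr 1, .inl 5], [], [5, 4, 3, 2, 1, 0], [], [], []⟩, [-1, -1, -3], [1, 3, 1]⟩]⟩

theorem P_Fee_d2_run_5_3_S_0_18_6_4_l0 : P_Fee_d2_run_5_3_S_0_18_6_4.locC [1, 5] 5 (18 + 0 * 4) = true := by decide +kernel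

theorem P_Fee_d2_run_5_3_S_0_18_6_4_l1 : P_Fee_d2_run_5_3_S_0_18_6_4.locC [1, 5] 5 (18 + 1 * 4) = true := by decide +kernel

theorem P_Fee_d2_run_5_3_S_0_18_6_4_fam : ∀ t : ℕ, P_Fee_d2_run_5_3_S_0_18_6_4.loc 5 (18 + t * 4) = true ∧ P_Fee_d2_run_5_3_S_0_18_6_4.conn (18 + t * 4) = true :=
  fam_ext2 P_Fee_d2_run_5_3_S_0_18_6_4 [1, 5] 5 18 1 4 4 (by decide) (by decide) (by decide) (by decide) (by decide) (by decide +kernel) (by decide)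
    (by
      intro t ht
      interval_cases t
      · exact P_Fee_d2_run_5_3_S_0_18_6_4_l0
      · exact P_Fee_d2_run_5_3_S_0_18_6_4_l1)
    (by decide +kernel)

theorem P_Fee_d2_run_5_3_S_0_18_6_4_sh : P_Fee_d2_run_5_3_S_0_18_6_4.all (shOne 5) = true := by decide +kernel

theorem W_Fee_d2_run_5_3_S_0_18_6_4 (q r : ℕ) (h1 : 18 ≤ q) (h2 : q % 4 = 2) (h5 : r + 2 = q) : Want q r := by
  obtain ⟨t, rfl⟩ : ∃ t : ℕ, q = 18 + t * 4 := ⟨(q - 18) / 4, by omega⟩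
  obtain ⟨hl, hc⟩ := P_Fee_d2_run_5_3_S_0_18_6_4_fam t
  have hI := inst_one P_Fee_d2_run_5_3_S_0_18_6_4 5 (18 + t * 4) 5 r 0 (by omega) (by omega) (by omega) (by decide +kernel) (by decide) (by omega) (by decide +kernel) P_Fee_d2_run_5_3_S_0_18_6_4_sh hl hc
  exact class_t _ _ (by omega) (tmod _ _ (by omega) (by omega)) hI.1 

def P_S_18_even_3_1_C_0 : Pat 1 :=
  ⟨[⟨⟨[.inl 0, .inr 0, .inl (-3), .inl (-2), .inl 1, .inl 2, .inl 3], [.inl (-1), .inl (-4)], [3, -3, 1, -1], [-4, -2, 2, 0], [], []⟩, [-2], [-5]⟩,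
    ⟨⟨[.inl 0, .inl (-3), .inr 0, .inl 2, .inl 1, .inl (-2), .inl 3], [.inl (-1), .inl (-4)], [3, -1], [-4, 2, -2, -3, 1, 0], [], []⟩, [-6], [2]⟩,
    ⟨⟨[.inl 0, .inr 0, .inl 3], [.inl (-1), .inl (-2), .inl 1, .inl 2, .inl (-3), .inl (-4)], [3, 1, -3, -1], [-4, 2, -2, 0], [], []⟩, [2], [4]⟩,
    ⟨⟨[.inl 0, .inr 0, .inl 3], [.inl (-1), .inl 1, .inl 2, .inl (-2), .inl (-3), .inl (-4)], [3, -3, 1, -1], [-4, -2, 2, 0], [], []⟩, [-2], [1]⟩,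
    ⟨⟨[.inl 0, .inl 2, .inr 0, .inl (-2), .inl (-3), .inl 1, .inl 3], [.inl (-1), .inl (-4)], [3, 2, -2, -3, 1, -1], [-4, 0], [], []⟩, [-1], [-2]⟩,
    ⟨⟨[.inl 0, .inl 3], [.inl (-1), .inl (-3), .inl (-2), .inl 1, .inl 2, .inr 0, .inl (-4)], [3, -1], [-4, -3, 1, 2, -2, 0], [], []⟩, [6], [-6]⟩,
    ⟨⟨[.inl 0, .inl 1, .inl 2, .inl 3], [.inl (-1), .inr 0, .inl (-2), .inl (-3), .inl (-4)], [3, 2, -2, -3, 1, -1], [-4, 0], [], []⟩, [-4], [1]⟩,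
    ⟨⟨[.inl 0, .inl 2, .inl 1, .inl (-2), .inl (-3), .inr 0, .inl 3], [.inl (-1), .inl (-4)], [3, -1], [-4, 2, -2, 1, -3, 0], [], []⟩, [-1], [5]⟩,
    ⟨⟨[.inl 0, .inr 0, .inl 1, .inl 2, .inl 3], [.inl (-1), .inl (-3), .inl (-2), .inl (-4)], [3, 1, 2, -1], [-4, -3, -2, 0], [], []⟩, [2], [1]⟩,
    ⟨⟨[.inl 0, .inr 0, .inl 2, .inl 1, .inl 3], [.inl (-1), .inl (-2), .inl (-3), .inl (-4)], [3, 2, -1], [-4, -3, -2, 1, 0], [], []⟩, [-1], [5]⟩,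
    ⟨⟨[.inl 0, .inl 2, .inr 0, .inl (-2), .inl 1, .inl 3], [.inl (-1), .inl (-3), .inl (-4)], [3, -2, -3, 1, 2, -1], [-4, 0], [], []⟩, [5], [-2]⟩,
    ⟨⟨[.inl 0, .inl (-3), .inl 3], [.inl (-1), .inl (-2), .inl 1, .inl 2, .inr 0, .inl (-4)], [3, 2, -3, -2, -1], [-4, 1, 0], [], []⟩, [1], [-6]⟩,
    ⟨⟨[.inl 0, .inl (-3), .inl (-2), .inr 0, .inl 1, .inl 3], [.inl (-1), .inl 2, .inl (-4)], [3, -1], [-4, -3, 2, -2, 1, 0], [], []⟩, [-5], [-1]⟩,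
    ⟨⟨[.inl 0, .inl 1, .inl (-2), .inl 2, .inr 0, .inl 3], [.inl (-1), .inl (-3), .inl (-4)], [3, -2, -3, 1, 2, -1], [-4, 0], [], []⟩, [5], [6]⟩,
    ⟨⟨[.inl 0, .inl 2, .inl 1, .inl (-3), .inr 0, .inl 3], [.inl (-1), .inl (-2), .inl (-4)], [3, 2, 1, -3, -1], [-4, -2, 0], [], []⟩, [-5], [2]⟩,
    ⟨⟨[.inl 0, .inl 1, .inl 2, .inl 3], [.inl (-1), .inr 0, .inl (-3), .inl (-2), .inl (-4)], [3, -1], [-4, -2, -3, 2, 1, 0], [], []⟩, [2], [-5]⟩,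
    ⟨⟨[.inl 0, .inl (-2), .inl 1, .inr 0, .inl 2, .inl 3], [.inl (-1), .inl (-3), .inl (-4)], [3, -3, -2, -1], [-4, 1, 2, 0], [], []⟩, [-2], [2]⟩,
    ⟨⟨[.inl 0, .inl 3], [.inl (-1), .inl (-2), .inl 1, .inl 2, .inr 0, .inl (-3), .inl (-4)], [3, 1, -1], [-4, 2, -3, -2, 0], [], []⟩, [6], [-2]⟩],
   [⟨⟨[.inl 0, .inl 3], [.inl (-1), .inl (-2), .inl 1, .inl 2, .inr 0, .inl (-3), .inl (-4)], [3, 1, -1], [-4, 2, -3, -2, 0], [], []⟩, [6], [-2]⟩]⟩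

theorem P_S_18_even_3_1_C_0_fam : P_S_18_even_3_1_C_0.loc 6 18 = true ∧ P_S_18_even_3_1_C_0.conn 18 = true :=
  one_fam P_S_18_even_3_1_C_0 [2, -2, 3, 0, -1] 6 18 (by decide) (by decide +kernel) (by decide +kernel)

theorem P_S_18_even_3_1_C_0_sh : P_S_18_even_3_1_C_0.all (shTwo (-1) 3 true) = true := by decide +kernel

theorem W_S_18_even_3_1_C_0 (q r : ℕ) (h1 : q = 18) (h3 : (q + r) % 4 = 1) (h4 : 1 ≤ r) (h5 : r + 7 ≤ q) : Want q r := by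
  subst h1
  obtain ⟨hl, hc⟩ := P_S_18_even_3_1_C_0_fam
  have hev : decide (Even ((((18 - 2) / 2) - (r - 1) / 2) - 3)) = true := by
    simp only [Nat.even_iff, decide_eq_true_eq]
    omega
  have hI := inst_two P_S_18_even_3_1_C_0 6 18 (-1) 3 (((18 - 2) / 2) - (r - 1) / 2) ((18 - 2) / 2) r 0 (by decide) (by omega) (by decide) (by omega) (by omega) (by omega) (by omega) (by decide +kernel) (by decide) (by omega) (by decide +kernel) (by rw [hev]; exact P_S_18_even_3_1_C_0_sh) hl hc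
  exact class_t _ _ (by omega) (tmod _ _ (by omega) (by omega)) hI.1 

def P_S_15_odd_3_1_C_4_232 : Pat 1 :=
  ⟨[⟨⟨[.inl 1, .inl 2, .inl 3], [.inl (-1), .inl 0, .inl (-2), .inr 0, .inl (-3)], [3, -2, 2, 0, -1], [-3, 1], [-2], []⟩, [-4], [-3]⟩,
    ⟨⟨[.inl 1, .inl 0, .inr 0, .inl 2, .inl 3], [.inl (-1), .inl (-2), .inl (-3)], [3, 0, -1], [-3, 2, -2, 1], [3], [0]⟩, [4], [2]⟩,
    ⟨⟨[.inl 1, .inl 2, .inl 3], [.inl (-1), .inl 0, .inl (-2), .inr 0, .inl (-3)], [3, -2, 2, -1], [-3, 0, 1], [-3], []⟩, [-5], [-3]⟩,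
    ⟨⟨[.inl 1, .inl 2, .inl 0, .inr 0, .inl 3], [.inl (-1), .inl (-2), .inl (-3)], [3, -1], [-3, 2, 0, -2, 1], [], []⟩, [-2], [5]⟩,
    ⟨⟨[.inl 1, .inl 0, .inr 0, .inl 2, .inl 3], [.inl (-1), .inl (-2), .inl (-3)], [3, -2, 2, -1], [-3, 0, 1], [], []⟩, [3], [2]⟩,
    ⟨⟨[.inl 1, .inl 3], [.inl (-1), .inl (-2), .inl 0, .inl 2, .inr 0, .inl (-3)], [3, -1], [-3, -2, 0, 2, 1], [], []⟩, [4], [-4]⟩,
    ⟨⟨[.inl 1, .inl 2, .inl 0, .inr 0, .inl 3], [.inl (-1), .inl (-2), .inl (-3)], [3, -2, -1], [-3, 2, 0, 1], [], []⟩, [-2], [5]⟩,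
    ⟨⟨[.inl 1, .inl 2, .inl 3], [.inl (-1), .inl 0, .inl (-2), .inr 0, .inl (-3)], [3, -2, 2, 0, -1], [-3, 1], [], []⟩, [1], [-3]⟩,
    ⟨⟨[.inl 1, .inl 0, .inl 2, .inl 3], [.inl (-1), .inl (-2), .inr 0, .inl (-3)], [3, 2, -2, -1], [-3, 0, 1], [], []⟩, [-5], [-1]⟩,
    ⟨⟨[.inl 1, .inl 0, .inl 2, .inl 3], [.inl (-1), .inr 0, .inl (-2), .inl (-3)], [3, -2, 0, -1], [-3, 2, 1], [], []⟩, [1], [-4]⟩,
    ⟨⟨[.inl 1, .inl 2, .inl 3], [.inl (-1), .inl 0, .inr 0, .inl (-2), .inl (-3)], [3, -2, 2, -1], [-3, 0, 1], [], []⟩, [3], [-1]⟩,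
    ⟨⟨[.inl 1, .inl 0, .inl (-2), .inr 0, .inl 2, .inl 3], [.inl (-1), .inl (-3)], [3, -1], [-3, -2, 2, 0, 1], [], []⟩, [-5], [4]⟩,
    ⟨⟨[.inl 1, .inl 2, .inl 0, .inr 0, .inl 3], [.inl (-1), .inl (-2), .inl (-3)], [3, -1], [-3, 0, -2, 2, 1], [], []⟩, [3], [5]⟩,
    ⟨⟨[.inl 1, .inl 0, .inl 2, .inl 3], [.inl (-1), .inl (-2), .inr 0, .inl (-3)], [3, -1], [-3, 2, -2, 0, 1], [], []⟩, [1], [-3]⟩,
    ⟨⟨[.inl 1, .inl 2, .inl 3], [.inl (-1), .inl (-2), .inl 0, .inr 0, .inl (-3)], [3, -2, -1], [-3, 0, 2, 1], [], []⟩, [3], [-1]⟩],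
   [⟨⟨[.inl 1, .inl 2, .inl 3], [.inl (-1), .inl (-2), .inl 0, .inr 0, .inl (-3)], [3, -2, -1], [-3, 0, 2, 1], [], []⟩, [3], [-1]⟩]⟩

theorem P_S_15_odd_3_1_C_4_232_fam : P_S_15_odd_3_1_C_4_232.loc 5 15 = true ∧ P_S_15_odd_3_1_C_4_232.conn 15 = true :=
  one_fam P_S_15_odd_3_1_C_4_232 [-2, 0, -3] 5 15 (by decide) (by decide +kernel) (by decide +kernel)

theorem P_S_15_odd_3_1_C_4_232_sh : P_S_15_odd_3_1_C_4_232.all (shTwo (0) 3 true) = true := by decide +kernel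

def S_S_15_odd_3_1_C_4_232_0 : SpD 1 := ⟨2, .inl (-2), [(-4, .inl (-1)), (-1, .inr 0), (3, .inl 0)], [(0, -2), (1, 1)]⟩

theorem S_S_15_odd_3_1_C_4_232_0_fam : S_S_15_odd_3_1_C_4_232_0.chk 4 15 (P_S_15_odd_3_1_C_4_232.acc 15 S_S_15_odd_3_1_C_4_232_0.i0) = true := by decide +kernel

theorem W_S_15_odd_3_1_C_4_232 (q r : ℕ) (h1 : q = 15) (h3 : (q + r) % 4 = 0) (h4 : 1 ≤ r) (h5 : r + 6 ≤ q) : Want q r := by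
  subst h1
  obtain ⟨hl, hc⟩ := P_S_15_odd_3_1_C_4_232_fam
  have hev : decide (Even ((((15 - 1) / 2) - (r - 1) / 2) - 3)) = true := by
    simp only [Nat.even_iff, decide_eq_true_eq]
    omega
  have hI := inst_two P_S_15_odd_3_1_C_4_232 5 15 (0) 3 (((15 - 1) / 2) - (r - 1) / 2) ((15 - 1) / 2) r 4 (by decide) (by omega) (by decide) (by omega) (by omega) (by omega) (by omega) (by decide +kernel) (by decide) (by omega) (by decide +kernel) (by rw [hev]; exact P_S_15_odd_3_1_C_4_232_sh) hl hc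
  exact class_a _ _ (by omega) (by omega) (by omega) hI.1 (hI.2 S_S_15_odd_3_1_C_4_232_0 4 2 (by decide) (by show (2 : ℕ) < _; omega) S_S_15_odd_3_1_C_4_232_0_fam (blk_2_0_m2_1 _ (by omega) (by omega)))

def P_Fee_C_even_2_0_C_0_16_0_2 : Pat 0 :=
  ⟨[],
   [⟨⟨[.inl 0, .inl 1, .inl 2], [.inl (-1), .inl (-2), .inl (-3)], [2, -2, 1, -1], [-3, 0], [], []⟩, [], []⟩,
    ⟨⟨[.inl 0, .inl 1, .inl 2], [.inl (-1), .inl (-2), .inl (-3)], [2, -1], [-3, 1, -2, 0], [], []⟩, [], []⟩]⟩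

theorem P_Fee_C_even_2_0_C_0_16_0_2_l0 : P_Fee_C_even_2_0_C_0_16_0_2.locC [] 4 (16 + 0 * 2) = true := by decide +kernel

theorem P_Fee_C_even_2_0_C_0_16_0_2_fam : ∀ t : ℕ, P_Fee_C_even_2_0_C_0_16_0_2.loc 4 (16 + t * 2) = true ∧ P_Fee_C_even_2_0_C_0_16_0_2.conn (16 + t * 2) = true :=
  fam_ext2 P_Fee_C_even_2_0_C_0_16_0_2 [] 4 16 0 2 2 (by decide) (by decide) (by decide) (by decide) (by decide) (by decide +kernel) (by decide)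
    (by
      intro t ht
      interval_cases t
      · exact P_Fee_C_even_2_0_C_0_16_0_2_l0)
    (by decide +kernel)

theorem P_Fee_C_even_2_0_C_0_16_0_2_sh : P_Fee_C_even_2_0_C_0_16_0_2.all (shTwo (-1) 2 true) = true := by decide +kernel

theorem W_Fee_C_even_2_0_C_0_16_0_2 (q r : ℕ) (h1 : 16 ≤ q) (h2 : q % 2 = 0) (h3 : (q + r) % 4 = 2) (h4 : 0 ≤ r) (h5 : r + 6 ≤ q) : Want q r := by
  obtain ⟨t, rfl⟩ : ∃ t : ℕ, q = 16 + t * 2 := ⟨(q - 16) / 2, by omega⟩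
  obtain ⟨hl, hc⟩ := P_Fee_C_even_2_0_C_0_16_0_2_fam t
  have hev : decide (Even (((((16 + t * 2) - 2) / 2) - (r - 0) / 2) - 2)) = true := by
    simp only [Nat.even_iff, decide_eq_true_eq]
    omega
  have hI := inst_two P_Fee_C_even_2_0_C_0_16_0_2 4 (16 + t * 2) (-1) 2 ((((16 + t * 2) - 2) / 2) - (r - 0) / 2) (((16 + t * 2) - 2) / 2) r 0 (by decide) (by omega) (by decide) (by omega) (by omega) (by omega) (by omega) (by decide +kernel) (by decide) (by omega) (by decide +kernel) (by rw [hev]; exact P_Fee_C_even_2_0_C_0_16_0_2_sh) hl hc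
  exact class_t _ _ (by omega) (tmod _ _ (by omega) (by omega)) hI.1 

def P_S_9_odd_3_0_C_3_231 : Pat 0 :=
  ⟨[⟨⟨[.inl 1, .inl 0, .inl (-2), .inl 3], [.inl (-1), .inl 2, .inl (-3)], [3, -2, -1], [-3, 2, 0, 1], [-2], []⟩, [], []⟩,
    ⟨⟨[.inl 1, .inl 3], [.inl (-1), .inl (-2), .inl 0, .inl 2, .inl (-3)], [3, -2, -1], [-3, 0, 2, 1], [], []⟩, [], []⟩,
    ⟨⟨[.inl 1, .inl 2, .inl 3], [.inl (-1), .inl 0, .inl (-2), .inl (-3)], [3, 2, 0, -1], [-3, -2, 1], [2], []⟩, [], []⟩,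
    ⟨⟨[.inl 1, .inl 2, .inl 0, .inl 3], [.inl (-1), .inl (-2), .inl (-3)], [3, 2, -1], [-3, 0, -2, 1], [], []⟩, [], []⟩,
    ⟨⟨[.inl 1, .inl 2, .inl 0, .inl (-2), .inl 3], [.inl (-1), .inl (-3)], [3, 0, -2, 2, -1], [-3, 1], [], []⟩, [], []⟩,
    ⟨⟨[.inl 1, .inl 3], [.inl (-1), .inl (-2), .inl 0, .inl 2, .inl (-3)], [3, -1], [-3, 0, 2, -2, 1], [], []⟩, [], []⟩,
    ⟨⟨[.inl 1, .inl 2, .inl 3], [.inl (-1), .inl (-2), .inl 0, .inl (-3)], [3, 0, 2, -1], [-3, -2, 1], [], []⟩, [], []⟩,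
    ⟨⟨[.inl 1, .inl 0, .inl 2, .inl 3], [.inl (-1), .inl (-2), .inl (-3)], [3, 2, -1], [-3, -2, 0, 1], [], []⟩, [], []⟩,
    ⟨⟨[.inl 1, .inl 2, .inl 0, .inl (-2), .inl 3], [.inl (-1), .inl (-3)], [3, 0, -2, -1], [-3, 2, 1], [-2], []⟩, [], []⟩],
   [⟨⟨[.inl 1, .inl 2, .inl 0, .inl (-2), .inl 3], [.inl (-1), .inl (-3)], [3, 0, -2, -1], [-3, 2, 1], [], []⟩, [], []⟩]⟩

theorem P_S_9_odd_3_0_C_3_231_fam : P_S_9_odd_3_0_C_3_231.loc 5 9 = true ∧ P_S_9_odd_3_0_C_3_231.conn 9 = true :=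
  one_fam P_S_9_odd_3_0_C_3_231 [] 5 9 (by decide) (by decide +kernel) (by decide +kernel)

theorem P_S_9_odd_3_0_C_3_231_sh : P_S_9_odd_3_0_C_3_231.all (shTwo (0) 3 true) = true := by decide +kernel

def S_S_9_odd_3_0_C_3_231_0 : SpD 0 := ⟨2, .inl (-2), [(-1, .inl (-3)), (-2, .inl 0)], [(0, 1)]⟩

theorem S_S_9_odd_3_0_C_3_231_0_fam : S_S_9_odd_3_0_C_3_231_0.chk 3 9 (P_S_9_odd_3_0_C_3_231.acc 9 S_S_9_odd_3_0_C_3_231_0.i0) = true := by decide +kernel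

theorem W_S_9_odd_3_0_C_3_231 (q r : ℕ) (h1 : q = 9) (h3 : (q + r) % 4 = 3) (h4 : 0 ≤ r) (h5 : r + 7 ≤ q) : Want q r := by
  subst h1
  obtain ⟨hl, hc⟩ := P_S_9_odd_3_0_C_3_231_fam
  have hev : decide (Even ((((9 - 1) / 2) - (r - 0) / 2) - 3)) = true := by
    simp only [Nat.even_iff, decide_eq_true_eq]
    omega
  have hI := inst_two P_S_9_odd_3_0_C_3_231 5 9 (0) 3 (((9 - 1) / 2) - (r - 0) / 2) ((9 - 1) / 2) r 3 (by decide) (by omega) (by decide) (by omega) (by omega) (by omega) (by omega) (by decide +kernel) (by decide) (by omega) (by decide +kernel) (by rw [hev]; exact P_S_9_odd_3_0_C_3_231_sh) hl hc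
  exact class_b _ _ (by omega) (by omega) (by omega) hI.1 (hI.2 S_S_9_odd_3_0_C_3_231_0 3 2 (by decide) (by show (2 : ℕ) < _; omega) S_S_9_odd_3_0_C_3_231_0_fam (blk_2_3_1 _ (by omega) (by omega)))

end Pool.Agent.KS6_69.GT
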