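import Pool.Agent.KS6_69.GT.Wrap

set_option autoImplicit false

namespace Pool.Agent.KS6_69.GT

theorem blk_2_3_m6 (n : ℕ) (h : n % 4 = 3) (h0 : 11 ≤ n) : Blk 2 n [-6] :=
  blk_fam 2 11 (by decide) _ 1 (by decide) (by decide) (by decide)
    (Blk_of_chk 2 11 (by decide) (by decide) _
      [[0, 10, 9, 8, 7, 6, 5, 4, 3, 2, 1], [0, 3, 4, 8, 9, 1, 2, 6, 7, 10], [0, 1, 9, 10, 7, 8, 4, 5, 6, 2, 3]]
      [[0, 2, 1], [0, 1, 2], [0, 2, 1], [0, 1, 2], [0, 2, 1], [0, 2], [0, 1, 2], [0, 2, 1], [0, 1, 2], [0, 2, 1], [0, 1, 2]] (by decide +kernel)) n (by omega) h0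

theorem blk_2_3_m4 (n : ℕ) (h : n % 4 = 3) (h0 : 7 ≤ n) : Blk 2 n [-4] :=
  blk_fam 2 7 (by decide) _ 1 (by decide) (by decide) (by decide)
    (Blk_of_chk 2 7 (by decide) (by decide) _
      [[0, 6, 5, 4, 3, 2, 1], [0, 4, 5, 1, 2, 6], [0, 1, 5, 6, 2, 3, 4]]
      [[0, 2, 1], [0, 1, 2], [0, 2, 1], [0, 2], [0, 1, 2], [0, 2, 1], [0, 1, 2]] (by decide +kernel)) n (by omega) h0

theorem blk_2_1_m3_m4_m2 (n : ℕ) (h : n % 4 = 1) (h0 : 9 ≤ n) : Blk 2 n [-3, -4, -2] :=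
  blk_fam 2 9 (by decide) _ 1 (by decide) (by decide) (by decide)
    (Blk_of_chk 2 9 (by decide) (by decide) _
      [[0, 8, 7, 6, 5, 4, 3, 2, 1], [0, 3, 4, 1, 2, 8], [0, 1, 4, 5, 6, 7, 8, 2, 3]]
      [[0, 2, 1], [0, 1, 2], [0, 2, 1], [0, 1, 2], [0, 2, 1], [0, 2], [0, 2], [0, 2], [0, 1, 2]] (by decide +kernel)) n (by omega) h0

theorem blk_2_3_m2 (n : ℕ) (h : n % 4 = 3) (h0 : 7 ≤ n) : Blk 2 n [-2] :=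
  blk_fam 2 7 (by decide) _ 1 (by decide) (by decide) (by decide)
    (Blk_of_chk 2 7 (by decide) (by decide) _
      [[0, 6, 5, 4, 3, 2, 1], [0, 3, 4, 1, 2, 6], [0, 1, 4, 5, 6, 2, 3]]
      [[0, 2, 1], [0, 1, 2], [0, 2, 1], [0, 1, 2], [0, 2, 1], [0, 2], [0, 1, 2]] (by decide +kernel)) n (by omega) h0

theorem blk_2_0_m2_m5 (n : ℕ) (h : n % 4 = 0) (h0 : 8 ≤ n) : Blk 2 n [-2, -5] :=
  blk_fam 2 8 (by decide) _ 1 (by decide) (by decide) (by decide)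
    (Blk_of_chk 2 8 (by decide) (by decide) _
      [[0, 7, 6, 5, 4, 3, 2, 1], [0, 4, 5, 1, 2, 7], [0, 1, 5, 6, 7, 2, 3, 4]]
      [[0, 2, 1], [0, 1, 2], [0, 2, 1], [0, 2], [0, 1, 2], [0, 2, 1], [0, 2], [0, 1, 2]] (by decide +kernel)) n (by omega) h0

theorem blk_2_1_m2_m5_1 (n : ℕ) (h : n % 4 = 1) (h0 : 9 ≤ n) : Blk 2 n [-2, -5, 1] :=
  blk_fam 2 9 (by decide) _ 2 (by decide) (by decide) (by decide)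
    (Blk_of_chk 2 9 (by decide) (by decide) _
      [[0, 8, 7, 6, 5, 4, 3, 2, 1], [0, 5, 6, 2, 3, 8], [0, 1, 2, 6, 7, 8, 3, 4, 5]]
      [[0, 2, 1], [0, 2], [0, 1, 2], [0, 2, 1], [0, 2], [0, 1, 2], [0, 2, 1], [0, 2], [0, 1, 2]] (by decide +kernel)) n (by omega) h0

theorem blk_2_1_m2_m3_m4 (n : ℕ) (h : n % 4 = 1) (h0 : 9 ≤ n) : Blk 2 n [-2, -3, -4] :=
  blk_fam 2 9 (by decide) _ 1 (by decide) (by decide) (by decide)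
    (Blk_of_chk 2 9 (by decide) (by decide) _
      [[0, 8, 7, 6, 5, 4, 3, 2, 1], [0, 3, 4, 1, 2, 8], [0, 1, 4, 5, 6, 7, 8, 2, 3]]
      [[0, 2, 1], [0, 1, 2], [0, 2, 1], [0, 1, 2], [0, 2, 1], [0, 2], [0, 2], [0, 2], [0, 1, 2]] (by decide +kernel)) n (by omega) h0

theorem blk_2_0_m2_1 (n : ℕ) (h : n % 4 = 0) (h0 : 8 ≤ n) : Blk 2 n [-2, 1] :=
  blk_fam 2 8 (by decide) _ 2 (by decide) (by decide) (by decide)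
    (Blk_of_chk 2 8 (by decide) (by decide) _
      [[0, 7, 6, 5, 4, 3, 2, 1], [0, 4, 5, 2, 3, 7], [0, 1, 2, 5, 6, 7, 3, 4]]
      [[0, 2, 1], [0, 2], [0, 1, 2], [0, 2, 1], [0, 1, 2], [0, 2, 1], [0, 2], [0, 1, 2]] (by decide +kernel)) n (by omega) h0

theorem blk_2_1_m2_1_m5 (n : ℕ) (h : n % 4 = 1) (h0 : 9 ≤ n) : Blk 2 n [-2, 1, -5] :=
  blk_fam 2 9 (by decide) _ 2 (by decide) (by decide) (by decide)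
    (Blk_of_chk 2 9 (by decide) (by decide) _
      [[0, 8, 7, 6, 5, 4, 3, 2, 1], [0, 5, 6, 2, 3, 8], [0, 1, 2, 6, 7, 8, 3, 4, 5]]
      [[0, 2, 1], [0, 2], [0, 1, 2], [0, 2, 1], [0, 2], [0, 1, 2], [0, 2, 1], [0, 2], [0, 1, 2]] (by decide +kernel)) n (by omega) h0

theorem blk_2_1_m2_2_1 (n : ℕ) (h : n % 4 = 1) (h0 : 9 ≤ n) : Blk 2 n [-2, 2, 1] :=
  blk_fam 2 9 (by decide) _ 3 (by decide) (by decide) (by decide)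
    (Blk_of_chk 2 9 (by decide) (by decide) _
      [[0, 8, 7, 6, 5, 4, 3, 2, 1], [0, 5, 6, 3, 4, 8], [0, 1, 2, 3, 6, 7, 8, 4, 5]]
      [[0, 2, 1], [0, 2], [0, 2], [0, 1, 2], [0, 2, 1], [0, 1, 2], [0, 2, 1], [0, 2], [0, 1, 2]] (by decide +kernel)) n (by omega) h0

theorem blk_2_0_m2_3 (n : ℕ) (h : n % 4 = 0) (h0 : 8 ≤ n) : Blk 2 n [-2, 3] :=
  blk_fam 2 8 (by decide) _ 4 (by decide) (by decide) (by decide)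
    (Blk_of_chk 2 8 (by decide) (by decide) _
      [[0, 7, 6, 5, 4, 3, 2, 1], [0, 4, 5, 1, 2, 7], [0, 1, 5, 6, 7, 2, 3, 4]]
      [[0, 2, 1], [0, 1, 2], [0, 2, 1], [0, 2], [0, 1, 2], [0, 2, 1], [0, 2], [0, 1, 2]] (by decide +kernel)) n (by omega) h0

theorem blk_2_1_m2_4_1 (n : ℕ) (h : n % 4 = 1) (h0 : 9 ≤ n) : Blk 2 n [-2, 4, 1] :=
  blk_fam 2 9 (by decide) _ 5 (by decide) (by decide) (by decide)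
    (Blk_of_chk 2 9 (by decide) (by decide) _
      [[0, 8, 7, 6, 5, 4, 3, 2, 1], [0, 5, 6, 2, 3, 8], [0, 1, 2, 6, 7, 8, 3, 4, 5]]
      [[0, 2, 1], [0, 2], [0, 1, 2], [0, 2, 1], [0, 2], [0, 1, 2], [0, 2, 1], [0, 2], [0, 1, 2]] (by decide +kernel)) n (by omega) h0

theorem blk_2_3_1 (n : ℕ) (h : n % 4 = 3) (h0 : 7 ≤ n) : Blk 2 n [1] :=
  blk_fam 2 7 (by decide) _ 2 (by decide) (by decide) (by decide)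
    (Blk_of_chk 2 7 (by decide) (by decide) _
      [[0, 6, 5, 4, 3, 2, 1], [0, 4, 5, 2, 3, 6], [0, 1, 2, 5, 6, 3, 4]]
      [[0, 2, 1], [0, 2], [0, 1, 2], [0, 2, 1], [0, 1, 2], [0, 2, 1], [0, 1, 2]] (by decide +kernel)) n (by omega) h0

theorem blk_2_1_1_m2_2 (n : ℕ) (h : n % 4 = 1) (h0 : 9 ≤ n) : Blk 2 n [1, -2, 2] :=
  blk_fam 2 9 (by decide) _ 3 (by decide) (by decide) (by decide)
    (Blk_of_chk 2 9 (by decide) (by decide) _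
      [[0, 8, 7, 6, 5, 4, 3, 2, 1], [0, 5, 6, 3, 4, 8], [0, 1, 2, 3, 6, 7, 8, 4, 5]]
      [[0, 2, 1], [0, 2], [0, 2], [0, 1, 2], [0, 2, 1], [0, 1, 2], [0, 2, 1], [0, 2], [0, 1, 2]] (by decide +kernel)) n (by omega) h0

theorem blk_2_1_2_1_m4 (n : ℕ) (h : n % 4 = 1) (h0 : 9 ≤ n) : Blk 2 n [2, 1, -4] :=
  blk_fam 2 9 (by decide) _ 3 (by decide) (by decide) (by decide)
    (Blk_of_chk 2 9 (by decide) (by decide) _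
      [[0, 8, 7, 6, 5, 4, 3, 2, 1], [0, 6, 7, 3, 4, 8], [0, 1, 2, 3, 7, 8, 4, 5, 6]]
      [[0, 2, 1], [0, 2], [0, 2], [0, 1, 2], [0, 2, 1], [0, 2], [0, 1, 2], [0, 2, 1], [0, 1, 2]] (by decide +kernel)) n (by omega) h0

theorem blk_2_1_2_1_3 (n : ℕ) (h : n % 4 = 1) (h0 : 9 ≤ n) : Blk 2 n [2, 1, 3] :=
  blk_fam 2 9 (by decide) _ 4 (by decide) (by decide) (by decide)
    (Blk_of_chk 2 9 (by decide) (by decide) _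
      [[0, 8, 7, 6, 5, 4, 3, 2, 1], [0, 6, 7, 4, 5, 8], [0, 1, 2, 3, 4, 7, 8, 5, 6]]
      [[0, 2, 1], [0, 2], [0, 2], [0, 2], [0, 1, 2], [0, 2, 1], [0, 1, 2], [0, 2, 1], [0, 1, 2]] (by decide +kernel)) n (by omega) h0

theorem blk_2_3_3 (n : ℕ) (h : n % 4 = 3) (h0 : 7 ≤ n) : Blk 2 n [3] :=
  blk_fam 2 7 (by decide) _ 4 (by decide) (by decide) (by decide)
    (Blk_of_chk 2 7 (by decide) (by decide) _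
      [[0, 6, 5, 4, 3, 2, 1], [0, 4, 5, 1, 2, 6], [0, 1, 5, 6, 2, 3, 4]]
      [[0, 2, 1], [0, 1, 2], [0, 2, 1], [0, 2], [0, 1, 2], [0, 2, 1], [0, 1, 2]] (by decide +kernel)) n (by omega) h0

theorem blk_2_0_3_m2 (n : ℕ) (h : n % 4 = 0) (h0 : 8 ≤ n) : Blk 2 n [3, -2] :=
  blk_fam 2 8 (by decide) _ 4 (by decide) (by decide) (by decide)
    (Blk_of_chk 2 8 (by decide) (by decide) _
      [[0, 7, 6, 5, 4, 3, 2, 1], [0, 4, 5, 1, 2, 7], [0, 1, 5, 6, 7, 2, 3, 4]]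
      [[0, 2, 1], [0, 1, 2], [0, 2, 1], [0, 2], [0, 1, 2], [0, 2, 1], [0, 2], [0, 1, 2]] (by decide +kernel)) n (by omega) h0

theorem blk_2_0_3_4 (n : ℕ) (h : n % 4 = 0) (h0 : 8 ≤ n) : Blk 2 n [3, 4] :=
  blk_fam 2 8 (by decide) _ 5 (by decide) (by decide) (by decide)
    (Blk_of_chk 2 8 (by decide) (by decide) _
      [[0, 7, 6, 5, 4, 3, 2, 1], [0, 5, 6, 1, 2, 7], [0, 1, 6, 7, 2, 3, 4, 5]]
      [[0, 2, 1], [0, 1, 2], [0, 2, 1], [0, 2], [0, 2], [0, 1, 2], [0, 2, 1], [0, 1, 2]] (by decide +kernel)) n (by omega) h0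

theorem blk_2_0_4_1 (n : ℕ) (h : n % 4 = 0) (h0 : 8 ≤ n) : Blk 2 n [4, 1] :=
  blk_fam 2 8 (by decide) _ 5 (by decide) (by decide) (by decide)
    (Blk_of_chk 2 8 (by decide) (by decide) _
      [[0, 7, 6, 5, 4, 3, 2, 1], [0, 5, 6, 2, 3, 7], [0, 1, 2, 6, 7, 3, 4, 5]]
      [[0, 2, 1], [0, 2], [0, 1, 2], [0, 2, 1], [0, 2], [0, 1, 2], [0, 2, 1], [0, 1, 2]] (by decide +kernel)) n (by omega) h0

theorem blk_2_0_4_3 (n : ℕ) (h : n % 4 = 0) (h0 : 8 ≤ n) : Blk 2 n [4, 3] :=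
  blk_fam 2 8 (by decide) _ 5 (by decide) (by decide) (by decide)
    (Blk_of_chk 2 8 (by decide) (by decide) _
      [[0, 7, 6, 5, 4, 3, 2, 1], [0, 5, 6, 1, 2, 7], [0, 1, 6, 7, 2, 3, 4, 5]]
      [[0, 2, 1], [0, 1, 2], [0, 2, 1], [0, 2], [0, 2], [0, 1, 2], [0, 2, 1], [0, 1, 2]] (by decide +kernel)) n (by omega) h0

theorem blk_2_1_5_4_3 (n : ℕ) (h : n % 4 = 1) (h0 : 9 ≤ n) : Blk 2 n [5, 4, 3] :=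
  blk_fam 2 9 (by decide) _ 6 (by decide) (by decide) (by decide)
    (Blk_of_chk 2 9 (by decide) (by decide) _
      [[0, 8, 7, 6, 5, 4, 3, 2, 1], [0, 6, 7, 1, 2, 8], [0, 1, 7, 8, 2, 3, 4, 5, 6]]
      [[0, 2, 1], [0, 1, 2], [0, 2, 1], [0, 2], [0, 2], [0, 2], [0, 1, 2], [0, 2, 1], [0, 1, 2]] (by decide +kernel)) n (by omega) h0

theorem blk_3_3_m5_m3 (n : ℕ) (h : n % 4 = 3) (h0 : 11 ≤ n) : Blk 3 n [-5, -3] :=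
  blk_fam 3 11 (by decide) _ 1 (by decide) (by decide) (by decide)
    (Blk_of_chk 3 11 (by decide) (by decide) _
      [[0, 10, 9, 8, 7, 6, 5, 4, 3, 2, 1], [0, 9, 2, 3, 7, 1, 5, 4, 10], [0, 10, 4, 5, 1, 2, 6, 7, 3, 8, 9], [0, 1, 7, 8, 3, 4, 5, 6, 2, 9, 10]]
      [[0, 3, 2, 1], [0, 2, 1, 3], [0, 1, 3, 2], [0, 3, 2, 1], [0, 2, 1, 3], [0, 3, 1, 2], [0, 2, 3], [0, 3, 1, 2], [0, 2, 3], [0, 3, 1, 2], [0, 1, 2, 3]] (by decide +kernel)) n (by omega) h0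

theorem blk_3_3_m4_m9 (n : ℕ) (h : n % 4 = 3) (h0 : 11 ≤ n) : Blk 3 n [-4, -9] :=
  blk_fam 3 11 (by decide) _ 1 (by decide) (by decide) (by decide)
    (Blk_of_chk 3 11 (by decide) (by decide) _
      [[0, 10, 9, 8, 7, 6, 5, 4, 3, 2, 1], [0, 3, 4, 5, 6, 1, 8, 9, 10], [0, 1, 6, 2, 3, 4, 5, 7, 8, 9, 10], [0, 10, 9, 8, 1, 2, 6, 7, 5, 4, 3]]
      [[0, 2, 3, 1], [0, 3, 1, 2], [0, 2, 3], [0, 1, 3, 2], [0, 2, 3, 1], [0, 1, 3, 2], [0, 3, 2, 1], [0, 2, 3], [0, 1, 3, 2], [0, 2, 3, 1], [0, 1, 3, 2]] (by decide +kernel)) n (by omega) h0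

theorem blk_3_1_m4_1 (n : ℕ) (h : n % 4 = 1) (h0 : 9 ≤ n) : Blk 3 n [-4, 1] :=
  blk_fam 3 9 (by decide) _ 2 (by decide) (by decide) (by decide)
    (Blk_of_chk 3 9 (by decide) (by decide) _
      [[0, 8, 7, 6, 5, 4, 3, 2, 1], [0, 3, 4, 2, 6, 7, 8], [0, 5, 6, 7, 8, 1, 2, 4, 3], [0, 1, 8, 7, 6, 2, 3, 4, 5]]
      [[0, 3, 2, 1], [0, 2, 3], [0, 3, 1, 2], [0, 1, 2, 3], [0, 3, 2, 1], [0, 2, 3], [0, 1, 3, 2], [0, 2, 3, 1], [0, 1, 3, 2]] (by decide +kernel)) n (by omega) h0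

theorem blk_3_3_m3_m8 (n : ℕ) (h : n % 4 = 3) (h0 : 11 ≤ n) : Blk 3 n [-3, -8] :=
  blk_fam 3 11 (by decide) _ 1 (by decide) (by decide) (by decide)
    (Blk_of_chk 3 11 (by decide) (by decide) _
      [[0, 10, 9, 8, 7, 6, 5, 4, 3, 2, 1], [0, 6, 9, 4, 5, 7, 1, 2, 10], [0, 1, 10, 2, 8, 9, 6, 7, 5, 3, 4], [0, 4, 9, 10, 1, 7, 8, 2, 3, 5, 6]]
      [[0, 2, 3, 1], [0, 1, 3, 2], [0, 3, 2, 1], [0, 2, 3], [0, 1, 3, 2], [0, 3, 2, 1], [0, 2, 1, 3], [0, 3, 1, 2], [0, 2, 3], [0, 3, 1, 2], [0, 1, 2, 3]] (by decide +kernel)) n (by omega) h0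

theorem blk_3_3_m3_1 (n : ℕ) (h : n % 4 = 3) (h0 : 7 ≤ n) : Blk 3 n [-3, 1] :=
  blk_fam 3 7 (by decide) _ 2 (by decide) (by decide) (by decide)
    (Blk_of_chk 3 7 (by decide) (by decide) _
      [[0, 6, 5, 4, 3, 2, 1], [0, 5, 2, 3, 6], [0, 1, 3, 4, 2, 5, 6], [0, 6, 3, 1, 2, 4, 5]]
      [[0, 2, 3, 1], [0, 3, 2], [0, 1, 2, 3], [0, 2, 3, 1], [0, 3, 2], [0, 2, 1, 3], [0, 1, 3, 2]] (by decide +kernel)) n (by omega) h0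

theorem blk_3_3_m2_m7 (n : ℕ) (h : n % 4 = 3) (h0 : 11 ≤ n) : Blk 3 n [-2, -7] :=
  blk_fam 3 11 (by decide) _ 1 (by decide) (by decide) (by decide)
    (Blk_of_chk 3 11 (by decide) (by decide) _
      [[0, 10, 9, 8, 7, 6, 5, 4, 3, 2, 1], [0, 5, 6, 7, 8, 2, 3, 1, 10], [0, 1, 3, 2, 8, 4, 5, 6, 7, 9, 10], [0, 10, 1, 2, 3, 4, 8, 9, 7, 6, 5]]
      [[0, 2, 3, 1], [0, 3, 1, 2], [0, 1, 2, 3], [0, 3, 2, 1], [0, 2, 3], [0, 1, 3, 2], [0, 2, 3, 1], [0, 1, 3, 2], [0, 3, 2, 1], [0, 2, 3], [0, 1, 3, 2]] (by decide +kernel)) n (by omega) h0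

theorem blk_3_1_m2_1 (n : ℕ) (h : n % 4 = 1) (h0 : 5 ≤ n) : Blk 3 n [-2, 1] :=
  blk_fam 3 5 (by decide) _ 2 (by decide) (by decide) (by decide)
    (Blk_of_chk 3 5 (by decide) (by decide) _
      [[0, 4, 3, 2, 1], [0, 2, 4], [0, 3, 4, 1, 2], [0, 1, 4, 2, 3]]
      [[0, 3, 2, 1], [0, 2, 3], [0, 3, 1, 2], [0, 2, 3], [0, 1, 3, 2]] (by decide +kernel)) n (by omega) h0

theorem blk_3_3_m2_1 (n : ℕ) (h : n % 4 = 3) (h0 : 7 ≤ n) : Blk 3 n [-2, 1] :=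
  blk_fam 3 7 (by decide) _ 2 (by decide) (by decide) (by decide)
    (Blk_of_chk 3 7 (by decide) (by decide) _
      [[0, 6, 5, 4, 3, 2, 1], [0, 4, 3, 2, 6], [0, 5, 6, 1, 2, 3, 4], [0, 1, 6, 2, 3, 4, 5]]
      [[0, 3, 2, 1], [0, 2, 3], [0, 3, 1, 2], [0, 2, 1, 3], [0, 3, 1, 2], [0, 2, 3], [0, 1, 3, 2]] (by decide +kernel)) n (by omega) h0

theorem blk_3_1_m2_2 (n : ℕ) (h : n % 4 = 1) (h0 : 9 ≤ n) : Blk 3 n [-2, 2] :=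
  blk_fam 3 9 (by decide) _ 3 (by decide) (by decide) (by decide)
    (Blk_of_chk 3 9 (by decide) (by decide) _
      [[0, 8, 7, 6, 5, 4, 3, 2, 1], [0, 3, 4, 5, 6, 1, 8], [0, 1, 6, 2, 3, 4, 5, 7, 8], [0, 8, 1, 2, 6, 7, 5, 4, 3]]
      [[0, 2, 3, 1], [0, 3, 1, 2], [0, 2, 3], [0, 1, 3, 2], [0, 2, 3, 1], [0, 1, 3, 2], [0, 3, 2, 1], [0, 2, 3], [0, 1, 3, 2]] (by decide +kernel)) n (by omega) h0

theorem blk_3_3_m2_2 (n : ℕ) (h : n % 4 = 3) (h0 : 7 ≤ n) : Blk 3 n [-2, 2] :=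
  blk_fam 3 7 (by decide) _ 3 (by decide) (by decide) (by decide)
    (Blk_of_chk 3 7 (by decide) (by decide) _
      [[0, 6, 5, 4, 3, 2, 1], [0, 3, 4, 1, 6], [0, 1, 4, 2, 3, 5, 6], [0, 6, 1, 2, 4, 5, 3]]
      [[0, 2, 3, 1], [0, 3, 1, 2], [0, 2, 3], [0, 1, 3, 2], [0, 3, 2, 1], [0, 2, 3], [0, 1, 3, 2]] (by decide +kernel)) n (by omega) h0

theorem blk_3_3_1_m2 (n : ℕ) (h : n % 4 = 3) (h0 : 7 ≤ n) : Blk 3 n [1, -2] :=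
  blk_fam 3 7 (by decide) _ 2 (by decide) (by decide) (by decide)
    (Blk_of_chk 3 7 (by decide) (by decide) _
      [[0, 6, 5, 4, 3, 2, 1], [0, 4, 3, 2, 6], [0, 5, 6, 1, 2, 3, 4], [0, 1, 6, 2, 3, 4, 5]]
      [[0, 3, 2, 1], [0, 2, 3], [0, 3, 1, 2], [0, 2, 1, 3], [0, 3, 1, 2], [0, 2, 3], [0, 1, 3, 2]] (by decide +kernel)) n (by omega) h0

theorem blk_3_3_1_3 (n : ℕ) (h : n % 4 = 3) (h0 : 7 ≤ n) : Blk 3 n [1, 3] :=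
  blk_fam 3 7 (by decide) _ 4 (by decide) (by decide) (by decide)
    (Blk_of_chk 3 7 (by decide) (by decide) _
      [[0, 6, 5, 4, 3, 2, 1], [0, 2, 4, 5, 6], [0, 3, 4, 5, 6, 1, 2], [0, 1, 6, 5, 4, 2, 3]]
      [[0, 3, 2, 1], [0, 2, 3], [0, 3, 1, 2], [0, 2, 3], [0, 1, 3, 2], [0, 2, 3, 1], [0, 1, 3, 2]] (by decide +kernel)) n (by omega) h0

theorem blk_3_3_2_4 (n : ℕ) (h : n % 4 = 3) (h0 : 11 ≤ n) : Blk 3 n [2, 4] :=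
  blk_fam 3 11 (by decide) _ 5 (by decide) (by decide) (by decide)
    (Blk_of_chk 3 11 (by decide) (by decide) _
      [[0, 10, 9, 8, 7, 6, 5, 4, 3, 2, 1], [0, 9, 8, 7, 3, 5, 6, 1, 10], [0, 10, 1, 2, 5, 3, 4, 6, 7, 8, 9], [0, 1, 6, 4, 5, 2, 3, 7, 8, 9, 10]]
      [[0, 3, 2, 1], [0, 2, 1, 3], [0, 3, 2], [0, 2, 1, 3], [0, 3, 2], [0, 1, 2, 3], [0, 2, 3, 1], [0, 3, 1, 2], [0, 2, 1, 3], [0, 3, 1, 2], [0, 1, 2, 3]] (by decide +kernel)) n (by omega) h0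

theorem blk_3_1_2_5 (n : ℕ) (h : n % 4 = 1) (h0 : 9 ≤ n) : Blk 3 n [2, 5] :=
  blk_fam 3 9 (by decide) _ 6 (by decide) (by decide) (by decide)
    (Blk_of_chk 3 9 (by decide) (by decide) _
      [[0, 8, 7, 6, 5, 4, 3, 2, 1], [0, 3, 4, 1, 6, 7, 8], [0, 1, 4, 2, 3, 5, 6, 7, 8], [0, 8, 7, 6, 1, 2, 4, 5, 3]]
      [[0, 2, 3, 1], [0, 3, 1, 2], [0, 2, 3], [0, 1, 3, 2], [0, 3, 2, 1], [0, 2, 3], [0, 1, 3, 2], [0, 2, 3, 1], [0, 1, 3, 2]] (by decide +kernel)) n (by omega) h0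

theorem blk_3_1_3_1 (n : ℕ) (h : n % 4 = 1) (h0 : 9 ≤ n) : Blk 3 n [3, 1] :=
  blk_fam 3 9 (by decide) _ 4 (by decide) (by decide) (by decide)
    (Blk_of_chk 3 9 (by decide) (by decide) _
      [[0, 8, 7, 6, 5, 4, 3, 2, 1], [0, 2, 4, 5, 6, 7, 8], [0, 3, 4, 5, 6, 7, 8, 1, 2], [0, 1, 8, 7, 6, 5, 4, 2, 3]]
      [[0, 3, 2, 1], [0, 2, 3], [0, 3, 1, 2], [0, 2, 3], [0, 1, 3, 2], [0, 2, 3, 1], [0, 1, 3, 2], [0, 2, 3, 1], [0, 1, 3, 2]] (by decide +kernel)) n (by omega) h0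

theorem blk_3_3_3_1 (n : ℕ) (h : n % 4 = 3) (h0 : 7 ≤ n) : Blk 3 n [3, 1] :=
  blk_fam 3 7 (by decide) _ 4 (by decide) (by decide) (by decide)
    (Blk_of_chk 3 7 (by decide) (by decide) _
      [[0, 6, 5, 4, 3, 2, 1], [0, 2, 4, 5, 6], [0, 3, 4, 5, 6, 1, 2], [0, 1, 6, 5, 4, 2, 3]]
      [[0, 3, 2, 1], [0, 2, 3], [0, 3, 1, 2], [0, 2, 3], [0, 1, 3, 2], [0, 2, 3, 1], [0, 1, 3, 2]] (by decide +kernel)) n (by omega) h0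

theorem blk_3_1_4_1 (n : ℕ) (h : n % 4 = 1) (h0 : 9 ≤ n) : Blk 3 n [4, 1] :=
  blk_fam 3 9 (by decide) _ 5 (by decide) (by decide) (by decide)
    (Blk_of_chk 3 9 (by decide) (by decide) _
      [[0, 8, 7, 6, 5, 4, 3, 2, 1], [0, 5, 2, 3, 6, 7, 8], [0, 1, 3, 4, 2, 5, 6, 7, 8], [0, 8, 7, 6, 3, 1, 2, 4, 5]]
      [[0, 2, 3, 1], [0, 3, 2], [0, 1, 2, 3], [0, 2, 3, 1], [0, 3, 2], [0, 2, 1, 3], [0, 1, 3, 2], [0, 2, 3, 1], [0, 1, 3, 2]] (by decide +kernel)) n (by omega) h0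

theorem blk_3_3_4_1 (n : ℕ) (h : n % 4 = 3) (h0 : 7 ≤ n) : Blk 3 n [4, 1] :=
  blk_fam 3 7 (by decide) _ 5 (by decide) (by decide) (by decide)
    (Blk_of_chk 3 7 (by decide) (by decide) _
      [[0, 6, 5, 4, 3, 2, 1], [0, 5, 2, 3, 6], [0, 1, 3, 4, 2, 5, 6], [0, 6, 3, 1, 2, 4, 5]]
      [[0, 2, 3, 1], [0, 3, 2], [0, 1, 2, 3], [0, 2, 3, 1], [0, 3, 2], [0, 2, 1, 3], [0, 1, 3, 2]] (by decide +kernel)) n (by omega) h0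

theorem blk_4_3_m5_m6_m3 (n : ℕ) (h : n % 4 = 3) (h0 : 11 ≤ n) : Blk 4 n [-5, -6, -3] :=
  blk_fam 4 11 (by decide) _ 1 (by decide) (by decide) (by decide)
    (Blk_of_chk 4 11 (by decide) (by decide) _
      [[0, 10, 9, 8, 7, 6, 5, 4, 3, 2, 1], [0, 7, 2, 3, 1, 9, 4, 10], [0, 9, 1, 2, 10, 4, 3, 6, 5, 8, 7], [0, 10, 2, 1, 3, 4, 5, 6, 7, 8, 9], [0, 1, 2, 7, 8, 5, 6, 3, 4, 9, 10]]
      [[0, 4, 3, 2, 1], [0, 2, 1, 3, 4], [0, 1, 4, 3, 2], [0, 4, 2, 3, 1], [0, 3, 2, 1, 4], [0, 4, 2, 3], [0, 3, 2, 4], [0, 4, 1, 2, 3], [0, 3, 2, 4], [0, 4, 1, 2, 3], [0, 1, 2, 3, 4]] (by decide +kernel)) n (by omega) h0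

theorem blk_4_1_m3 (n : ℕ) (h : n % 4 = 1) (h0 : 5 ≤ n) : Blk 4 n [-3] :=
  blk_fam 4 5 (by decide) _ 1 (by decide) (by decide) (by decide)
    (Blk_of_chk 4 5 (by decide) (by decide) _
      [[0, 4, 3, 2, 1], [0, 3, 1, 4], [0, 2, 3, 4, 1], [0, 1, 2, 4, 3], [0, 1, 3, 4, 2]]
      [[0, 4, 2, 3, 1], [0, 3, 2, 1, 4], [0, 2, 4, 3], [0, 4, 1, 3, 2], [0, 1, 2, 3, 4]] (by decide +kernel)) n (by omega) h0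

theorem blk_4_3_m3_1_m5 (n : ℕ) (h : n % 4 = 3) (h0 : 11 ≤ n) : Blk 4 n [-3, 1, -5] :=
  blk_fam 4 11 (by decide) _ 2 (by decide) (by decide) (by decide)
    (Blk_of_chk 4 11 (by decide) (by decide) _
      [[0, 10, 9, 8, 7, 6, 5, 4, 3, 2, 1], [0, 7, 4, 9, 2, 3, 5, 10], [0, 9, 4, 10, 5, 8, 2, 6, 3, 1, 7], [0, 10, 4, 5, 3, 6, 7, 1, 2, 8, 9], [0, 1, 3, 4, 7, 8, 5, 6, 2, 9, 10]]
      [[0, 4, 3, 2, 1], [0, 3, 2, 4], [0, 1, 4, 2, 3], [0, 4, 2, 3, 1], [0, 3, 2, 1, 4], [0, 4, 2, 1, 3], [0, 3, 2, 4], [0, 4, 1, 2, 3], [0, 3, 2, 4], [0, 4, 1, 2, 3], [0, 1, 2, 3, 4]] (by decide +kernel)) n (by omega) h0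

theorem blk_4_1_m2 (n : ℕ) (h : n % 4 = 1) (h0 : 9 ≤ n) : Blk 4 n [-2] :=
  blk_fam 4 9 (by decide) _ 1 (by decide) (by decide) (by decide)
    (Blk_of_chk 4 9 (by decide) (by decide) _
      [[0, 8, 7, 6, 5, 4, 3, 2, 1], [0, 1, 4, 5, 2, 6, 3, 8], [0, 1, 5, 4, 7, 6, 2, 8, 3], [0, 8, 2, 3, 6, 7, 4, 5, 1], [0, 3, 4, 1, 2, 5, 6, 7, 8]]
      [[0, 2, 4, 3, 1], [0, 4, 1, 3, 2], [0, 3, 2, 1, 4], [0, 4, 2, 1, 3], [0, 3, 2, 1, 4], [0, 4, 1, 2, 3], [0, 3, 1, 2, 4], [0, 4, 2, 3], [0, 1, 2, 3, 4]] (by decide +kernel)) n (by omega) h0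

theorem blk_4_3_m2_m3_1 (n : ℕ) (h : n % 4 = 3) (h0 : 7 ≤ n) : Blk 4 n [-2, -3, 1] :=
  blk_fam 4 7 (by decide) _ 2 (by decide) (by decide) (by decide)
    (Blk_of_chk 4 7 (by decide) (by decide) _
      [[0, 6, 5, 4, 3, 2, 1], [0, 3, 2, 6], [0, 1, 4, 6, 2, 3, 5], [0, 1, 2, 6, 4, 5, 3], [0, 5, 6, 2, 3, 4, 1]]
      [[0, 2, 4, 3, 1], [0, 3, 4, 2], [0, 2, 1, 4, 3], [0, 4, 1, 3, 2], [0, 3, 2, 4], [0, 4, 2, 3], [0, 1, 2, 3, 4]] (by decide +kernel)) n (by omega) h0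

theorem blk_4_3_m2_2_1 (n : ℕ) (h : n % 4 = 3) (h0 : 7 ≤ n) : Blk 4 n [-2, 2, 1] :=
  blk_fam 4 7 (by decide) _ 3 (by decide) (by decide) (by decide)
    (Blk_of_chk 4 7 (by decide) (by decide) _
      [[0, 6, 5, 4, 3, 2, 1], [0, 4, 3, 6], [0, 6, 3, 4, 1, 2, 5], [0, 1, 3, 4, 5, 2, 6], [0, 5, 6, 2, 3, 1, 4]]
      [[0, 3, 2, 4, 1], [0, 2, 4, 3], [0, 4, 3, 2], [0, 2, 1, 3, 4], [0, 3, 1, 4, 2], [0, 4, 2, 3], [0, 1, 2, 3, 4]] (by decide +kernel)) n (by omega) h0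

theorem blk_4_1_1 (n : ℕ) (h : n % 4 = 1) (h0 : 9 ≤ n) : Blk 4 n [1] :=
  blk_fam 4 9 (by decide) _ 2 (by decide) (by decide) (by decide)
    (Blk_of_chk 4 9 (by decide) (by decide) _
      [[0, 8, 7, 6, 5, 4, 3, 2, 1], [0, 4, 7, 2, 5, 6, 3, 8], [0, 7, 4, 8, 3, 6, 5, 1, 2], [0, 1, 8, 4, 5, 2, 3, 6, 7], [0, 2, 7, 8, 1, 5, 6, 3, 4]]
      [[0, 3, 2, 4, 1], [0, 2, 4, 3], [0, 3, 1, 4, 2], [0, 4, 2, 1, 3], [0, 3, 2, 1, 4], [0, 4, 2, 1, 3], [0, 3, 1, 2, 4], [0, 4, 1, 2, 3], [0, 1, 2, 3, 4]] (by decide +kernel)) n (by omega) h0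

theorem blk_4_3_1_2_m2 (n : ℕ) (h : n % 4 = 3) (h0 : 7 ≤ n) : Blk 4 n [1, 2, -2] :=
  blk_fam 4 7 (by decide) _ 3 (by decide) (by decide) (by decide)
    (Blk_of_chk 4 7 (by decide) (by decide) _
      [[0, 6, 5, 4, 3, 2, 1], [0, 4, 3, 6], [0, 6, 3, 4, 1, 2, 5], [0, 1, 3, 4, 5, 2, 6], [0, 5, 6, 2, 3, 1, 4]]
      [[0, 3, 2, 4, 1], [0, 2, 4, 3], [0, 4, 3, 2], [0, 2, 1, 3, 4], [0, 3, 1, 4, 2], [0, 4, 2, 3], [0, 1, 2, 3, 4]] (by decide +kernel)) n (by omega) h0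

theorem blk_4_1_2 (n : ℕ) (h : n % 4 = 1) (h0 : 5 ≤ n) : Blk 4 n [2] :=
  blk_fam 4 5 (by decide) _ 3 (by decide) (by decide) (by decide)
    (Blk_of_chk 4 5 (by decide) (by decide) _
      [[0, 4, 3, 2, 1], [0, 3, 1, 4], [0, 2, 3, 4, 1], [0, 1, 2, 4, 3], [0, 1, 3, 4, 2]]
      [[0, 4, 2, 3, 1], [0, 3, 2, 1, 4], [0, 2, 4, 3], [0, 4, 1, 3, 2], [0, 1, 2, 3, 4]] (by decide +kernel)) n (by omega) h0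

theorem blk_4_3_2_4_1 (n : ℕ) (h : n % 4 = 3) (h0 : 7 ≤ n) : Blk 4 n [2, 4, 1] :=
  blk_fam 4 7 (by decide) _ 5 (by decide) (by decide) (by decide)
    (Blk_of_chk 4 7 (by decide) (by decide) _
      [[0, 6, 5, 4, 3, 2, 1], [0, 3, 5, 6], [0, 3, 4, 1, 2, 6, 5], [0, 1, 6, 2, 4, 5, 3], [0, 5, 6, 1, 4, 2, 3]]
      [[0, 3, 2, 4, 1], [0, 2, 4, 3], [0, 4, 3, 2], [0, 2, 3, 1, 4], [0, 3, 4, 2], [0, 4, 2, 1, 3], [0, 1, 2, 3, 4]] (by decide +kernel)) n (by omega) h0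

theorem blk_4_1_3 (n : ℕ) (h : n % 4 = 1) (h0 : 9 ≤ n) : Blk 4 n [3] :=
  blk_fam 4 9 (by decide) _ 4 (by decide) (by decide) (by decide)
    (Blk_of_chk 4 9 (by decide) (by decide) _
      [[0, 8, 7, 6, 5, 4, 3, 2, 1], [0, 4, 1, 6, 5, 7, 2, 8], [0, 8, 2, 7, 5, 3, 4, 6, 1], [0, 1, 4, 5, 6, 7, 2, 3, 8], [0, 1, 2, 7, 8, 3, 5, 6, 4]]
      [[0, 3, 2, 4, 1], [0, 4, 2, 1, 3], [0, 3, 2, 1, 4], [0, 2, 4, 3], [0, 3, 1, 4, 2], [0, 4, 2, 1, 3], [0, 3, 1, 2, 4], [0, 4, 1, 2, 3], [0, 1, 2, 3, 4]] (by decide +kernel)) n (by omega) h0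

theorem blk_4_3_3_1_4 (n : ℕ) (h : n % 4 = 3) (h0 : 7 ≤ n) : Blk 4 n [3, 1, 4] :=
  blk_fam 4 7 (by decide) _ 5 (by decide) (by decide) (by decide)
    (Blk_of_chk 4 7 (by decide) (by decide) _
      [[0, 6, 5, 4, 3, 2, 1], [0, 2, 5, 6], [0, 6, 5, 1, 2, 3, 4], [0, 1, 4, 5, 2, 3, 6], [0, 4, 1, 5, 6, 3, 2]]
      [[0, 3, 2, 4, 1], [0, 2, 4, 3], [0, 3, 1, 4, 2], [0, 2, 4, 3], [0, 3, 4, 2], [0, 4, 2, 1, 3], [0, 1, 2, 3, 4]] (by decide +kernel)) n (by omega) h0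

theorem blk_4_3_4_1_3 (n : ℕ) (h : n % 4 = 3) (h0 : 7 ≤ n) : Blk 4 n [4, 1, 3] :=
  blk_fam 4 7 (by decide) _ 5 (by decide) (by decide) (by decide)
    (Blk_of_chk 4 7 (by decide) (by decide) _
      [[0, 6, 5, 4, 3, 2, 1], [0, 2, 5, 6], [0, 6, 5, 1, 2, 3, 4], [0, 1, 4, 5, 2, 3, 6], [0, 4, 1, 5, 6, 3, 2]]
      [[0, 3, 2, 4, 1], [0, 2, 4, 3], [0, 3, 1, 4, 2], [0, 2, 4, 3], [0, 3, 4, 2], [0, 4, 2, 1, 3], [0, 1, 2, 3, 4]] (by decide +kernel)) n (by omega) h0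

theorem blk_4_1_5 (n : ℕ) (h : n % 4 = 1) (h0 : 9 ≤ n) : Blk 4 n [5] :=
  blk_fam 4 9 (by decide) _ 6 (by decide) (by decide) (by decide)
    (Blk_of_chk 4 9 (by decide) (by decide) _
      [[0, 8, 7, 6, 5, 4, 3, 2, 1], [0, 1, 4, 6, 3, 7, 2, 8], [0, 1, 7, 3, 6, 4, 8, 2, 5], [0, 8, 4, 5, 2, 3, 6, 7, 1], [0, 5, 6, 3, 4, 1, 2, 7, 8]]
      [[0, 2, 4, 3, 1], [0, 4, 1, 3, 2], [0, 3, 2, 1, 4], [0, 4, 2, 1, 3], [0, 3, 2, 1, 4], [0, 4, 2, 3], [0, 3, 1, 2, 4], [0, 4, 1, 2, 3], [0, 1, 2, 3, 4]] (by decide +kernel)) n (by omega) h0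

theorem blk_4_3_5_4_1 (n : ℕ) (h : n % 4 = 3) (h0 : 11 ≤ n) : Blk 4 n [5, 4, 1] :=
  blk_fam 4 11 (by decide) _ 6 (by decide) (by decide) (by decide)
    (Blk_of_chk 4 11 (by decide) (by decide) _
      [[0, 10, 9, 8, 7, 6, 5, 4, 3, 2, 1], [0, 2, 7, 9, 6, 8, 3, 10], [0, 9, 7, 4, 10, 3, 1, 2, 8, 6, 5], [0, 1, 10, 4, 5, 6, 7, 2, 3, 8, 9], [0, 5, 6, 9, 10, 1, 3, 4, 7, 8, 2]]
      [[0, 3, 2, 4, 1], [0, 2, 4, 3], [0, 3, 1, 4, 2], [0, 4, 2, 1, 3], [0, 3, 2, 4], [0, 4, 2, 3], [0, 3, 2, 1, 4], [0, 4, 2, 1, 3], [0, 3, 1, 2, 4], [0, 4, 1, 2, 3], [0, 1, 2, 3, 4]] (by decide +kernel)) n (by omega) h0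

end Pool.Agent.KS6_69.GT
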