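import Pool.Agent.KS6_69.GT.Tab00
import Pool.Agent.KS6_69.GT.Tab01
import Pool.Agent.KS6_69.GT.Tab02
import Pool.Agent.KS6_69.GT.Tab03
import Pool.Agent.KS6_69.GT.Tab04
import Pool.Agent.KS6_69.GT.Tab05
import Pool.Agent.KS6_69.GT.Tab06
import Pool.Agent.KS6_69.GT.Tab07
import Pool.Agent.KS6_69.GT.Tab08
import Pool.Agent.KS6_69.GT.Tab09
import Pool.Agent.KS6_69.GT.Tab10
import Pool.Agent.KS6_69.GT.Tab11
import Pool.Agent.KS6_69.GT.Tab12
import Pool.Agent.KS6_69.GT.Tab13
import Pool.Agent.KS6_69.GT.Tab14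
import Pool.Agent.KS6_69.GT.Tab15
import Pool.Agent.KS6_69.GT.Dir0
import Pool.Agent.KS6_69.GT.Dir1
import Pool.Agent.KS6_69.GT.Dir2
import Pool.Agent.KS6_69.GT.Dir3

set_option autoImplicit false

namespace Pool.Agent.KS6_69.GT

theorem want4 {q r : ℕ} (h0 : Emb q q r (Ft q (q + r))) (h1 : Emb (q + 1) q r (Ft (q + 1) (q + r)))
    (h2 : Emb (q + 2) q r (Ft (q + 2) (q + r))) (h3 : Emb (q + 3) q r (Ft (q + 3) (q + r))) : Want q r := by
  intro s hs
  interval_cases s
  · exact h0
  · exact h1
  · exact h2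
  · exact h3

theorem want_2_0 : Want 2 0 :=
  want4 (by exact E_2_2_0.emb)
    (by exact E_3_2_0.emb)
    (by exact E_4_2_0.emb)
    (by exact E_5_2_0.emb)

theorem want_2_1 : Want 2 1 :=
  want4 (by exact E_2_2_1.emb)
    (by exact E_3_2_1)
    (by exact E_4_2_1)
    (by exact E_5_2_1)

theorem want_2_2 : Want 2 2 :=
  want4 (by exact E_2_2_2.emb)
    (by exact E_3_2_2)
    (by exact E_4_2_2.emb)
    (by exact E_5_2_2)

theorem want_3_0 : Want 3 0 :=
  want4 (by exact E_3_3_0)
    (by exact E_4_3_0)
    (by exact E_5_3_0)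
    (by exact E_6_3_0.emb)

theorem want_3_1 : Want 3 1 :=
  want4 (by exact E_3_3_1)
    (by exact E_4_3_1.emb)
    (by exact Emb_tight 4 3 1 1 (by decide) (by decide) (by decide) (by exact E_4_3_1.emb))
    (by exact Emb_tight 4 3 1 2 (by decide) (by decide) (by decide) (by exact E_4_3_1.emb))

theorem want_3_2 : Want 3 2 :=
  want4 (by exact E_3_3_2)
    (by exact E_4_3_2)
    (by exact E_5_3_2)
    (by exact E_6_3_2.emb)

theorem want_3_3 : Want 3 3 :=
  want4 (by exact E_3_3_3.emb)
    (by exact Emb_tight 3 3 3 1 (by decide) (by decide) (by decide) (by exact E_3_3_3.emb))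
    (by exact Emb_tight 3 3 3 2 (by decide) (by decide) (by decide) (by exact E_3_3_3.emb))
    (by exact Emb_tight 3 3 3 3 (by decide) (by decide) (by decide) (by exact E_3_3_3.emb))

theorem want_4_0 : Want 4 0 :=
  want4 (by exact E_4_4_0.emb)
    (by exact Emb_tight 4 4 0 1 (by decide) (by decide) (by decide) (by exact E_4_4_0.emb))
    (by exact Emb_tight 4 4 0 2 (by decide) (by decide) (by decide) (by exact E_4_4_0.emb))
    (by exact Emb_tight 4 4 0 3 (by decide) (by decide) (by decide) (by exact E_4_4_0.emb))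

theorem want_4_1 : Want 4 1 :=
  want4 (by exact E_4_4_1)
    (by exact E_5_4_1)
    (by exact E_6_4_1.emb)
    (by exact Emb_tight 6 4 1 1 (by decide) (by decide) (by decide) (by exact E_6_4_1.emb))

theorem want_4_2 : Want 4 2 :=
  want4 (by exact E_4_4_2.emb)
    (by exact Emb_tight 4 4 2 1 (by decide) (by decide) (by decide) (by exact E_4_4_2.emb))
    (by exact Emb_tight 4 4 2 2 (by decide) (by decide) (by decide) (by exact E_4_4_2.emb))
    (by exact Emb_tight 4 4 2 3 (by decide) (by decide) (by decide) (by exact E_4_4_2.emb))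

theorem want_4_3 : Want 4 3 :=
  want4 (by exact E_4_4_3)
    (by exact E_5_4_3)
    (by exact E_6_4_3.emb)
    (by exact Emb_tight 6 4 3 1 (by decide) (by decide) (by decide) (by exact E_6_4_3.emb))

theorem want_4_4 : Want 4 4 :=
  want4 (by exact E_4_4_4.emb)
    (by exact Emb_tight 4 4 4 1 (by decide) (by decide) (by decide) (by exact E_4_4_4.emb))
    (by exact Emb_tight 4 4 4 2 (by decide) (by decide) (by decide) (by exact E_4_4_4.emb))
    (by exact Emb_tight 4 4 4 3 (by decide) (by decide) (by decide) (by exact E_4_4_4.emb))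

theorem want_5_0 : Want 5 0 :=
  want4 (by exact E_5_5_0)
    (by exact E_6_5_0.emb)
    (by exact Emb_tight 6 5 0 1 (by decide) (by decide) (by decide) (by exact E_6_5_0.emb))
    (by exact Emb_tight 6 5 0 2 (by decide) (by decide) (by decide) (by exact E_6_5_0.emb))

theorem want_5_1 : Want 5 1 :=
  want4 (by exact E_5_5_1.emb)
    (by exact Emb_tight 5 5 1 1 (by decide) (by decide) (by decide) (by exact E_5_5_1.emb))
    (by exact Emb_tight 5 5 1 2 (by decide) (by decide) (by decide) (by exact E_5_5_1.emb))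
    (by exact Emb_tight 5 5 1 3 (by decide) (by decide) (by decide) (by exact E_5_5_1.emb))

theorem want_5_2 : Want 5 2 :=
  want4 (by exact E_5_5_2)
    (by exact E_6_5_2.emb)
    (by exact Emb_tight 6 5 2 1 (by decide) (by decide) (by decide) (by exact E_6_5_2.emb))
    (by exact Emb_tight 6 5 2 2 (by decide) (by decide) (by decide) (by exact E_6_5_2.emb))

theorem want_5_3 : Want 5 3 :=
  want4 (by exact E_5_5_3)
    (by exact E_6_5_3.emb)
    (by exact Emb_tight 6 5 3 1 (by decide) (by decide) (by decide) (by exact E_6_5_3.emb))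
    (by exact Emb_tight 6 5 3 2 (by decide) (by decide) (by decide) (by exact E_6_5_3.emb))

theorem want_5_4 : Want 5 4 :=
  want4 (by exact E_5_5_4)
    (by exact E_6_5_4.emb)
    (by exact Emb_tight 6 5 4 1 (by decide) (by decide) (by decide) (by exact E_6_5_4.emb))
    (by exact Emb_tight 6 5 4 2 (by decide) (by decide) (by decide) (by exact E_6_5_4.emb))

theorem want_5_5 : Want 5 5 :=
  want4 (by exact E_5_5_5.emb)
    (by exact Emb_tight 5 5 5 1 (by decide) (by decide) (by decide) (by exact E_5_5_5.emb))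
    (by exact Emb_tight 5 5 5 2 (by decide) (by decide) (by decide) (by exact E_5_5_5.emb))
    (by exact Emb_tight 5 5 5 3 (by decide) (by decide) (by decide) (by exact E_5_5_5.emb))

theorem want_6_0 : Want 6 0 :=
  want4 (by exact E_6_6_0.emb)
    (by exact Emb_tight 6 6 0 1 (by decide) (by decide) (by decide) (by exact E_6_6_0.emb))
    (by exact Emb_tight 6 6 0 2 (by decide) (by decide) (by decide) (by exact E_6_6_0.emb))
    (by exact Emb_tight 6 6 0 3 (by decide) (by decide) (by decide) (by exact E_6_6_0.emb))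

theorem want_6_1 : Want 6 1 :=
  want4 (by exact E_6_6_1.emb)
    (by exact Emb_tight 6 6 1 1 (by decide) (by decide) (by decide) (by exact E_6_6_1.emb))
    (by exact Emb_tight 6 6 1 2 (by decide) (by decide) (by decide) (by exact E_6_6_1.emb))
    (by exact Emb_tight 6 6 1 3 (by decide) (by decide) (by decide) (by exact E_6_6_1.emb))

theorem want_6_2 : Want 6 2 :=
  want4 (by exact E_6_6_2.emb)
    (by exact Emb_tight 6 6 2 1 (by decide) (by decide) (by decide) (by exact E_6_6_2.emb))
    (by exact Emb_tight 6 6 2 2 (by decide) (by decide) (by decide) (by exact E_6_6_2.emb))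
    (by exact Emb_tight 6 6 2 3 (by decide) (by decide) (by decide) (by exact E_6_6_2.emb))

theorem want_6_3 : Want 6 3 :=
  want4 (by exact E_6_6_3.emb)
    (by exact Emb_tight 6 6 3 1 (by decide) (by decide) (by decide) (by exact E_6_6_3.emb))
    (by exact Emb_tight 6 6 3 2 (by decide) (by decide) (by decide) (by exact E_6_6_3.emb))
    (by exact Emb_tight 6 6 3 3 (by decide) (by decide) (by decide) (by exact E_6_6_3.emb))

theorem want_6_4 : Want 6 4 :=
  want4 (by exact E_6_6_4.emb)
    (by exact Emb_tight 6 6 4 1 (by decide) (by decide) (by decide) (by exact E_6_6_4.emb))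
    (by exact Emb_tight 6 6 4 2 (by decide) (by decide) (by decide) (by exact E_6_6_4.emb))
    (by exact Emb_tight 6 6 4 3 (by decide) (by decide) (by decide) (by exact E_6_6_4.emb))

theorem want_6_5 : Want 6 5 :=
  want4 (by exact E_6_6_5.emb)
    (by exact Emb_tight 6 6 5 1 (by decide) (by decide) (by decide) (by exact E_6_6_5.emb))
    (by exact Emb_tight 6 6 5 2 (by decide) (by decide) (by decide) (by exact E_6_6_5.emb))
    (by exact Emb_tight 6 6 5 3 (by decide) (by decide) (by decide) (by exact E_6_6_5.emb))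

theorem want_6_6 : Want 6 6 :=
  want4 (by exact E_6_6_6.emb)
    (by exact Emb_tight 6 6 6 1 (by decide) (by decide) (by decide) (by exact E_6_6_6.emb))
    (by exact Emb_tight 6 6 6 2 (by decide) (by decide) (by decide) (by exact E_6_6_6.emb))
    (by exact Emb_tight 6 6 6 3 (by decide) (by decide) (by decide) (by exact E_6_6_6.emb))

theorem want_7_0 : Want 7 0 :=
  want4 (by exact E_7_7_0)
    (by exact E_8_7_0)
    (by exact E_9_7_0)
    (by exact E_10_7_0.emb)

theorem want_7_1 : Want 7 1 :=
  want4 (by exact E_7_7_1)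
    (by exact E_8_7_1.emb)
    (by exact Emb_tight 8 7 1 1 (by decide) (by decide) (by decide) (by exact E_8_7_1.emb))
    (by exact Emb_tight 8 7 1 2 (by decide) (by decide) (by decide) (by exact E_8_7_1.emb))

theorem want_7_2 : Want 7 2 :=
  want4 (by exact E_7_7_2)
    (by exact E_8_7_2)
    (by exact E_9_7_2)
    (by exact E_10_7_2.emb)

theorem want_7_3 : Want 7 3 :=
  want4 (by exact E_7_7_3.emb)
    (by exact Emb_tight 7 7 3 1 (by decide) (by decide) (by decide) (by exact E_7_7_3.emb))
    (by exact Emb_tight 7 7 3 2 (by decide) (by decide) (by decide) (by exact E_7_7_3.emb))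
    (by exact Emb_tight 7 7 3 3 (by decide) (by decide) (by decide) (by exact E_7_7_3.emb))

theorem want_7_4 : Want 7 4 :=
  want4 (by exact E_7_7_4)
    (by exact E_8_7_4)
    (by exact E_9_7_4)
    (by exact E_10_7_4.emb)

theorem want_7_5 : Want 7 5 :=
  want4 (by exact E_7_7_5)
    (by exact E_8_7_5.emb)
    (by exact Emb_tight 8 7 5 1 (by decide) (by decide) (by decide) (by exact E_8_7_5.emb))
    (by exact Emb_tight 8 7 5 2 (by decide) (by decide) (by decide) (by exact E_8_7_5.emb))

theorem want_7_6 : Want 7 6 :=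
  want4 (by exact E_7_7_6)
    (by exact E_8_7_6)
    (by exact E_9_7_6)
    (by exact E_10_7_6.emb)

theorem want_8_0 : Want 8 0 :=
  want4 (by exact E_8_8_0.emb)
    (by exact Emb_tight 8 8 0 1 (by decide) (by decide) (by decide) (by exact E_8_8_0.emb))
    (by exact Emb_tight 8 8 0 2 (by decide) (by decide) (by decide) (by exact E_8_8_0.emb))
    (by exact Emb_tight 8 8 0 3 (by decide) (by decide) (by decide) (by exact E_8_8_0.emb))

theorem want_8_1 : Want 8 1 :=
  want4 (by exact E_8_8_1)
    (by exact E_9_8_1)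
    (by exact E_10_8_1.emb)
    (by exact Emb_tight 10 8 1 1 (by decide) (by decide) (by decide) (by exact E_10_8_1.emb))

theorem want_8_2 : Want 8 2 :=
  want4 (by exact E_8_8_2.emb)
    (by exact Emb_tight 8 8 2 1 (by decide) (by decide) (by decide) (by exact E_8_8_2.emb))
    (by exact Emb_tight 8 8 2 2 (by decide) (by decide) (by decide) (by exact E_8_8_2.emb))
    (by exact Emb_tight 8 8 2 3 (by decide) (by decide) (by decide) (by exact E_8_8_2.emb))

theorem want_8_3 : Want 8 3 :=
  want4 (by exact E_8_8_3)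
    (by exact E_9_8_3)
    (by exact E_10_8_3.emb)
    (by exact Emb_tight 10 8 3 1 (by decide) (by decide) (by decide) (by exact E_10_8_3.emb))

theorem want_8_4 : Want 8 4 :=
  want4 (by exact E_8_8_4.emb)
    (by exact Emb_tight 8 8 4 1 (by decide) (by decide) (by decide) (by exact E_8_8_4.emb))
    (by exact Emb_tight 8 8 4 2 (by decide) (by decide) (by decide) (by exact E_8_8_4.emb))
    (by exact Emb_tight 8 8 4 3 (by decide) (by decide) (by decide) (by exact E_8_8_4.emb))

theorem want_8_5 : Want 8 5 :=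
  want4 (by exact E_8_8_5)
    (by exact E_9_8_5)
    (by exact E_10_8_5.emb)
    (by exact Emb_tight 10 8 5 1 (by decide) (by decide) (by decide) (by exact E_10_8_5.emb))

theorem want_8_6 : Want 8 6 :=
  want4 (by exact E_8_8_6.emb)
    (by exact Emb_tight 8 8 6 1 (by decide) (by decide) (by decide) (by exact E_8_8_6.emb))
    (by exact Emb_tight 8 8 6 2 (by decide) (by decide) (by decide) (by exact E_8_8_6.emb))
    (by exact Emb_tight 8 8 6 3 (by decide) (by decide) (by decide) (by exact E_8_8_6.emb))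

theorem want_9_0 : Want 9 0 :=
  want4 (by exact E_9_9_0)
    (by exact E_10_9_0.emb)
    (by exact Emb_tight 10 9 0 1 (by decide) (by decide) (by decide) (by exact E_10_9_0.emb))
    (by exact Emb_tight 10 9 0 2 (by decide) (by decide) (by decide) (by exact E_10_9_0.emb))

theorem want_9_3 : Want 9 3 :=
  want4 (by exact E_9_9_3)
    (by exact E_10_9_3.emb)
    (by exact Emb_tight 10 9 3 1 (by decide) (by decide) (by decide) (by exact E_10_9_3.emb))
    (by exact Emb_tight 10 9 3 2 (by decide) (by decide) (by decide) (by exact E_10_9_3.emb))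

theorem want_9_4 : Want 9 4 :=
  want4 (by exact E_9_9_4)
    (by exact E_10_9_4.emb)
    (by exact Emb_tight 10 9 4 1 (by decide) (by decide) (by decide) (by exact E_10_9_4.emb))
    (by exact Emb_tight 10 9 4 2 (by decide) (by decide) (by decide) (by exact E_10_9_4.emb))

theorem want_q2 (r : ℕ) (h : r ≤ 2) : Want 2 r := by
  interval_cases r
  · exact want_2_0
  · exact want_2_1
  · exact want_2_2

theorem want_q3 (r : ℕ) (h : r ≤ 3) : Want 3 r := by
  interval_cases r
  · exact want_3_0
  · exact want_3_1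
  · exact want_3_2
  · exact want_3_3

theorem want_q4 (r : ℕ) (h : r ≤ 4) : Want 4 r := by
  interval_cases r
  · exact want_4_0
  · exact want_4_1
  · exact want_4_2
  · exact want_4_3
  · exact want_4_4

theorem want_q5 (r : ℕ) (h : r ≤ 5) : Want 5 r := by
  interval_cases r
  · exact want_5_0
  · exact want_5_1
  · exact want_5_2
  · exact want_5_3
  · exact want_5_4
  · exact want_5_5

theorem want_q6 (r : ℕ) (h : r ≤ 6) : Want 6 r := by
  interval_cases r
  · exact want_6_0
  · exact want_6_1
  · exact want_6_2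
  · exact want_6_3
  · exact want_6_4
  · exact want_6_5
  · exact want_6_6

theorem want_q7 (r : ℕ) (h : r ≤ 7) : Want 7 r := by
  interval_cases r
  · exact want_7_0
  · exact want_7_1
  · exact want_7_2
  · exact want_7_3
  · exact want_7_4
  · exact want_7_5
  · exact want_7_6
  · exact W_Fee_d0_run_0_0_S_0_16_0_1 7 7 (by decide) (by decide) (by decide)

theorem want_q8 (r : ℕ) (h : r ≤ 8) : Want 8 r := by
  interval_cases r
  · exact want_8_0
  · exact want_8_1
  · exact want_8_2
  · exact want_8_3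
  · exact want_8_4
  · exact want_8_5
  · exact want_8_6
  · exact W_S_8_run_5_4_S_4_231_242 8 7 rfl (by decide)
  · exact W_Fee_d0_run_0_0_S_0_16_0_1 8 8 (by decide) (by decide) (by decide)

theorem want_q9 (r : ℕ) (h : r ≤ 9) : Want 9 r := by
  interval_cases r
  · exact want_9_0
  · exact W_S_9_odd_4_1_C_0 9 1 rfl (by decide) (by decide) (by decide)
  · exact W_S_9_odd_3_0_C_3_231 9 2 rfl (by decide) (by decide) (by decide)
  · exact want_9_3
  · exact want_9_4
  · exact W_S_9_odd_2_3_S_0 9 5 rfl (by decide) (by decide) (by decide)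
  · exact W_S_9_run_5_2_S_3_231 9 6 rfl (by decide)
  · exact W_S_9_run_4_2_S_4_232 9 7 rfl (by decide)
  · exact W_S_9_run_4_3_S_5_233 9 8 rfl (by decide)
  · exact W_Fee_d0_run_0_0_S_0_16_0_1 9 9 (by decide) (by decide) (by decide)

theorem want_q10 (r : ℕ) (h : r ≤ 10) : Want 10 r := by
  interval_cases r
  · exact W_S_10_even_2_0_C_0 10 0 rfl (by decide) (by decide) (by decide)
  · exact W_S_10_even_3_1_S_0 10 1 rfl (by decide) (by decide) (by decide)
  · exact W_Fee_d4_even_1_0_C_0_8_0_1 10 2 (by decide) (by decide) (by decide) (by decide) (by decide)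
  · exact W_S_10_even_3_1_C_0 10 3 rfl (by decide) (by decide) (by decide)
  · exact W_S_10_even_2_0_C_0 10 4 rfl (by decide) (by decide) (by decide)
  · exact W_S_10_run_8_3_S_0 10 5 rfl (by decide)
  · exact W_Fee_d4_even_1_0_C_0_8_0_1 10 6 (by decide) (by decide) (by decide) (by decide) (by decide)
  · exact W_S_10_run_6_3_S_0 10 7 rfl (by decide)
  · exact W_S_10_run_4_2_S_0 10 8 rfl (by decide)
  · exact W_S_10_run_4_3_S_0 10 9 rfl (by decide)
  · exact W_Fee_d0_run_0_0_S_0_16_0_1 10 10 (by decide) (by decide) (by decide)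

theorem want_q11 (r : ℕ) (h : r ≤ 11) : Want 11 r := by
  interval_cases r
  · exact W_S_11_odd_4_0_S_5_231_242_253 11 0 rfl (by decide) (by decide) (by decide)
  · exact W_S_11_odd_3_1_C_4_232 11 1 rfl (by decide) (by decide) (by decide)
  · exact W_S_11_odd_3_2_C_3_251 11 2 rfl (by decide) (by decide) (by decide)
  · exact W_S_11_odd_2_3_S_0 11 3 rfl (by decide) (by decide) (by decide)
  · exact W_S_11_odd_3_2_S_5_231_242_253 11 4 rfl (by decide) (by decide) (by decide)
  · exact W_S_11_odd_3_1_C_4_232 11 5 rfl (by decide) (by decide) (by decide)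
  · exact W_S_11_odd_3_2_C_3_251 11 6 rfl (by decide) (by decide) (by decide)
  · exact W_S_11_odd_2_3_S_0 11 7 rfl (by decide) (by decide) (by decide)
  · exact W_S_11_run_5_2_S_5_231_242_253 11 8 rfl (by decide)
  · exact W_S_11_run_5_3_S_4_232 11 9 rfl (by decide)
  · exact W_S_11_run_5_4_S_3_251 11 10 rfl (by decide)
  · exact W_Fee_d0_run_0_0_S_0_16_0_1 11 11 (by decide) (by decide) (by decide)

theorem want_q12 (r : ℕ) (h : r ≤ 12) : Want 12 r := by
  interval_cases r
  · exact W_Fee_d4_even_1_0_C_0_8_0_1 12 0 (by decide) (by decide) (by decide) (by decide) (by decide)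
  · exact W_S_12_even_3_1_C_4_242 12 1 rfl (by decide) (by decide) (by decide)
  · exact W_S_12_even_2_0_C_0 12 2 rfl (by decide) (by decide) (by decide)
  · exact W_S_12_even_3_1_S_4_231_242 12 3 rfl (by decide) (by decide) (by decide)
  · exact W_Fee_d4_even_1_0_C_0_8_0_1 12 4 (by decide) (by decide) (by decide) (by decide) (by decide)
  · exact W_S_12_even_3_1_C_4_242 12 5 rfl (by decide) (by decide) (by decide)
  · exact W_S_12_even_2_0_C_0 12 6 rfl (by decide) (by decide) (by decide)
  · exact W_S_12_run_7_2_S_4_231_242 12 7 rfl (by decide)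
  · exact W_Fee_d4_even_1_0_C_0_8_0_1 12 8 (by decide) (by decide) (by decide) (by decide) (by decide)
  · exact W_S_12_run_5_2_S_4_242 12 9 rfl (by decide)
  · exact W_S_12_run_5_3_S_0 12 10 rfl (by decide)
  · exact W_S_12_run_5_4_S_4_231_242 12 11 rfl (by decide)
  · exact W_Fee_d0_run_0_0_S_0_16_0_1 12 12 (by decide) (by decide) (by decide)

theorem want_q13 (r : ℕ) (h : r ≤ 13) : Want 13 r := by
  interval_cases r
  · exact W_S_13_odd_4_0_C_5_233 13 0 rfl (by decide) (by decide) (by decide)
  · exact W_S_13_odd_4_1_C_0 13 1 rfl (by decide) (by decide) (by decide)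
  · exact W_S_13_odd_3_0_C_3_231 13 2 rfl (by decide) (by decide) (by decide)
  · exact W_S_13_odd_3_1_C_4_432 13 3 rfl (by decide) (by decide) (by decide)
  · exact W_S_13_odd_3_2_C_5_233 13 4 rfl (by decide) (by decide) (by decide)
  · exact W_S_13_odd_2_3_S_0 13 5 rfl (by decide) (by decide) (by decide)
  · exact W_S_13_odd_3_0_C_3_231 13 6 rfl (by decide) (by decide) (by decide)
  · exact W_S_13_odd_3_1_C_4_432 13 7 rfl (by decide) (by decide) (by decide)
  · exact W_S_13_odd_3_2_C_5_233 13 8 rfl (by decide) (by decide) (by decide)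
  · exact W_S_13_odd_2_3_S_0 13 9 rfl (by decide) (by decide) (by decide)
  · exact W_S_13_run_5_2_S_3_231 13 10 rfl (by decide)
  · exact W_S_13_run_4_2_S_4_232 13 11 rfl (by decide)
  · exact W_S_13_run_4_3_S_5_233 13 12 rfl (by decide)
  · exact W_Fee_d0_run_0_0_S_0_16_0_1 13 13 (by decide) (by decide) (by decide)

theorem want_q14 (r : ℕ) (h : r ≤ 14) : Want 14 r := by
  interval_cases r
  · exact W_S_14_even_2_0_C_0 14 0 rfl (by decide) (by decide) (by decide)
  · exact W_S_14_even_3_1_S_0 14 1 rfl (by decide) (by decide) (by decide)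
  · exact W_Fee_d4_even_1_0_C_0_8_0_1 14 2 (by decide) (by decide) (by decide) (by decide) (by decide)
  · exact W_S_14_even_3_1_C_0 14 3 rfl (by decide) (by decide) (by decide)
  · exact W_S_14_even_2_0_C_0 14 4 rfl (by decide) (by decide) (by decide)
  · exact W_S_14_even_3_1_S_0 14 5 rfl (by decide) (by decide) (by decide)
  · exact W_Fee_d4_even_1_0_C_0_8_0_1 14 6 (by decide) (by decide) (by decide) (by decide) (by decide)
  · exact W_S_14_even_3_1_C_0 14 7 rfl (by decide) (by decide) (by decide)
  · exact W_S_14_even_2_0_C_0 14 8 rfl (by decide) (by decide) (by decide)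
  · exact W_S_14_run_7_2_S_0 14 9 rfl (by decide)
  · exact W_Fee_d4_even_1_0_C_0_8_0_1 14 10 (by decide) (by decide) (by decide) (by decide) (by decide)
  · exact W_S_14_run_6_3_S_0 14 11 rfl (by decide)
  · exact W_S_14_run_4_2_S_0 14 12 rfl (by decide)
  · exact W_S_14_run_4_3_S_0 14 13 rfl (by decide)
  · exact W_Fee_d0_run_0_0_S_0_16_0_1 14 14 (by decide) (by decide) (by decide)

theorem want_q15 (r : ℕ) (h : r ≤ 15) : Want 15 r := by
  interval_cases r
  · exact W_S_15_odd_4_0_S_5_231_242_253 15 0 rfl (by decide) (by decide) (by decide)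
  · exact W_Fa_odd_4_1_S_4_15_7_2_132 15 1 (by decide) (by decide) (by decide) (by decide) (by decide)
  · exact W_Fg_odd_3_0_S_3_15_3_4_251 15 2 (by decide) (by decide) (by decide) (by decide) (by decide)
  · exact W_Ft_d4_odd_3_3_C_0_15_7_2 15 3 (by decide) (by decide) (by decide) (by decide) (by decide)
  · exact W_S_15_odd_3_2_S_5_231_242_253 15 4 rfl (by decide) (by decide) (by decide)
  · exact W_Fa_odd_4_1_S_4_15_7_2_132 15 5 (by decide) (by decide) (by decide) (by decide) (by decide)
  · exact W_Fg_odd_3_0_S_3_15_3_4_251 15 6 (by decide) (by decide) (by decide) (by decide) (by decide)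
  · exact W_Ft_d4_odd_3_3_C_0_15_7_2 15 7 (by decide) (by decide) (by decide) (by decide) (by decide)
  · exact W_S_15_odd_3_2_S_5_231_242_253 15 8 rfl (by decide) (by decide) (by decide)
  · exact W_S_15_odd_3_1_C_4_232 15 9 rfl (by decide) (by decide) (by decide)
  · exact W_S_15_run_7_2_S_3_251 15 10 rfl (by decide)
  · exact W_Ft_d4_odd_3_3_C_0_15_7_2 15 11 (by decide) (by decide) (by decide) (by decide) (by decide)
  · exact W_S_15_run_5_2_S_5_231_242_253 15 12 rfl (by decide)
  · exact W_S_15_run_5_3_S_4_332 15 13 rfl (by decide)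
  · exact W_S_15_run_5_4_S_3_251 15 14 rfl (by decide)
  · exact W_Fee_d0_run_0_0_S_0_16_0_1 15 15 (by decide) (by decide) (by decide)

theorem want_q16 (r : ℕ) (h : r ≤ 16) : Want 16 r := by
  interval_cases r
  · exact W_Fee_d4_even_1_0_C_0_8_0_1 16 0 (by decide) (by decide) (by decide) (by decide) (by decide)
  · exact W_S_16_even_3_1_C_4_242 16 1 rfl (by decide) (by decide) (by decide)
  · exact W_Fee_C_even_2_0_C_0_16_0_2 16 2 (by decide) (by decide) (by decide) (by decide) (by decide)
  · exact W_S_16_even_3_1_S_4_231_242 16 3 rfl (by decide) (by decide) (by decide)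
  · exact W_Fee_d4_even_1_0_C_0_8_0_1 16 4 (by decide) (by decide) (by decide) (by decide) (by decide)
  · exact W_S_16_even_3_1_C_4_242 16 5 rfl (by decide) (by decide) (by decide)
  · exact W_Fee_C_even_2_0_C_0_16_0_2 16 6 (by decide) (by decide) (by decide) (by decide) (by decide)
  · exact W_S_16_even_3_1_S_4_231_242 16 7 rfl (by decide) (by decide) (by decide)
  · exact W_Fee_d4_even_1_0_C_0_8_0_1 16 8 (by decide) (by decide) (by decide) (by decide) (by decide)
  · exact W_S_16_even_3_1_C_4_242 16 9 rfl (by decide) (by decide) (by decide)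
  · exact W_Fee_C_even_2_0_C_0_16_0_2 16 10 (by decide) (by decide) (by decide) (by decide) (by decide)
  · exact W_S_16_run_7_2_S_4_231_242 16 11 rfl (by decide)
  · exact W_Fee_d4_even_1_0_C_0_8_0_1 16 12 (by decide) (by decide) (by decide) (by decide) (by decide)
  · exact W_S_16_run_5_2_S_4_242 16 13 rfl (by decide)
  · exact W_S_16_run_5_3_S_0 16 14 rfl (by decide)
  · exact W_S_16_run_5_4_S_4_231_242 16 15 rfl (by decide)
  · exact W_Fee_d0_run_0_0_S_0_16_0_1 16 16 (by decide) (by decide) (by decide)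

theorem want_q17 (r : ℕ) (h : r ≤ 17) : Want 17 r := by
  interval_cases r
  · exact W_S_17_odd_4_0_C_5_233 17 0 rfl (by decide) (by decide) (by decide)
  · exact W_Ft_odd_4_1_C_0_15_7_2 17 1 (by decide) (by decide) (by decide) (by decide) (by decide)
  · exact W_Fb_odd_3_0_C_3_17_5_4_131 17 2 (by decide) (by decide) (by decide) (by decide) (by decide)
  · exact W_Fa_d6_odd_4_3_C_4_17_7_2_232 17 3 (by decide) (by decide) (by decide) (by decide) (by decide)
  · exact W_Fc_d5_odd_3_4_S_5_17_9_4_333 17 4 (by decide) (by decide) (by decide) (by decide) (by decide)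
  · exact W_Ft_d4_odd_3_3_C_0_15_7_2 17 5 (by decide) (by decide) (by decide) (by decide) (by decide)
  · exact W_Fb_odd_3_0_C_3_17_5_4_131 17 6 (by decide) (by decide) (by decide) (by decide) (by decide)
  · exact W_Fa_d6_odd_4_3_C_4_17_7_2_232 17 7 (by decide) (by decide) (by decide) (by decide) (by decide)
  · exact W_Fc_d5_odd_3_4_S_5_17_9_4_333 17 8 (by decide) (by decide) (by decide) (by decide) (by decide)
  · exact W_Ft_d4_odd_3_3_C_0_15_7_2 17 9 (by decide) (by decide) (by decide) (by decide) (by decide)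
  · exact W_Fb_odd_3_0_C_3_17_5_4_131 17 10 (by decide) (by decide) (by decide) (by decide) (by decide)
  · exact W_Fa_d6_odd_4_3_C_4_17_7_2_232 17 11 (by decide) (by decide) (by decide) (by decide) (by decide)
  · exact W_Fc_d5_odd_3_4_S_5_17_9_4_333 17 12 (by decide) (by decide) (by decide) (by decide) (by decide)
  · exact W_Ft_d4_odd_3_3_C_0_15_7_2 17 13 (by decide) (by decide) (by decide) (by decide) (by decide)
  · exact W_S_17_run_5_2_S_3_231 17 14 rfl (by decide)
  · exact W_Fa_d2_run_5_3_S_4_17_7_2_232 17 15 (by decide) (by decide) (by decide)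
  · exact W_S_17_run_4_3_S_5_233 17 16 rfl (by decide)
  · exact W_Fee_d0_run_0_0_S_0_16_0_1 17 17 (by decide) (by decide) (by decide)

theorem want_q18 (r : ℕ) (h : r ≤ 18) : Want 18 r := by
  interval_cases r
  · exact W_Fee_C_even_2_0_C_0_16_0_2 18 0 (by decide) (by decide) (by decide) (by decide) (by decide)
  · exact W_Feo2_S_even_4_1_C_0_18_6_4 18 1 (by decide) (by decide) (by decide) (by decide) (by decide)
  · exact W_Fee_d4_even_1_0_C_0_8_0_1 18 2 (by decide) (by decide) (by decide) (by decide) (by decide)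
  · exact W_S_18_even_3_1_C_0 18 3 rfl (by decide) (by decide) (by decide)
  · exact W_Fee_C_even_2_0_C_0_16_0_2 18 4 (by decide) (by decide) (by decide) (by decide) (by decide)
  · exact W_Feo2_S_even_4_1_C_0_18_6_4 18 5 (by decide) (by decide) (by decide) (by decide) (by decide)
  · exact W_Fee_d4_even_1_0_C_0_8_0_1 18 6 (by decide) (by decide) (by decide) (by decide) (by decide)
  · exact W_Feo2_d3_even_3_5_C_0_18_6_4 18 7 (by decide) (by decide) (by decide) (by decide) (by decide)
  · exact W_Fee_C_even_2_0_C_0_16_0_2 18 8 (by decide) (by decide) (by decide) (by decide) (by decide)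
  · exact W_Feo2_S_even_4_1_C_0_18_6_4 18 9 (by decide) (by decide) (by decide) (by decide) (by decide)
  · exact W_Fee_d4_even_1_0_C_0_8_0_1 18 10 (by decide) (by decide) (by decide) (by decide) (by decide)
  · exact W_Feo2_d3_even_3_5_C_0_18_6_4 18 11 (by decide) (by decide) (by decide) (by decide) (by decide)
  · exact W_Fee_C_even_2_0_C_0_16_0_2 18 12 (by decide) (by decide) (by decide) (by decide) (by decide)
  · exact W_Feo2_d5_even_3_3_C_0_18_6_4 18 13 (by decide) (by decide) (by decide) (by decide) (by decide)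
  · exact W_Fee_d4_even_1_0_C_0_8_0_1 18 14 (by decide) (by decide) (by decide) (by decide) (by decide)
  · exact W_Feo2_d3_even_3_5_C_0_18_6_4 18 15 (by decide) (by decide) (by decide) (by decide) (by decide)
  · exact W_Fee_d2_run_5_3_S_0_18_6_4 18 16 (by decide) (by decide) (by decide)
  · exact W_Feo2_d1_run_4_3_S_0_18_6_4 18 17 (by decide) (by decide) (by decide)
  · exact W_Fee_d0_run_0_0_S_0_16_0_1 18 18 (by decide) (by decide) (by decide)

theorem want_q19 (r : ℕ) (h : r ≤ 19) : Want 19 r := by
  interval_cases r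
  · exact W_Ff_odd_4_0_S_5_19_7_4_331_342_353 19 0 (by decide) (by decide) (by decide) (by decide) (by decide)
  · exact W_Fa_odd_4_1_S_4_15_7_2_132 19 1 (by decide) (by decide) (by decide) (by decide) (by decide)
  · exact W_Fg_odd_3_0_S_3_15_3_4_251 19 2 (by decide) (by decide) (by decide) (by decide) (by decide)
  · exact W_Ft_d4_odd_3_3_C_0_15_7_2 19 3 (by decide) (by decide) (by decide) (by decide) (by decide)
  · exact W_Ff_d7_odd_4_2_C_5_19_7_4_231_242_253 19 4 (by decide) (by decide) (by decide) (by decide) (by decide)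
  · exact W_Fa_d6_odd_4_3_C_4_17_7_2_232 19 5 (by decide) (by decide) (by decide) (by decide) (by decide)
  · exact W_Fg_odd_3_0_S_3_15_3_4_251 19 6 (by decide) (by decide) (by decide) (by decide) (by decide)
  · exact W_Ft_d4_odd_3_3_C_0_15_7_2 19 7 (by decide) (by decide) (by decide) (by decide) (by decide)
  · exact W_Ff_d7_odd_4_2_C_5_19_7_4_231_242_253 19 8 (by decide) (by decide) (by decide) (by decide) (by decide)
  · exact W_Fa_d6_odd_4_3_C_4_17_7_2_232 19 9 (by decide) (by decide) (by decide) (by decide) (by decide)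
  · exact W_Fg_odd_3_0_S_3_15_3_4_251 19 10 (by decide) (by decide) (by decide) (by decide) (by decide)
  · exact W_Ft_d4_odd_3_3_C_0_15_7_2 19 11 (by decide) (by decide) (by decide) (by decide) (by decide)
  · exact W_Ff_d7_odd_4_2_C_5_19_7_4_231_242_253 19 12 (by decide) (by decide) (by decide) (by decide) (by decide)
  · exact W_Fa_d6_odd_4_3_C_4_17_7_2_232 19 13 (by decide) (by decide) (by decide) (by decide) (by decide)
  · exact W_S_19_run_7_2_S_3_351 19 14 rfl (by decide)
  · exact W_Ft_d4_odd_3_3_C_0_15_7_2 19 15 (by decide) (by decide) (by decide) (by decide) (by decide)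
  · exact W_Ff_d3_run_5_2_S_5_19_7_4_231_242_253 19 16 (by decide) (by decide) (by decide)
  · exact W_Fa_d2_run_5_3_S_4_17_7_2_232 19 17 (by decide) (by decide) (by decide)
  · exact W_Fg_d1_run_5_4_S_3_19_7_4_251 19 18 (by decide) (by decide) (by decide)
  · exact W_Fee_d0_run_0_0_S_0_16_0_1 19 19 (by decide) (by decide) (by decide)

theorem want_q20 (r : ℕ) (h : r ≤ 20) : Want 20 r := by
  interval_cases r
  · exact W_Fee_d4_even_1_0_C_0_8_0_1 20 0 (by decide) (by decide) (by decide) (by decide) (by decide)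
  · exact W_Fe_even_3_1_C_4_20_8_4_242 20 1 (by decide) (by decide) (by decide) (by decide) (by decide)
  · exact W_Fee_C_even_2_0_C_0_16_0_2 20 2 (by decide) (by decide) (by decide) (by decide) (by decide)
  · exact W_Fd_d5_even_3_3_C_4_20_8_4_231_242 20 3 (by decide) (by decide) (by decide) (by decide) (by decide)
  · exact W_Fee_d4_even_1_0_C_0_8_0_1 20 4 (by decide) (by decide) (by decide) (by decide) (by decide)
  · exact W_Fe_even_3_1_C_4_20_8_4_242 20 5 (by decide) (by decide) (by decide) (by decide) (by decide)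
  · exact W_Fee_C_even_2_0_C_0_16_0_2 20 6 (by decide) (by decide) (by decide) (by decide) (by decide)
  · exact W_Fd_d5_even_3_3_C_4_20_8_4_231_242 20 7 (by decide) (by decide) (by decide) (by decide) (by decide)
  · exact W_Fee_d4_even_1_0_C_0_8_0_1 20 8 (by decide) (by decide) (by decide) (by decide) (by decide)
  · exact W_Fe_even_3_1_C_4_20_8_4_242 20 9 (by decide) (by decide) (by decide) (by decide) (by decide)
  · exact W_Fee_C_even_2_0_C_0_16_0_2 20 10 (by decide) (by decide) (by decide) (by decide) (by decide)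
  · exact W_Fd_d5_even_3_3_C_4_20_8_4_231_242 20 11 (by decide) (by decide) (by decide) (by decide) (by decide)
  · exact W_Fee_d4_even_1_0_C_0_8_0_1 20 12 (by decide) (by decide) (by decide) (by decide) (by decide)
  · exact W_Fe_even_3_1_C_4_20_8_4_242 20 13 (by decide) (by decide) (by decide) (by decide) (by decide)
  · exact W_Fee_C_even_2_0_C_0_16_0_2 20 14 (by decide) (by decide) (by decide) (by decide) (by decide)
  · exact W_Fd_d5_even_3_3_C_4_20_8_4_231_242 20 15 (by decide) (by decide) (by decide) (by decide) (by decide)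
  · exact W_Fee_d4_even_1_0_C_0_8_0_1 20 16 (by decide) (by decide) (by decide) (by decide) (by decide)
  · exact W_Fe_d3_run_6_3_S_4_20_8_4_242 20 17 (by decide) (by decide) (by decide)
  · exact W_Fee_d2_run_5_3_S_0_20_8_4 20 18 (by decide) (by decide) (by decide)
  · exact W_Fd_d1_run_6_5_S_4_20_8_4_231_242 20 19 (by decide) (by decide) (by decide)
  · exact W_Fee_d0_run_0_0_S_0_16_0_1 20 20 (by decide) (by decide) (by decide)

theorem want_q21 (r : ℕ) (h : r ≤ 21) : Want 21 r := by
  interval_cases r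
  · exact W_Fc_odd_4_0_C_5_21_9_4_333 21 0 (by decide) (by decide) (by decide) (by decide) (by decide)
  · exact W_Ft_odd_4_1_C_0_15_7_2 21 1 (by decide) (by decide) (by decide) (by decide) (by decide)
  · exact W_Fb_odd_3_0_C_3_17_5_4_131 21 2 (by decide) (by decide) (by decide) (by decide) (by decide)
  · exact W_Fa_d6_odd_4_3_C_4_17_7_2_232 21 3 (by decide) (by decide) (by decide) (by decide) (by decide)
  · exact W_Fc_d5_odd_3_4_S_5_17_9_4_333 21 4 (by decide) (by decide) (by decide) (by decide) (by decide)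
  · exact W_Ft_d4_odd_3_3_C_0_15_7_2 21 5 (by decide) (by decide) (by decide) (by decide) (by decide)
  · exact W_Fb_odd_3_0_C_3_17_5_4_131 21 6 (by decide) (by decide) (by decide) (by decide) (by decide)
  · exact W_Fa_d6_odd_4_3_C_4_17_7_2_232 21 7 (by decide) (by decide) (by decide) (by decide) (by decide)
  · exact W_Fc_d5_odd_3_4_S_5_17_9_4_333 21 8 (by decide) (by decide) (by decide) (by decide) (by decide)
  · exact W_Ft_d4_odd_3_3_C_0_15_7_2 21 9 (by decide) (by decide) (by decide) (by decide) (by decide)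
  · exact W_Fb_odd_3_0_C_3_17_5_4_131 21 10 (by decide) (by decide) (by decide) (by decide) (by decide)
  · exact W_Fa_d6_odd_4_3_C_4_17_7_2_232 21 11 (by decide) (by decide) (by decide) (by decide) (by decide)
  · exact W_Fc_d5_odd_3_4_S_5_17_9_4_333 21 12 (by decide) (by decide) (by decide) (by decide) (by decide)
  · exact W_Ft_d4_odd_3_3_C_0_15_7_2 21 13 (by decide) (by decide) (by decide) (by decide) (by decide)
  · exact W_Fb_odd_3_0_C_3_17_5_4_131 21 14 (by decide) (by decide) (by decide) (by decide) (by decide)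
  · exact W_Fa_d6_odd_4_3_C_4_17_7_2_232 21 15 (by decide) (by decide) (by decide) (by decide) (by decide)
  · exact W_Fc_d5_odd_3_4_S_5_17_9_4_333 21 16 (by decide) (by decide) (by decide) (by decide) (by decide)
  · exact W_Ft_d4_odd_3_3_C_0_15_7_2 21 17 (by decide) (by decide) (by decide) (by decide) (by decide)
  · exact W_Fb_d3_run_6_3_S_3_21_9_4_231 21 18 (by decide) (by decide) (by decide)
  · exact W_Fa_d2_run_5_3_S_4_17_7_2_232 21 19 (by decide) (by decide) (by decide)
  · exact W_Fc_d1_run_5_4_S_5_21_9_4_233 21 20 (by decide) (by decide) (by decide)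
  · exact W_Fee_d0_run_0_0_S_0_16_0_1 21 21 (by decide) (by decide) (by decide)

theorem want_q22 (r : ℕ) (h : r ≤ 22) : Want 22 r := by
  interval_cases r
  · exact W_Fee_C_even_2_0_C_0_16_0_2 22 0 (by decide) (by decide) (by decide) (by decide) (by decide)
  · exact W_Feo2_S_even_4_1_C_0_18_6_4 22 1 (by decide) (by decide) (by decide) (by decide) (by decide)
  · exact W_Fee_d4_even_1_0_C_0_8_0_1 22 2 (by decide) (by decide) (by decide) (by decide) (by decide)
  · exact W_Feo2_C_even_3_1_C_0_22_14_4 22 3 (by decide) (by decide) (by decide) (by decide) (by decide)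
  · exact W_Fee_C_even_2_0_C_0_16_0_2 22 4 (by decide) (by decide) (by decide) (by decide) (by decide)
  · exact W_Feo2_S_even_4_1_C_0_18_6_4 22 5 (by decide) (by decide) (by decide) (by decide) (by decide)
  · exact W_Fee_d4_even_1_0_C_0_8_0_1 22 6 (by decide) (by decide) (by decide) (by decide) (by decide)
  · exact W_Feo2_C_even_3_1_C_0_22_14_4 22 7 (by decide) (by decide) (by decide) (by decide) (by decide)
  · exact W_Fee_C_even_2_0_C_0_16_0_2 22 8 (by decide) (by decide) (by decide) (by decide) (by decide)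
  · exact W_Feo2_S_even_4_1_C_0_18_6_4 22 9 (by decide) (by decide) (by decide) (by decide) (by decide)
  · exact W_Fee_d4_even_1_0_C_0_8_0_1 22 10 (by decide) (by decide) (by decide) (by decide) (by decide)
  · exact W_Feo2_C_even_3_1_C_0_22_14_4 22 11 (by decide) (by decide) (by decide) (by decide) (by decide)
  · exact W_Fee_C_even_2_0_C_0_16_0_2 22 12 (by decide) (by decide) (by decide) (by decide) (by decide)
  · exact W_Feo2_S_even_4_1_C_0_18_6_4 22 13 (by decide) (by decide) (by decide) (by decide) (by decide)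
  · exact W_Fee_d4_even_1_0_C_0_8_0_1 22 14 (by decide) (by decide) (by decide) (by decide) (by decide)
  · exact W_Feo2_C_even_3_1_C_0_22_14_4 22 15 (by decide) (by decide) (by decide) (by decide) (by decide)
  · exact W_Fee_C_even_2_0_C_0_16_0_2 22 16 (by decide) (by decide) (by decide) (by decide) (by decide)
  · exact W_Feo2_d5_even_3_3_C_0_18_6_4 22 17 (by decide) (by decide) (by decide) (by decide) (by decide)
  · exact W_Fee_d4_even_1_0_C_0_8_0_1 22 18 (by decide) (by decide) (by decide) (by decide) (by decide)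
  · exact W_Feo2_d3_even_3_5_C_0_18_6_4 22 19 (by decide) (by decide) (by decide) (by decide) (by decide)
  · exact W_Fee_d2_run_5_3_S_0_18_6_4 22 20 (by decide) (by decide) (by decide)
  · exact W_Feo2_d1_run_4_3_S_0_18_6_4 22 21 (by decide) (by decide) (by decide)
  · exact W_Fee_d0_run_0_0_S_0_16_0_1 22 22 (by decide) (by decide) (by decide)

theorem want_big (q r : ℕ) (hq : 23 ≤ q) (hr : r ≤ q) : Want q r := by
  have hq4 : q % 4 = 0 ∨ q % 4 = 1 ∨ q % 4 = 2 ∨ q % 4 = 3 := by omega
  have hr4 : r % 4 = 0 ∨ r % 4 = 1 ∨ r % 4 = 2 ∨ r % 4 = 3 := by omega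
  rcases hq4 with hq4 | hq4 | hq4 | hq4 <;> rcases hr4 with hr4 | hr4 | hr4 | hr4
  · have h : (0 ≤ r ∧ r + 4 ≤ q) ∨ r + 0 = q := by omega
    rcases h with h | h
    · exact W_Fee_d4_even_1_0_C_0_8_0_1 q r (by omega) (by omega) (by omega) (by omega) (by omega)
    · exact W_Fee_d0_run_0_0_S_0_16_0_1 q r (by omega) (by omega) (by omega)
  · have h : (1 ≤ r ∧ r + 7 ≤ q) ∨ r + 3 = q := by omega
    rcases h with h | h
    · exact W_Fe_even_3_1_C_4_20_8_4_242 q r (by omega) (by omega) (by omega) (by omega) (by omega)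
    · exact W_Fe_d3_run_6_3_S_4_20_8_4_242 q r (by omega) (by omega) (by omega)
  · have h : (0 ≤ r ∧ r + 6 ≤ q) ∨ r + 2 = q := by omega
    rcases h with h | h
    · exact W_Fee_C_even_2_0_C_0_16_0_2 q r (by omega) (by omega) (by omega) (by omega) (by omega)
    · exact W_Fee_d2_run_5_3_S_0_20_8_4 q r (by omega) (by omega) (by omega)
  · have h : (3 ≤ r ∧ r + 5 ≤ q) ∨ r + 1 = q := by omega
    rcases h with h | h
    · exact W_Fd_d5_even_3_3_C_4_20_8_4_231_242 q r (by omega) (by omega) (by omega) (by omega) (by omega)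
    · exact W_Fd_d1_run_6_5_S_4_20_8_4_231_242 q r (by omega) (by omega) (by omega)
  · have h : (4 ≤ r ∧ r + 5 ≤ q) ∨ r + 1 = q ∨ (0 ≤ r ∧ r + 9 ≤ q) := by omega
    rcases h with h | h | h
    · exact W_Fc_d5_odd_3_4_S_5_17_9_4_333 q r (by omega) (by omega) (by omega) (by omega) (by omega)
    · exact W_Fc_d1_run_5_4_S_5_21_9_4_233 q r (by omega) (by omega) (by omega)
    · exact W_Fc_odd_4_0_C_5_21_9_4_333 q r (by omega) (by omega) (by omega) (by omega) (by omega)
  · have h : (3 ≤ r ∧ r + 4 ≤ q) ∨ r + 0 = q ∨ (1 ≤ r ∧ r + 8 ≤ q) := by omega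
    rcases h with h | h | h
    · exact W_Ft_d4_odd_3_3_C_0_15_7_2 q r (by omega) (by omega) (by omega) (by omega) (by omega)
    · exact W_Fee_d0_run_0_0_S_0_16_0_1 q r (by omega) (by omega) (by omega)
    · exact W_Ft_odd_4_1_C_0_15_7_2 q r (by omega) (by omega) (by omega) (by omega) (by omega)
  · have h : (0 ≤ r ∧ r + 7 ≤ q) ∨ r + 3 = q := by omega
    rcases h with h | h
    · exact W_Fb_odd_3_0_C_3_17_5_4_131 q r (by omega) (by omega) (by omega) (by omega) (by omega)
    · exact W_Fb_d3_run_6_3_S_3_21_9_4_231 q r (by omega) (by omega) (by omega)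
  · have h : (3 ≤ r ∧ r + 6 ≤ q) ∨ r + 2 = q := by omega
    rcases h with h | h
    · exact W_Fa_d6_odd_4_3_C_4_17_7_2_232 q r (by omega) (by omega) (by omega) (by omega) (by omega)
    · exact W_Fa_d2_run_5_3_S_4_17_7_2_232 q r (by omega) (by omega) (by omega)
  · have h : (0 ≤ r ∧ r + 6 ≤ q) ∨ r + 2 = q := by omega
    rcases h with h | h
    · exact W_Fee_C_even_2_0_C_0_16_0_2 q r (by omega) (by omega) (by omega) (by omega) (by omega)
    · exact W_Fee_d2_run_5_3_S_0_18_6_4 q r (by omega) (by omega) (by omega)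
  · have h : (1 ≤ r ∧ r + 9 ≤ q) ∨ r + 1 = q ∨ (3 ≤ r ∧ r + 5 ≤ q) := by omega
    rcases h with h | h | h
    · exact W_Feo2_S_even_4_1_C_0_18_6_4 q r (by omega) (by omega) (by omega) (by omega) (by omega)
    · exact W_Feo2_d1_run_4_3_S_0_18_6_4 q r (by omega) (by omega) (by omega)
    · exact W_Feo2_d5_even_3_3_C_0_18_6_4 q r (by omega) (by omega) (by omega) (by omega) (by omega)
  · have h : (0 ≤ r ∧ r + 4 ≤ q) ∨ r + 0 = q := by omega
    rcases h with h | h
    · exact W_Fee_d4_even_1_0_C_0_8_0_1 q r (by omega) (by omega) (by omega) (by omega) (by omega)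
    · exact W_Fee_d0_run_0_0_S_0_16_0_1 q r (by omega) (by omega) (by omega)
  · have h : (1 ≤ r ∧ r + 7 ≤ q) ∨ (5 ≤ r ∧ r + 3 ≤ q) := by omega
    rcases h with h | h
    · exact W_Feo2_C_even_3_1_C_0_22_14_4 q r (by omega) (by omega) (by omega) (by omega) (by omega)
    · exact W_Feo2_d3_even_3_5_C_0_18_6_4 q r (by omega) (by omega) (by omega) (by omega) (by omega)
  · have h : (2 ≤ r ∧ r + 7 ≤ q) ∨ r + 3 = q ∨ (0 ≤ r ∧ r + 11 ≤ q) := by omega
    rcases h with h | h | h
    · exact W_Ff_d7_odd_4_2_C_5_19_7_4_231_242_253 q r (by omega) (by omega) (by omega) (by omega) (by omega)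
    · exact W_Ff_d3_run_5_2_S_5_19_7_4_231_242_253 q r (by omega) (by omega) (by omega)
    · exact W_Ff_odd_4_0_S_5_19_7_4_331_342_353 q r (by omega) (by omega) (by omega) (by omega) (by omega)
  · have h : (3 ≤ r ∧ r + 6 ≤ q) ∨ r + 2 = q ∨ (1 ≤ r ∧ r + 10 ≤ q) := by omega
    rcases h with h | h | h
    · exact W_Fa_d6_odd_4_3_C_4_17_7_2_232 q r (by omega) (by omega) (by omega) (by omega) (by omega)
    · exact W_Fa_d2_run_5_3_S_4_17_7_2_232 q r (by omega) (by omega) (by omega)
    · exact W_Fa_odd_4_1_S_4_15_7_2_132 q r (by omega) (by omega) (by omega) (by omega) (by omega)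
  · have h : (0 ≤ r ∧ r + 9 ≤ q) ∨ r + 1 = q ∨ r + 5 = q := by omega
    rcases h with h | h | h
    · exact W_Fg_odd_3_0_S_3_15_3_4_251 q r (by omega) (by omega) (by omega) (by omega) (by omega)
    · exact W_Fg_d1_run_5_4_S_3_19_7_4_251 q r (by omega) (by omega) (by omega)
    · exact W_Fg_d5_run_7_2_S_3_23_7_4 q r (by omega) (by omega) (by omega)
  · have h : (3 ≤ r ∧ r + 4 ≤ q) ∨ r + 0 = q := by omega
    rcases h with h | h
    · exact W_Ft_d4_odd_3_3_C_0_15_7_2 q r (by omega) (by omega) (by omega) (by omega) (by omega)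
    · exact W_Fee_d0_run_0_0_S_0_16_0_1 q r (by omega) (by omega) (by omega)

theorem want_all (q r : ℕ) (hq : 2 ≤ q) (hr : r ≤ q) : Want q r := by
  rcases Nat.lt_or_ge q 23 with h | h
  · interval_cases q
    · exact want_q2 r hr
    · exact want_q3 r hr
    · exact want_q4 r hr
    · exact want_q5 r hr
    · exact want_q6 r hr
    · exact want_q7 r hr
    · exact want_q8 r hr
    · exact want_q9 r hr
    · exact want_q10 r hr
    · exact want_q11 r hr
    · exact want_q12 r hr
    · exact want_q13 r hr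
    · exact want_q14 r hr
    · exact want_q15 r hr
    · exact want_q16 r hr
    · exact want_q17 r hr
    · exact want_q18 r hr
    · exact want_q19 r hr
    · exact want_q20 r hr
    · exact want_q21 r hr
    · exact want_q22 r hr
  · exact want_big q r h hr

end Pool.Agent.KS6_69.GT
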