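import Pool.Agent.KS6_69.GT.Inst
import Pool.Agent.KS6_69.GT.Ext
import Pool.Agent.KS6_69.GT.ClassThms
import Pool.Agent.KS6_69.GT.BlkChk
import Pool.Agent.KS6_69.GT.EmbChk

set_option autoImplicit false

namespace Pool.Agent.KS6_69.GT

theorem fam_ext {nc : ℕ} (p : Pat nc) (R q1 m P : ℕ) (hPl : p.per.length = P) (hP : 0 < P) (hPR : P ≤ R)
    (hm : p.zone.length + 4 * R + 2 * P ≤ q1 + m * P) (hlp : p.lp R = true)
    (h : ((List.range (m + 1)).all fun t => p.loc R (q1 + t * P) && p.conn (q1 + t * P)) = true) :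
    ∀ t, p.loc R (q1 + t * P) = true ∧ p.conn (q1 + t * P) = true := by
  subst hPl
  refine family p R q1 m hP hPR hm hlp ?_
  intro t ht
  rw [List.all_eq_true] at h
  have := h t (List.mem_range.2 (by omega))
  simpa using this

theorem sp_fam {nc : ℕ} (p : Pat nc) (S : SpD nc) (R q1 m P : ℕ) (hPl : p.per.length = P) (hP : 0 < P)
    (hi : S.i0 + R < q1 + m * P) (hz : p.zone.length + R ≤ q1 + m * P + S.i0)
    (h : ((List.range (m + 1)).all fun t => S.chk R (q1 + t * P) (p.acc (q1 + t * P) S.i0)) = true) :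
    ∀ t, S.chk R (q1 + t * P) (p.acc (q1 + t * P) S.i0) = true := by
  subst hPl
  rw [List.all_eq_true] at h
  have h' : ∀ t ≤ m, S.chk R (q1 + t * p.per.length) (p.acc (q1 + t * p.per.length) S.i0) = true :=
    fun t ht => h t (List.mem_range.2 (by omega))
  intro t
  rcases Nat.le_total t m with ht | ht
  · exact h' t ht
  · obtain ⟨k, rfl⟩ := Nat.exists_eq_add_of_le ht
    induction k with
    | zero => exact h' m le_rfl
    | succ k ih =>
      have e : q1 + (m + (k + 1)) * p.per.length = q1 + (m + k) * p.per.length + p.per.length := by ring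
      have e2 : q1 + (m + k) * p.per.length = q1 + m * p.per.length + k * p.per.length := by ring
      rw [e]
      refine sp_ext p S R _ hP ?_ ?_ (ih (by omega))
      · rw [e2]; exact lt_of_lt_of_le hi (Nat.le_add_right _ _)
      · rw [e2]; have := Nat.zero_le (k * p.per.length); omega

theorem blk_fam (m n0 : ℕ) (hm : 1 ≤ m) (offs : List ℤ) (pz : ℕ) (h0 : 0 < pz) (h1 : pz + 1 < n0)
    (ho : ∀ o ∈ offs, (0 < o ∧ o < pz) ∨ (o < -1 ∧ (pz : ℤ) < n0 + o)) (h : Blk m n0 offs) :
    ∀ n, n % 4 = n0 % 4 → n0 ≤ n → Blk m n offs := by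
  have key : ∀ t, Blk m (n0 + 4 * t) offs := by
    intro t
    induction t with
    | zero => exact h
    | succ t ih =>
      have e : n0 + 4 * (t + 1) = n0 + 4 * t + 4 := by ring
      rw [e]
      refine Blk_grow m _ hm offs pz h0 (by omega) ?_ ih
      intro o ho'
      rcases ho o ho' with h2 | ⟨h2, h3⟩
      · exact Or.inl h2
      · refine Or.inr ⟨h2, ?_⟩
        push_cast
        omega
  intro n hn hle
  have e : n = n0 + 4 * ((n - n0) / 4) := by omega
  rw [e]
  exact key _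

theorem tmod (q r : ℕ) (hq : 2 ≤ q) (h : (q + r) % 4 = 2 ∨ q % 4 = 2 ∨ (q % 2 = 0 ∧ r % 2 = 0)) :
    (q - 2) * (q + r - 2) % 4 = 0 := by
  rcases h with h | h | ⟨h, h'⟩
  · have : (q + r - 2) % 4 = 0 := by omega
    rw [Nat.mul_mod, this]; simp
  · have : (q - 2) % 4 = 0 := by omega
    rw [Nat.mul_mod, this]; simp
  · obtain ⟨a, ha⟩ : ∃ a, q - 2 = 2 * a := ⟨(q - 2) / 2, by omega⟩
    obtain ⟨b, hb⟩ : ∃ b, q + r - 2 = 2 * b := ⟨(q + r - 2) / 2, by omega⟩
    rw [ha, hb]
    have : 2 * a * (2 * b) = 4 * (a * b) := by ring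
    rw [this]; simp

end Pool.Agent.KS6_69.GT
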